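import Mathlib

set_option autoImplicit false

/-!
# MP_a33b01_co: definitions

* the operations `Del` and `DelSave` (the relation `Removes`), and the total gain `Wg`;
* triangulations of the sphere, given by their sets of faces (`Sph`), where a face is a set of
  three vertices, with the homological description of the sphere: a set of faces in which every
  edge lies in an even number of faces is empty or everything, and every even set of edges is the
  boundary of a set of faces;
* the states of the induction (`St`) and the conclusion (`Concl`).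
-/

namespace Pool.Agent.Lib.MP_a33b01_co

open Classical

/-! ### The operations -/

/-- `Removes G S f L`: all the vertices of `S` can be removed from `G[S]`, one after another, by
legal operations `Del` and `DelSave`, starting from the function `f`, and the availabilities of
the operations are the members of the list `L`. -/
inductive Removes {V : Type} (G : SimpleGraph V) : Finset V → (V → ℕ) → List ℕ → Prop
  | nil (f : V → ℕ) : Removes G ∅ f []
  | del (S : Finset V) (f : V → ℕ) (v : V) (L : List ℕ) (hv : v ∈ S)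
      (hl : ∀ u ∈ S, G.Adj v u → 1 ≤ f u)
      (h : Removes G (S.erase v) (fun u => if G.Adj v u then f u - 1 else f u) L) :
      Removes G S f ((f v + 1) :: L)
  | save (S : Finset V) (f : V → ℕ) (v w : V) (L : List ℕ) (hv : v ∈ S) (hw : w ∈ S)
      (hvw : G.Adj v w) (hf : f w < f v) (hl : ∀ u ∈ S, G.Adj v u → u ≠ w → 1 ≤ f u)
      (h : Removes G (S.erase v) (fun u => if G.Adj v u ∧ u ≠ w then f u - 1 else f u) L) :
      Removes G S f ((f v - f w) :: L)

/-- `G[S]` can be removed legally from `f` with total gain (sum of the availabilities minus one)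
at least `X`. -/
def Wg {V : Type} (G : SimpleGraph V) (S : Finset V) (f : V → ℕ) (X : ℕ) : Prop :=
  ∃ L, Removes G S f L ∧ X ≤ (L.map fun a => a - 1).sum

/-! ### Triangulations of the sphere -/

/-- the number of members of `H` which contain `x` and `y`. -/
noncomputable def cn {V : Type} (H : Finset (Finset V)) (x y : V) : ℕ :=
  (H.filter fun t => x ∈ t ∧ y ∈ t).card

/-- the graph of `F`: two vertices are adjacent if they lie in a common face. -/
def sk {V : Type} (F : Finset (Finset V)) : SimpleGraph V where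
  Adj x y := x ≠ y ∧ ∃ t ∈ F, x ∈ t ∧ y ∈ t
  symm := ⟨fun _ _ h => ⟨h.1.symm, h.2.imp fun _ ht => ⟨ht.1, ht.2.2, ht.2.1⟩⟩⟩
  loopless := ⟨fun _ h => h.1 rfl⟩

/-- the vertices of `F`. -/
noncomputable def supp {V : Type} (F : Finset (Finset V)) : Finset V := F.biUnion id

/-- every vertex has even degree. -/
def EvenG {V : Type} (Z : SimpleGraph V) : Prop := ∀ v, Even (Z.neighborSet v).ncard

/-- `F` is the set of faces of a triangulation of the sphere. -/
structure Sph {V : Type} (F : Finset (Finset V)) : Prop where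
  card : ∀ t ∈ F, t.card = 3
  two : ∀ x y, (sk F).Adj x y → cn F x y = 2
  conn : ∀ H ⊆ F, (∀ x y, x ≠ y → Even (cn H x y)) → H = ∅ ∨ H = F
  bd : ∀ Z : SimpleGraph V, Z ≤ sk F → EvenG Z →
    ∃ H ⊆ F, ∀ x y, x ≠ y → (Odd (cn H x y) ↔ Z.Adj x y)

/-- every triangle is a face. -/
def NoSep {V : Type} (F : Finset (Finset V)) : Prop :=
  ∀ x y z, (sk F).Adj x y → (sk F).Adj y z → (sk F).Adj x z → ({x, y, z} : Finset V) ∈ F

/-- the degree of a vertex. -/
noncomputable def dg {V : Type} (F : Finset (Finset V)) (v : V) : ℕ :=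
  ((supp F).filter fun u => (sk F).Adj v u).card

/-- `F` is cut along a separating triangle `Z` into `F₁` and `F₂`. -/
structure CutT {V : Type} (F F₁ F₂ : Finset (Finset V)) (Z : Finset V) : Prop where
  s1 : Sph F₁
  s2 : Sph F₂
  un : supp F₁ ∪ supp F₂ = supp F
  inter : supp F₁ ∩ supp F₂ = Z
  ne1 : ∃ v ∈ supp F₁, v ∉ Z
  ne2 : ∃ v ∈ supp F₂, v ∉ Z
  adj1 : ∀ x y, (sk F₁).Adj x y ↔ x ∈ supp F₁ ∧ y ∈ supp F₁ ∧ (sk F).Adj x y
  adj2 : ∀ x y, (sk F₂).Adj x y ↔ x ∈ supp F₂ ∧ y ∈ supp F₂ ∧ (sk F).Adj x y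
  no : ∀ x y, x ∈ supp F₁ → x ∉ Z → (sk F).Adj x y → y ∈ supp F₁
  no' : ∀ x y, x ∈ supp F₂ → x ∉ Z → (sk F).Adj x y → y ∈ supp F₂

/-- `F` is cut along the 4-cycle `a b c d` into `F₁` and `F₂`, and the chord `a c` is added to both
sides. -/
structure CutQ {V : Type} (F F₁ F₂ : Finset (Finset V)) (a b c d : V) : Prop where
  s1 : Sph F₁
  s2 : Sph F₂
  un : supp F₁ ∪ supp F₂ = supp F
  inter : supp F₁ ∩ supp F₂ = {a, b, c, d}
  ne1 : ∃ v ∈ supp F₁, v ∉ ({a, b, c, d} : Finset V)
  ne2 : ∃ v ∈ supp F₂, v ∉ ({a, b, c, d} : Finset V)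
  adj1 : ∀ x y, (sk F₁).Adj x y ↔ x ∈ supp F₁ ∧ y ∈ supp F₁ ∧
    ((sk F).Adj x y ∨ (x = a ∧ y = c) ∨ (x = c ∧ y = a))
  adj2 : ∀ x y, (sk F₂).Adj x y ↔ x ∈ supp F₂ ∧ y ∈ supp F₂ ∧
    ((sk F).Adj x y ∨ (x = a ∧ y = c) ∨ (x = c ∧ y = a))
  no : ∀ x y, x ∈ supp F₁ → x ∉ ({a, b, c, d} : Finset V) → (sk F).Adj x y → y ∈ supp F₁
  no' : ∀ x y, x ∈ supp F₂ → x ∉ ({a, b, c, d} : Finset V) → (sk F).Adj x y → y ∈ supp F₂
  fb1 : ({a, b, c} : Finset V) ∈ F₁
  fd1 : ({a, d, c} : Finset V) ∈ F₁
  fb2 : ({a, b, c} : Finset V) ∈ F₂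
  fd2 : ({a, d, c} : Finset V) ∈ F₂
  up1 : ∀ t ∈ F, ∀ v ∈ t, v ∈ supp F₁ → v ∉ ({a, b, c, d} : Finset V) → t ∈ F₁
  up2 : ∀ t ∈ F, ∀ v ∈ t, v ∈ supp F₂ → v ∉ ({a, b, c, d} : Finset V) → t ∈ F₂

/-- `F'` arises from `F` by deleting the vertices of `X` and joining `o` to their neighbours. -/
structure Dl {V : Type} (F : Finset (Finset V)) (o : V) (X : Finset V) (F' : Finset (Finset V)) :
    Prop where
  s : Sph F'
  oX : o ∉ X
  sp : supp F' = supp F \ X
  adj : ∀ u v, (sk F').Adj u v ↔ u ≠ v ∧ u ∉ X ∧ v ∉ X ∧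
    ((sk F).Adj u v ∨ (u = o ∧ ∃ x ∈ X, (sk F).Adj x v) ∨ (v = o ∧ ∃ x ∈ X, (sk F).Adj x u))

/-! ### The states of the induction -/

/-- the load of `u`: one if `u ∈ A`, plus the number of neighbours in `D`. -/
noncomputable def ld {V : Type} (F : Finset (Finset V)) (A D : Finset V) (u : V) : ℕ :=
  (if u ∈ A then 1 else 0) + (D.filter fun d => (sk F).Adj u d).card

/-- the function of a state: the set `D` has been deleted and `A` has lost one more. -/
noncomputable def fv {V : Type} (F : Finset (Finset V)) (A D : Finset V) (u : V) : ℕ :=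
  4 - ld F A D u

/-- the deleted vertices. -/
noncomputable def DD {V : Type} (o p m q : V) : Finset V := {o, p, m, q}

/-- the remaining vertices. -/
noncomputable def SS {V : Type} (F : Finset (Finset V)) (o p m q : V) : Finset V :=
  supp F \ DD o p m q

/-- the remaining outer vertices. -/
noncomputable def OO {V : Type} (F : Finset (Finset V)) (o p m q : V) : Finset V :=
  (supp F).filter fun u => (sk F).Adj o u ∧ u ∉ DD o p m q

/-- A state. The vertices `o, p, m, q` have been deleted; here `o p m` and `o m q` are triangles,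
or `m = q` and `o p q` is a triangle. The vertices of `A` are neighbours of `o`. -/
structure St {V : Type} (F : Finset (Finset V)) (o p m q : V) (A : Finset V) : Prop where
  sph : Sph F
  op : (sk F).Adj o p
  om : (sk F).Adj o m
  oq : (sk F).Adj o q
  pm : (sk F).Adj p m
  mq : m = q ∨ (sk F).Adj m q
  pq : p ≠ q
  Ao : ∀ a ∈ A, (sk F).Adj o a
  AD : ∀ a ∈ A, a ∉ DD o p m q
  ind : ∀ a ∈ A, ∀ b ∈ A, ¬ (sk F).Adj a b
  exc : m ≠ q → ∀ a ∈ A, ¬ ((sk F).Adj a p ∧ (sk F).Adj a m ∧ (sk F).Adj a q)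

/-- the constant of a state. -/
noncomputable def kp {V : Type} (m q : V) : ℕ := if m = q then 0 else 6

/-- the conclusion for a state. -/
def Concl {V : Type} (F : Finset (Finset V)) (o p m q : V) (A : Finset V) : Prop :=
  ∃ X, Wg (sk F) (SS F o p m q) (fv F A (DD o p m q)) X ∧
    (SS F o p m q).card + 2 * (OO F o p m q).card ≤ 13 * X + kp m q + 5 * A.card

/-- the induction hypothesis: the conclusion holds for all states with fewer than `n` vertices. -/
def IH (V : Type) (n : ℕ) : Prop :=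
  ∀ (F : Finset (Finset V)) (o p m q : V) (A : Finset V), (supp F).card < n →
    St F o p m q A → Concl F o p m q A

/-- The situation near the end `p` of the deleted path, when no reduction applies. -/
structure Ctx {V : Type} (F : Finset (Finset V)) (o p m q : V) (A : Finset V) (a b c z : V) :
    Prop where
  st : St F o p m q A
  ns : NoSep F
  c5 : 5 ≤ (supp F).card
  pnq : m ≠ q → ¬ (sk F).Adj p q
  ih : IH V (supp F).card
  r6 : ∀ u, (sk F).Adj o u → u ∉ DD o p m q → u ∉ A → 5 ≤ dg F u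
  n7 : ∀ x u y, (sk F).Adj o x → (sk F).Adj o y → (m ≠ q → x ≠ m ∧ y ≠ m) → x ≠ y →
    ¬ (sk F).Adj x y → u ≠ o → ¬ (sk F).Adj o u → (sk F).Adj u x → (sk F).Adj u y →
    ∃ w ∈ A, (sk F).Adj w x ∧ (sk F).Adj w u ∧ (sk F).Adj w y
  opa : ({o, p, a} : Finset V) ∈ F
  am : a ≠ m
  oab : ({o, a, b} : Finset V) ∈ F
  bp : b ≠ p
  obc : ({o, b, c} : Finset V) ∈ F
  ca : c ≠ a
  abz : ({a, b, z} : Finset V) ∈ F
  zo : z ≠ o
  bD : b ∉ DD o p m q

end Pool.Agent.Lib.MP_a33b01_co
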