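import Mathlib
import Pool.Agent.Lib.MP_a33b01_co.Defs

set_option autoImplicit false

/-!
# MP_a33b01_co: basic facts about triangulations of the sphere
-/

namespace Pool.Agent.Lib.MP_a33b01_co

open Classical

variable {V : Type}

theorem mem_supp {F : Finset (Finset V)} {v : V} : v ∈ supp F ↔ ∃ t ∈ F, v ∈ t := by
  simp [supp]

theorem adj_supp {F : Finset (Finset V)} {x y : V} (h : (sk F).Adj x y) :
    x ∈ supp F ∧ y ∈ supp F := by
  obtain ⟨-, t, ht, hx, hy⟩ := h
  exact ⟨mem_supp.2 ⟨t, ht, hx⟩, mem_supp.2 ⟨t, ht, hy⟩⟩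

theorem cn_comm (H : Finset (Finset V)) (x y : V) : cn H x y = cn H y x := by
  unfold cn
  congr 1
  exact Finset.filter_congr fun t _ => and_comm

theorem cn_mono {H K : Finset (Finset V)} (h : H ⊆ K) (x y : V) : cn H x y ≤ cn K x y :=
  Finset.card_le_card (Finset.filter_subset_filter _ h)

theorem cn_union {H K : Finset (Finset V)} (h : Disjoint H K) (x y : V) :
    cn (H ∪ K) x y = cn H x y + cn K x y := by
  unfold cn
  rw [Finset.filter_union, Finset.card_union_of_disjoint (Finset.disjoint_filter_filter h)]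

theorem cn_sdiff {H K : Finset (Finset V)} (h : H ⊆ K) (x y : V) :
    cn (K \ H) x y + cn H x y = cn K x y := by
  rw [← cn_union Finset.sdiff_disjoint, Finset.sdiff_union_of_subset h]

theorem cn_insert {H : Finset (Finset V)} {t : Finset V} (h : t ∉ H) (x y : V) :
    cn (insert t H) x y = cn H x y + if x ∈ t ∧ y ∈ t then 1 else 0 := by
  unfold cn
  rw [Finset.filter_insert]
  split_ifs with h1
  · rw [Finset.card_insert_of_notMem]
    intro h2
    exact h (Finset.mem_filter.1 h2).1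
  · rfl

/-- The parity of the symmetric difference. -/
theorem cn_symmDiff (H K : Finset (Finset V)) (x y : V) :
    (Odd (cn (symmDiff H K) x y) ↔ ¬ (Odd (cn H x y) ↔ Odd (cn K x y))) := by
  have h1 : cn (symmDiff H K) x y = cn (H \ K) x y + cn (K \ H) x y := by
    rw [← cn_union]
    · rfl
    · exact disjoint_sdiff_sdiff
  have h2 : cn (H \ K) x y + cn (H ∩ K) x y = cn H x y := by
    have := cn_sdiff (H := H ∩ K) (K := H) Finset.inter_subset_left x y
    rwa [Finset.sdiff_inter_self_left] at this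
  have h3 : cn (K \ H) x y + cn (H ∩ K) x y = cn K x y := by
    have := cn_sdiff (H := H ∩ K) (K := K) Finset.inter_subset_right x y
    rwa [Finset.sdiff_inter_self_right] at this
  rw [Nat.odd_iff, Nat.odd_iff, Nat.odd_iff]
  omega

theorem adj_iff_cn {F : Finset (Finset V)} {x y : V} :
    (sk F).Adj x y ↔ x ≠ y ∧ cn F x y ≠ 0 := by
  unfold cn
  rw [Ne, Ne, Finset.card_eq_zero, ← Ne, ← Ne, ← Finset.nonempty_iff_ne_empty]
  constructor
  · rintro ⟨h, t, ht, hx, hy⟩
    exact ⟨h, t, Finset.mem_filter.2 ⟨ht, hx, hy⟩⟩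
  · rintro ⟨h, t, ht⟩
    rw [Finset.mem_filter] at ht
    exact ⟨h, t, ht.1, ht.2.1, ht.2.2⟩

/-- The boundary of a set of faces is even. -/
theorem even_bd {H : Finset (Finset V)} (hc : ∀ t ∈ H, t.card = 3) (v : V) :
    Even {b | b ≠ v ∧ Odd (cn H v b)}.ncard := by
  have h1 : {b | b ≠ v ∧ Odd (cn H v b)} =
      ((((supp H).erase v).filter fun b => Odd (cn H v b) : Finset V) : Set V) := by
    ext b
    simp only [Set.mem_ofPred_eq, Finset.coe_filter, Finset.mem_erase]
    constructor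
    · rintro ⟨hb, ho⟩
      refine ⟨⟨hb, ?_⟩, ho⟩
      have h2 : cn H v b ≠ 0 := by
        intro h0
        rw [h0] at ho
        exact absurd ho (by decide)
      exact (adj_supp (adj_iff_cn.2 ⟨Ne.symm hb, h2⟩)).2
    · rintro ⟨⟨hb, -⟩, ho⟩
      exact ⟨hb, ho⟩
  rw [h1, Set.ncard_coe_finset, ← Finset.even_sum_iff_even_card_odd]
  have h2 : ∑ b ∈ (supp H).erase v, cn H v b =
      ∑ t ∈ H, if v ∈ t then ((supp H).erase v ∩ t).card else 0 := by
    unfold cn
    simp only [Finset.card_filter]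
    rw [Finset.sum_comm]
    refine Finset.sum_congr rfl fun t _ => ?_
    split_ifs with hv
    · rw [← Finset.filter_mem_eq_inter, Finset.card_filter]
      refine Finset.sum_congr rfl fun b _ => ?_
      simp [hv]
    · simp [hv]
  rw [h2]
  refine Finset.even_sum _ fun t ht => ?_
  split_ifs with hv
  · have h3 : (supp H).erase v ∩ t = t.erase v := by
      ext b
      simp only [Finset.mem_inter, Finset.mem_erase]
      constructor
      · rintro ⟨⟨h4, -⟩, h5⟩
        exact ⟨h4, h5⟩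
      · rintro ⟨h4, h5⟩
        exact ⟨⟨h4, mem_supp.2 ⟨t, ht, h5⟩⟩, h5⟩
    rw [h3, Finset.card_erase_of_mem hv, hc t ht]
    decide
  · decide

theorem even_cn {F : Finset (Finset V)} (hF : Sph F) {x y : V} (hxy : x ≠ y) :
    Even (cn F x y) := by
  by_cases h : (sk F).Adj x y
  · rw [hF.two x y h]
    decide
  · have h1 : cn F x y = 0 := by
      by_contra h2
      exact h (adj_iff_cn.2 ⟨hxy, h2⟩)
    rw [h1]
    decide

theorem face_ne {F : Finset (Finset V)} (hF : Sph F) {x y z : V}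
    (h : ({x, y, z} : Finset V) ∈ F) : x ≠ y ∧ y ≠ z ∧ x ≠ z := by
  have h1 := hF.card _ h
  refine ⟨?_, ?_, ?_⟩
  · rintro rfl
    rw [Finset.insert_idem] at h1
    have := Finset.card_le_two (a := x) (b := z)
    omega
  · rintro rfl
    rw [Finset.pair_eq_singleton] at h1
    have := Finset.card_le_two (a := x) (b := y)
    omega
  · rintro rfl
    have h2 : ({x, y, x} : Finset V) = {x, y} := by
      ext a
      simp only [Finset.mem_insert, Finset.mem_singleton]
      tauto
    rw [h2] at h1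
    have := Finset.card_le_two (a := x) (b := y)
    omega

theorem face_adj {F : Finset (Finset V)} (hF : Sph F) {x y z : V}
    (h : ({x, y, z} : Finset V) ∈ F) :
    (sk F).Adj x y ∧ (sk F).Adj y z ∧ (sk F).Adj x z := by
  obtain ⟨h1, h2, h3⟩ := face_ne hF h
  exact ⟨⟨h1, _, h, by simp, by simp⟩, ⟨h2, _, h, by simp, by simp⟩, ⟨h3, _, h, by simp, by simp⟩⟩

/-- A face that contains `x` and `y` has a third vertex. -/
theorem face_third {F : Finset (Finset V)} (hF : Sph F) {t : Finset V} (ht : t ∈ F) {x y : V}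
    (hx : x ∈ t) (hy : y ∈ t) (hxy : x ≠ y) : ∃ z, t = {x, y, z} ∧ z ≠ x ∧ z ≠ y := by
  have h1 : ((t.erase x).erase y).card = 1 := by
    rw [Finset.card_erase_of_mem (Finset.mem_erase.2 ⟨hxy.symm, hy⟩), Finset.card_erase_of_mem hx,
      hF.card t ht]
  obtain ⟨z, hz⟩ := Finset.card_eq_one.1 h1
  have h2 : z ∈ (t.erase x).erase y := by
    rw [hz]
    exact Finset.mem_singleton_self z
  rw [Finset.mem_erase, Finset.mem_erase] at h2
  refine ⟨z, ?_, h2.2.1, h2.1⟩
  ext a
  simp only [Finset.mem_insert, Finset.mem_singleton]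
  constructor
  · intro ha
    by_cases h3 : a = x
    · exact Or.inl h3
    by_cases h4 : a = y
    · exact Or.inr (Or.inl h4)
    have h5 : a ∈ (t.erase x).erase y := Finset.mem_erase.2 ⟨h4, Finset.mem_erase.2 ⟨h3, ha⟩⟩
    rw [hz, Finset.mem_singleton] at h5
    exact Or.inr (Or.inr h5)
  · rintro (rfl | rfl | rfl)
    · exact hx
    · exact hy
    · exact h2.2.2

theorem SphA_third_eq {F : Finset (Finset V)} (hF : Sph F) {x y u z : V}
    (hu : ({x, y, u} : Finset V) ∈ F) (h : ({x, y, u} : Finset V) = {x, y, z}) : u = z := by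
  obtain ⟨-, h2, h3⟩ := face_ne hF hu
  have h4 : u ∈ ({x, y, z} : Finset V) := by
    rw [← h]
    simp
  simp only [Finset.mem_insert, Finset.mem_singleton] at h4
  rcases h4 with h4 | h4 | h4
  · exact absurd h4.symm h3
  · exact absurd h4.symm h2
  · exact h4

/-- Every edge is in exactly two faces. -/
theorem edge_faces {F : Finset (Finset V)} (hF : Sph F) {x y : V} (h : (sk F).Adj x y) :
    ∃ z w, z ≠ w ∧ ({x, y, z} : Finset V) ∈ F ∧ ({x, y, w} : Finset V) ∈ F ∧
      ∀ u, ({x, y, u} : Finset V) ∈ F → u = z ∨ u = w := by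
  obtain ⟨t1, t2, hne, ht⟩ := Finset.card_eq_two.1 (hF.two x y h)
  have h1 : t1 ∈ F.filter fun t => x ∈ t ∧ y ∈ t := by
    rw [ht]
    simp
  have h2 : t2 ∈ F.filter fun t => x ∈ t ∧ y ∈ t := by
    rw [ht]
    simp
  rw [Finset.mem_filter] at h1 h2
  obtain ⟨z, hz, -, -⟩ := face_third hF h1.1 h1.2.1 h1.2.2 h.1
  obtain ⟨w, hw, -, -⟩ := face_third hF h2.1 h2.2.1 h2.2.2 h.1
  refine ⟨z, w, ?_, hz ▸ h1.1, hw ▸ h2.1, fun u hu => ?_⟩
  · rintro rfl
    exact hne (hz.trans hw.symm)
  · have h3 : ({x, y, u} : Finset V) ∈ F.filter fun t => x ∈ t ∧ y ∈ t := by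
      rw [Finset.mem_filter]
      exact ⟨hu, by simp, by simp⟩
    rw [ht, Finset.mem_insert, Finset.mem_singleton] at h3
    rcases h3 with h3 | h3
    · left
      exact SphA_third_eq hF hu (h3.trans hz)
    · right
      exact SphA_third_eq hF hu (h3.trans hw)

/-- The other face at an edge of a face. -/
theorem other_face {F : Finset (Finset V)} (hF : Sph F) {x y z : V}
    (h : ({x, y, z} : Finset V) ∈ F) :
    ∃ w, w ≠ z ∧ ({x, y, w} : Finset V) ∈ F ∧
      ∀ u, ({x, y, u} : Finset V) ∈ F → u = z ∨ u = w := by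
  obtain ⟨a, b, hab, ha, hb, hu⟩ := edge_faces hF (face_adj hF h).1
  rcases hu z h with rfl | rfl
  · exact ⟨b, hab.symm, hb, hu⟩
  · exact ⟨a, hab, ha, fun u h1 => (hu u h1).symm⟩

theorem card_supp_ge {F : Finset (Finset V)} (hF : Sph F) (hne : F.Nonempty) :
    4 ≤ (supp F).card := by
  obtain ⟨t, ht⟩ := hne
  obtain ⟨x, y, z, hxy, hxz, hyz, rfl⟩ := Finset.card_eq_three.1 (hF.card t ht)
  obtain ⟨w, hwz, hw, -⟩ := other_face hF ht
  obtain ⟨-, h2, h3⟩ := face_ne hF hw
  have h4 : ({x, y, z, w} : Finset V) ⊆ supp F := by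
    intro a ha
    simp only [Finset.mem_insert, Finset.mem_singleton] at ha
    rcases ha with rfl | rfl | rfl | rfl
    · exact mem_supp.2 ⟨_, ht, by simp⟩
    · exact mem_supp.2 ⟨_, ht, by simp⟩
    · exact mem_supp.2 ⟨_, ht, by simp⟩
    · exact mem_supp.2 ⟨_, hw, by simp⟩
  have h5 : ({x, y, z, w} : Finset V).card = 4 := by
    rw [Finset.card_insert_of_notMem, Finset.card_insert_of_notMem, Finset.card_insert_of_notMem,
      Finset.card_singleton]
    · simp [hwz.symm]
    · simp [hyz, h2]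
    · simp [hxy, hxz, h3]
  rw [← h5]
  exact Finset.card_le_card h4

end Pool.Agent.Lib.MP_a33b01_co
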