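import Mathlib
import Pool.Agent.Lib.MP_a33b01_co.SphA

set_option autoImplicit false

/-!
# MP_a33b01_co: connectivity of the graph and of the links
-/

namespace Pool.Agent.Lib.MP_a33b01_co

open Classical

variable {V : Type}

private theorem SphB_cn_zero {H : Finset (Finset V)} {x : V} (h : ∀ t ∈ H, x ∉ t) (y : V) :
    cn H x y = 0 := by
  unfold cn
  rw [Finset.card_eq_zero, Finset.filter_eq_empty_iff]
  intro t ht h1
  exact h t ht h1.1

private theorem SphB_cn_eq {F H : Finset (Finset V)} {x : V} (hHF : H ⊆ F)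
    (h : ∀ t ∈ F, x ∈ t → t ∈ H) (y : V) : cn H x y = cn F x y := by
  unfold cn
  congr 1
  ext t
  simp only [Finset.mem_filter]
  constructor
  · rintro ⟨h1, h2⟩
    exact ⟨hHF h1, h2⟩
  · rintro ⟨h1, h2⟩
    exact ⟨h t h1 h2.1, h2⟩

/-- The graph is connected. -/
theorem conn_graph {F : Finset (Finset V)} (hF : Sph F) {C : Set V} {c : V} (hc : c ∈ C)
    (hcF : c ∈ supp F) (hC : ∀ x ∈ C, ∀ y, (sk F).Adj x y → y ∈ C) : ∀ v ∈ supp F, v ∈ C := by
  have hall : ∀ t ∈ F, (∃ x ∈ t, x ∈ C) → ∀ y ∈ t, y ∈ C := by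
    rintro t ht ⟨x, hxt, hxC⟩ y hyt
    by_cases hxy : x = y
    · rw [← hxy]
      exact hxC
    · exact hC x hxC y ⟨hxy, t, ht, hxt, hyt⟩
  have hev : ∀ x y, x ≠ y → Even (cn (F.filter fun t => ∃ x ∈ t, x ∈ C) x y) := by
    intro x y hxy
    by_cases hx : x ∈ C
    · rw [SphB_cn_eq (Finset.filter_subset _ _)
        (fun t ht hxt => Finset.mem_filter.2 ⟨ht, x, hxt, hx⟩)]
      exact even_cn hF hxy
    · rw [SphB_cn_zero]
      · exact Even.zero
      · intro t ht hxt
        rw [Finset.mem_filter] at ht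
        exact hx (hall t ht.1 ht.2 x hxt)
  obtain ⟨t0, ht0, hct0⟩ := mem_supp.1 hcF
  rcases hF.conn _ (Finset.filter_subset _ _) hev with h | h
  · have : t0 ∈ F.filter fun t => ∃ x ∈ t, x ∈ C := Finset.mem_filter.2 ⟨ht0, c, hct0, hc⟩
    rw [h] at this
    exact absurd this (Finset.notMem_empty _)
  · intro v hv
    obtain ⟨t, ht, hvt⟩ := mem_supp.1 hv
    rw [← h, Finset.mem_filter] at ht
    exact hall t ht.1 ht.2 v hvt

/-- The graph stays connected when a vertex is deleted. -/
theorem conn_del {F : Finset (Finset V)} (hF : Sph F) (v : V) {C : Set V} {c : V} (hc : c ∈ C)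
    (hcF : c ∈ supp F) (hcv : c ≠ v) (hC : ∀ x ∈ C, x ≠ v → ∀ y, (sk F).Adj x y → y ≠ v → y ∈ C) :
    ∀ u ∈ supp F, u ≠ v → u ∈ C := by
  have hall : ∀ t ∈ F, (∃ x ∈ t, x ∈ C ∧ x ≠ v) → ∀ y ∈ t, y ≠ v → y ∈ C := by
    rintro t ht ⟨x, hxt, hxC, hxv⟩ y hyt hyv
    by_cases hxy : x = y
    · rw [← hxy]
      exact hxC
    · exact hC x hxC hxv y ⟨hxy, t, ht, hxt, hyt⟩ hyv
  have hev0 : ∀ x y, x ≠ y → x ≠ v →
      Even (cn (F.filter fun t => ∃ x ∈ t, x ∈ C ∧ x ≠ v) x y) := by
    intro x y hxy hxv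
    by_cases hx : x ∈ C
    · rw [SphB_cn_eq (Finset.filter_subset _ _)
        (fun t ht hxt => Finset.mem_filter.2 ⟨ht, x, hxt, hx, hxv⟩)]
      exact even_cn hF hxy
    · rw [SphB_cn_zero]
      · exact Even.zero
      · intro t ht hxt
        rw [Finset.mem_filter] at ht
        exact hx (hall t ht.1 ht.2 x hxt hxv)
  have hev : ∀ x y, x ≠ y → Even (cn (F.filter fun t => ∃ x ∈ t, x ∈ C ∧ x ≠ v) x y) := by
    intro x y hxy
    by_cases hxv : x = v
    · rw [cn_comm]
      exact hev0 y x hxy.symm (fun h => hxy (hxv.trans h.symm))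
    · exact hev0 x y hxy hxv
  obtain ⟨t0, ht0, hct0⟩ := mem_supp.1 hcF
  rcases hF.conn _ (Finset.filter_subset _ _) hev with h | h
  · have : t0 ∈ F.filter fun t => ∃ x ∈ t, x ∈ C ∧ x ≠ v :=
      Finset.mem_filter.2 ⟨ht0, c, hct0, hc, hcv⟩
    rw [h] at this
    exact absurd this (Finset.notMem_empty _)
  · intro u hu huv
    obtain ⟨t, ht, hut⟩ := mem_supp.1 hu
    rw [← h, Finset.mem_filter] at ht
    exact hall t ht.1 ht.2 u hut huv

/-- the graph formed by the edges of a closed trail is even -/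
private theorem SphB_trail {G : SimpleGraph V} {v : V} (q : G.Walk v v) (hq : q.IsTrail) :
    EvenG (SimpleGraph.fromEdgeSet {e | e ∈ q.edges}) := by
  intro a
  set Z := SimpleGraph.fromEdgeSet {e : Sym2 V | e ∈ q.edges} with hZ
  have h1 : (Z.neighborSet a).ncard = (Z.incidenceSet a).ncard := by
    rw [← Nat.card_coe_set_eq, ← Nat.card_coe_set_eq]
    exact (Nat.card_congr (Z.incidenceSetEquivNeighborSet a)).symm
  have h2 : Z.incidenceSet a = ((q.edges.filter fun e => a ∈ e).toFinset : Set (Sym2 V)) := by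
    ext e
    simp only [SimpleGraph.incidenceSet, hZ, SimpleGraph.edgeSet_fromEdgeSet, Set.mem_ofPred_eq,
      Set.mem_sdiff, List.coe_toFinset, List.mem_filter, decide_eq_true_eq]
    constructor
    · rintro ⟨⟨h3, _⟩, h4⟩
      exact ⟨h3, h4⟩
    · rintro ⟨h3, h4⟩
      refine ⟨⟨h3, ?_⟩, h4⟩
      exact G.not_isDiag_of_mem_edgeSet (q.edges_subset_edgeSet h3)
  rw [h1, h2, Set.ncard_coe_finset, List.toFinset_card_of_nodup (hq.edges_nodup.filter _),
    ← List.countP_eq_length_filter]
  rw [hq.even_countP_edges_iff a]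
  intro h
  exact absurd rfl h

/-- The link of a vertex is connected. -/
theorem link_conn {F : Finset (Finset V)} (hF : Sph F) (v : V) {W : Set V} {w : V} (hw : w ∈ W)
    (hvw : (sk F).Adj v w) (hW : ∀ x ∈ W, ∀ y, ({v, x, y} : Finset V) ∈ F → y ∈ W) :
    ∀ u, (sk F).Adj v u → u ∈ W := by
  intro u0 hvu
  by_contra hu0
  have hwu : w ≠ u0 := by
    rintro rfl
    exact hu0 hw
  -- the graph without `v`
  let G0 : SimpleGraph V :=
    { Adj := fun a b => (sk F).Adj a b ∧ a ≠ v ∧ b ≠ v
      symm := ⟨fun a b h => ⟨h.1.symm, h.2.2, h.2.1⟩⟩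
      loopless := ⟨fun a h => h.1.ne rfl⟩ }
  have hG0 : G0 ≤ sk F := fun a b h => h.1
  have hreach : G0.Reachable w u0 := by
    refine conn_del hF v (C := {y | G0.Reachable w y}) (c := w) (SimpleGraph.Reachable.refl w)
      (adj_supp hvw).2 hvw.ne.symm ?_ u0 (adj_supp hvu).2 hvu.ne.symm
    intro x hx hxv y hxy hyv
    exact SimpleGraph.Reachable.trans hx (SimpleGraph.Adj.reachable ⟨hxy, hxv, hyv⟩)
  obtain ⟨p, hp⟩ := hreach.exists_isPath
  -- the closed trail
  have hpv : ∀ e ∈ p.edges, v ∉ e := by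
    intro e he hve
    have h1 := p.edges_subset_edgeSet he
    induction e using Sym2.ind with
    | _ a b =>
      rw [SimpleGraph.mem_edgeSet] at h1
      rw [Sym2.mem_iff] at hve
      rcases hve with h2 | h2
      · exact h1.2.1 h2.symm
      · exact h1.2.2 h2.symm
  set p' : (sk F).Walk w u0 := p.mapLe hG0 with hp'
  have hp'e : p'.edges = p.edges := by
    rw [hp']
    simp
  let q : (sk F).Walk v v := SimpleGraph.Walk.cons hvw (p'.concat hvu.symm)
  have hqe : q.edges = s(v, w) :: (p.edges ++ [s(u0, v)]) := by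
    show (SimpleGraph.Walk.cons hvw (p'.concat hvu.symm)).edges = _
    rw [SimpleGraph.Walk.edges_cons, SimpleGraph.Walk.edges_concat, hp'e, List.concat_eq_append]
  have hq : q.IsTrail := by
    rw [SimpleGraph.Walk.isTrail_def, hqe, List.nodup_cons, List.nodup_append]
    refine ⟨?_, hp.isTrail.edges_nodup, List.nodup_singleton _, ?_⟩
    · rw [List.mem_append, List.mem_singleton, not_or]
      refine ⟨fun h => hpv _ h (Sym2.mem_mk_left v w), fun h => ?_⟩
      rw [Sym2.eq_iff] at h
      rcases h with ⟨h1, h2⟩ | ⟨_, h2⟩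
      · exact hvu.ne h1
      · exact hwu h2
    · intro a ha b hb hab
      rw [List.mem_singleton] at hb
      rw [hab, hb] at ha
      exact hpv _ ha (Sym2.mem_mk_right u0 v)
  have hZadj : ∀ a b, (SimpleGraph.fromEdgeSet {e | e ∈ q.edges}).Adj a b ↔
      s(a, b) ∈ q.edges ∧ a ≠ b := by
    intro a b
    rw [SimpleGraph.fromEdgeSet_adj]
    rfl
  have hZle : SimpleGraph.fromEdgeSet {e | e ∈ q.edges} ≤ sk F := by
    intro a b hab
    exact q.edges_subset_edgeSet ((hZadj a b).1 hab).1
  obtain ⟨H, hHF, hH⟩ := hF.bd _ hZle (SphB_trail q hq)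
  -- neighbours in the boundary
  have hodd : ∀ b, b ≠ v → (Odd (cn H v b) ↔ b = w ∨ b = u0) := by
    intro b hb
    rw [hH v b hb.symm, hZadj, hqe, List.mem_cons, List.mem_append, List.mem_singleton,
      Sym2.eq_iff, Sym2.eq_iff]
    constructor
    · rintro ⟨h1 | h1 | h1, _⟩
      · rcases h1 with h1 | h1
        · exact Or.inl h1.2
        · exact absurd h1.2 hb
      · exact absurd (Sym2.mem_mk_left v b) (hpv _ h1)
      · rcases h1 with h1 | h1
        · exact absurd h1.1 hvu.ne
        · exact Or.inr h1.2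
    · rintro (h1 | h1)
      · exact ⟨Or.inl (Or.inl ⟨rfl, h1⟩), hb.symm⟩
      · exact ⟨Or.inr (Or.inr (Or.inr ⟨rfl, h1⟩)), hb.symm⟩
  -- double counting
  set N : Finset V := (supp F).filter fun b => b ∈ W ∧ (sk F).Adj v b with hN
  have hwN : w ∈ N := by
    rw [hN, Finset.mem_filter]
    exact ⟨(adj_supp hvw).2, hw, hvw⟩
  have hsum1 : Even (∑ b ∈ N, cn H v b) := by
    have h1 : ∑ b ∈ N, cn H v b = ∑ t ∈ H, ∑ b ∈ N, if v ∈ t ∧ b ∈ t then 1 else 0 := by
      rw [Finset.sum_comm]
      refine Finset.sum_congr rfl fun b _ => ?_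
      unfold cn
      rw [Finset.card_filter]
    rw [h1]
    apply Finset.even_sum
    intro t ht
    have htF := hHF ht
    by_cases hvt : v ∈ t
    · -- the two other vertices
      have hcard := hF.card t htF
      obtain ⟨x, hxt, hxv⟩ : ∃ x ∈ t, x ≠ v := by
        by_contra hcon
        push Not at hcon
        have h2 : t ⊆ {v} := fun y hy => by
          rw [Finset.mem_singleton]
          exact hcon y hy
        have h3 := Finset.card_le_card h2
        rw [Finset.card_singleton] at h3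
        omega
      obtain ⟨y, rfl, hyv, hyx⟩ := face_third hF htF hvt hxt hxv.symm
      obtain ⟨g1, g2, g3⟩ := face_adj hF htF
      have hxy : x ∈ W ↔ y ∈ W := by
        constructor
        · intro h
          exact hW x h y htF
        · intro h
          refine hW y h x ?_
          have h4 : ({v, y, x} : Finset V) = {v, x, y} := by
            ext z
            simp only [Finset.mem_insert, Finset.mem_singleton]
            tauto
          rw [h4]
          exact htF
      rw [← Finset.card_filter]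
      by_cases hxW : x ∈ W
      · have h5 : (N.filter fun b => v ∈ ({v, x, y} : Finset V) ∧ b ∈ ({v, x, y} : Finset V)) =
            {x, y} := by
          ext z
          simp only [hN, Finset.mem_filter, Finset.mem_insert, Finset.mem_singleton]
          constructor
          · rintro ⟨⟨_, _, h6⟩, _, h7⟩
            rcases h7 with h7 | h7
            · exact absurd h7.symm h6.ne
            · exact h7
          · rintro (h7 | h7)
            · rw [h7]
              exact ⟨⟨(adj_supp g1).2, hxW, g1⟩, Or.inl trivial, Or.inr (Or.inl rfl)⟩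
            · rw [h7]
              exact ⟨⟨(adj_supp g3).2, hxy.1 hxW, g3⟩, Or.inl trivial, Or.inr (Or.inr rfl)⟩
        rw [h5, Finset.card_pair hyx.symm]
        exact even_two
      · have h5 : (N.filter fun b => v ∈ ({v, x, y} : Finset V) ∧ b ∈ ({v, x, y} : Finset V)) =
            ∅ := by
          rw [Finset.filter_eq_empty_iff]
          rintro z hz ⟨_, h7⟩
          rw [hN, Finset.mem_filter] at hz
          simp only [Finset.mem_insert, Finset.mem_singleton] at h7
          rcases h7 with h7 | h7 | h7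
          · exact hz.2.2.ne h7.symm
          · rw [h7] at hz
            exact hxW hz.2.1
          · rw [h7] at hz
            exact hxW (hxy.2 hz.2.1)
        rw [h5, Finset.card_empty]
        exact Even.zero
    · have h2 : ∀ b ∈ N, (if v ∈ t ∧ b ∈ t then 1 else 0) = 0 := fun b _ =>
        if_neg fun h => hvt h.1
      rw [Finset.sum_eq_zero h2]
      exact Even.zero
  rw [← Finset.add_sum_erase N _ hwN] at hsum1
  have hsum2 : Even (∑ b ∈ N.erase w, cn H v b) := by
    apply Finset.even_sum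
    intro b hb
    rw [Finset.mem_erase, hN, Finset.mem_filter] at hb
    rw [← Nat.not_odd_iff_even, hodd b hb.2.2.2.ne.symm, not_or]
    refine ⟨hb.1, ?_⟩
    rintro rfl
    exact hu0 hb.2.2.1
  have hw1 : Odd (cn H v w) := (hodd w hvw.ne.symm).2 (Or.inl rfl)
  have h3 : Odd (cn H v w + ∑ b ∈ N.erase w, cn H v b) := hw1.add_even hsum2
  exact (Nat.not_odd_iff_even.2 hsum1) h3

end Pool.Agent.Lib.MP_a33b01_co
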