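import Mathlib
import Pool.Agent.Lib.MP_a33b01_co.SphB

set_option autoImplicit false

/-!
# MP_a33b01_co: contraction of an edge
-/

namespace Pool.Agent.Lib.MP_a33b01_co

open Classical

variable {V : Type}

/-- four faces on four vertices are everything -/
private theorem Contr_tetra {F : Finset (Finset V)} (hF : Sph F) {T : Finset V} (hT : T.card = 4)
    (h : ∀ r ∈ T, T.erase r ∈ F) : (supp F).card ≤ 4 := by
  have hHF : T.image (fun r => T.erase r) ⊆ F := by
    intro t ht
    obtain ⟨r, hr, rfl⟩ := Finset.mem_image.1 ht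
    exact h r hr
  have hev : ∀ p q, p ≠ q → Even (cn (T.image (fun r => T.erase r)) p q) := by
    intro p q hpq
    by_cases hp : p ∈ T ∧ q ∈ T
    · have e : (T.image (fun r => T.erase r)).filter (fun t => p ∈ t ∧ q ∈ t) =
          ((T.erase p).erase q).image (fun r => T.erase r) := by
        ext t
        simp only [Finset.mem_filter, Finset.mem_image, Finset.mem_erase]
        constructor
        · rintro ⟨⟨r, hr, rfl⟩, h1, h2⟩
          rw [Finset.mem_erase] at h1 h2
          exact ⟨r, ⟨h2.1.symm, h1.1.symm, hr⟩, rfl⟩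
        · rintro ⟨r, ⟨h2, h1, hr⟩, rfl⟩
          refine ⟨⟨r, hr, rfl⟩, ?_, ?_⟩
          · exact Finset.mem_erase.2 ⟨h1.symm, hp.1⟩
          · exact Finset.mem_erase.2 ⟨h2.symm, hp.2⟩
      unfold cn
      rw [e, Finset.card_image_of_injOn, Finset.card_erase_of_mem, Finset.card_erase_of_mem hp.1,
        hT]
      · decide
      · exact Finset.mem_erase.2 ⟨hpq.symm, hp.2⟩
      · intro r hr r' _ hrr
        simp only at hrr
        by_contra hne
        have h1 : r ∈ T := by
          have := Finset.mem_coe.1 hr
          rw [Finset.mem_erase, Finset.mem_erase] at this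
          exact this.2.2
        have h2 : r ∈ T.erase r' := Finset.mem_erase.2 ⟨hne, h1⟩
        rw [← hrr] at h2
        exact (Finset.mem_erase.1 h2).1 rfl
    · have e : cn (T.image (fun r => T.erase r)) p q = 0 := by
        unfold cn
        rw [Finset.card_eq_zero, Finset.filter_eq_empty_iff]
        intro t ht h1
        obtain ⟨r, hr, rfl⟩ := Finset.mem_image.1 ht
        exact hp ⟨(Finset.mem_erase.1 h1.1).2, (Finset.mem_erase.1 h1.2).2⟩
      rw [e]
      exact Even.zero
  rcases hF.conn _ hHF hev with h1 | h1
  · exfalso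
    have hne : T.Nonempty := Finset.card_pos.1 (by omega)
    obtain ⟨r, hr⟩ := hne
    have : T.erase r ∈ T.image (fun r => T.erase r) := Finset.mem_image_of_mem _ hr
    rw [h1] at this
    exact absurd this (Finset.notMem_empty _)
  · rw [← hT]
    refine Finset.card_le_card fun v hv => ?_
    obtain ⟨t, ht, hvt⟩ := mem_supp.1 hv
    rw [← h1] at ht
    obtain ⟨r, hr, rfl⟩ := Finset.mem_image.1 ht
    exact (Finset.mem_erase.1 hvt).2

/-- replace `y` by `x` -/
private noncomputable def Contr_ph (x y v : V) : V := if v = y then x else v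

private theorem Contr_mem {x y a : V} (hax : a ≠ x) (hay : a ≠ y) (t : Finset V) :
    a ∈ t.image (Contr_ph x y) ↔ a ∈ t := by
  rw [Finset.mem_image]
  constructor
  · rintro ⟨v, hv, hva⟩
    unfold Contr_ph at hva
    split_ifs at hva with h1
    · exact absurd hva.symm hax
    · rw [← hva]
      exact hv
  · intro ha
    refine ⟨a, ha, ?_⟩
    unfold Contr_ph
    rw [if_neg hay]

private theorem Contr_mem_x {x y : V} (hxy : x ≠ y) (t : Finset V) :
    x ∈ t.image (Contr_ph x y) ↔ x ∈ t ∨ y ∈ t := by
  rw [Finset.mem_image]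
  constructor
  · rintro ⟨v, hv, hva⟩
    unfold Contr_ph at hva
    split_ifs at hva with h1
    · right
      rw [← h1]
      exact hv
    · left
      rw [← hva]
      exact hv
  · rintro (h | h)
    · refine ⟨x, h, ?_⟩
      unfold Contr_ph
      rw [if_neg hxy]
    · refine ⟨y, h, ?_⟩
      unfold Contr_ph
      rw [if_pos rfl]

private theorem Contr_mem_y {x y : V} (hxy : x ≠ y) (t : Finset V) :
    y ∉ t.image (Contr_ph x y) := by
  rw [Finset.mem_image]
  rintro ⟨v, -, hva⟩
  unfold Contr_ph at hva
  split_ifs at hva with h1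
  · exact hxy hva
  · exact h1 hva

/-- the faces that do not contain both `x` and `y` -/
private noncomputable def Contr_off (x y : V) (K : Finset (Finset V)) : Finset (Finset V) :=
  K.filter fun t => ¬ (x ∈ t ∧ y ∈ t)

private theorem Contr_mem_off {x y : V} {K : Finset (Finset V)} {t : Finset V} :
    t ∈ Contr_off x y K ↔ t ∈ K ∧ ¬ (x ∈ t ∧ y ∈ t) := by
  unfold Contr_off
  rw [Finset.mem_filter]

/-- the image of a set of faces -/
private noncomputable def Contr_pr (x y : V) (K : Finset (Finset V)) : Finset (Finset V) :=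
  (Contr_off x y K).image fun t => t.image (Contr_ph x y)

private theorem Contr_mem_pr {x y : V} {K : Finset (Finset V)} {s : Finset V} :
    s ∈ Contr_pr x y K ↔ ∃ t ∈ K, ¬ (x ∈ t ∧ y ∈ t) ∧ t.image (Contr_ph x y) = s := by
  unfold Contr_pr
  rw [Finset.mem_image]
  constructor
  · rintro ⟨t, ht, h⟩
    rw [Contr_mem_off] at ht
    exact ⟨t, ht.1, ht.2, h⟩
  · rintro ⟨t, h1, h2, h3⟩
    exact ⟨t, Contr_mem_off.2 ⟨h1, h2⟩, h3⟩

private theorem Contr_inj_aux {F : Finset (Finset V)} (hF : Sph F) {x y z w : V} (hxy : x ≠ y)
    (hz : ({x, y, z} : Finset V) ∈ F) (hw : ({x, y, w} : Finset V) ∈ F) (hzw : z ≠ w)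
    (hc : ∀ u, (sk F).Adj x u → (sk F).Adj y u → u = z ∨ u = w)
    (h5 : 5 ≤ (supp F).card) {t t' : Finset V} (ht : t ∈ F) (ht' : t' ∈ F) (hxt : x ∈ t)
    (hyt : y ∉ t) (hxt' : x ∉ t') (hyt' : y ∈ t') (h : ∀ a, a ≠ x → a ≠ y → (a ∈ t ↔ a ∈ t')) :
    False := by
  have h1 : (t.erase x).card = 2 := by
    rw [Finset.card_erase_of_mem hxt, hF.card t ht]
  obtain ⟨a, b, hab, he⟩ := Finset.card_eq_two.1 h1
  have hmem : ∀ c ∈ t.erase x, c = z ∨ c = w := by
    intro c hc'
    rw [Finset.mem_erase] at hc'
    have hcy : c ≠ y := by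
      rintro rfl
      exact hyt hc'.2
    exact hc c ⟨hc'.1.symm, t, ht, hxt, hc'.2⟩ ⟨hcy.symm, t', ht', hyt', (h c hc'.1 hcy).1 hc'.2⟩
  obtain ⟨-, hyz, hxz⟩ := face_ne hF hz
  obtain ⟨-, hyw, hxw⟩ := face_ne hF hw
  have hsub : t.erase x ⊆ {z, w} := by
    intro c hc'
    rw [Finset.mem_insert, Finset.mem_singleton]
    exact hmem c hc'
  have heq : t.erase x = {z, w} := by
    refine Finset.eq_of_subset_of_card_le hsub ?_
    rw [h1]
    exact Finset.card_le_two
  have hzt : z ∈ t := by
    have : z ∈ t.erase x := by rw [heq]; simp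
    exact (Finset.mem_erase.1 this).2
  have hwt : w ∈ t := by
    have : w ∈ t.erase x := by rw [heq]; simp
    exact (Finset.mem_erase.1 this).2
  have e1 : t = {x, z, w} := by
    rw [← Finset.insert_erase hxt, heq]
  have e2 : t' = {y, z, w} := by
    symm
    refine Finset.eq_of_subset_of_card_le ?_ ?_
    · intro c hc'
      simp only [Finset.mem_insert, Finset.mem_singleton] at hc'
      rcases hc' with rfl | rfl | rfl
      · exact hyt'
      · exact (h c hxz.symm hyz.symm).1 hzt
      · exact (h c hxw.symm hyw.symm).1 hwt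
    · rw [hF.card t' ht', Finset.card_insert_of_notMem, Finset.card_pair hzw]
      simp [hyz, hyw]
  have hT : ({x, y, z, w} : Finset V).card = 4 := by
    rw [Finset.card_insert_of_notMem, Finset.card_insert_of_notMem, Finset.card_pair hzw]
    · simp [hyz, hyw]
    · simp [hxy, hxz, hxw]
  have h4 := Contr_tetra hF hT (by
    intro r hr
    simp only [Finset.mem_insert, Finset.mem_singleton] at hr
    rcases hr with rfl | rfl | rfl | rfl
    · have e : ({r, y, z, w} : Finset V).erase r = {y, z, w} := by
        rw [Finset.erase_insert]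
        simp [hxy, hxz, hxw]
      rw [e, ← e2]
      exact ht'
    · have e : ({x, r, z, w} : Finset V).erase r = {x, z, w} := by
        ext c
        simp only [Finset.mem_erase, Finset.mem_insert, Finset.mem_singleton]
        constructor
        · rintro ⟨h1, h2⟩
          tauto
        · rintro (rfl | rfl | rfl)
          · exact ⟨hxy, Or.inl rfl⟩
          · exact ⟨hyz.symm, by tauto⟩
          · exact ⟨hyw.symm, by tauto⟩
      rw [e, ← e1]
      exact ht
    · have e : ({x, y, r, w} : Finset V).erase r = {x, y, w} := by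
        ext c
        simp only [Finset.mem_erase, Finset.mem_insert, Finset.mem_singleton]
        constructor
        · rintro ⟨h1, h2⟩
          tauto
        · rintro (rfl | rfl | rfl)
          · exact ⟨hxz, Or.inl rfl⟩
          · exact ⟨hyz, by tauto⟩
          · exact ⟨hzw.symm, by tauto⟩
      rw [e]
      exact hw
    · have e : ({x, y, z, r} : Finset V).erase r = {x, y, z} := by
        ext c
        simp only [Finset.mem_erase, Finset.mem_insert, Finset.mem_singleton]
        constructor
        · rintro ⟨h1, h2⟩
          tauto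
        · rintro (rfl | rfl | rfl)
          · exact ⟨hxw, Or.inl rfl⟩
          · exact ⟨hyw, by tauto⟩
          · exact ⟨hzw, by tauto⟩
      rw [e]
      exact hz)
  omega

private theorem Contr_inj {F : Finset (Finset V)} (hF : Sph F) {x y z w : V} (hxy : x ≠ y)
    (hz : ({x, y, z} : Finset V) ∈ F) (hw : ({x, y, w} : Finset V) ∈ F) (hzw : z ≠ w)
    (hc : ∀ u, (sk F).Adj x u → (sk F).Adj y u → u = z ∨ u = w)
    (h5 : 5 ≤ (supp F).card) {t t' : Finset V} (ht : t ∈ F) (ht' : t' ∈ F)
    (h1 : ¬ (x ∈ t ∧ y ∈ t)) (h1' : ¬ (x ∈ t' ∧ y ∈ t'))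
    (he : t.image (Contr_ph x y) = t'.image (Contr_ph x y)) : t = t' := by
  have h : ∀ a, a ≠ x → a ≠ y → (a ∈ t ↔ a ∈ t') := by
    intro a hax hay
    rw [← Contr_mem hax hay t, ← Contr_mem hax hay t', he]
  have hx : (x ∈ t ∨ y ∈ t) ↔ (x ∈ t' ∨ y ∈ t') := by
    rw [← Contr_mem_x hxy, ← Contr_mem_x hxy, he]
  by_cases hxt : x ∈ t
  · have hyt : y ∉ t := fun h' => h1 ⟨hxt, h'⟩
    by_cases hxt' : x ∈ t'
    · have hyt' : y ∉ t' := fun h' => h1' ⟨hxt', h'⟩
      ext a
      by_cases hax : a = x
      · subst hax
        exact ⟨fun _ => hxt', fun _ => hxt⟩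
      by_cases hay : a = y
      · subst hay
        exact ⟨fun h' => absurd h' hyt, fun h' => absurd h' hyt'⟩
      exact h a hax hay
    · have hyt' : y ∈ t' := by
        rcases hx.1 (Or.inl hxt) with h' | h'
        · exact absurd h' hxt'
        · exact h'
      exact (Contr_inj_aux hF hxy hz hw hzw hc h5 ht ht' hxt hyt hxt' hyt' h).elim
  · by_cases hxt' : x ∈ t'
    · have hyt' : y ∉ t' := fun h' => h1' ⟨hxt', h'⟩
      have hyt : y ∈ t := by
        rcases hx.2 (Or.inl hxt') with h' | h'
        · exact absurd h' hxt
        · exact h'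
      exact (Contr_inj_aux hF hxy hz hw hzw hc h5 ht' ht hxt' hyt' hxt hyt
        (fun a hax hay => (h a hax hay).symm)).elim
    · ext a
      by_cases hax : a = x
      · subst hax
        exact ⟨fun h' => absurd h' hxt, fun h' => absurd h' hxt'⟩
      by_cases hay : a = y
      · subst hay
        constructor
        · intro h'
          rcases hx.1 (Or.inr h') with h2 | h2
          · exact absurd h2 hxt'
          · exact h2
        · intro h'
          rcases hx.2 (Or.inr h') with h2 | h2
          · exact absurd h2 hxt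
          · exact h2
      exact h a hax hay

private theorem Contr_injOn {F : Finset (Finset V)} (hF : Sph F) {x y z w : V} (hxy : x ≠ y)
    (hz : ({x, y, z} : Finset V) ∈ F) (hw : ({x, y, w} : Finset V) ∈ F) (hzw : z ≠ w)
    (hc : ∀ u, (sk F).Adj x u → (sk F).Adj y u → u = z ∨ u = w)
    (h5 : 5 ≤ (supp F).card) :
    ∀ t ∈ F, ∀ t' ∈ F, ¬ (x ∈ t ∧ y ∈ t) → ¬ (x ∈ t' ∧ y ∈ t') →
      t.image (Contr_ph x y) = t'.image (Contr_ph x y) → t = t' :=
  fun _ ht _ ht' h1 h1' he => Contr_inj hF hxy hz hw hzw hc h5 ht ht' h1 h1' he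

private theorem Contr_cn {F : Finset (Finset V)} (hF : Sph F) {x y : V} (hxy : x ≠ y)
    (hinj : ∀ t ∈ F, ∀ t' ∈ F, ¬ (x ∈ t ∧ y ∈ t) → ¬ (x ∈ t' ∧ y ∈ t') →
      t.image (Contr_ph x y) = t'.image (Contr_ph x y) → t = t')
    {K : Finset (Finset V)} (hK : K ⊆ F) {a b : V} (hax : a ≠ x) (hay : a ≠ y) (hbx : b ≠ x)
    (hby : b ≠ y) (hab : a ≠ b) : cn (Contr_pr x y K) a b = cn K a b := by
  unfold cn
  have e : (Contr_pr x y K).filter (fun t => a ∈ t ∧ b ∈ t) =
      (K.filter (fun t => a ∈ t ∧ b ∈ t)).image fun t => t.image (Contr_ph x y) := by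
    ext s
    rw [Finset.mem_filter, Contr_mem_pr, Finset.mem_image]
    constructor
    · rintro ⟨⟨t, h1, h2, rfl⟩, h3, h4⟩
      rw [Contr_mem hax hay] at h3
      rw [Contr_mem hbx hby] at h4
      exact ⟨t, Finset.mem_filter.2 ⟨h1, h3, h4⟩, rfl⟩
    · rintro ⟨t, ht, rfl⟩
      rw [Finset.mem_filter] at ht
      refine ⟨⟨t, ht.1, ?_, rfl⟩, ?_, ?_⟩
      · rintro ⟨h1, h2⟩
        have h3 : ({x, y, a, b} : Finset V) ⊆ t := by
          intro c hc
          simp only [Finset.mem_insert, Finset.mem_singleton] at hc
          rcases hc with rfl | rfl | rfl | rfl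
          · exact h1
          · exact h2
          · exact ht.2.1
          · exact ht.2.2
        have h4 : ({x, y, a, b} : Finset V).card = 4 := by
          rw [Finset.card_insert_of_notMem, Finset.card_insert_of_notMem, Finset.card_pair hab]
          · simp [hay.symm, hby.symm]
          · simp [hxy, hax.symm, hbx.symm]
        have h5 := Finset.card_le_card h3
        rw [hF.card t (hK ht.1)] at h5
        omega
      · rw [Contr_mem hax hay]
        exact ht.2.1
      · rw [Contr_mem hbx hby]
        exact ht.2.2
  rw [e, Finset.card_image_of_injOn]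
  intro t ht t' ht' he
  rw [Finset.mem_coe, Finset.mem_filter] at ht ht'
  have hno : ∀ s ∈ F, a ∈ s → b ∈ s → ¬ (x ∈ s ∧ y ∈ s) := by
    rintro s hs h1 h2 ⟨h3, h4⟩
    have h5 : ({x, y, a, b} : Finset V) ⊆ s := by
      intro c hc
      simp only [Finset.mem_insert, Finset.mem_singleton] at hc
      rcases hc with rfl | rfl | rfl | rfl
      · exact h3
      · exact h4
      · exact h1
      · exact h2
    have h6 : ({x, y, a, b} : Finset V).card = 4 := by
      rw [Finset.card_insert_of_notMem, Finset.card_insert_of_notMem, Finset.card_pair hab]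
      · simp [hay.symm, hby.symm]
      · simp [hxy, hax.symm, hbx.symm]
    have h7 := Finset.card_le_card h5
    rw [hF.card s hs] at h7
    omega
  exact hinj t (hK ht.1) t' (hK ht'.1) (hno t (hK ht.1) ht.2.1 ht.2.2)
    (hno t' (hK ht'.1) ht'.2.1 ht'.2.2) he

private theorem Contr_cn_x {F : Finset (Finset V)} {x y : V} (hxy : x ≠ y)
    (hinj : ∀ t ∈ F, ∀ t' ∈ F, ¬ (x ∈ t ∧ y ∈ t) → ¬ (x ∈ t' ∧ y ∈ t') →
      t.image (Contr_ph x y) = t'.image (Contr_ph x y) → t = t')
    {K : Finset (Finset V)} (hK : K ⊆ F) {b : V} (hbx : b ≠ x) (hby : b ≠ y) :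
    cn (Contr_pr x y K) x b + 2 * (K.filter fun t => x ∈ t ∧ y ∈ t ∧ b ∈ t).card =
      cn K x b + cn K y b := by
  have e1 : cn (Contr_pr x y K) x b =
      ((K.filter fun t => ¬ (x ∈ t ∧ y ∈ t)).filter
        fun t => (x ∈ t ∨ y ∈ t) ∧ b ∈ t).card := by
    unfold cn
    have e : (Contr_pr x y K).filter (fun t => x ∈ t ∧ b ∈ t) =
        ((K.filter fun t => ¬ (x ∈ t ∧ y ∈ t)).filter
          fun t => (x ∈ t ∨ y ∈ t) ∧ b ∈ t).image fun t => t.image (Contr_ph x y) := by
      ext s
      rw [Finset.mem_filter, Contr_mem_pr, Finset.mem_image]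
      constructor
      · rintro ⟨⟨t, h1, h2, rfl⟩, h3, h4⟩
        rw [Contr_mem_x hxy] at h3
        rw [Contr_mem hbx hby] at h4
        exact ⟨t, Finset.mem_filter.2 ⟨Finset.mem_filter.2 ⟨h1, h2⟩, h3, h4⟩, rfl⟩
      · rintro ⟨t, ht, rfl⟩
        rw [Finset.mem_filter, Finset.mem_filter] at ht
        exact ⟨⟨t, ht.1.1, ht.1.2, rfl⟩, (Contr_mem_x hxy t).2 ht.2.1,
          (Contr_mem hbx hby t).2 ht.2.2⟩
    rw [e, Finset.card_image_of_injOn]
    intro t ht t' ht' he
    rw [Finset.mem_coe, Finset.mem_filter, Finset.mem_filter] at ht ht'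
    exact hinj t (hK ht.1.1) t' (hK ht'.1.1) ht.1.2 ht'.1.2 he
  have e2 : ((K.filter fun t => ¬ (x ∈ t ∧ y ∈ t)).filter
        fun t => (x ∈ t ∨ y ∈ t) ∧ b ∈ t).card =
      (K.filter fun t => x ∈ t ∧ y ∉ t ∧ b ∈ t).card +
        (K.filter fun t => x ∉ t ∧ y ∈ t ∧ b ∈ t).card := by
    rw [← Finset.card_union_of_disjoint]
    · congr 1
      ext t
      simp only [Finset.mem_filter, Finset.mem_union]
      tauto
    · rw [Finset.disjoint_left]
      intro t h1 h2
      rw [Finset.mem_filter] at h1 h2
      exact h2.2.1 h1.2.1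
  have e3 : cn K x b = (K.filter fun t => x ∈ t ∧ y ∉ t ∧ b ∈ t).card +
      (K.filter fun t => x ∈ t ∧ y ∈ t ∧ b ∈ t).card := by
    unfold cn
    rw [← Finset.card_union_of_disjoint]
    · congr 1
      ext t
      simp only [Finset.mem_filter, Finset.mem_union]
      tauto
    · rw [Finset.disjoint_left]
      intro t h1 h2
      rw [Finset.mem_filter] at h1 h2
      exact h1.2.2.1 h2.2.2.1
  have e4 : cn K y b = (K.filter fun t => x ∉ t ∧ y ∈ t ∧ b ∈ t).card +
      (K.filter fun t => x ∈ t ∧ y ∈ t ∧ b ∈ t).card := by
    unfold cn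
    rw [← Finset.card_union_of_disjoint]
    · congr 1
      ext t
      simp only [Finset.mem_filter, Finset.mem_union]
      tauto
    · rw [Finset.disjoint_left]
      intro t h1 h2
      rw [Finset.mem_filter] at h1 h2
      exact h1.2.1 h2.2.1
  omega

private theorem Contr_cn_y {x y : V} (hxy : x ≠ y) (K : Finset (Finset V)) (b : V) :
    cn (Contr_pr x y K) y b = 0 := by
  unfold cn
  rw [Finset.card_eq_zero, Finset.filter_eq_empty_iff]
  rintro s hs ⟨h1, -⟩
  obtain ⟨t, -, -, rfl⟩ := Contr_mem_pr.1 hs
  exact Contr_mem_y hxy t h1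

private theorem Contr_cn_not {F : Finset (Finset V)} {K : Finset (Finset V)} (hK : K ⊆ F)
    {a b : V} (hab : a ≠ b) (h : ¬ (sk F).Adj a b) : cn K a b = 0 := by
  have h1 : cn F a b = 0 := by
    by_contra h2
    exact h (adj_iff_cn.2 ⟨hab, h2⟩)
  have h2 := cn_mono hK a b
  omega

private theorem Contr_three {F : Finset (Finset V)} (hF : Sph F) {x y b : V}
    (hb : ({x, y, b} : Finset V) ∈ F) :
    (F.filter fun t => x ∈ t ∧ y ∈ t ∧ b ∈ t).card = 1 := by
  rw [Finset.card_eq_one]
  refine ⟨{x, y, b}, ?_⟩
  ext t
  rw [Finset.mem_filter, Finset.mem_singleton]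
  constructor
  · rintro ⟨h1, h2, h3, h4⟩
    symm
    refine Finset.eq_of_subset_of_card_le ?_ ?_
    · intro c hc
      simp only [Finset.mem_insert, Finset.mem_singleton] at hc
      rcases hc with rfl | rfl | rfl
      · exact h2
      · exact h3
      · exact h4
    · rw [hF.card t h1, hF.card _ hb]
  · rintro rfl
    exact ⟨hb, by simp, by simp, by simp⟩

theorem exists_contr {F : Finset (Finset V)} (hF : Sph F) {x y z w : V}
    (hxy : (sk F).Adj x y) (hc : ∀ u, (sk F).Adj x u → (sk F).Adj y u → u = z ∨ u = w)
    (h5 : 5 ≤ (supp F).card) :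
    ∃ F', Sph F' ∧ supp F' = (supp F).erase y ∧
      ∀ u v, (sk F').Adj u v ↔ u ≠ v ∧ u ≠ y ∧ v ≠ y ∧
        ((sk F).Adj u v ∨ (u = x ∧ (sk F).Adj y v) ∨ (v = x ∧ (sk F).Adj y u)) := by
  -- the two faces at the edge
  obtain ⟨z', w', hzw', hz', hw', -⟩ := edge_faces hF hxy
  have hc' : ∀ u, (sk F).Adj x u → (sk F).Adj y u → u = z' ∨ u = w' := by
    intro u h1 h2
    obtain ⟨-, h3, h4⟩ := face_adj hF hz'
    obtain ⟨-, h6, h7⟩ := face_adj hF hw'
    have hz1 := hc z' h4 h3
    have hw1 := hc w' h7 h6
    have hu1 := hc u h1 h2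
    rcases hz1 with hz1 | hz1 <;> rcases hw1 with hw1 | hw1
    · exact absurd (hz1.trans hw1.symm) hzw'
    · rw [hz1, hw1]
      exact hu1
    · rw [hz1, hw1]
      exact hu1.symm
    · exact absurd (hz1.trans hw1.symm) hzw'
  clear hc
  revert z' w'
  intro z w hzw hz hw hc
  have hne : x ≠ y := hxy.1
  obtain ⟨-, hyz, hxz⟩ := face_ne hF hz
  obtain ⟨-, hyw, hxw⟩ := face_ne hF hw
  have hinj := Contr_injOn hF hne hz hw hzw hc h5
  have hxb : ∀ b, b ≠ x → b ≠ y → cn (Contr_pr x y F) x b =
      if (sk F).Adj x b ∨ (sk F).Adj y b then 2 else 0 := by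
    intro b hbx hby
    have h1 := Contr_cn_x hne hinj (Finset.Subset.refl F) hbx hby
    by_cases hA : (sk F).Adj x b
    · rw [if_pos (Or.inl hA)]
      rw [hF.two x b hA] at h1
      by_cases hB : (sk F).Adj y b
      · rw [hF.two y b hB] at h1
        have h2 : (F.filter fun t => x ∈ t ∧ y ∈ t ∧ b ∈ t).card = 1 := by
          rcases hc b hA hB with rfl | rfl
          · exact Contr_three hF hz
          · exact Contr_three hF hw
        omega
      · have h2 := Contr_cn_not (Finset.Subset.refl F) hby.symm hB
        have h3 : (F.filter fun t => x ∈ t ∧ y ∈ t ∧ b ∈ t).card = 0 := by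
          rw [Finset.card_eq_zero, Finset.filter_eq_empty_iff]
          rintro t ht ⟨-, h4, h6⟩
          exact hB ⟨hby.symm, t, ht, h4, h6⟩
        omega
    · have h2 := Contr_cn_not (Finset.Subset.refl F) hbx.symm hA
      have h3 : (F.filter fun t => x ∈ t ∧ y ∈ t ∧ b ∈ t).card = 0 := by
        rw [Finset.card_eq_zero, Finset.filter_eq_empty_iff]
        rintro t ht ⟨h4, -, h6⟩
        exact hA ⟨hbx.symm, t, ht, h4, h6⟩
      by_cases hB : (sk F).Adj y b
      · rw [if_pos (Or.inr hB)]
        rw [hF.two y b hB] at h1
        omega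
      · rw [if_neg (by tauto)]
        have h4 := Contr_cn_not (Finset.Subset.refl F) hby.symm hB
        omega
  have hadj : ∀ u v, (sk (Contr_pr x y F)).Adj u v ↔ u ≠ v ∧ u ≠ y ∧ v ≠ y ∧
        ((sk F).Adj u v ∨ (u = x ∧ (sk F).Adj y v) ∨ (v = x ∧ (sk F).Adj y u)) := by
    intro u v
    rw [adj_iff_cn]
    by_cases huv : u = v
    · simp [huv]
    by_cases huy : u = y
    · subst huy
      simp [Contr_cn_y hne]
    by_cases hvy : v = y
    · subst hvy
      rw [cn_comm]
      simp [Contr_cn_y hne]
    by_cases hux : u = x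
    · subst hux
      rw [hxb v (fun h => huv h.symm) hvy]
      have h1 : ¬ v = u := fun h => huv h.symm
      split_ifs with h2
      · simp only [ne_eq, huv, not_false_eq_true, OfNat.ofNat_ne_zero, huy, hvy, true_and, h1,
          false_and, or_false, true_iff]
        exact h2
      · simp only [ne_eq, not_true_eq_false, and_false, huy, hvy, not_false_eq_true, true_and, h1,
          false_and, or_false, false_iff]
        tauto
    by_cases hvx : v = x
    · subst hvx
      rw [cn_comm, hxb u hux huy]
      split_ifs with h2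
      · simp only [ne_eq, huv, not_false_eq_true, OfNat.ofNat_ne_zero, huy, hvy, true_and, hux,
          false_and, false_or, true_iff]
        rcases h2 with h2 | h2
        · exact Or.inl h2.symm
        · exact Or.inr h2
      · constructor
        · rintro ⟨-, h3⟩
          exact absurd rfl h3
        · rintro ⟨-, -, -, h3 | h3 | h3⟩
          · exact absurd (Or.inl h3.symm) h2
          · exact absurd h3.1 hux
          · exact absurd (Or.inr h3.2) h2
    · rw [Contr_cn hF hne hinj (Finset.Subset.refl F) hux huy hvx hvy huv]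
      have h1 := adj_iff_cn (F := F) (x := u) (y := v)
      simp only [ne_eq, huv, not_false_eq_true, true_and, huy, hvy, hux, hvx, false_and, or_false]
      rw [h1]
      simp [huv]
  have hxF' : ∀ b, b ≠ x → b ≠ y → ((sk F).Adj x b ∨ (sk F).Adj y b) →
      (sk (Contr_pr x y F)).Adj x b := by
    intro b hbx hby h
    rw [hadj]
    refine ⟨hbx.symm, hne, hby, ?_⟩
    rcases h with h | h
    · exact Or.inl h
    · exact Or.inr (Or.inl ⟨rfl, h⟩)
  obtain ⟨-, hadyz, hadxz⟩ := face_adj hF hz
  obtain ⟨-, hadyw, hadxw⟩ := face_adj hF hw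
  refine ⟨Contr_pr x y F, ⟨?_, ?_, ?_, ?_⟩, ?_, hadj⟩
  · -- faces are triples
    intro s hs
    obtain ⟨t, ht, h1, rfl⟩ := Contr_mem_pr.1 hs
    rw [Finset.card_image_of_injOn, hF.card t ht]
    intro a ha b hb hab
    rw [Finset.mem_coe] at ha hb
    unfold Contr_ph at hab
    split_ifs at hab with h2 h3 h3
    · rw [h2, h3]
    · exfalso
      apply h1
      rw [hab, ← h2]
      exact ⟨hb, ha⟩
    · exfalso
      apply h1
      rw [← hab, ← h3]
      exact ⟨ha, hb⟩
    · exact hab
  · -- two
    intro u v huv
    have h1 := (hadj u v).1 huv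
    obtain ⟨h2, h3, h4, h6⟩ := h1
    by_cases hux : u = x
    · subst hux
      rw [hxb v h2.symm h4, if_pos]
      rcases h6 with h6 | h6 | h6
      · exact Or.inl h6
      · exact Or.inr h6.2
      · exact absurd h6.1.symm h2
    by_cases hvx : v = x
    · subst hvx
      rw [cn_comm, hxb u hux h3, if_pos]
      rcases h6 with h6 | h6 | h6
      · exact Or.inl h6.symm
      · exact absurd h6.1 hux
      · exact Or.inr h6.2
    · rw [Contr_cn hF hne hinj (Finset.Subset.refl F) hux h3 hvx h4 h2]
      rcases h6 with h6 | h6 | h6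
      · exact hF.two u v h6
      · exact absurd h6.1 hux
      · exact absurd h6.1 hvx
  · -- connectedness
    intro K' hK' hev
    set K : Finset (Finset V) := (Contr_off x y F).filter
      fun t => t.image (Contr_ph x y) ∈ K' with hKdef
    have hmK : ∀ t, t ∈ K ↔ t ∈ F ∧ ¬ (x ∈ t ∧ y ∈ t) ∧ t.image (Contr_ph x y) ∈ K' := by
      intro t
      rw [hKdef, Finset.mem_filter, Contr_mem_off, and_assoc]
    have hKF : K ⊆ F := fun t ht => ((hmK t).1 ht).1
    have hprK : Contr_pr x y K = K' := by
      ext s
      rw [Contr_mem_pr]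
      constructor
      · rintro ⟨t, ht, -, rfl⟩
        exact ((hmK t).1 ht).2.2
      · intro hs
        obtain ⟨t, ht, h1, rfl⟩ := Contr_mem_pr.1 (hK' hs)
        exact ⟨t, (hmK t).2 ⟨ht, h1, hs⟩, h1, rfl⟩
    have hc0 : ∀ b, (K.filter fun t => x ∈ t ∧ y ∈ t ∧ b ∈ t).card = 0 := by
      intro b
      rw [Finset.card_eq_zero, Finset.filter_eq_empty_iff]
      rintro t ht ⟨h1, h2, -⟩
      exact ((hmK t).1 ht).2.1 ⟨h1, h2⟩
    have hsum : ∀ b, b ≠ x → b ≠ y → Even (cn K x b + cn K y b) := by
      intro b hbx hby
      have h1 := Contr_cn_x hne hinj hKF hbx hby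
      rw [hc0, hprK, mul_zero, add_zero] at h1
      rw [← h1]
      exact hev x b hbx.symm
    set e1 : Finset (Finset V) := if Odd (cn K x z) then {{x, y, z}} else ∅ with he1
    set e2 : Finset (Finset V) := if Odd (cn K x w) then {{x, y, w}} else ∅ with he2
    have hsing : ∀ (t : Finset V) (a b : V), cn {t} a b = if a ∈ t ∧ b ∈ t then 1 else 0 := by
      intro t a b
      unfold cn
      rw [Finset.filter_singleton]
      split_ifs <;> simp
    have hemp : ∀ a b : V, cn (∅ : Finset (Finset V)) a b = 0 := by
      intro a b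
      unfold cn
      rw [Finset.filter_empty, Finset.card_empty]
    have hcn1 : ∀ a b, cn e1 a b =
        if Odd (cn K x z) ∧ a ∈ ({x, y, z} : Finset V) ∧ b ∈ ({x, y, z} : Finset V)
          then 1 else 0 := by
      intro a b
      rw [he1]
      by_cases h1 : Odd (cn K x z)
      · rw [if_pos h1, hsing]
        simp only [h1, true_and]
      · rw [if_neg h1, hemp, if_neg (fun h => h1 h.1)]
    have hcn2 : ∀ a b, cn e2 a b =
        if Odd (cn K x w) ∧ a ∈ ({x, y, w} : Finset V) ∧ b ∈ ({x, y, w} : Finset V)
          then 1 else 0 := by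
      intro a b
      rw [he2]
      by_cases h1 : Odd (cn K x w)
      · rw [if_pos h1, hsing]
        simp only [h1, true_and]
      · rw [if_neg h1, hemp, if_neg (fun h => h1 h.1)]
    have hm1 : ∀ t ∈ e1, t = {x, y, z} := by
      intro t ht
      rw [he1] at ht
      split_ifs at ht with h1
      · exact Finset.mem_singleton.1 ht
      · exact absurd ht (Finset.notMem_empty _)
    have hm2 : ∀ t ∈ e2, t = {x, y, w} := by
      intro t ht
      rw [he2] at ht
      split_ifs at ht with h1
      · exact Finset.mem_singleton.1 ht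
      · exact absurd ht (Finset.notMem_empty _)
    have hzt2 : z ∉ ({x, y, w} : Finset V) := by
      simp [hxz.symm, hyz.symm, hzw]
    have hwt1 : w ∉ ({x, y, z} : Finset V) := by
      simp [hxw.symm, hyw.symm, hzw.symm]
    have hd12 : Disjoint e1 e2 := by
      rw [Finset.disjoint_left]
      intro t h1 h2
      have h3 := hm1 t h1
      have h4 := hm2 t h2
      apply hzt2
      rw [← h4, h3]
      simp
    have hdK : Disjoint K (e1 ∪ e2) := by
      rw [Finset.disjoint_left]
      intro t h1 h2
      apply ((hmK t).1 h1).2.1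
      rcases Finset.mem_union.1 h2 with h3 | h3
      · rw [hm1 t h3]
        simp
      · rw [hm2 t h3]
        simp
    have hcnS : ∀ a b, cn (K ∪ (e1 ∪ e2)) a b = cn K a b + (cn e1 a b + cn e2 a b) := by
      intro a b
      rw [cn_union hdK, cn_union hd12]
    have hSF : K ∪ (e1 ∪ e2) ⊆ F := by
      intro t ht
      rcases Finset.mem_union.1 ht with h1 | h1
      · exact hKF h1
      · rcases Finset.mem_union.1 h1 with h2 | h2
        · rw [hm1 t h2]
          exact hz
        · rw [hm2 t h2]
          exact hw
    have hE1 : ∀ b, b ≠ x → b ≠ y → Even (cn (K ∪ (e1 ∪ e2)) x b) := by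
      intro b hbx hby
      rw [hcnS]
      by_cases hbz : b = z
      · have k2 : cn e2 x b = 0 := by
          rw [hcn2, hbz]
          exact if_neg fun h => hzt2 h.2.2
        rw [k2, hcn1, hbz]
        by_cases ho : Odd (cn K x z)
        · rw [if_pos ⟨ho, by simp, by simp⟩]
          rw [Nat.odd_iff] at ho
          rw [Nat.even_iff]
          omega
        · rw [if_neg (fun h => ho h.1)]
          rw [Nat.not_odd_iff_even] at ho
          simpa using ho
      by_cases hbw : b = w
      · have k1 : cn e1 x b = 0 := by
          rw [hcn1, hbw]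
          exact if_neg fun h => hwt1 h.2.2
        rw [k1, hcn2, hbw]
        by_cases ho : Odd (cn K x w)
        · rw [if_pos ⟨ho, by simp, by simp⟩]
          rw [Nat.odd_iff] at ho
          rw [Nat.even_iff]
          omega
        · rw [if_neg (fun h => ho h.1)]
          rw [Nat.not_odd_iff_even] at ho
          simpa using ho
      · have hb1 : b ∉ ({x, y, z} : Finset V) := by simp [hbx, hby, hbz]
        have hb2 : b ∉ ({x, y, w} : Finset V) := by simp [hbx, hby, hbw]
        rw [hcn1, hcn2, if_neg (fun h => hb1 h.2.2), if_neg (fun h => hb2 h.2.2), add_zero,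
          add_zero]
        by_cases hA : (sk F).Adj x b
        · have hB : ¬ (sk F).Adj y b := by
            intro hB
            rcases hc b hA hB with h1 | h1
            · exact hbz h1
            · exact hbw h1
          have h1 := hsum b hbx hby
          rwa [Contr_cn_not hKF hby.symm hB, add_zero] at h1
        · rw [Contr_cn_not hKF hbx.symm hA]
          exact Even.zero
    have hE2 : ∀ b, b ≠ x → b ≠ y → Even (cn (K ∪ (e1 ∪ e2)) y b) := by
      intro b hbx hby
      rw [hcnS]
      have h1 := hsum b hbx hby
      by_cases hbz : b = z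
      · have k2 : cn e2 y b = 0 := by
          rw [hcn2, hbz]
          exact if_neg fun h => hzt2 h.2.2
        rw [hbz] at h1
        rw [k2, hcn1, hbz]
        by_cases ho : Odd (cn K x z)
        · rw [if_pos ⟨ho, by simp, by simp⟩]
          rw [Nat.odd_iff] at ho
          rw [Nat.even_iff] at h1 ⊢
          omega
        · rw [if_neg (fun h => ho h.1)]
          rw [Nat.not_odd_iff_even, Nat.even_iff] at ho
          rw [Nat.even_iff] at h1 ⊢
          omega
      by_cases hbw : b = w
      · have k1 : cn e1 y b = 0 := by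
          rw [hcn1, hbw]
          exact if_neg fun h => hwt1 h.2.2
        rw [hbw] at h1
        rw [k1, hcn2, hbw]
        by_cases ho : Odd (cn K x w)
        · rw [if_pos ⟨ho, by simp, by simp⟩]
          rw [Nat.odd_iff] at ho
          rw [Nat.even_iff] at h1 ⊢
          omega
        · rw [if_neg (fun h => ho h.1)]
          rw [Nat.not_odd_iff_even, Nat.even_iff] at ho
          rw [Nat.even_iff] at h1 ⊢
          omega
      · have hb1 : b ∉ ({x, y, z} : Finset V) := by simp [hbx, hby, hbz]
        have hb2 : b ∉ ({x, y, w} : Finset V) := by simp [hbx, hby, hbw]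
        rw [hcn1, hcn2, if_neg (fun h => hb1 h.2.2), if_neg (fun h => hb2 h.2.2), add_zero,
          add_zero]
        by_cases hA : (sk F).Adj y b
        · have hB : ¬ (sk F).Adj x b := by
            intro hB
            rcases hc b hB hA with h1 | h1
            · exact hbz h1
            · exact hbw h1
          rwa [Contr_cn_not hKF hbx.symm hB, zero_add] at h1
        · rw [Contr_cn_not hKF hby.symm hA]
          exact Even.zero
    have hE3 : ∀ a b, a ≠ x → a ≠ y → b ≠ x → b ≠ y → a ≠ b →
        Even (cn (K ∪ (e1 ∪ e2)) a b) := by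
      intro a b hax hay hbx hby hab
      rw [hcnS, hcn1, hcn2, if_neg, if_neg, add_zero, add_zero]
      · have h1 := hev a b hab
        rwa [← hprK, Contr_cn hF hne hinj hKF hax hay hbx hby hab] at h1
      · rintro ⟨-, h1, h2⟩
        simp only [Finset.mem_insert, Finset.mem_singleton, hax, hay, hbx, hby, false_or] at h1 h2
        exact hab (h1.trans h2.symm)
      · rintro ⟨-, h1, h2⟩
        simp only [Finset.mem_insert, Finset.mem_singleton, hax, hay, hbx, hby, false_or] at h1 h2
        exact hab (h1.trans h2.symm)
    have hE4 : Even (cn (K ∪ (e1 ∪ e2)) x y) := by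
      by_contra hcon
      rw [Nat.not_even_iff_odd] at hcon
      have h1 := even_bd (fun t ht => hF.card t (hSF ht)) x
      have h2 : {b | b ≠ x ∧ Odd (cn (K ∪ (e1 ∪ e2)) x b)} = {y} := by
        ext b
        simp only [Set.mem_ofPred_eq, Set.mem_singleton_iff]
        constructor
        · rintro ⟨h3, h4⟩
          by_contra h6
          have h7 := hE1 b h3 h6
          rw [← Nat.not_even_iff_odd] at h4
          exact h4 h7
        · rintro rfl
          exact ⟨hne.symm, hcon⟩
      rw [h2, Set.ncard_singleton] at h1
      exact absurd h1 (by decide)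
    have hEall : ∀ a b, a ≠ b → Even (cn (K ∪ (e1 ∪ e2)) a b) := by
      intro a b hab
      by_cases hax : a = x
      · subst hax
        by_cases hby : b = y
        · rw [hby]
          exact hE4
        · exact hE1 b hab.symm hby
      by_cases hay : a = y
      · subst hay
        by_cases hbx : b = x
        · rw [hbx, cn_comm]
          exact hE4
        · exact hE2 b hbx hab.symm
      by_cases hbx : b = x
      · subst hbx
        rw [cn_comm]
        exact hE1 a hax hay
      by_cases hby : b = y
      · subst hby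
        rw [cn_comm]
        exact hE2 a hax hay
      exact hE3 a b hax hay hbx hby hab
    rcases hF.conn _ hSF hEall with h1 | h1
    · left
      have h2 : K = ∅ := by
        rw [← Finset.subset_empty, ← h1]
        exact Finset.subset_union_left
      rw [← hprK, h2]
      ext s
      rw [Contr_mem_pr]
      constructor
      · rintro ⟨t, ht, -⟩
        exact absurd ht (Finset.notMem_empty _)
      · intro h3
        exact absurd h3 (Finset.notMem_empty _)
    · right
      refine Finset.Subset.antisymm hK' ?_
      intro s hs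
      obtain ⟨t, ht, h2, rfl⟩ := Contr_mem_pr.1 hs
      have h3 : t ∈ K ∪ (e1 ∪ e2) := by
        rw [h1]
        exact ht
      rcases Finset.mem_union.1 h3 with h4 | h4
      · exact ((hmK t).1 h4).2.2
      · exfalso
        apply h2
        rcases Finset.mem_union.1 h4 with h6 | h6
        · rw [hm1 t h6]
          simp
        · rw [hm2 t h6]
          simp
  · -- boundaries
    intro Z' hZ' hev
    have hZy : ∀ b, ¬ Z'.Adj y b := by
      intro b hb
      have h1 := (hadj y b).1 (hZ' hb)
      exact h1.2.1 rfl
    have hZy' : ∀ b, ¬ Z'.Adj b y := fun b hb => hZy b hb.symm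
    set P : Set V := {b | Z'.Adj x b ∧ (sk F).Adj x b} with hP
    set Q : Set V := {b | Z'.Adj x b ∧ ¬ (sk F).Adj x b} with hQ
    let Z : SimpleGraph V :=
      { Adj := fun a b =>
          (a ≠ x ∧ a ≠ y ∧ b ≠ x ∧ b ≠ y ∧ Z'.Adj a b) ∨
          (a = x ∧ b ∈ P) ∨ (b = x ∧ a ∈ P) ∨ (a = y ∧ b ∈ Q) ∨ (b = y ∧ a ∈ Q) ∨
          (Odd P.ncard ∧ ((a = x ∧ b = y) ∨ (a = y ∧ b = x)))
        symm := ⟨by
          intro a b h
          rcases h with h | h | h | h | h | h
          · exact Or.inl ⟨h.2.2.1, h.2.2.2.1, h.1, h.2.1, h.2.2.2.2.symm⟩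
          · exact Or.inr (Or.inr (Or.inl h))
          · exact Or.inr (Or.inl h)
          · exact Or.inr (Or.inr (Or.inr (Or.inr (Or.inl h))))
          · exact Or.inr (Or.inr (Or.inr (Or.inl h)))
          · exact Or.inr (Or.inr (Or.inr (Or.inr (Or.inr ⟨h.1, by tauto⟩))))⟩
        loopless := ⟨by
          intro a h
          rcases h with h | h | h | h | h | h
          · exact h.2.2.2.2.ne rfl
          · rw [h.1] at h
            exact h.2.1.ne rfl
          · rw [h.1] at h
            exact h.2.1.ne rfl
          · rw [h.1] at h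
            exact hZy' _ h.2.1
          · rw [h.1] at h
            exact hZy' _ h.2.1
          · rcases h.2 with h1 | h1
            · exact hne (h1.1.symm.trans h1.2)
            · exact hne (h1.2.symm.trans h1.1)⟩ }
    have hPx : x ∉ P := fun h => h.1.ne rfl
    have hPy : y ∉ P := fun h => hZy' _ h.1
    have hQx : x ∉ Q := fun h => h.1.ne rfl
    have hQy : y ∉ Q := fun h => hZy' _ h.1
    have hZle : Z ≤ sk F := by
      intro a b h
      rcases h with h | h | h | h | h | h
      · have h1 := (hadj a b).1 (hZ' h.2.2.2.2)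
        rcases h1.2.2.2 with h2 | h2 | h2
        · exact h2
        · exact absurd h2.1 h.1
        · exact absurd h2.1 h.2.2.1
      · rw [h.1]
        exact h.2.2
      · rw [h.1]
        exact h.2.2.symm
      · rw [h.1]
        have h1 := (hadj x b).1 (hZ' h.2.1)
        rcases h1.2.2.2 with h2 | h2 | h2
        · exact absurd h2 h.2.2
        · exact h2.2
        · exact absurd h2.1.symm h1.1
      · rw [h.1]
        have h1 := (hadj x a).1 (hZ' h.2.1)
        rcases h1.2.2.2 with h2 | h2 | h2
        · exact absurd h2 h.2.2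
        · exact h2.2.symm
        · exact absurd h2.1.symm h1.1
      · rcases h.2 with h1 | h1
        · rw [h1.1, h1.2]
          exact hxy
        · rw [h1.1, h1.2]
          exact hxy.symm
    have hNfin : (Z'.neighborSet x).Finite := by
      refine Set.Finite.subset (supp (Contr_pr x y F)).finite_toSet ?_
      intro b hb
      exact (adj_supp (hZ' hb)).2
    have hPQ : P ∪ Q = Z'.neighborSet x := by
      ext b
      simp only [hP, hQ, Set.mem_union, Set.mem_ofPred_eq, SimpleGraph.mem_neighborSet]
      tauto
    have hPfin : P.Finite := hNfin.subset (by rw [← hPQ]; exact Set.subset_union_left)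
    have hQfin : Q.Finite := hNfin.subset (by rw [← hPQ]; exact Set.subset_union_right)
    have hPQc : Even (P.ncard + Q.ncard) := by
      rw [← Set.ncard_union_eq _ hPfin hQfin, hPQ]
      · exact hev x
      · rw [Set.disjoint_left]
        intro b h1 h2
        exact h2.2 h1.2
    have hZev : EvenG Z := by
      intro v
      by_cases hvx : v = x
      · subst hvx
        by_cases ho : Odd P.ncard
        · have e : Z.neighborSet v = insert y P := by
            ext b
            rw [SimpleGraph.mem_neighborSet, Set.mem_insert_iff]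
            constructor
            · rintro (h | h | h | h | h | h)
              · exact absurd rfl h.1
              · exact Or.inr h.2
              · exact absurd h.2 hPx
              · exact absurd h.1 hne
              · exact absurd h.2 hQx
              · rcases h.2 with h1 | h1
                · exact Or.inl h1.2
                · exact absurd h1.1 hne
            · rintro (h | h)
              · exact Or.inr (Or.inr (Or.inr (Or.inr (Or.inr ⟨ho, Or.inl ⟨rfl, h⟩⟩))))
              · exact Or.inr (Or.inl ⟨rfl, h⟩)
          rw [e, Set.ncard_insert_of_notMem hPy hPfin]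
          rw [Nat.odd_iff] at ho
          rw [Nat.even_iff]
          omega
        · have e : Z.neighborSet v = P := by
            ext b
            rw [SimpleGraph.mem_neighborSet]
            constructor
            · rintro (h | h | h | h | h | h)
              · exact absurd rfl h.1
              · exact h.2
              · exact absurd h.2 hPx
              · exact absurd h.1 hne
              · exact absurd h.2 hQx
              · exact absurd h.1 ho
            · intro h
              exact Or.inr (Or.inl ⟨rfl, h⟩)
          rw [e]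
          exact Nat.not_odd_iff_even.1 ho
      by_cases hvy : v = y
      · subst hvy
        by_cases ho : Odd P.ncard
        · have e : Z.neighborSet v = insert x Q := by
            ext b
            rw [SimpleGraph.mem_neighborSet, Set.mem_insert_iff]
            constructor
            · rintro (h | h | h | h | h | h)
              · exact absurd rfl h.2.1
              · exact absurd h.1 hvx
              · exact absurd h.2 hPy
              · exact Or.inr h.2
              · exact absurd h.2 hQy
              · rcases h.2 with h1 | h1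
                · exact absurd h1.1 hvx
                · exact Or.inl h1.2
            · rintro (h | h)
              · exact Or.inr (Or.inr (Or.inr (Or.inr (Or.inr ⟨ho, Or.inr ⟨rfl, h⟩⟩))))
              · exact Or.inr (Or.inr (Or.inr (Or.inl ⟨rfl, h⟩)))
          rw [e, Set.ncard_insert_of_notMem hQx hQfin]
          rw [Nat.odd_iff] at ho
          rw [Nat.even_iff] at hPQc ⊢
          omega
        · have e : Z.neighborSet v = Q := by
            ext b
            rw [SimpleGraph.mem_neighborSet]
            constructor
            · rintro (h | h | h | h | h | h)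
              · exact absurd rfl h.2.1
              · exact absurd h.1 hvx
              · exact absurd h.2 hPy
              · exact h.2
              · exact absurd h.2 hQy
              · exact absurd h.1 ho
            · intro h
              exact Or.inr (Or.inr (Or.inr (Or.inl ⟨rfl, h⟩)))
          rw [e]
          rw [Nat.odd_iff] at ho
          rw [Nat.even_iff] at hPQc ⊢
          omega
      · have e : Z'.neighborSet v = (Contr_ph x y) '' (Z.neighborSet v) := by
          ext b
          rw [SimpleGraph.mem_neighborSet, Set.mem_image]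
          constructor
          · intro hb
            have hby : b ≠ y := by
              rintro rfl
              exact hZy' _ hb
            by_cases hbx : b = x
            · subst hbx
              by_cases hA : (sk F).Adj b v
              · refine ⟨b, Or.inr (Or.inr (Or.inl ⟨rfl, hb.symm, hA⟩)), ?_⟩
                unfold Contr_ph
                rw [if_neg hne]
              · refine ⟨y, Or.inr (Or.inr (Or.inr (Or.inr (Or.inl ⟨rfl, hb.symm, hA⟩)))), ?_⟩
                unfold Contr_ph
                rw [if_pos rfl]
            · refine ⟨b, Or.inl ⟨hvx, hvy, hbx, hby, hb⟩, ?_⟩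
              unfold Contr_ph
              rw [if_neg hby]
          · rintro ⟨c, hc1, rfl⟩
            unfold Contr_ph
            rcases hc1 with h | h | h | h | h | h
            · rw [if_neg h.2.2.2.1]
              exact h.2.2.2.2
            · exact absurd h.1 hvx
            · rw [h.1, if_neg hne]
              exact h.2.1.symm
            · exact absurd h.1 hvy
            · rw [if_pos h.1]
              exact h.2.1.symm
            · rcases h.2 with h1 | h1
              · exact absurd h1.1 hvx
              · exact absurd h1.1 hvy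
        have h1 := hev v
        rw [e, Set.ncard_image_of_injOn] at h1
        · exact h1
        · have hkey : ∀ c ∈ Z.neighborSet v, (c = x → v ∈ P) ∧ (c = y → v ∈ Q) := by
            intro c hc1
            rcases hc1 with h | h | h | h | h | h
            · exact ⟨fun h' => absurd h' h.2.2.1, fun h' => absurd h' h.2.2.2.1⟩
            · exact absurd h.1 hvx
            · exact ⟨fun _ => h.2, fun h' => absurd (h.1.symm.trans h') hne⟩
            · exact absurd h.1 hvy
            · exact ⟨fun h' => absurd (h'.symm.trans h.1) hne, fun _ => h.2⟩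
            · rcases h.2 with h1 | h1
              · exact absurd h1.1 hvx
              · exact absurd h1.1 hvy
          intro c hc1 d hd1 hcd
          have k1 := hkey c hc1
          have k2 := hkey d hd1
          unfold Contr_ph at hcd
          split_ifs at hcd with h2 h3 h3
          · rw [h2, h3]
          · exact absurd (k2.1 hcd.symm).2 (k1.2 h2).2
          · exact absurd (k1.1 hcd).2 (k2.2 h3).2
          · exact hcd
    obtain ⟨H, hHF, hH⟩ := hF.bd Z hZle hZev
    refine ⟨Contr_pr x y H, ?_, ?_⟩
    · intro s hs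
      obtain ⟨t, ht, h1, rfl⟩ := Contr_mem_pr.1 hs
      exact Contr_mem_pr.2 ⟨t, hHF ht, h1, rfl⟩
    · have hbx : ∀ b, b ≠ x → b ≠ y → (Odd (cn (Contr_pr x y H) x b) ↔ Z'.Adj x b) := by
        intro b hbx hby
        have h1 := Contr_cn_x hne hinj hHF hbx hby
        have h2 := hH x b hbx.symm
        have h3 := hH y b hby.symm
        have h4 : Z.Adj x b ↔ b ∈ P := by
          constructor
          · rintro (h | h | h | h | h | h)
            · exact absurd rfl h.1
            · exact h.2
            · exact absurd h.1 hbx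
            · exact absurd h.1 hne
            · exact absurd h.1 hby
            · rcases h.2 with h6 | h6
              · exact absurd h6.2 hby
              · exact absurd h6.2 hbx
          · intro h
            exact Or.inr (Or.inl ⟨rfl, h⟩)
        have h6 : Z.Adj y b ↔ b ∈ Q := by
          constructor
          · rintro (h | h | h | h | h | h)
            · exact absurd rfl h.2.1
            · exact absurd h.1 hne.symm
            · exact absurd h.1 hbx
            · exact h.2
            · exact absurd h.1 hby
            · rcases h.2 with h7 | h7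
              · exact absurd h7.2 hby
              · exact absurd h7.2 hbx
          · intro h
            exact Or.inr (Or.inr (Or.inr (Or.inl ⟨rfl, h⟩)))
        rw [h4] at h2
        rw [h6] at h3
        have h7 : Z'.Adj x b ↔ (b ∈ P ∨ b ∈ Q) := by
          simp only [hP, hQ, Set.mem_ofPred_eq]
          tauto
        have h8 : ¬ (b ∈ P ∧ b ∈ Q) := fun h => h.2.2 h.1.2
        rw [h7, ← h2, ← h3]
        rw [← h2, ← h3] at h8
        rw [Nat.odd_iff, Nat.odd_iff] at h8
        rw [Nat.odd_iff, Nat.odd_iff, Nat.odd_iff]
        omega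
      intro a b hab
      by_cases hay : a = y
      · subst hay
        rw [Contr_cn_y hne]
        constructor
        · intro h
          exact absurd h (by decide)
        · intro h
          exact absurd h (hZy b)
      by_cases hby : b = y
      · subst hby
        rw [cn_comm, Contr_cn_y hne]
        constructor
        · intro h
          exact absurd h (by decide)
        · intro h
          exact absurd h (hZy' a)
      by_cases hax : a = x
      · subst hax
        exact hbx b hab.symm hby
      by_cases hbx' : b = x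
      · subst hbx'
        rw [cn_comm, hbx a hax hay]
        exact ⟨fun h => h.symm, fun h => h.symm⟩
      · rw [Contr_cn hF hne hinj hHF hax hay hbx' hby hab, hH a b hab]
        constructor
        · rintro (h | h | h | h | h | h)
          · exact h.2.2.2.2
          · exact absurd h.1 hax
          · exact absurd h.1 hbx'
          · exact absurd h.1 hay
          · exact absurd h.1 hby
          · rcases h.2 with h1 | h1
            · exact absurd h1.1 hax
            · exact absurd h1.1 hay
        · intro h
          exact Or.inl ⟨hax, hay, hbx', hby, h⟩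
  · -- the vertices
    ext v
    rw [Finset.mem_erase]
    constructor
    · intro hv
      obtain ⟨s, hs, hvs⟩ := mem_supp.1 hv
      obtain ⟨t, ht, h1, rfl⟩ := Contr_mem_pr.1 hs
      have hvy : v ≠ y := by
        rintro rfl
        exact Contr_mem_y hne t hvs
      refine ⟨hvy, ?_⟩
      by_cases hvx : v = x
      · rw [hvx]
        exact (adj_supp hxy).1
      · rw [Contr_mem hvx hvy] at hvs
        exact mem_supp.2 ⟨t, ht, hvs⟩
    · rintro ⟨hvy, hv⟩
      have hxz' := adj_supp (hxF' z hxz.symm hyz.symm (Or.inl hadxz))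
      have hxw' := adj_supp (hxF' w hxw.symm hyw.symm (Or.inl hadxw))
      by_cases hvx : v = x
      · rw [hvx]
        exact hxz'.1
      obtain ⟨t, ht, hvt⟩ := mem_supp.1 hv
      by_cases h1 : x ∈ t ∧ y ∈ t
      · have h2 : (sk F).Adj x v := ⟨fun h => hvx h.symm, t, ht, h1.1, hvt⟩
        exact (adj_supp (hxF' v hvx hvy (Or.inl h2))).2
      · exact mem_supp.2 ⟨t.image (Contr_ph x y), Contr_mem_pr.2 ⟨t, ht, h1, rfl⟩,
          (Contr_mem hvx hvy t).2 hvt⟩

end Pool.Agent.Lib.MP_a33b01_co
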