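import Mathlib
import Pool.Agent.Lib.MP_a33b01_co.SphB

set_option autoImplicit false

/-!
# MP_a33b01_co: cutting along a 4-cycle
-/

namespace Pool.Agent.Lib.MP_a33b01_co

open Classical

variable {V : Type}

/-- the edges of the 4-cycle `a b c d` -/
private def cq_Z (a b c d x y : V) : Prop :=
  (x = a ∧ y = b) ∨ (x = b ∧ y = a) ∨ (x = b ∧ y = c) ∨ (x = c ∧ y = b) ∨
    (x = c ∧ y = d) ∨ (x = d ∧ y = c) ∨ (x = d ∧ y = a) ∨ (x = a ∧ y = d)

private structure cq_D (F H : Finset (Finset V)) (a b c d : V) : Prop where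
  hF : Sph F
  hab : (sk F).Adj a b
  hbc : (sk F).Adj b c
  hcd : (sk F).Adj c d
  hda : (sk F).Adj d a
  hac : a ≠ c
  hbd : b ≠ d
  nac : ¬ (sk F).Adj a c
  nbd : ¬ (sk F).Adj b d
  sub : H ⊆ F
  odd : ∀ x y, x ≠ y → (Odd (cn H x y) ↔ cq_Z a b c d x y)

private theorem cq_cn {H : Finset (Finset V)} {x y : V} :
    cn H x y ≠ 0 ↔ ∃ t ∈ H, x ∈ t ∧ y ∈ t := by
  unfold cn
  rw [Finset.card_ne_zero]
  constructor
  · rintro ⟨t, ht⟩
    rw [Finset.mem_filter] at ht
    exact ⟨t, ht.1, ht.2⟩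
  · rintro ⟨t, ht, h⟩
    exact ⟨t, Finset.mem_filter.2 ⟨ht, h⟩⟩

private theorem cq_symm {a b c d x y : V} (h : cq_Z a b c d x y) : cq_Z a b c d y x := by
  unfold cq_Z at *
  tauto

private theorem cq_par {a b c d : V} (hab : a ≠ b) (hbc : b ≠ c) (hcd : c ≠ d) (hda : d ≠ a)
    (hac : a ≠ c) (hbd : b ≠ d) (x y : V) (hxy : x ≠ y) :
    (Odd ((if x ∈ ({a, d, c} : Finset V) ∧ y ∈ ({a, d, c} : Finset V) then 1 else 0) +
      (if x ∈ ({a, b, c} : Finset V) ∧ y ∈ ({a, b, c} : Finset V) then 1 else 0)) ↔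
      cq_Z a b c d x y) := by
  unfold cq_Z
  have e1 := hab.symm
  have e2 := hbc.symm
  have e3 := hcd.symm
  have e4 := hda.symm
  have e5 := hac.symm
  have e6 := hbd.symm
  by_cases xa : x = a
  · subst xa
    by_cases yb : y = b
    · subst yb
      simp [*]
    by_cases yc : y = c
    · subst yc
      simp [*]
    by_cases yd : y = d
    · subst yd
      simp [*]
    simp [*]
  by_cases xb : x = b
  · subst xb
    by_cases ya : y = a
    · subst ya
      simp [*]
    by_cases yc : y = c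
    · subst yc
      simp [*]
    by_cases yd : y = d
    · subst yd
      simp [*]
    simp [*, hxy.symm]
  by_cases xc : x = c
  · subst xc
    by_cases ya : y = a
    · subst ya
      simp [*]
    by_cases yb : y = b
    · subst yb
      simp [*]
    by_cases yd : y = d
    · subst yd
      simp [*]
    simp [*]
  by_cases xd : x = d
  · subst xd
    by_cases ya : y = a
    · subst ya
      simp [*]
    by_cases yb : y = b
    · subst yb
      simp [*]
    by_cases yc : y = c
    · subst yc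
      simp [*]
    simp [*, hxy.symm]
  simp [*]

namespace cq_D

variable {F H : Finset (Finset V)} {a b c d : V}

private theorem ab (h : cq_D F H a b c d) : a ≠ b := h.hab.1
private theorem bc (h : cq_D F H a b c d) : b ≠ c := h.hbc.1
private theorem cd (h : cq_D F H a b c d) : c ≠ d := h.hcd.1
private theorem da (h : cq_D F H a b c d) : d ≠ a := h.hda.1

private theorem compl (h : cq_D F H a b c d) : cq_D F (F \ H) a b c d := by
  refine ⟨h.hF, h.hab, h.hbc, h.hcd, h.hda, h.hac, h.hbd, h.nac, h.nbd, Finset.sdiff_subset,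
    fun x y hxy => ?_⟩
  rw [← h.odd x y hxy]
  have h1 := cn_sdiff h.sub x y
  have h2 := even_cn h.hF hxy
  rw [Nat.even_iff] at h2
  rw [Nat.odd_iff, Nat.odd_iff]
  omega

private theorem le2 (h : cq_D F H a b c d) {x y : V} (hxy : x ≠ y) : cn F x y ≤ 2 := by
  by_cases ha : (sk F).Adj x y
  · exact (h.hF.two x y ha).le
  · by_contra hc
    exact ha (adj_iff_cn.2 ⟨hxy, by omega⟩)

private theorem ac0 (h : cq_D F H a b c d) {K : Finset (Finset V)} (hK : K ⊆ F) :
    cn K a c = 0 := by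
  have h1 : cn F a c = 0 := by
    by_contra hc
    exact h.nac (adj_iff_cn.2 ⟨h.hac, hc⟩)
  have h2 := cn_mono hK a c
  omega

private theorem zne (h : cq_D F H a b c d) {x y : V} (hz : cq_Z a b c d x y) : x ≠ y := by
  have h1 := h.ab
  have h2 := h.bc
  have h3 := h.cd
  have h4 := h.da
  rcases hz with ⟨rfl, rfl⟩ | ⟨rfl, rfl⟩ | ⟨rfl, rfl⟩ | ⟨rfl, rfl⟩ | ⟨rfl, rfl⟩ | ⟨rfl, rfl⟩ |
    ⟨rfl, rfl⟩ | ⟨rfl, rfl⟩
  · exact h1
  · exact h1.symm
  · exact h2
  · exact h2.symm
  · exact h3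
  · exact h3.symm
  · exact h4
  · exact h4.symm

private theorem zadj (h : cq_D F H a b c d) {x y : V} (hz : cq_Z a b c d x y) :
    (sk F).Adj x y := by
  rcases hz with ⟨rfl, rfl⟩ | ⟨rfl, rfl⟩ | ⟨rfl, rfl⟩ | ⟨rfl, rfl⟩ | ⟨rfl, rfl⟩ | ⟨rfl, rfl⟩ |
    ⟨rfl, rfl⟩ | ⟨rfl, rfl⟩
  · exact h.hab
  · exact h.hab.symm
  · exact h.hbc
  · exact h.hbc.symm
  · exact h.hcd
  · exact h.hcd.symm
  · exact h.hda
  · exact h.hda.symm

private theorem one (h : cq_D F H a b c d) {x y : V} (hz : cq_Z a b c d x y) :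
    cn H x y = 1 := by
  have hne := h.zne hz
  have h1 := (h.odd x y hne).2 hz
  have h2 := cn_mono h.sub x y
  have h3 := h.le2 hne
  rw [Nat.odd_iff] at h1
  omega

private theorem tw (h : cq_D F H a b c d) {x y : V} (hxy : x ≠ y) (hz : ¬ cq_Z a b c d x y)
    (h0 : cn H x y ≠ 0) : cn H x y = 2 ∧ cn F x y = 2 := by
  have h1 : ¬ Odd (cn H x y) := fun h1 => hz ((h.odd x y hxy).1 h1)
  have h2 := cn_mono h.sub x y
  have h3 := h.le2 hxy
  rw [Nat.odd_iff] at h1
  omega

private theorem allin (h : cq_D F H a b c d) {x y : V} (he : cn H x y = cn F x y)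
    {t : Finset V} (ht : t ∈ F) (hx : x ∈ t) (hy : y ∈ t) : t ∈ H := by
  by_contra hc
  have h1 := cn_sdiff h.sub x y
  have h2 : cn (F \ H) x y ≠ 0 := cq_cn.2 ⟨t, Finset.mem_sdiff.2 ⟨ht, hc⟩, hx, hy⟩
  omega

/-- all the faces at a vertex off the cycle are on the same side -/
private theorem side (h : cq_D F H a b c d) {v : V} (hv : v ∉ ({a, b, c, d} : Finset V))
    {t : Finset V} (ht : t ∈ H) (hvt : v ∈ t) {t' : Finset V} (ht' : t' ∈ F) (hvt' : v ∈ t') :
    t' ∈ H := by
  have hvz : ∀ x, ¬ cq_Z a b c d v x := by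
    intro x hz
    apply hv
    simp only [Finset.mem_insert, Finset.mem_singleton]
    rcases hz with ⟨h1, -⟩ | ⟨h1, -⟩ | ⟨h1, -⟩ | ⟨h1, -⟩ | ⟨h1, -⟩ | ⟨h1, -⟩ | ⟨h1, -⟩ | ⟨h1, -⟩ <;>
      simp [h1]
  have hthird : ∀ s ∈ F, v ∈ s → ∃ u ∈ s, u ≠ v := by
    intro s hs hvs
    by_contra hc
    push Not at hc
    have h1 : s ⊆ {v} := fun u hu => Finset.mem_singleton.2 (hc u hu)
    have h2 := Finset.card_le_card h1
    rw [h.hF.card s hs, Finset.card_singleton] at h2
    omega
  obtain ⟨u0, hu0, hu0v⟩ := hthird t (h.sub ht) hvt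
  obtain ⟨u1, hu1, hu1v⟩ := hthird t' ht' hvt'
  have h1 := link_conn h.hF v (W := {u | u ≠ v ∧ cn H v u ≠ 0}) (w := u0)
    ⟨hu0v, cq_cn.2 ⟨t, ht, hvt, hu0⟩⟩ ⟨hu0v.symm, t, h.sub ht, hvt, hu0⟩ (by
      rintro x ⟨hxv, hx0⟩ y hy
      obtain ⟨h2, h3⟩ := h.tw hxv.symm (hvz x) hx0
      have h4 : ({v, x, y} : Finset V) ∈ H :=
        h.allin (h2.trans h3.symm) hy (by simp) (by simp)
      refine ⟨?_, cq_cn.2 ⟨_, h4, by simp, by simp⟩⟩
      intro hyv
      exact (face_ne h.hF hy).2.2 hyv.symm) u1 ⟨hu1v.symm, t', ht', hvt', hu1⟩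
  obtain ⟨h2, h3⟩ := h.tw hu1v.symm (hvz u1) h1.2
  exact h.allin (h2.trans h3.symm) ht' hvt' hu1

private theorem ta (h : cq_D F H a b c d) : ({a, b, c} : Finset V) ∉ F := by
  intro hc
  exact h.nac (face_adj h.hF hc).2.2

private theorem tb (h : cq_D F H a b c d) : ({a, d, c} : Finset V) ∉ F := by
  intro hc
  exact h.nac (face_adj h.hF hc).2.2

private theorem tab (h : cq_D F H a b c d) : ({a, b, c} : Finset V) ≠ {a, d, c} := by
  intro hc
  have h1 : b ∈ ({a, d, c} : Finset V) := by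
    rw [← hc]
    simp
  simp only [Finset.mem_insert, Finset.mem_singleton] at h1
  rcases h1 with h1 | h1 | h1
  · exact h.ab h1.symm
  · exact h.hbd h1
  · exact h.bc h1

private theorem nn (h : cq_D F H a b c d) {K : Finset (Finset V)} (hK : K ⊆ F) :
    ({a, d, c} : Finset V) ∉ K ∧ ({a, b, c} : Finset V) ∉ insert ({a, d, c} : Finset V) K := by
  refine ⟨fun h1 => h.tb (hK h1), fun h1 => ?_⟩
  rw [Finset.mem_insert] at h1
  rcases h1 with h1 | h1
  · exact h.tab h1
  · exact h.ta (hK h1)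

private theorem cn1 (h : cq_D F H a b c d) {K : Finset (Finset V)} (hK : K ⊆ F) (x y : V) :
    cn (insert ({a, b, c} : Finset V) (insert ({a, d, c} : Finset V) K)) x y = cn K x y +
      ((if x ∈ ({a, d, c} : Finset V) ∧ y ∈ ({a, d, c} : Finset V) then 1 else 0) +
      (if x ∈ ({a, b, c} : Finset V) ∧ y ∈ ({a, b, c} : Finset V) then 1 else 0)) := by
  rw [cn_insert (h.nn hK).2, cn_insert (h.nn hK).1, add_assoc]

/-- `H` is not everything -/
private theorem nefull (h : cq_D F H a b c d) : H ≠ F := by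
  intro hc
  have h1 := (h.odd a b h.ab).2 (Or.inl ⟨rfl, rfl⟩)
  rw [hc] at h1
  exact (Nat.not_odd_iff_even.2 (even_cn h.hF h.ab)) h1

private theorem nefull' (h : cq_D F H a b c d) : F \ H ≠ F := h.compl.nefull

/-- an even set of faces contained in `H` is empty -/
private theorem zero (h : cq_D F H a b c d) {K : Finset (Finset V)} (hK : K ⊆ H)
    (he : ∀ x y, x ≠ y → Even (cn K x y)) : K = ∅ := by
  rcases h.hF.conn K (hK.trans h.sub) he with h1 | h1
  · exact h1
  · exfalso
    exact h.nefull (Finset.Subset.antisymm h.sub (h1 ▸ hK))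

private theorem full (h : cq_D F H a b c d) {K : Finset (Finset V)} (hK : K ⊆ H)
    (he : ∀ x y, x ≠ y → (Odd (cn K x y) ↔ cq_Z a b c d x y)) : K = H := by
  have h1 : H \ K = ∅ := by
    refine h.zero Finset.sdiff_subset fun x y hxy => ?_
    have h2 := cn_sdiff hK x y
    have h3 := he x y hxy
    rw [← h.odd x y hxy, Nat.odd_iff, Nat.odd_iff] at h3
    rw [Nat.even_iff]
    omega
  exact Finset.Subset.antisymm hK (Finset.sdiff_eq_empty_iff_subset.1 h1)

private theorem pair {p q : V} {S : Set V} (hpq : p ≠ q) (hS : S ⊆ {p, q}) (he : Even S.ncard) :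
    p ∈ S ↔ q ∈ S := by
  constructor
  · intro hp
    by_contra hq
    have h1 : S = {p} := by
      ext x
      constructor
      · intro hx
        rcases hS hx with rfl | h2
        · rfl
        · exact absurd ((Set.mem_singleton_iff.1 h2) ▸ hx) hq
      · intro hx
        rw [Set.mem_singleton_iff.1 hx]
        exact hp
    rw [h1, Set.ncard_singleton] at he
    exact absurd he (by decide)
  · intro hq
    by_contra hp
    have h1 : S = {q} := by
      ext x
      constructor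
      · intro hx
        rcases hS hx with rfl | h2
        · exact absurd hx hp
        · exact h2
      · intro hx
        rw [Set.mem_singleton_iff.1 hx]
        exact hq
    rw [h1, Set.ncard_singleton] at he
    exact absurd he (by decide)

/-- an even subset of the 4-cycle is empty or everything -/
private theorem cyc (h : cq_D F H a b c d) {K : Finset (Finset V)} (hK : K ⊆ F)
    (hz : ∀ x y, x ≠ y → Odd (cn K x y) → cq_Z a b c d x y) :
    (∀ x y, x ≠ y → Even (cn K x y)) ∨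
      (∀ x y, x ≠ y → (Odd (cn K x y) ↔ cq_Z a b c d x y)) := by
  have hcard : ∀ t ∈ K, t.card = 3 := fun t ht => h.hF.card t (hK ht)
  have e1 := h.ab
  have e2 := h.bc
  have e3 := h.cd
  have e4 := h.da
  have e5 := h.hac
  have e6 := h.hbd
  have hb : Odd (cn K b a) ↔ Odd (cn K b c) := by
    have h1 := pair (p := a) (q := c) h.hac (S := {x | x ≠ b ∧ Odd (cn K b x)}) (by
      rintro x ⟨hx1, hx2⟩
      have h2 := hz b x hx1.symm hx2
      unfold cq_Z at h2
      simp only [Set.mem_insert_iff, Set.mem_singleton_iff]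
      rcases h2 with h2 | h2 | h2 | h2 | h2 | h2 | h2 | h2
      · exact absurd h2.1.symm e1
      · exact Or.inl h2.2
      · exact Or.inr h2.2
      · exact absurd h2.1 e2
      · exact absurd h2.1 e2
      · exact absurd h2.1 e6
      · exact absurd h2.1 e6
      · exact absurd h2.1.symm e1) (even_bd hcard b)
    simp only [Set.mem_ofPred_eq] at h1
    constructor
    · intro h2
      exact (h1.1 ⟨e1, h2⟩).2
    · intro h2
      exact (h1.2 ⟨e2.symm, h2⟩).2
  have hc : Odd (cn K c b) ↔ Odd (cn K c d) := by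
    have h1 := pair (p := b) (q := d) h.hbd (S := {x | x ≠ c ∧ Odd (cn K c x)}) (by
      rintro x ⟨hx1, hx2⟩
      have h2 := hz c x hx1.symm hx2
      unfold cq_Z at h2
      simp only [Set.mem_insert_iff, Set.mem_singleton_iff]
      rcases h2 with h2 | h2 | h2 | h2 | h2 | h2 | h2 | h2
      · exact absurd h2.1.symm e5
      · exact absurd h2.1.symm e2
      · exact absurd h2.1.symm e2
      · exact Or.inl h2.2
      · exact Or.inr h2.2
      · exact absurd h2.1 e3
      · exact absurd h2.1 e3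
      · exact absurd h2.1.symm e5) (even_bd hcard c)
    simp only [Set.mem_ofPred_eq] at h1
    constructor
    · intro h2
      exact (h1.1 ⟨e2, h2⟩).2
    · intro h2
      exact (h1.2 ⟨e3.symm, h2⟩).2
  have hd : Odd (cn K d c) ↔ Odd (cn K d a) := by
    have h1 := pair (p := c) (q := a) h.hac.symm (S := {x | x ≠ d ∧ Odd (cn K d x)}) (by
      rintro x ⟨hx1, hx2⟩
      have h2 := hz d x hx1.symm hx2
      unfold cq_Z at h2
      simp only [Set.mem_insert_iff, Set.mem_singleton_iff]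
      rcases h2 with h2 | h2 | h2 | h2 | h2 | h2 | h2 | h2
      · exact absurd h2.1 e4
      · exact absurd h2.1.symm e6
      · exact absurd h2.1.symm e6
      · exact absurd h2.1.symm e3
      · exact absurd h2.1.symm e3
      · exact Or.inl h2.2
      · exact Or.inr h2.2
      · exact absurd h2.1 e4) (even_bd hcard d)
    simp only [Set.mem_ofPred_eq] at h1
    constructor
    · intro h2
      exact (h1.1 ⟨e3, h2⟩).2
    · intro h2
      exact (h1.2 ⟨e4.symm, h2⟩).2
  rw [cn_comm K c b] at hc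
  rw [cn_comm K d c] at hd
  by_cases hodd : Odd (cn K b a)
  · right
    intro x y hxy
    refine ⟨hz x y hxy, ?_⟩
    have h1 := hb.1 hodd
    have h2 := hc.1 h1
    have h3 := hd.1 h2
    intro h4
    rcases h4 with ⟨rfl, rfl⟩ | ⟨rfl, rfl⟩ | ⟨rfl, rfl⟩ | ⟨rfl, rfl⟩ | ⟨rfl, rfl⟩ | ⟨rfl, rfl⟩ |
      ⟨rfl, rfl⟩ | ⟨rfl, rfl⟩
    · rw [cn_comm]
      exact hodd
    · exact hodd
    · exact h1
    · rw [cn_comm]
      exact h1
    · exact h2
    · rw [cn_comm]
      exact h2
    · exact h3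
    · rw [cn_comm]
      exact h3
  · left
    intro x y hxy
    by_contra hne
    rw [Nat.not_even_iff_odd] at hne
    have h1 : ¬ Odd (cn K b c) := fun h1 => hodd (hb.2 h1)
    have h2 : ¬ Odd (cn K c d) := fun h2 => h1 (hc.2 h2)
    have h3 : ¬ Odd (cn K d a) := fun h3 => h2 (hd.2 h3)
    rcases hz x y hxy hne with ⟨rfl, rfl⟩ | ⟨rfl, rfl⟩ | ⟨rfl, rfl⟩ | ⟨rfl, rfl⟩ | ⟨rfl, rfl⟩ |
      ⟨rfl, rfl⟩ | ⟨rfl, rfl⟩ | ⟨rfl, rfl⟩
    · rw [cn_comm] at hne
      exact hodd hne
    · exact hodd hne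
    · exact h1 hne
    · rw [cn_comm] at hne
      exact h1 hne
    · exact h2 hne
    · rw [cn_comm] at hne
      exact h2 hne
    · exact h3 hne
    · rw [cn_comm] at hne
      exact h3 hne

/-- the new set of faces -/
private noncomputable abbrev N (H : Finset (Finset V)) (a b c d : V) : Finset (Finset V) :=
  insert ({a, b, c} : Finset V) (insert ({a, d, c} : Finset V) H)

private theorem adj_cases {x y : V}
    (hxy : (sk (N H a b c d)).Adj x y) :
    cq_Z a b c d x y ∨ ((x = a ∧ y = c) ∨ (x = c ∧ y = a)) ∨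
      (¬ cq_Z a b c d x y ∧ (∃ t ∈ H, x ∈ t ∧ y ∈ t) ∧
        ¬ (x ∈ ({a, d, c} : Finset V) ∧ y ∈ ({a, d, c} : Finset V)) ∧
        ¬ (x ∈ ({a, b, c} : Finset V) ∧ y ∈ ({a, b, c} : Finset V))) := by
  obtain ⟨hne, t, ht, hx, hy⟩ := hxy
  by_cases hz : cq_Z a b c d x y
  · exact Or.inl hz
  right
  by_cases hac : (x = a ∧ y = c) ∨ (x = c ∧ y = a)
  · exact Or.inl hac
  right
  have h1 : ¬ (x ∈ ({a, d, c} : Finset V) ∧ y ∈ ({a, d, c} : Finset V)) := by
    rintro ⟨h1, h2⟩
    simp only [Finset.mem_insert, Finset.mem_singleton] at h1 h2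
    unfold cq_Z at hz
    rcases h1 with rfl | rfl | rfl <;> rcases h2 with rfl | rfl | rfl <;> simp_all
  have h2 : ¬ (x ∈ ({a, b, c} : Finset V) ∧ y ∈ ({a, b, c} : Finset V)) := by
    rintro ⟨h1, h2⟩
    simp only [Finset.mem_insert, Finset.mem_singleton] at h1 h2
    unfold cq_Z at hz
    rcases h1 with rfl | rfl | rfl <;> rcases h2 with rfl | rfl | rfl <;> simp_all
  refine ⟨hz, ?_, h1, h2⟩
  unfold N at ht
  rw [Finset.mem_insert, Finset.mem_insert] at ht
  rcases ht with rfl | rfl | ht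
  · exact absurd ⟨hx, hy⟩ h2
  · exact absurd ⟨hx, hy⟩ h1
  · exact ⟨t, ht, hx, hy⟩

private theorem even_symmDiff {S T : Set V} (hS : S.Finite) (hT : T.Finite) (h1 : Even S.ncard)
    (h2 : Even T.ncard) : Even (symmDiff S T).ncard := by
  have h3 := Set.ncard_inter_add_ncard_sdiff_eq_ncard S T hS
  have h4 := Set.ncard_inter_add_ncard_sdiff_eq_ncard T S hT
  have h5 : (symmDiff S T).ncard = (S \ T).ncard + (T \ S).ncard := by
    have h6 : symmDiff S T = (S \ T) ∪ (T \ S) := rfl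
    rw [h6, Set.ncard_union_eq disjoint_sdiff_sdiff (hS.sdiff) (hT.sdiff)]
  rw [Set.inter_comm] at h4
  rw [Nat.even_iff] at *
  omega

private theorem card (h : cq_D F H a b c d) : ∀ t ∈ N H a b c d, t.card = 3 := by
  intro t ht
  unfold N at ht
  rw [Finset.mem_insert, Finset.mem_insert] at ht
  rcases ht with rfl | rfl | ht
  · exact Finset.card_eq_three.2 ⟨a, b, c, h.ab, h.hac, h.bc, rfl⟩
  · exact Finset.card_eq_three.2 ⟨a, d, c, h.da.symm, h.hac, h.cd.symm, rfl⟩
  · exact h.hF.card t (h.sub ht)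

private theorem two (h : cq_D F H a b c d) (x y : V) (hxy : (sk (N H a b c d)).Adj x y) :
    cn (N H a b c d) x y = 2 := by
  have hne := hxy.1
  unfold N
  rw [h.cn1 h.sub]
  rcases adj_cases hxy with h1 | h1 | ⟨h1, h2, h3, h4⟩
  · rw [h.one h1]
    have h2 := (cq_par h.ab h.bc h.cd h.da h.hac h.hbd x y hne).2 h1
    rw [Nat.odd_iff] at h2
    split_ifs at h2 ⊢ <;> omega
  · rcases h1 with ⟨rfl, rfl⟩ | ⟨rfl, rfl⟩
    · rw [h.ac0 h.sub]
      simp
    · rw [cn_comm, h.ac0 h.sub]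
      simp
  · rw [if_neg h3, if_neg h4]
    exact (h.tw hne h1 (cq_cn.2 h2)).1

private theorem conn (h : cq_D F H a b c d) (K : Finset (Finset V)) (hK : K ⊆ N H a b c d)
    (he : ∀ x y, x ≠ y → Even (cn K x y)) : K = ∅ ∨ K = N H a b c d := by
  have hK' : K ∩ H ⊆ F := Finset.inter_subset_right.trans h.sub
  have hmem : ∀ t ∈ K, t = {a, b, c} ∨ t = {a, d, c} ∨ t ∈ H := by
    intro t ht
    have h1 := hK ht
    unfold N at h1
    rwa [Finset.mem_insert, Finset.mem_insert] at h1
  have hac := he a c h.hac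
  by_cases hta : ({a, b, c} : Finset V) ∈ K
  · by_cases htb : ({a, d, c} : Finset V) ∈ K
    · right
      have h1 : K = N (K ∩ H) a b c d := by
        ext t
        unfold N
        rw [Finset.mem_insert, Finset.mem_insert, Finset.mem_inter]
        constructor
        · intro ht
          rcases hmem t ht with h2 | h2 | h2
          · exact Or.inl h2
          · exact Or.inr (Or.inl h2)
          · exact Or.inr (Or.inr ⟨ht, h2⟩)
        · rintro (rfl | rfl | h2)
          · exact hta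
          · exact htb
          · exact h2.1
      have h2 : K ∩ H = H := by
        refine h.full Finset.inter_subset_right fun x y hxy => ?_
        have h3 := he x y hxy
        have h4 := cq_par h.ab h.bc h.cd h.da h.hac h.hbd x y hxy
        rw [h1] at h3
        unfold N at h3
        rw [h.cn1 hK', Nat.even_iff] at h3
        rw [← h4, Nat.odd_iff, Nat.odd_iff]
        omega
      rw [h1, h2]
    · exfalso
      have h1 : K = insert ({a, b, c} : Finset V) (K ∩ H) := by
        ext t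
        rw [Finset.mem_insert, Finset.mem_inter]
        constructor
        · intro ht
          rcases hmem t ht with h2 | h2 | h2
          · exact Or.inl h2
          · exact absurd (h2 ▸ ht) htb
          · exact Or.inr ⟨ht, h2⟩
        · rintro (rfl | h2)
          · exact hta
          · exact h2.1
      rw [h1, cn_insert (fun h2 => h.ta (hK' h2)), h.ac0 hK'] at hac
      simp at hac
  · by_cases htb : ({a, d, c} : Finset V) ∈ K
    · exfalso
      have h1 : K = insert ({a, d, c} : Finset V) (K ∩ H) := by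
        ext t
        rw [Finset.mem_insert, Finset.mem_inter]
        constructor
        · intro ht
          rcases hmem t ht with h2 | h2 | h2
          · exact absurd (h2 ▸ ht) hta
          · exact Or.inl h2
          · exact Or.inr ⟨ht, h2⟩
        · rintro (rfl | h2)
          · exact htb
          · exact h2.1
      rw [h1, cn_insert (fun h2 => h.tb (hK' h2)), h.ac0 hK'] at hac
      simp at hac
    · left
      refine h.zero (fun t ht => ?_) he
      rcases hmem t ht with h2 | h2 | h2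
      · exact absurd (h2 ▸ ht) hta
      · exact absurd (h2 ▸ ht) htb
      · exact h2

private theorem bd0 (h : cq_D F H a b c d) (E : SimpleGraph V) (hE : E ≤ sk (N H a b c d))
    (he : EvenG E) (hac : ¬ E.Adj a c) :
    ∃ K ⊆ N H a b c d, ∀ x y, x ≠ y → (Odd (cn K x y) ↔ E.Adj x y) := by
  have hHN : H ⊆ N H a b c d := by
    intro t ht
    unfold N
    rw [Finset.mem_insert, Finset.mem_insert]
    exact Or.inr (Or.inr ht)
  have hEF : E ≤ sk F := by
    intro x y hxy
    rcases adj_cases (hE hxy) with h1 | h1 | ⟨h1, ⟨t, ht, h2⟩, h3, h4⟩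
    · exact h.zadj h1
    · rcases h1 with ⟨rfl, rfl⟩ | ⟨rfl, rfl⟩
      · exact absurd hxy hac
      · exact absurd hxy.symm hac
    · exact ⟨hxy.ne, t, h.sub ht, h2⟩
  obtain ⟨K, hKF, hK⟩ := h.hF.bd E hEF he
  have hK2 : K \ H ⊆ F \ H := Finset.sdiff_subset_sdiff hKF (Finset.Subset.refl H)
  have hz : ∀ x y, x ≠ y → Odd (cn (K \ H) x y) → cq_Z a b c d x y := by
    intro x y hxy hodd
    by_contra hz
    have h1 : cn (K \ H) x y ≠ 0 := by
      intro h0
      rw [h0] at hodd
      exact absurd hodd (by decide)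
    have h2 : cn (F \ H) x y ≠ 0 := by
      have := cn_mono hK2 x y
      omega
    obtain ⟨h3, h4⟩ := h.compl.tw hxy hz h2
    have h5 := cn_sdiff h.sub x y
    have h6 : cn H x y = 0 := by omega
    have h7 := cn_sdiff (Finset.inter_subset_left : K ∩ H ⊆ K) x y
    have h8 : K \ (K ∩ H) = K \ H := Finset.sdiff_inter_self_left K H
    have h9 := cn_mono (Finset.inter_subset_right : K ∩ H ⊆ H) x y
    rw [h8] at h7
    have h10 : cn K x y = cn (K \ H) x y := by omega
    rw [← h10] at hodd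
    have h11 := (hK x y hxy).1 hodd
    rcases adj_cases (hE h11) with h12 | h12 | ⟨h12, h13, -⟩
    · exact hz h12
    · rcases h12 with ⟨rfl, rfl⟩ | ⟨rfl, rfl⟩
      · exact hac h11
      · exact hac h11.symm
    · exact cq_cn.2 h13 h6
  rcases h.compl.cyc (Finset.sdiff_subset.trans hKF) hz with h1 | h1
  · have h2 := h.compl.zero hK2 h1
    have h3 : K ⊆ H := Finset.sdiff_eq_empty_iff_subset.1 h2
    exact ⟨K, h3.trans hHN, hK⟩
  · have h2 := h.compl.full hK2 h1
    refine ⟨F \ K, ?_, ?_⟩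
    · intro t ht
      rw [Finset.mem_sdiff] at ht
      apply hHN
      by_contra hc
      have h3 : t ∈ F \ H := Finset.mem_sdiff.2 ⟨ht.1, hc⟩
      rw [← h2, Finset.mem_sdiff] at h3
      exact ht.2 h3.1
    · intro x y hxy
      rw [← hK x y hxy]
      have h3 := cn_sdiff hKF x y
      have h4 := even_cn h.hF hxy
      rw [Nat.even_iff] at h4
      rw [Nat.odd_iff, Nat.odd_iff]
      omega

private theorem bd (h : cq_D F H a b c d) (E : SimpleGraph V) (hE : E ≤ sk (N H a b c d))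
    (he : EvenG E) :
    ∃ K ⊆ N H a b c d, ∀ x y, x ≠ y → (Odd (cn K x y) ↔ E.Adj x y) := by
  by_cases hac : E.Adj a c
  · obtain ⟨T, hT⟩ : ∃ T : SimpleGraph V, ∀ x y, T.Adj x y ↔
        x ≠ y ∧ x ∈ ({a, b, c} : Finset V) ∧ y ∈ ({a, b, c} : Finset V) :=
      ⟨⟨fun x y => x ≠ y ∧ x ∈ ({a, b, c} : Finset V) ∧ y ∈ ({a, b, c} : Finset V),
        ⟨fun x y h1 => ⟨h1.1.symm, h1.2.2, h1.2.1⟩⟩, ⟨fun x h1 => h1.1 rfl⟩⟩, fun x y => Iff.rfl⟩
    obtain ⟨E', hE'⟩ : ∃ E' : SimpleGraph V, ∀ x y, E'.Adj x y ↔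
        ¬ (E.Adj x y ↔ T.Adj x y) :=
      ⟨⟨fun x y => ¬ (E.Adj x y ↔ T.Adj x y), ⟨fun x y h1 => by
          rw [E.adj_comm y x, T.adj_comm y x]
          exact h1⟩, ⟨fun x h1 => h1 (by simp)⟩⟩, fun x y => Iff.rfl⟩
    have htaN : ({a, b, c} : Finset V) ∈ N H a b c d := Finset.mem_insert_self _ _
    have hle : E' ≤ sk (N H a b c d) := by
      intro x y hxy
      rw [hE'] at hxy
      by_cases h1 : E.Adj x y
      · exact hE h1
      · by_cases h2 : T.Adj x y
        · rw [hT] at h2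
          exact ⟨h2.1, _, htaN, h2.2⟩
        · exact absurd (iff_of_false h1 h2) hxy
    have heven : EvenG E' := by
      intro v
      have h1 : E'.neighborSet v = symmDiff (E.neighborSet v) (T.neighborSet v) := by
        ext x
        rw [SimpleGraph.mem_neighborSet, hE', Set.mem_symmDiff, SimpleGraph.mem_neighborSet,
          SimpleGraph.mem_neighborSet]
        tauto
      rw [h1]
      refine even_symmDiff ?_ ?_ (he v) ?_
      · refine (supp (N H a b c d)).finite_toSet.subset fun x hx => ?_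
        exact (adj_supp (hE hx)).2
      · refine ({a, b, c} : Finset V).finite_toSet.subset fun x hx => ?_
        exact ((hT v x).1 hx).2.2
      · by_cases hv : v ∈ ({a, b, c} : Finset V)
        · have h2 : T.neighborSet v = ((({a, b, c} : Finset V).erase v : Finset V) : Set V) := by
            ext x
            rw [SimpleGraph.mem_neighborSet, hT, Finset.mem_coe, Finset.mem_erase]
            exact ⟨fun h3 => ⟨h3.1.symm, h3.2.2⟩, fun h3 => ⟨h3.1.symm, hv, h3.2⟩⟩
          rw [h2, Set.ncard_coe_finset, Finset.card_erase_of_mem hv, h.card _ htaN]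
          decide
        · have h2 : T.neighborSet v = ∅ := by
            ext x
            rw [SimpleGraph.mem_neighborSet, hT]
            simp only [Set.mem_empty_iff_false, iff_false]
            exact fun h3 => hv h3.2.1
          rw [h2, Set.ncard_empty]
          decide
    have hnac : ¬ E'.Adj a c := by
      rw [hE', not_not]
      exact iff_of_true hac ((hT a c).2 ⟨h.hac, by simp, by simp⟩)
    obtain ⟨K, hKN, hK⟩ := h.bd0 E' hle heven hnac
    refine ⟨symmDiff K {({a, b, c} : Finset V)}, ?_, ?_⟩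
    · intro t ht
      rw [Finset.mem_symmDiff] at ht
      rcases ht with ht | ht
      · exact hKN ht.1
      · rw [Finset.mem_singleton.1 ht.1]
        exact htaN
    · intro x y hxy
      rw [cn_symmDiff, hK x y hxy, hE']
      have h1 : cn {({a, b, c} : Finset V)} x y =
          if x ∈ ({a, b, c} : Finset V) ∧ y ∈ ({a, b, c} : Finset V) then 1 else 0 := by
        have h2 := cn_insert (H := ∅) (t := ({a, b, c} : Finset V)) (Finset.notMem_empty _) x y
        have h3 : cn (∅ : Finset (Finset V)) x y = 0 := by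
          unfold cn
          simp
        rw [h3, zero_add] at h2
        exact h2
      have h2 : Odd (cn {({a, b, c} : Finset V)} x y) ↔ T.Adj x y := by
        rw [h1, hT]
        by_cases h3 : x ∈ ({a, b, c} : Finset V) ∧ y ∈ ({a, b, c} : Finset V)
        · rw [if_pos h3]
          exact iff_of_true (by decide) ⟨hxy, h3⟩
        · rw [if_neg h3]
          exact iff_of_false (by decide) fun h4 => h3 h4.2
      rw [h2]
      tauto
  · exact h.bd0 E hE he hac

private theorem sph (h : cq_D F H a b c d) : Sph (N H a b c d) :=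
  ⟨h.card, h.two, h.conn, h.bd⟩

private theorem corner (h : cq_D F H a b c d) {v : V} (hv : v ∈ ({a, b, c, d} : Finset V)) :
    v ∈ supp H := by
  have h1 : cn H a b ≠ 0 := by
    rw [h.one (Or.inl ⟨rfl, rfl⟩)]
    exact one_ne_zero
  have h2 : cn H c d ≠ 0 := by
    rw [h.one (Or.inr (Or.inr (Or.inr (Or.inr (Or.inl ⟨rfl, rfl⟩)))))]
    exact one_ne_zero
  obtain ⟨t, ht, h3, h4⟩ := cq_cn.1 h1
  obtain ⟨s, hs, h5, h6⟩ := cq_cn.1 h2
  simp only [Finset.mem_insert, Finset.mem_singleton] at hv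
  rw [mem_supp]
  rcases hv with rfl | rfl | rfl | rfl
  · exact ⟨t, ht, h3⟩
  · exact ⟨t, ht, h4⟩
  · exact ⟨s, hs, h5⟩
  · exact ⟨s, hs, h6⟩

private theorem sup (h : cq_D F H a b c d) {v : V} : v ∈ supp (N H a b c d) ↔ v ∈ supp H := by
  constructor
  · intro hv
    rw [mem_supp] at hv
    obtain ⟨t, ht, hvt⟩ := hv
    unfold N at ht
    rw [Finset.mem_insert, Finset.mem_insert] at ht
    rcases ht with rfl | rfl | ht
    · apply h.corner
      simp only [Finset.mem_insert, Finset.mem_singleton] at hvt ⊢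
      tauto
    · apply h.corner
      simp only [Finset.mem_insert, Finset.mem_singleton] at hvt ⊢
      tauto
    · exact mem_supp.2 ⟨t, ht, hvt⟩
  · intro hv
    rw [mem_supp] at hv ⊢
    obtain ⟨t, ht, hvt⟩ := hv
    refine ⟨t, ?_, hvt⟩
    unfold N
    rw [Finset.mem_insert, Finset.mem_insert]
    exact Or.inr (Or.inr ht)

private theorem exv (h : cq_D F H a b c d) :
    ∃ v ∈ supp (N H a b c d), v ∉ ({a, b, c, d} : Finset V) := by
  have h1 : cn H a b ≠ 0 := by
    rw [h.one (Or.inl ⟨rfl, rfl⟩)]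
    exact one_ne_zero
  obtain ⟨t, ht, h3, h4⟩ := cq_cn.1 h1
  obtain ⟨z, hz, hza, hzb⟩ := face_third h.hF (h.sub ht) h3 h4 h.ab
  refine ⟨z, h.sup.2 (mem_supp.2 ⟨t, ht, by rw [hz]; simp⟩), ?_⟩
  intro h5
  simp only [Finset.mem_insert, Finset.mem_singleton] at h5
  have h6 : ({a, b, z} : Finset V) ∈ F := hz ▸ h.sub ht
  rcases h5 with h5 | h5 | h5 | h5
  · exact hza h5
  · exact hzb h5
  · rw [h5] at h6
    exact h.nac (face_adj h.hF h6).2.2
  · rw [h5] at h6
    exact h.nbd (face_adj h.hF h6).2.1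

private theorem adj (h : cq_D F H a b c d) (x y : V) : (sk (N H a b c d)).Adj x y ↔
    x ∈ supp (N H a b c d) ∧ y ∈ supp (N H a b c d) ∧
      ((sk F).Adj x y ∨ (x = a ∧ y = c) ∨ (x = c ∧ y = a)) := by
  constructor
  · intro hxy
    refine ⟨(adj_supp hxy).1, (adj_supp hxy).2, ?_⟩
    rcases adj_cases hxy with h1 | h1 | ⟨h1, ⟨t, ht, h2⟩, h3⟩
    · exact Or.inl (h.zadj h1)
    · exact Or.inr h1
    · exact Or.inl ⟨hxy.1, t, h.sub ht, h2⟩
  · rintro ⟨hx, hy, hxy⟩
    have htaN : ({a, b, c} : Finset V) ∈ N H a b c d := Finset.mem_insert_self _ _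
    have hHN : H ⊆ N H a b c d := by
      intro t ht
      unfold N
      rw [Finset.mem_insert, Finset.mem_insert]
      exact Or.inr (Or.inr ht)
    rcases hxy with hxy | ⟨rfl, rfl⟩ | ⟨rfl, rfl⟩
    · obtain ⟨hne, t, ht, hxt, hyt⟩ := hxy
      by_cases hxz : x ∈ ({a, b, c, d} : Finset V)
      · by_cases hyz : y ∈ ({a, b, c, d} : Finset V)
        · have hadj : (sk F).Adj x y := ⟨hne, t, ht, hxt, hyt⟩
          have hz : cq_Z a b c d x y := by
            simp only [Finset.mem_insert, Finset.mem_singleton] at hxz hyz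
            have n1 := h.nac
            have n2 := h.nbd
            have n3 : ¬ (sk F).Adj c a := fun h1 => n1 h1.symm
            have n4 : ¬ (sk F).Adj d b := fun h1 => n2 h1.symm
            unfold cq_Z
            rcases hxz with rfl | rfl | rfl | rfl <;> rcases hyz with rfl | rfl | rfl | rfl <;>
              simp_all
          obtain ⟨s, hs, h2⟩ := cq_cn.1 (show cn H x y ≠ 0 by
            rw [h.one hz]
            exact one_ne_zero)
          exact ⟨hne, s, hHN hs, h2⟩
        · obtain ⟨s, hs, hys⟩ := mem_supp.1 (h.sup.1 hy)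
          exact ⟨hne, t, hHN (h.side hyz hs hys ht hyt), hxt, hyt⟩
      · obtain ⟨s, hs, hxs⟩ := mem_supp.1 (h.sup.1 hx)
        exact ⟨hne, t, hHN (h.side hxz hs hxs ht hxt), hxt, hyt⟩
    · exact ⟨h.hac, _, htaN, by simp, by simp⟩
    · exact ⟨h.hac.symm, _, htaN, by simp, by simp⟩

private theorem up (h : cq_D F H a b c d) : ∀ t ∈ F, ∀ v ∈ t, v ∈ supp (N H a b c d) →
    v ∉ ({a, b, c, d} : Finset V) → t ∈ N H a b c d := by
  intro t ht v hvt hv hvz
  obtain ⟨s, hs, hvs⟩ := mem_supp.1 (h.sup.1 hv)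
  unfold N
  rw [Finset.mem_insert, Finset.mem_insert]
  exact Or.inr (Or.inr (h.side hvz hs hvs ht hvt))

private theorem nout (h : cq_D F H a b c d) : ∀ x y, x ∈ supp (N H a b c d) →
    x ∉ ({a, b, c, d} : Finset V) → (sk F).Adj x y → y ∈ supp (N H a b c d) := by
  rintro x y hx hxz ⟨-, t, ht, hxt, hyt⟩
  exact mem_supp.2 ⟨t, h.up t ht x hxt hx hxz, hyt⟩

end cq_D

private theorem cq_even (a b c d : V) (hac : a ≠ c) (hbd : b ≠ d) (hab : a ≠ b) (hbc : b ≠ c)
    (hcd : c ≠ d) (hda : d ≠ a) (v : V) : Even {x | cq_Z a b c d v x}.ncard := by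
  have e1 := hab.symm
  have e2 := hbc.symm
  have e3 := hcd.symm
  have e4 := hda.symm
  have e5 := hac.symm
  have e6 := hbd.symm
  by_cases va : v = a
  · subst va
    have h1 : {x | cq_Z v b c d v x} = {b, d} := by
      ext x
      simp only [cq_Z, Set.mem_ofPred_eq, Set.mem_insert_iff, Set.mem_singleton_iff]
      simp [*]
    rw [h1, Set.ncard_pair hbd]
    decide
  by_cases vb : v = b
  · subst vb
    have h1 : {x | cq_Z a v c d v x} = {a, c} := by
      ext x
      simp only [cq_Z, Set.mem_ofPred_eq, Set.mem_insert_iff, Set.mem_singleton_iff]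
      simp [*]
    rw [h1, Set.ncard_pair hac]
    decide
  by_cases vc : v = c
  · subst vc
    have h1 : {x | cq_Z a b v d v x} = {b, d} := by
      ext x
      simp only [cq_Z, Set.mem_ofPred_eq, Set.mem_insert_iff, Set.mem_singleton_iff]
      simp [*]
    rw [h1, Set.ncard_pair hbd]
    decide
  by_cases vd : v = d
  · subst vd
    have h1 : {x | cq_Z a b c v v x} = {c, a} := by
      ext x
      simp only [cq_Z, Set.mem_ofPred_eq, Set.mem_insert_iff, Set.mem_singleton_iff]
      simp [*]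
    rw [h1, Set.ncard_pair hac.symm]
    decide
  have h1 : {x | cq_Z a b c d v x} = ∅ := by
    ext x
    simp only [cq_Z, Set.mem_ofPred_eq, Set.mem_empty_iff_false]
    simp [*]
  rw [h1, Set.ncard_empty]
  decide

theorem exists_cutQ {F : Finset (Finset V)} (hF : Sph F) {a b c d : V} (hab : (sk F).Adj a b)
    (hbc : (sk F).Adj b c) (hcd : (sk F).Adj c d) (hda : (sk F).Adj d a) (hac : a ≠ c)
    (hbd : b ≠ d) (nac : ¬ (sk F).Adj a c) (nbd : ¬ (sk F).Adj b d) :
    ∃ F₁ F₂, CutQ F F₁ F₂ a b c d := by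
  obtain ⟨Z, hZ⟩ : ∃ Z : SimpleGraph V, ∀ x y, Z.Adj x y ↔ x ≠ y ∧ cq_Z a b c d x y :=
    ⟨⟨fun x y => x ≠ y ∧ cq_Z a b c d x y, ⟨fun x y h1 => ⟨h1.1.symm, cq_symm h1.2⟩⟩,
      ⟨fun x h1 => h1.1 rfl⟩⟩, fun x y => Iff.rfl⟩
  have hzne : ∀ x y, cq_Z a b c d x y → x ≠ y := by
    have h1 := hab.1
    have h2 := hbc.1
    have h3 := hcd.1
    have h4 := hda.1
    intro x y hz
    rcases hz with ⟨rfl, rfl⟩ | ⟨rfl, rfl⟩ | ⟨rfl, rfl⟩ | ⟨rfl, rfl⟩ | ⟨rfl, rfl⟩ |
      ⟨rfl, rfl⟩ | ⟨rfl, rfl⟩ | ⟨rfl, rfl⟩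
    · exact h1
    · exact h1.symm
    · exact h2
    · exact h2.symm
    · exact h3
    · exact h3.symm
    · exact h4
    · exact h4.symm
  have hle : Z ≤ sk F := by
    intro x y hxy
    rw [hZ] at hxy
    rcases hxy.2 with ⟨rfl, rfl⟩ | ⟨rfl, rfl⟩ | ⟨rfl, rfl⟩ | ⟨rfl, rfl⟩ | ⟨rfl, rfl⟩ |
      ⟨rfl, rfl⟩ | ⟨rfl, rfl⟩ | ⟨rfl, rfl⟩
    · exact hab
    · exact hab.symm
    · exact hbc
    · exact hbc.symm
    · exact hcd
    · exact hcd.symm
    · exact hda
    · exact hda.symm
  have heven : EvenG Z := by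
    intro v
    have h1 : Z.neighborSet v = {x | cq_Z a b c d v x} := by
      ext x
      rw [SimpleGraph.mem_neighborSet, hZ]
      exact ⟨fun h2 => h2.2, fun h2 => ⟨hzne v x h2, h2⟩⟩
    rw [h1]
    exact cq_even a b c d hac hbd hab.1 hbc.1 hcd.1 hda.1 v
  obtain ⟨H, hHF, hH⟩ := hF.bd Z hle heven
  have h : cq_D F H a b c d := by
    refine ⟨hF, hab, hbc, hcd, hda, hac, hbd, nac, nbd, hHF, fun x y hxy => ?_⟩
    rw [hH x y hxy, hZ]
    exact ⟨fun h1 => h1.2, fun h1 => ⟨hxy, h1⟩⟩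
  have h' := h.compl
  refine ⟨cq_D.N H a b c d, cq_D.N (F \ H) a b c d, h.sph, h'.sph, ?_, ?_, h.exv, h'.exv, h.adj,
    h'.adj, h.nout, h'.nout, ?_, ?_, ?_, ?_, h.up, h'.up⟩
  · ext v
    rw [Finset.mem_union, h.sup, h'.sup, mem_supp, mem_supp, mem_supp]
    constructor
    · rintro (⟨t, ht, hv⟩ | ⟨t, ht, hv⟩)
      · exact ⟨t, hHF ht, hv⟩
      · exact ⟨t, (Finset.mem_sdiff.1 ht).1, hv⟩
    · rintro ⟨t, ht, hv⟩
      by_cases h1 : t ∈ H
      · exact Or.inl ⟨t, h1, hv⟩
      · exact Or.inr ⟨t, Finset.mem_sdiff.2 ⟨ht, h1⟩, hv⟩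
  · ext v
    rw [Finset.mem_inter, h.sup, h'.sup]
    constructor
    · rintro ⟨h1, h2⟩
      by_contra hv
      obtain ⟨t, ht, hvt⟩ := mem_supp.1 h1
      obtain ⟨s, hs, hvs⟩ := mem_supp.1 h2
      rw [Finset.mem_sdiff] at hs
      exact hs.2 (h.side hv ht hvt hs.1 hvs)
    · intro hv
      exact ⟨h.corner hv, h'.corner hv⟩
  · exact Finset.mem_insert_self _ _
  · exact Finset.mem_insert_of_mem (Finset.mem_insert_self _ _)
  · exact Finset.mem_insert_self _ _
  · exact Finset.mem_insert_of_mem (Finset.mem_insert_self _ _)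

theorem CutQ.symm {F F₁ F₂ : Finset (Finset V)} {a b c d : V} (h : CutQ F F₁ F₂ a b c d) :
    CutQ F F₂ F₁ a b c d :=
  ⟨h.s2, h.s1, by rw [Finset.union_comm]; exact h.un, by rw [Finset.inter_comm]; exact h.inter,
    h.ne2, h.ne1, h.adj2, h.adj1, h.no', h.no, h.fb2, h.fd2, h.fb1, h.fd1, h.up2, h.up1⟩

end Pool.Agent.Lib.MP_a33b01_co
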