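import Mathlib
import Pool.Agent.Lib.MP_a33b01_co.SphB

set_option autoImplicit false

/-!
# MP_a33b01_co: cutting along a separating triangle
-/

namespace Pool.Agent.Lib.MP_a33b01_co

open Classical

variable {V : Type}

/-- `H` is a set of faces whose boundary is the triangle `T`, which is not a face. -/
private structure CutTri_S (F H : Finset (Finset V)) (T : Finset V) : Prop where
  hF : Sph F
  sub : H ⊆ F
  bd : ∀ a b, a ≠ b → (Odd (cn H a b) ↔ a ∈ T ∧ b ∈ T)
  adj : ∀ a ∈ T, ∀ b ∈ T, a ≠ b → (sk F).Adj a b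
  hT : T ∉ F
  card : T.card = 3

private theorem CutTri_S.compl {F H : Finset (Finset V)} {T : Finset V} (h : CutTri_S F H T) :
    CutTri_S F (F \ H) T := by
  refine ⟨h.hF, Finset.sdiff_subset, ?_, h.adj, h.hT, h.card⟩
  intro a b hab
  have h1 := cn_sdiff h.sub a b
  have h2 := even_cn h.hF hab
  rw [← h.bd a b hab]
  rw [← h1, Nat.even_add] at h2
  rw [← Nat.not_even_iff_odd, ← Nat.not_even_iff_odd, h2]

private theorem CutTri_exists {F H : Finset (Finset V)} {T : Finset V} (h : CutTri_S F H T) :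
    ∃ a ∈ T, ∃ b ∈ T, a ≠ b := by
  obtain ⟨a, ha, b, hb, hab⟩ := Finset.one_lt_card.1 (by rw [h.card]; norm_num : 1 < T.card)
  exact ⟨a, ha, b, hb, hab⟩

private theorem CutTri_ne_F {F H : Finset (Finset V)} {T : Finset V} (h : CutTri_S F H T) :
    H ≠ F := by
  intro he
  obtain ⟨a, ha, b, hb, hab⟩ := CutTri_exists h
  have h1 := (h.bd a b hab).2 ⟨ha, hb⟩
  rw [he, h.hF.two a b (h.adj a ha b hb hab)] at h1
  exact absurd h1 (by decide)

private theorem CutTri_ne_empty {F H : Finset (Finset V)} {T : Finset V} (h : CutTri_S F H T) :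
    H ≠ ∅ := by
  intro he
  have h1 := CutTri_ne_F h.compl
  rw [he, Finset.sdiff_empty] at h1
  exact h1 rfl

private theorem CutTri_cn_pos {H : Finset (Finset V)} {t : Finset V} {a b : V} (ht : t ∈ H)
    (ha : a ∈ t) (hb : b ∈ t) : 0 < cn H a b := by
  unfold cn
  exact Finset.card_pos.2 ⟨t, Finset.mem_filter.2 ⟨ht, ha, hb⟩⟩

private theorem CutTri_of_cn_zero {H : Finset (Finset V)} {t : Finset V} {a b : V}
    (h : cn H a b = 0) (ha : a ∈ t) (hb : b ∈ t) : t ∉ H := fun ht => by
  have := CutTri_cn_pos ht ha hb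
  omega

/-- An edge which is not in the triangle has both faces in `H` if it has one. -/
private theorem CutTri_edge {F H : Finset (Finset V)} {T : Finset V} (h : CutTri_S F H T)
    {a b : V} (hab : a ≠ b) (hT : ¬ (a ∈ T ∧ b ∈ T)) {t : Finset V} (ht : t ∈ H) (ha : a ∈ t)
    (hb : b ∈ t) : cn H a b = 2 ∧ ∀ s ∈ F, a ∈ s → b ∈ s → s ∈ H := by
  have h1 := CutTri_cn_pos ht ha hb
  have h2 : (sk F).Adj a b := ⟨hab, t, h.sub ht, ha, hb⟩
  have h3 := h.hF.two a b h2
  have h4 := cn_sdiff h.sub a b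
  have h5 : ¬ Odd (cn H a b) := fun ho => hT ((h.bd a b hab).1 ho)
  rw [Nat.not_odd_iff_even] at h5
  obtain ⟨k, hk⟩ := h5
  refine ⟨by omega, fun s hs has hbs => ?_⟩
  by_contra hn
  have h6 := CutTri_cn_pos (Finset.mem_sdiff.2 ⟨hs, hn⟩) has hbs
  omega

private theorem CutTri_V {F H : Finset (Finset V)} {T : Finset V} (h : CutTri_S F H T) {v : V}
    (hv : v ∉ T) {t : Finset V} (ht : t ∈ H) (hvt : v ∈ t) : ∀ s ∈ F, v ∈ s → s ∈ H := by
  have hother : ∀ s ∈ F, v ∈ s → ∃ b ∈ s, b ≠ v := by
    intro s hs hvs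
    have h1 := h.hF.card s hs
    exact Finset.exists_mem_ne (by omega) v
  have hW : ∀ s ∈ H, ∀ b, v ∈ s → b ∈ s → b ≠ v →
      (sk F).Adj v b ∧ ∀ s ∈ F, v ∈ s → b ∈ s → s ∈ H := by
    intro s hs b hvs hbs hbv
    exact ⟨⟨Ne.symm hbv, s, h.sub hs, hvs, hbs⟩,
      (CutTri_edge h (Ne.symm hbv) (fun hT => hv hT.1) hs hvs hbs).2⟩
  obtain ⟨w, hwt, hwv⟩ := hother t (h.sub ht) hvt
  have hw := hW t ht w hvt hwt hwv
  have hall := link_conn h.hF v (W := {b | (sk F).Adj v b ∧ ∀ s ∈ F, v ∈ s → b ∈ s → s ∈ H})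
    hw hw.1 (by
      intro a ha b hf
      have hne := face_ne h.hF hf
      have hs : ({v, a, b} : Finset V) ∈ H := ha.2 _ hf (by simp) (by simp)
      exact hW _ hs b (by simp) (by simp) (Ne.symm hne.2.2))
  intro s hs hvs
  obtain ⟨b, hbs, hbv⟩ := hother s hs hvs
  exact (hall b ⟨Ne.symm hbv, s, hs, hvs, hbs⟩).2 s hs hvs hbs

private theorem CutTri_le {F H : Finset (Finset V)} {T : Finset V} (h : CutTri_S F H T) :
    sk (insert T H) ≤ sk F := by
  intro a b hab
  obtain ⟨hne, t, ht, ha, hb⟩ := hab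
  rw [Finset.mem_insert] at ht
  rcases ht with rfl | ht
  · exact h.adj a ha b hb hne
  · exact ⟨hne, t, h.sub ht, ha, hb⟩

private theorem CutTri_ins {F H : Finset (Finset V)} {T : Finset V} (h : CutTri_S F H T)
    (a b : V) : cn (insert T H) a b = cn H a b + if a ∈ T ∧ b ∈ T then 1 else 0 :=
  cn_insert (fun hT => h.hT (h.sub hT)) a b

private theorem CutTri_even {F H : Finset (Finset V)} {T : Finset V} (h : CutTri_S F H T)
    {K : Finset (Finset V)} (hK : K ⊆ H) (hbd : ∀ a b, a ≠ b → (Odd (cn K a b) ↔ Odd (cn H a b))) :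
    K = H := by
  have h1 : ∀ a b, a ≠ b → Even (cn (H \ K) a b) := by
    intro a b hab
    have h2 := cn_sdiff hK a b
    have h3 := hbd a b hab
    rw [← h2, ← Nat.not_even_iff_odd, ← Nat.not_even_iff_odd, Nat.even_add] at h3
    by_contra hn
    tauto
  rcases h.hF.conn (H \ K) (Finset.sdiff_subset.trans h.sub) h1 with h2 | h2
  · exact Finset.Subset.antisymm hK (Finset.sdiff_eq_empty_iff_subset.1 h2)
  · exfalso
    refine CutTri_ne_F h (Finset.Subset.antisymm h.sub ?_)
    rw [← h2]
    exact Finset.sdiff_subset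

private theorem CutTri_sph {F H : Finset (Finset V)} {T : Finset V} (h : CutTri_S F H T) :
    Sph (insert T H) := by
  refine ⟨?_, ?_, ?_, ?_⟩
  · intro t ht
    rw [Finset.mem_insert] at ht
    rcases ht with rfl | ht
    · exact h.card
    · exact h.hF.card t (h.sub ht)
  · intro a b hab
    have hF2 := h.hF.two a b (CutTri_le h hab)
    rw [CutTri_ins h]
    by_cases hT : a ∈ T ∧ b ∈ T
    · rw [if_pos hT]
      have h1 := (h.bd a b hab.1).2 hT
      have h2 := cn_mono h.sub a b
      obtain ⟨k, hk⟩ := h1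
      omega
    · rw [if_neg hT]
      obtain ⟨hne, t, ht, ha, hb⟩ := hab
      rw [Finset.mem_insert] at ht
      rcases ht with rfl | ht
      · exact absurd ⟨ha, hb⟩ hT
      · rw [(CutTri_edge h hne hT ht ha hb).1]
  · intro K hK hev
    by_cases hTK : T ∈ K
    · right
      have hsub : K.erase T ⊆ H := by
        intro t ht
        rw [Finset.mem_erase] at ht
        exact (Finset.mem_insert.1 (hK ht.2)).resolve_left ht.1
      have h1 : K.erase T = H := by
        refine CutTri_even h hsub fun a b hab => ?_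
        have h2 : cn K a b = cn (K.erase T) a b + if a ∈ T ∧ b ∈ T then 1 else 0 := by
          have h3 := cn_insert (Finset.notMem_erase T K) a b
          rwa [Finset.insert_erase hTK] at h3
        have h3 := hev a b hab
        rw [h.bd a b hab]
        rw [h2] at h3
        by_cases hT : a ∈ T ∧ b ∈ T
        · rw [if_pos hT, Nat.even_add_one, Nat.not_even_iff_odd] at h3
          exact ⟨fun _ => hT, fun _ => h3⟩
        · rw [if_neg hT, add_zero] at h3
          exact ⟨fun h4 => absurd h3 (Nat.not_even_iff_odd.2 h4), fun h4 => absurd h4 hT⟩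
      rw [← h1, Finset.insert_erase hTK]
    · left
      have hsub : K ⊆ H := by
        intro t ht
        refine (Finset.mem_insert.1 (hK ht)).resolve_left ?_
        rintro rfl
        exact hTK ht
      rcases h.hF.conn K (hsub.trans h.sub) hev with h1 | h1
      · exact h1
      · exfalso
        refine CutTri_ne_F h (Finset.Subset.antisymm h.sub ?_)
        rw [← h1]
        exact hsub
  · intro Z hZ hev
    obtain ⟨K, hK, hKZ⟩ := h.hF.bd Z (hZ.trans (CutTri_le h)) hev
    have hc := h.compl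
    -- the part of `K` outside `H`
    have hout : ∀ a b, a ≠ b → ¬ (a ∈ T ∧ b ∈ T) → ¬ Odd (cn (K \ H) a b) := by
      intro a b hab hT ho
      have h1 : 0 < cn (K \ H) a b := ho.pos
      unfold cn at h1
      obtain ⟨t, ht⟩ := Finset.card_pos.1 h1
      rw [Finset.mem_filter, Finset.mem_sdiff] at ht
      have ht2 : t ∈ F \ H := Finset.mem_sdiff.2 ⟨hK ht.1.1, ht.1.2⟩
      have h2 := (CutTri_edge hc hab hT ht2 ht.2.1 ht.2.2).2
      have h3 : K.filter (fun t => a ∈ t ∧ b ∈ t) = (K \ H).filter (fun t => a ∈ t ∧ b ∈ t) := by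
        ext s
        rw [Finset.mem_filter, Finset.mem_filter, Finset.mem_sdiff]
        constructor
        · rintro ⟨h4, h5⟩
          exact ⟨⟨h4, (Finset.mem_sdiff.1 (h2 s (hK h4) h5.1 h5.2)).2⟩, h5⟩
        · rintro ⟨h4, h5⟩
          exact ⟨h4.1, h5⟩
      have h4 : cn K a b = cn (K \ H) a b := by
        unfold cn
        rw [h3]
      rw [← h4, hKZ a b hab] at ho
      obtain ⟨_, s, hs, has, hbs⟩ := hZ ho
      rw [Finset.mem_insert] at hs
      rcases hs with rfl | hs
      · exact hT ⟨has, hbs⟩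
      · exact (Finset.mem_sdiff.1 (h2 s (h.sub hs) has hbs)).2 hs
    have hpar : ∀ a b c, T = {a, b, c} → a ≠ b → b ≠ c → a ≠ c →
        (Odd (cn (K \ H) a b) ↔ Odd (cn (K \ H) a c)) := by
      intro a b c hTe hab hbc hac
      have h1 := even_bd (H := K \ H) (fun t ht => h.hF.card t (hK (Finset.mem_sdiff.1 ht).1)) a
      have hset : {d | d ≠ a ∧ Odd (cn (K \ H) a d)} ⊆ ({b, c} : Set V) := by
        intro d hd
        by_contra hn
        refine hout a d (Ne.symm hd.1) ?_ hd.2
        rintro ⟨_, hdT⟩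
        rw [hTe, Finset.mem_insert, Finset.mem_insert, Finset.mem_singleton] at hdT
        rcases hdT with h2 | h2 | h2
        · exact hd.1 h2
        · exact hn (Or.inl h2)
        · exact hn (Or.inr h2)
      by_cases hb : Odd (cn (K \ H) a b) <;> by_cases hc' : Odd (cn (K \ H) a c)
      · exact ⟨fun _ => hc', fun _ => hb⟩
      · exfalso
        have h2 : {d | d ≠ a ∧ Odd (cn (K \ H) a d)} = {b} := by
          ext d
          rw [Set.mem_singleton_iff]
          constructor
          · intro hd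
            rcases hset hd with h3 | h3
            · exact h3
            · rw [h3] at hd
              exact absurd hd.2 hc'
          · rintro rfl
            exact ⟨Ne.symm hab, hb⟩
        rw [h2, Set.ncard_singleton] at h1
        exact absurd h1 (by decide)
      · exfalso
        have h2 : {d | d ≠ a ∧ Odd (cn (K \ H) a d)} = {c} := by
          ext d
          rw [Set.mem_singleton_iff]
          constructor
          · intro hd
            rcases hset hd with h3 | h3
            · rw [h3] at hd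
              exact absurd hd.2 hb
            · exact h3
          · rintro rfl
            exact ⟨Ne.symm hac, hc'⟩
        rw [h2, Set.ncard_singleton] at h1
        exact absurd h1 (by decide)
      · exact ⟨fun h3 => absurd h3 hb, fun h3 => absurd h3 hc'⟩
    obtain ⟨x, y, z, hxy, hxz, hyz, hTe⟩ := Finset.card_eq_three.1 h.card
    have p1 := hpar x y z hTe hxy hyz hxz
    have p2 := hpar y x z (by rw [hTe, Finset.insert_comm]) (Ne.symm hxy) hxz hyz
    rw [cn_comm (K \ H) y x] at p2
    have hall : ∀ a ∈ T, ∀ b ∈ T, a ≠ b → (Odd (cn (K \ H) a b) ↔ Odd (cn (K \ H) x y)) := by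
      intro a ha b hb hab
      rw [hTe, Finset.mem_insert, Finset.mem_insert, Finset.mem_singleton] at ha hb
      rcases ha with rfl | rfl | rfl <;> rcases hb with rfl | rfl | rfl
      · exact absurd rfl hab
      · rfl
      · exact p1.symm
      · rw [cn_comm]
      · exact absurd rfl hab
      · exact p2.symm
      · rw [cn_comm]; exact p1.symm
      · rw [cn_comm]; exact p2.symm
      · exact absurd rfl hab
    by_cases ho : Odd (cn (K \ H) x y)
    · -- `K \ H = F \ H`
      have h1 : K \ H = F \ H := by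
        refine CutTri_even hc (Finset.sdiff_subset_sdiff hK (Finset.Subset.refl H))
          fun a b hab => ?_
        rw [hc.bd a b hab]
        constructor
        · intro h2
          by_contra hn
          exact hout a b hab hn h2
        · rintro ⟨ha, hb⟩
          exact (hall a ha b hb hab).2 ho
      refine ⟨F \ K, ?_, ?_⟩
      · intro t ht
        rw [Finset.mem_sdiff] at ht
        refine Finset.mem_insert_of_mem ?_
        by_contra hn
        have h2 : t ∈ F \ H := Finset.mem_sdiff.2 ⟨ht.1, hn⟩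
        rw [← h1] at h2
        exact ht.2 (Finset.mem_sdiff.1 h2).1
      · intro a b hab
        rw [← hKZ a b hab]
        have h2 := cn_sdiff hK a b
        have h3 := even_cn h.hF hab
        rw [← h2, Nat.even_add] at h3
        rw [← Nat.not_even_iff_odd, ← Nat.not_even_iff_odd, h3]
    · -- `K \ H = ∅`
      have h1 : ∀ a b, a ≠ b → Even (cn (K \ H) a b) := by
        intro a b hab
        rw [← Nat.not_odd_iff_even]
        intro h2
        by_cases hT : a ∈ T ∧ b ∈ T
        · exact ho ((hall a hT.1 b hT.2 hab).1 h2)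
        · exact hout a b hab hT h2
      have h2 : K \ H = ∅ := by
        rcases h.hF.conn (K \ H) (Finset.sdiff_subset.trans hK) h1 with h2 | h2
        · exact h2
        · exfalso
          apply CutTri_ne_empty h
          rw [Finset.eq_empty_iff_forall_notMem]
          intro t ht
          have h3 := h.sub ht
          rw [← h2] at h3
          exact (Finset.mem_sdiff.1 h3).2 ht
      refine ⟨K, (Finset.sdiff_eq_empty_iff_subset.1 h2).trans (Finset.subset_insert T H), hKZ⟩

private theorem CutTri_mem {F H : Finset (Finset V)} {T : Finset V} (h : CutTri_S F H T) {v : V} :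
    v ∈ supp (insert T H) ↔ v ∈ T ∨ ∃ t ∈ H, v ∈ t := by
  rw [mem_supp]
  constructor
  · rintro ⟨t, ht, hv⟩
    rw [Finset.mem_insert] at ht
    rcases ht with rfl | ht
    · exact Or.inl hv
    · exact Or.inr ⟨t, ht, hv⟩
  · rintro (hv | ⟨t, ht, hv⟩)
    · exact ⟨T, Finset.mem_insert_self T H, hv⟩
    · exact ⟨t, Finset.mem_insert_of_mem ht, hv⟩

private theorem CutTri_ne1 {F H : Finset (Finset V)} {T : Finset V} (h : CutTri_S F H T) :
    ∃ v ∈ supp (insert T H), v ∉ T := by
  obtain ⟨t, ht⟩ := Finset.nonempty_iff_ne_empty.2 (CutTri_ne_empty h)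
  have h1 : ¬ t ⊆ T := by
    intro hs
    have h2 : t = T := Finset.eq_of_subset_of_card_le hs (by
      rw [h.card, h.hF.card t (h.sub ht)])
    exact h.hT (by rw [← h2]; exact h.sub ht)
  obtain ⟨v, hv, hvT⟩ := Finset.not_subset.1 h1
  exact ⟨v, (CutTri_mem h).2 (Or.inr ⟨t, ht, hv⟩), hvT⟩

private theorem CutTri_no {F H : Finset (Finset V)} {T : Finset V} (h : CutTri_S F H T) :
    ∀ x y, x ∈ supp (insert T H) → x ∉ T → (sk F).Adj x y →
      (sk (insert T H)).Adj x y ∧ y ∈ supp (insert T H) := by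
  intro a b ha haT hab
  obtain ⟨t, ht, hat⟩ := ((CutTri_mem h).1 ha).resolve_left haT
  obtain ⟨hne, s, hs, has, hbs⟩ := hab
  have h1 := CutTri_V h haT ht hat s hs has
  exact ⟨⟨hne, s, Finset.mem_insert_of_mem h1, has, hbs⟩, (CutTri_mem h).2 (Or.inr ⟨s, h1, hbs⟩)⟩

private theorem CutTri_adj {F H : Finset (Finset V)} {T : Finset V} (h : CutTri_S F H T) :
    ∀ x y, (sk (insert T H)).Adj x y ↔
      x ∈ supp (insert T H) ∧ y ∈ supp (insert T H) ∧ (sk F).Adj x y := by
  intro a b
  constructor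
  · intro hab
    have h1 := adj_supp hab
    exact ⟨h1.1, h1.2, CutTri_le h hab⟩
  · rintro ⟨ha, hb, hab⟩
    by_cases haT : a ∈ T
    · by_cases hbT : b ∈ T
      · exact ⟨hab.1, T, Finset.mem_insert_self T H, haT, hbT⟩
      · exact (CutTri_no h b a hb hbT hab.symm).1.symm
    · exact (CutTri_no h a b ha haT hab).1

theorem exists_cutT {F : Finset (Finset V)} (hF : Sph F) {x y z : V} (hxy : (sk F).Adj x y)
    (hyz : (sk F).Adj y z) (hxz : (sk F).Adj x z) (hn : ({x, y, z} : Finset V) ∉ F) :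
    ∃ F₁ F₂, CutT F F₁ F₂ {x, y, z} := by
  obtain ⟨T, hT⟩ : ∃ T : Finset V, T = {x, y, z} := ⟨_, rfl⟩
  rw [← hT] at hn ⊢
  have hcard : T.card = 3 := Finset.card_eq_three.2 ⟨x, y, z, hxy.1, hxz.1, hyz.1, hT⟩
  have hadj : ∀ a ∈ T, ∀ b ∈ T, a ≠ b → (sk F).Adj a b := by
    intro a ha b hb hab
    rw [hT, Finset.mem_insert, Finset.mem_insert, Finset.mem_singleton] at ha hb
    rcases ha with rfl | rfl | rfl <;> rcases hb with rfl | rfl | rfl
    · exact absurd rfl hab
    · exact hxy
    · exact hxz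
    · exact hxy.symm
    · exact absurd rfl hab
    · exact hyz
    · exact hxz.symm
    · exact hyz.symm
    · exact absurd rfl hab
  let Z : SimpleGraph V :=
    { Adj := fun a b => a ≠ b ∧ a ∈ T ∧ b ∈ T
      symm := ⟨fun _ _ h => ⟨h.1.symm, h.2.2, h.2.1⟩⟩
      loopless := ⟨fun _ h => h.1 rfl⟩ }
  have hZa : ∀ a b, Z.Adj a b ↔ a ≠ b ∧ a ∈ T ∧ b ∈ T := fun a b => Iff.rfl
  have hZF : Z ≤ sk F := fun a b hab => hadj a hab.2.1 b hab.2.2 hab.1
  have hZe : EvenG Z := by
    intro v
    by_cases hv : v ∈ T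
    · have h1 : Z.neighborSet v = ((T.erase v : Finset V) : Set V) := by
        ext b
        rw [SimpleGraph.mem_neighborSet, hZa, Finset.mem_coe, Finset.mem_erase]
        constructor
        · rintro ⟨h2, _, h3⟩
          exact ⟨Ne.symm h2, h3⟩
        · rintro ⟨h2, h3⟩
          exact ⟨Ne.symm h2, hv, h3⟩
      rw [h1, Set.ncard_coe_finset, Finset.card_erase_of_mem hv, hcard]
      decide
    · have h1 : Z.neighborSet v = ∅ := by
        ext b
        rw [SimpleGraph.mem_neighborSet, hZa]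
        constructor
        · rintro ⟨_, h2, _⟩
          exact absurd h2 hv
        · intro h2
          exact absurd h2 (Set.notMem_empty b)
      rw [h1, Set.ncard_empty]
      decide
  obtain ⟨H, hHF, hHZ⟩ := hF.bd Z hZF hZe
  have h : CutTri_S F H T := by
    refine ⟨hF, hHF, fun a b hab => ?_, hadj, hn, hcard⟩
    rw [hHZ a b hab, hZa]
    exact ⟨fun h1 => h1.2, fun h1 => ⟨hab, h1⟩⟩
  have hc := h.compl
  have hsF : ∀ t ∈ F, ∀ v ∈ t, v ∈ supp F := fun t ht v hv => mem_supp.2 ⟨t, ht, hv⟩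
  refine ⟨insert T H, insert T (F \ H), CutTri_sph h, CutTri_sph hc, ?_, ?_, CutTri_ne1 h,
    CutTri_ne1 hc, CutTri_adj h, CutTri_adj hc, fun a b ha haT hab => (CutTri_no h a b ha haT hab).2,
    fun a b ha haT hab => (CutTri_no hc a b ha haT hab).2⟩
  · ext v
    rw [Finset.mem_union, CutTri_mem h, CutTri_mem hc, mem_supp]
    constructor
    · rintro ((hv | ⟨t, ht, hv⟩) | (hv | ⟨t, ht, hv⟩))
      · obtain ⟨b, hb, hbv⟩ := Finset.exists_mem_ne (by omega : 1 < T.card) v
        obtain ⟨_, s, hs, hvs, _⟩ := hadj v hv b hb (Ne.symm hbv)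
        exact ⟨s, hs, hvs⟩
      · exact ⟨t, hHF ht, hv⟩
      · obtain ⟨b, hb, hbv⟩ := Finset.exists_mem_ne (by omega : 1 < T.card) v
        obtain ⟨_, s, hs, hvs, _⟩ := hadj v hv b hb (Ne.symm hbv)
        exact ⟨s, hs, hvs⟩
      · exact ⟨t, (Finset.mem_sdiff.1 ht).1, hv⟩
    · rintro ⟨t, ht, hv⟩
      by_cases hH : t ∈ H
      · exact Or.inl (Or.inr ⟨t, hH, hv⟩)
      · exact Or.inr (Or.inr ⟨t, Finset.mem_sdiff.2 ⟨ht, hH⟩, hv⟩)
  · ext v
    rw [Finset.mem_inter, CutTri_mem h, CutTri_mem hc]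
    constructor
    · rintro ⟨h1, h2⟩
      by_contra hv
      obtain ⟨t, ht, hvt⟩ := h1.resolve_left hv
      obtain ⟨s, hs, hvs⟩ := h2.resolve_left hv
      rw [Finset.mem_sdiff] at hs
      exact hs.2 (CutTri_V h hv ht hvt s hs.1 hvs)
    · intro hv
      exact ⟨Or.inl hv, Or.inl hv⟩

theorem CutT.symm {F F₁ F₂ : Finset (Finset V)} {Z : Finset V} (h : CutT F F₁ F₂ Z) :
    CutT F F₂ F₁ Z :=
  ⟨h.s2, h.s1, by rw [Finset.union_comm]; exact h.un, by rw [Finset.inter_comm]; exact h.inter,
    h.ne2, h.ne1, h.adj2, h.adj1, h.no', h.no⟩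

end Pool.Agent.Lib.MP_a33b01_co
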