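import Mathlib
import Pool.Agent.Lib.MP_a33b01_co.Defs

set_option autoImplicit false

/-!
# MP_a33b01_co: the game (monotonicity, free vertices, composition)
-/

namespace Pool.Agent.Lib.MP_a33b01_co

open Classical

variable {V : Type}

/-- Monotonicity: a sequence that is legal for `(G', f')` can be replayed for `(G, f)` if `f' ≤ f`
and `G ≤ G'` on `S`; all availabilities grow, and every surplus of `f` is gained. -/
theorem removes_mono {G G' : SimpleGraph V} {S : Finset V} {f f' : V → ℕ} {L' : List ℕ}
    (hf : ∀ u ∈ S, f' u ≤ f u) (hG : ∀ u ∈ S, ∀ v ∈ S, G.Adj u v → G'.Adj u v)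
    (h : Removes G' S f' L') :
    ∃ L, Removes G S f L ∧ List.Forall₂ (fun a b => a ≤ b) L' L ∧
      (L'.map fun a => a - 1).sum + ∑ u ∈ S, (f u - f' u) ≤ (L.map fun a => a - 1).sum := by
  induction h generalizing f with
  | nil f' => exact ⟨[], Removes.nil f, List.Forall₂.nil, by simp⟩
  | del S f' v L' hv hl h ih =>
    have hG1 : ∀ u ∈ S.erase v, ∀ x ∈ S.erase v, G.Adj u x → G'.Adj u x := fun u hu x hx =>
      hG u (Finset.mem_of_mem_erase hu) x (Finset.mem_of_mem_erase hx)
    have hf1 : ∀ u ∈ S.erase v, (if G'.Adj v u then f' u - 1 else f' u) ≤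
        (if G.Adj v u then f u - 1 else f u) := by
      intro u hu
      have hu1 := hf u (Finset.mem_of_mem_erase hu)
      by_cases h1 : G.Adj v u
      · rw [if_pos h1, if_pos (hG v hv u (Finset.mem_of_mem_erase hu) h1)]
        omega
      · rw [if_neg h1]
        split_ifs <;> omega
    obtain ⟨L, hL1, hL2, hL3⟩ := ih hf1 hG1
    beta_reduce at hL3
    refine ⟨(f v + 1) :: L, Removes.del S f v L hv (fun u hu huv => ?_) hL1,
      List.Forall₂.cons (by have := hf v hv; omega) hL2, ?_⟩
    · exact (hl u hu (hG v hv u hu huv)).trans (hf u hu)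
    · have h2 : ∑ u ∈ S.erase v, (f u - f' u) ≤ ∑ u ∈ S.erase v,
          ((if G.Adj v u then f u - 1 else f u) - (if G'.Adj v u then f' u - 1 else f' u)) := by
        refine Finset.sum_le_sum fun u hu => ?_
        have hu1 := hf u (Finset.mem_of_mem_erase hu)
        by_cases h1 : G.Adj v u
        · have h3 := hG v hv u (Finset.mem_of_mem_erase hu) h1
          have h4 := hl u (Finset.mem_of_mem_erase hu) h3
          rw [if_pos h1, if_pos h3]
          omega
        · rw [if_neg h1]
          split_ifs <;> omega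
      have h5 := Finset.add_sum_erase S (fun u => f u - f' u) hv
      have h6 := hf v hv
      simp only [List.map_cons, List.sum_cons]
      rw [← h5]
      omega
  | save S f' v w L' hv hw hvw hfw hl h ih =>
    have hG1 : ∀ u ∈ S.erase v, ∀ x ∈ S.erase v, G.Adj u x → G'.Adj u x := fun u hu x hx =>
      hG u (Finset.mem_of_mem_erase hu) x (Finset.mem_of_mem_erase hx)
    have h5 := Finset.add_sum_erase S (fun u => f u - f' u) hv
    have h6 := hf v hv
    have h7 := hf w hw
    by_cases hc : G.Adj v w ∧ f w = f' w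
    · obtain ⟨hc1, hc2⟩ := hc
      have hf1 : ∀ u ∈ S.erase v, (if G'.Adj v u ∧ u ≠ w then f' u - 1 else f' u) ≤
          (if G.Adj v u ∧ u ≠ w then f u - 1 else f u) := by
        intro u hu
        have hu1 := hf u (Finset.mem_of_mem_erase hu)
        by_cases h1 : G.Adj v u ∧ u ≠ w
        · rw [if_pos h1, if_pos ⟨hG v hv u (Finset.mem_of_mem_erase hu) h1.1, h1.2⟩]
          omega
        · rw [if_neg h1]
          split_ifs <;> omega
      obtain ⟨L, hL1, hL2, hL3⟩ := ih hf1 hG1
      beta_reduce at hL3
      refine ⟨(f v - f w) :: L, Removes.save S f v w L hv hw hc1 (by omega)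
        (fun u hu huv huw => (hl u hu (hG v hv u hu huv) huw).trans (hf u hu)) hL1,
        List.Forall₂.cons (by omega) hL2, ?_⟩
      have h2 : ∑ u ∈ S.erase v, (f u - f' u) ≤ ∑ u ∈ S.erase v,
          ((if G.Adj v u ∧ u ≠ w then f u - 1 else f u) -
            (if G'.Adj v u ∧ u ≠ w then f' u - 1 else f' u)) := by
        refine Finset.sum_le_sum fun u hu => ?_
        have hu1 := hf u (Finset.mem_of_mem_erase hu)
        by_cases h1 : G.Adj v u ∧ u ≠ w
        · have h3 := hG v hv u (Finset.mem_of_mem_erase hu) h1.1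
          have h4 := hl u (Finset.mem_of_mem_erase hu) h3 h1.2
          rw [if_pos h1, if_pos ⟨h3, h1.2⟩]
          omega
        · rw [if_neg h1]
          split_ifs <;> omega
      simp only [List.map_cons, List.sum_cons]
      rw [← h5]
      omega
    · have hcw : G.Adj v w → f' w < f w := by
        intro h1
        rcases Nat.lt_or_ge (f' w) (f w) with h8 | h8
        · exact h8
        · exact absurd ⟨h1, le_antisymm h8 h7⟩ hc
      have hf1 : ∀ u ∈ S.erase v, (if G'.Adj v u ∧ u ≠ w then f' u - 1 else f' u) ≤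
          (if G.Adj v u then f u - 1 else f u) := by
        intro u hu
        have hu1 := hf u (Finset.mem_of_mem_erase hu)
        by_cases h1 : G.Adj v u
        · rw [if_pos h1]
          by_cases huw : u = w
          · subst huw
            have := hcw h1
            rw [if_neg (by simp)]
            omega
          · rw [if_pos ⟨hG v hv u (Finset.mem_of_mem_erase hu) h1, huw⟩]
            omega
        · rw [if_neg h1]
          split_ifs <;> omega
      obtain ⟨L, hL1, hL2, hL3⟩ := ih hf1 hG1
      beta_reduce at hL3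
      refine ⟨(f v + 1) :: L, Removes.del S f v L hv (fun u hu huv => ?_) hL1,
        List.Forall₂.cons (by omega) hL2, ?_⟩
      · by_cases huw : u = w
        · subst huw
          have := hcw huv
          omega
        · exact (hl u hu (hG v hv u hu huv) huw).trans (hf u hu)
      · have h2 : ∑ u ∈ S.erase v, (f u - f' u) ≤ ∑ u ∈ S.erase v,
            (((if G.Adj v u then f u - 1 else f u) -
              (if G'.Adj v u ∧ u ≠ w then f' u - 1 else f' u)) + if u = w then 1 else 0) := by
          refine Finset.sum_le_sum fun u hu => ?_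
          have hu1 := hf u (Finset.mem_of_mem_erase hu)
          by_cases huw : u = w
          · subst huw
            rw [if_pos (rfl : u = u),
              if_neg (show ¬ (G'.Adj v u ∧ u ≠ u) from fun h => h.2 rfl)]
            split_ifs <;> omega
          · rw [if_neg huw]
            by_cases h1 : G.Adj v u
            · have h3 := hG v hv u (Finset.mem_of_mem_erase hu) h1
              have h4 := hl u (Finset.mem_of_mem_erase hu) h3 huw
              rw [if_pos h1, if_pos ⟨h3, huw⟩]
              omega
            · rw [if_neg h1]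
              split_ifs <;> omega
        rw [Finset.sum_add_distrib, Finset.sum_ite_eq'] at h2
        have h9 : (if w ∈ S.erase v then 1 else 0) ≤ 1 := by
          split_ifs <;> omega
        simp only [List.map_cons, List.sum_cons]
        rw [← h5]
        omega

theorem wg_nil (G : SimpleGraph V) (f : V → ℕ) : Wg G ∅ f 0 :=
  ⟨[], Removes.nil f, by simp⟩

theorem wg_le {G : SimpleGraph V} {S : Finset V} {f : V → ℕ} {X Y : ℕ} (h : Wg G S f X)
    (hY : Y ≤ X) : Wg G S f Y := by
  obtain ⟨L, h1, h2⟩ := h
  exact ⟨L, h1, hY.trans h2⟩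

theorem wg_mono {G G' : SimpleGraph V} {S : Finset V} {f f' : V → ℕ} {X : ℕ}
    (hf : ∀ u ∈ S, f' u ≤ f u) (hG : ∀ u ∈ S, ∀ v ∈ S, G.Adj u v → G'.Adj u v)
    (h : Wg G' S f' X) : Wg G S f X := by
  obtain ⟨L', h1, h2⟩ := h
  obtain ⟨L, h3, -, h4⟩ := removes_mono hf hG h1
  exact ⟨L, h3, by omega⟩

/-- Monotonicity with one surplus. -/
theorem wg_extra {G G' : SimpleGraph V} {S : Finset V} {f f' : V → ℕ} {X : ℕ}
    (hf : ∀ u ∈ S, f' u ≤ f u) (hG : ∀ u ∈ S, ∀ v ∈ S, G.Adj u v → G'.Adj u v)
    (h : Wg G' S f' X) {y : V} (hy : y ∈ S) (hfy : f' y < f y) : Wg G S f (X + 1) := by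
  obtain ⟨L', h1, h2⟩ := h
  obtain ⟨L, h3, -, h4⟩ := removes_mono hf hG h1
  have h5 : f y - f' y ≤ ∑ u ∈ S, (f u - f' u) :=
    Finset.single_le_sum (f := fun u => f u - f' u) (fun u _ => Nat.zero_le _) hy
  exact ⟨L, h3, by omega⟩

/-- `Del v`. -/
theorem wg_del {G : SimpleGraph V} {S : Finset V} {f g : V → ℕ} {v : V} {X : ℕ} (hv : v ∈ S)
    (hl : ∀ u ∈ S, G.Adj v u → 1 ≤ f u)
    (hg : ∀ u ∈ S.erase v, g u ≤ if G.Adj v u then f u - 1 else f u)
    (h : Wg G (S.erase v) g X) : Wg G S f (X + f v) := by
  obtain ⟨L, h1, h2⟩ := wg_mono hg (fun _ _ _ _ h => h) h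
  refine ⟨(f v + 1) :: L, Removes.del S f v L hv hl h1, ?_⟩
  simp only [List.map_cons, List.sum_cons]
  omega

/-- `DelSave v w`. -/
theorem wg_save {G : SimpleGraph V} {S : Finset V} {f g : V → ℕ} {v w : V} {X : ℕ} (hv : v ∈ S)
    (hw : w ∈ S) (hvw : G.Adj v w) (hf : f w < f v)
    (hl : ∀ u ∈ S, G.Adj v u → u ≠ w → 1 ≤ f u)
    (hg : ∀ u ∈ S.erase v, g u ≤ if G.Adj v u ∧ u ≠ w then f u - 1 else f u)
    (h : Wg G (S.erase v) g X) : Wg G S f (X + (f v - f w - 1)) := by
  obtain ⟨L, h1, h2⟩ := wg_mono hg (fun _ _ _ _ h => h) h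
  refine ⟨(f v - f w) :: L, Removes.save S f v w L hv hw hvw hf hl h1, ?_⟩
  simp only [List.map_cons, List.sum_cons]
  omega

/-- the number of remaining neighbours after the removal of `u` -/
private theorem game_card {G : SimpleGraph V} {T : Finset V} {u x : V} (hu : u ∈ T) :
    ((T.erase u).filter fun y => G.Adj x y).card + (if G.Adj u x then 1 else 0) ≤
      (T.filter fun y => G.Adj x y).card := by
  by_cases h : G.Adj u x
  · rw [if_pos h]
    have h1 : (T.erase u).filter (fun y => G.Adj x y) =
        (T.filter fun y => G.Adj x y).erase u := by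
      ext y
      simp only [Finset.mem_filter, Finset.mem_erase]
      tauto
    rw [h1, Finset.card_erase_add_one]
    exact Finset.mem_filter.2 ⟨hu, h.symm⟩
  · rw [if_neg h, add_zero]
    exact Finset.card_le_card (Finset.filter_subset_filter _ (Finset.erase_subset _ _))

private theorem game_pos {G : SimpleGraph V} {T : Finset V} {u x : V} (hu : u ∈ T)
    (h : G.Adj u x) : 1 ≤ (T.filter fun y => G.Adj x y).card := by
  rw [Nat.one_le_iff_ne_zero, Finset.card_ne_zero]
  exact ⟨u, Finset.mem_filter.2 ⟨hu, h.symm⟩⟩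

private theorem game_free {G : SimpleGraph V} {T : Finset V} {f : V → ℕ} {L : List ℕ} {v : V}
    (h : Removes G T f L) (hv : v ∉ T) (hd : (T.filter fun u => G.Adj v u).card ≤ f v) :
    ∃ L', Removes G (insert v T) f L' ∧
      (L.map fun a => a - 1).sum ≤ (L'.map fun a => a - 1).sum := by
  induction h with
  | nil f =>
    refine ⟨[f v + 1], Removes.del (insert v ∅) f v [] (Finset.mem_insert_self _ _)
      (fun u hu huv => ?_) ?_, by simp⟩
    · rw [Finset.mem_insert] at hu
      rcases hu with rfl | hu
      · exact absurd huv (G.loopless.irrefl u)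
      · exact absurd hu (Finset.notMem_empty _)
    · rw [Finset.erase_insert (Finset.notMem_empty v)]
      exact Removes.nil _
  | del T f u L hu hl h ih =>
    have huv : u ≠ v := by
      rintro rfl
      exact hv hu
    have hc := game_card (G := G) (x := v) hu
    have hd' : ((T.erase u).filter fun y => G.Adj v y).card ≤
        (if G.Adj u v then f v - 1 else f v) := by
      by_cases h1 : G.Adj u v
      · rw [if_pos h1] at hc ⊢
        omega
      · rw [if_neg h1] at hc ⊢
        omega
    obtain ⟨L', h1, h2⟩ := ih (fun h3 => hv (Finset.mem_of_mem_erase h3)) hd'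
    rw [← Finset.erase_insert_of_ne huv.symm] at h1
    refine ⟨(f u + 1) :: L', Removes.del (insert v T) f u L' (Finset.mem_insert_of_mem hu)
      (fun x hx hux => ?_) h1, ?_⟩
    · rw [Finset.mem_insert] at hx
      rcases hx with rfl | hx
      · exact (game_pos hu hux).trans hd
      · exact hl x hx hux
    · simp only [List.map_cons, List.sum_cons]
      omega
  | save T f u w L hu hw huw hfw hl h ih =>
    have huv : u ≠ v := by
      rintro rfl
      exact hv hu
    have hwv : v ≠ w := by
      rintro rfl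
      exact hv hw
    have hc := game_card (G := G) (x := v) hu
    have hd' : ((T.erase u).filter fun y => G.Adj v y).card ≤
        (if G.Adj u v ∧ v ≠ w then f v - 1 else f v) := by
      by_cases h1 : G.Adj u v
      · rw [if_pos h1] at hc
        rw [if_pos ⟨h1, hwv⟩]
        omega
      · rw [if_neg h1] at hc
        rw [if_neg (fun h3 => h1 h3.1)]
        omega
    obtain ⟨L', h1, h2⟩ := ih (fun h3 => hv (Finset.mem_of_mem_erase h3)) hd'
    rw [← Finset.erase_insert_of_ne huv.symm] at h1
    refine ⟨(f u - f w) :: L', Removes.save (insert v T) f u w L' (Finset.mem_insert_of_mem hu)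
      (Finset.mem_insert_of_mem hw) huw hfw (fun x hx hux hxw => ?_) h1, ?_⟩
    · rw [Finset.mem_insert] at hx
      rcases hx with rfl | hx
      · exact (game_pos hu hux).trans hd
      · exact hl x hx hux hxw
    · simp only [List.map_cons, List.sum_cons]
      omega

/-- A vertex `v` with at most `f v` remaining neighbours can be removed at the end. -/
theorem wg_free {G : SimpleGraph V} {S : Finset V} {f : V → ℕ} {v : V} {X : ℕ} (hv : v ∈ S)
    (hd : (S.filter fun u => G.Adj v u).card ≤ f v) (h : Wg G (S.erase v) f X) :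
    Wg G S f X := by
  obtain ⟨L, h1, h2⟩ := h
  have hd' : ((S.erase v).filter fun u => G.Adj v u).card ≤ f v :=
    (Finset.card_le_card (Finset.filter_subset_filter _ (Finset.erase_subset _ _))).trans hd
  obtain ⟨L', h3, h4⟩ := game_free h1 (Finset.notMem_erase v S) hd'
  rw [Finset.insert_erase hv] at h3
  exact ⟨L', h3, h2.trans h4⟩

private theorem game_comp {G : SimpleGraph V} {S₁ S₂ : Finset V} {f g : V → ℕ} {L : List ℕ}
    {X : ℕ} (h₁ : Removes G S₁ f L) (hd : Disjoint S₁ S₂)
    (hg : ∀ u ∈ S₂, g u + (S₁.filter fun v => G.Adj u v).card ≤ f u) (h₂ : Wg G S₂ g X) :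
    ∃ L', Removes G (S₁ ∪ S₂) f L' ∧
      (L.map fun a => a - 1).sum + X ≤ (L'.map fun a => a - 1).sum := by
  induction h₁ with
  | nil f =>
    obtain ⟨L', h1, h2⟩ := wg_mono (f := f) (fun u hu => by
      have := hg u hu
      omega) (fun _ _ _ _ h => h) h₂
    refine ⟨L', ?_, by simpa using h2⟩
    rwa [Finset.empty_union]
  | del T f v L hv hl h ih =>
    have hv2 : v ∉ S₂ := Finset.disjoint_left.1 hd hv
    have hg' : ∀ u ∈ S₂, g u + ((T.erase v).filter fun y => G.Adj u y).card ≤
        (if G.Adj v u then f u - 1 else f u) := by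
      intro u hu
      have hc := game_card (G := G) (x := u) hv
      have h1 := hg u hu
      by_cases h2 : G.Adj v u
      · rw [if_pos h2] at hc ⊢
        omega
      · rw [if_neg h2] at hc ⊢
        omega
    obtain ⟨L', h1, h2⟩ := ih (Finset.disjoint_of_subset_left (Finset.erase_subset _ _) hd) hg'
    have he : (T ∪ S₂).erase v = T.erase v ∪ S₂ := by
      rw [Finset.erase_union_distrib, Finset.erase_eq_of_notMem hv2]
    rw [← he] at h1
    refine ⟨(f v + 1) :: L', Removes.del (T ∪ S₂) f v L' (Finset.mem_union_left _ hv)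
      (fun x hx hvx => ?_) h1, ?_⟩
    · rw [Finset.mem_union] at hx
      rcases hx with hx | hx
      · exact hl x hx hvx
      · have h3 := game_pos hv hvx
        have h4 := hg x hx
        omega
    · simp only [List.map_cons, List.sum_cons]
      omega
  | save T f v w L hv hw hvw hfw hl h ih =>
    have hv2 : v ∉ S₂ := Finset.disjoint_left.1 hd hv
    have hw2 : w ∉ S₂ := Finset.disjoint_left.1 hd hw
    have hg' : ∀ u ∈ S₂, g u + ((T.erase v).filter fun y => G.Adj u y).card ≤
        (if G.Adj v u ∧ u ≠ w then f u - 1 else f u) := by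
      intro u hu
      have huw : u ≠ w := by
        rintro rfl
        exact hw2 hu
      have hc := game_card (G := G) (x := u) hv
      have h1 := hg u hu
      by_cases h2 : G.Adj v u
      · rw [if_pos h2] at hc
        rw [if_pos ⟨h2, huw⟩]
        omega
      · rw [if_neg h2] at hc
        rw [if_neg (fun h3 => h2 h3.1)]
        omega
    obtain ⟨L', h1, h2⟩ := ih (Finset.disjoint_of_subset_left (Finset.erase_subset _ _) hd) hg'
    have he : (T ∪ S₂).erase v = T.erase v ∪ S₂ := by
      rw [Finset.erase_union_distrib, Finset.erase_eq_of_notMem hv2]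
    rw [← he] at h1
    refine ⟨(f v - f w) :: L', Removes.save (T ∪ S₂) f v w L' (Finset.mem_union_left _ hv)
      (Finset.mem_union_left _ hw) hvw hfw (fun x hx hvx hxw => ?_) h1, ?_⟩
    · rw [Finset.mem_union] at hx
      rcases hx with hx | hx
      · exact hl x hx hvx hxw
      · have h3 := game_pos hv hvx
        have h4 := hg x hx
        omega
    · simp only [List.map_cons, List.sum_cons]
      omega

/-- First `S₁` and then `S₂`. -/
theorem wg_comp {G : SimpleGraph V} {S₁ S₂ : Finset V} {f g : V → ℕ} {X₁ X₂ : ℕ}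
    (hd : Disjoint S₁ S₂) (h₁ : Wg G S₁ f X₁)
    (hg : ∀ u ∈ S₂, g u + (S₁.filter fun v => G.Adj u v).card ≤ f u) (h₂ : Wg G S₂ g X₂) :
    Wg G (S₁ ∪ S₂) f (X₁ + X₂) := by
  obtain ⟨L, h1, h2⟩ := h₁
  obtain ⟨L', h3, h4⟩ := game_comp h1 hd hg h₂
  exact ⟨L', h3, by omega⟩

theorem wg_small {G : SimpleGraph V} {S : Finset V} {f : V → ℕ} (h : ∀ u ∈ S, S.card ≤ f u) :
    Wg G S f S.card := by
  obtain ⟨n, hn⟩ : ∃ n, S.card = n := ⟨_, rfl⟩
  induction n generalizing S f with
  | zero =>
    rw [Finset.card_eq_zero] at hn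
    subst hn
    exact wg_nil G f
  | succ n ih =>
    obtain ⟨v, hv⟩ : S.Nonempty := by
      rw [← Finset.card_pos]
      omega
    have hc := Finset.card_erase_of_mem hv
    have h1 : Wg G (S.erase v) (fun u => f u - 1) (S.erase v).card := by
      refine ih (fun u hu => ?_) (by omega)
      have h3 := h u (Finset.mem_of_mem_erase hu)
      show (S.erase v).card ≤ f u - 1
      rw [hc]
      omega
    have h2 := wg_del (f := f) hv (fun u hu _ => by
      have := h u hu
      omega) (fun u hu => by
      show f u - 1 ≤ if G.Adj v u then f u - 1 else f u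
      split_ifs <;> omega) h1
    refine wg_le h2 ?_
    have := h v hv
    omega

end Pool.Agent.Lib.MP_a33b01_co
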