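import Mathlib
import Pool.Agent.Lib.MP_a33b01_co.Contr

set_option autoImplicit false

/-!
# MP_a33b01_co: triangulations without separating triangles
-/

namespace Pool.Agent.Lib.MP_a33b01_co

open Classical

variable {V : Type}

/-- there are only two faces at an edge -/
theorem NoS_face {F : Finset (Finset V)} (hF : Sph F) {x y z w u : V}
    (hz : ({x, y, z} : Finset V) ∈ F) (hw : ({x, y, w} : Finset V) ∈ F) (hzw : z ≠ w)
    (hu : ({x, y, u} : Finset V) ∈ F) : u = z ∨ u = w := by
  obtain ⟨w', hw', -, h⟩ := other_face hF hz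
  rcases h w hw with h1 | h1
  · exact absurd h1.symm hzw
  · rw [h1]
    exact h u hu

theorem NoS_swap {F : Finset (Finset V)} {x y z : V} (h : ({x, y, z} : Finset V) ∈ F) :
    ({x, z, y} : Finset V) ∈ F := by
  rwa [show ({x, z, y} : Finset V) = {x, y, z} by rw [Finset.pair_comm z y]]

/-- Adjacent vertices have exactly two common neighbours. -/
theorem nosep_two {F : Finset (Finset V)} (hF : Sph F) (ns : NoSep F) {x y z w : V}
    (hz : ({x, y, z} : Finset V) ∈ F) (hw : ({x, y, w} : Finset V) ∈ F) (hzw : z ≠ w) :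
    ∀ u, (sk F).Adj x u → (sk F).Adj y u → u = z ∨ u = w := by
  intro u hxu hyu
  exact NoS_face hF hz hw hzw (ns x y u (face_adj hF hz).1 hyu hxu)

/-- A closed 3-cycle in the link is the whole link. -/
theorem NoS_link3 {F : Finset (Finset V)} (hF : Sph F) {v a b c : V}
    (h1 : ({v, a, b} : Finset V) ∈ F) (h2 : ({v, b, c} : Finset V) ∈ F)
    (h3 : ({v, c, a} : Finset V) ∈ F) :
    ∀ u, (sk F).Adj v u → u = a ∨ u = b ∨ u = c := by
  have hab := (face_ne hF h1).2.1
  have hbc := (face_ne hF h2).2.1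
  have hca := (face_ne hF h3).2.1
  have key := link_conn hF v (W := {a, b, c}) (w := a) (by simp) (face_adj hF h1).1 (by
    intro x hx y hy
    simp only [Set.mem_insert_iff, Set.mem_singleton_iff] at hx ⊢
    rcases hx with rfl | rfl | rfl
    · rcases NoS_face hF h1 (NoS_swap h3) hbc hy with h | h
      · exact Or.inr (Or.inl h)
      · exact Or.inr (Or.inr h)
    · rcases NoS_face hF (NoS_swap h1) h2 hca.symm hy with h | h
      · exact Or.inl h
      · exact Or.inr (Or.inr h)
    · rcases NoS_face hF h3 (NoS_swap h2) hab hy with h | h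
      · exact Or.inl h
      · exact Or.inr (Or.inl h))
  intro u hu
  simpa using key u hu

/-- The only such triangulation with a complete graph on four vertices is the tetrahedron. -/
theorem nosep_k4 {F : Finset (Finset V)} (hF : Sph F) (ns : NoSep F) {a b c d : V}
    (hab : (sk F).Adj a b) (hac : (sk F).Adj a c) (had : (sk F).Adj a d) (hbc : (sk F).Adj b c)
    (hbd : (sk F).Adj b d) (hcd : (sk F).Adj c d) : supp F = {a, b, c, d} := by
  have habc : ({a, b, c} : Finset V) ∈ F := ns a b c hab hbc hac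
  have hacd : ({a, c, d} : Finset V) ∈ F := ns a c d hac hcd had
  have hadb : ({a, d, b} : Finset V) ∈ F := ns a d b had hbd.symm hab
  have hbac : ({b, a, c} : Finset V) ∈ F := ns b a c hab.symm hac hbc
  have hbcd : ({b, c, d} : Finset V) ∈ F := ns b c d hbc hcd hbd
  have hbda : ({b, d, a} : Finset V) ∈ F := ns b d a hbd had.symm hab.symm
  have hcab : ({c, a, b} : Finset V) ∈ F := ns c a b hac.symm hab hbc.symm
  have hcbd : ({c, b, d} : Finset V) ∈ F := ns c b d hbc.symm hbd hcd
  have hcda : ({c, d, a} : Finset V) ∈ F := ns c d a hcd had.symm hac.symm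
  have hdab : ({d, a, b} : Finset V) ∈ F := ns d a b had.symm hab hbd.symm
  have hdbc : ({d, b, c} : Finset V) ∈ F := ns d b c hbd.symm hbc hcd.symm
  have hdca : ({d, c, a} : Finset V) ∈ F := ns d c a hcd.symm hac.symm had.symm
  apply Finset.Subset.antisymm
  · intro v hv
    have h := conn_graph hF (C := {a, b, c, d}) (c := a) (by simp) (adj_supp hab).1 (by
      intro x hx y hxy
      simp only [Set.mem_insert_iff, Set.mem_singleton_iff] at hx ⊢
      rcases hx with rfl | rfl | rfl | rfl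
      · rcases NoS_link3 hF habc hacd hadb y hxy with h | h | h <;> simp [h]
      · rcases NoS_link3 hF hbac hbcd hbda y hxy with h | h | h <;> simp [h]
      · rcases NoS_link3 hF hcab hcbd hcda y hxy with h | h | h <;> simp [h]
      · rcases NoS_link3 hF hdab hdbc hdca y hxy with h | h | h <;> simp [h]) v hv
    simpa using h
  · intro v hv
    simp only [Finset.mem_insert, Finset.mem_singleton] at hv
    rcases hv with rfl | rfl | rfl | rfl
    · exact (adj_supp hab).1
    · exact (adj_supp hab).2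
    · exact (adj_supp hac).2
    · exact (adj_supp had).2

theorem dg_le {F : Finset (Finset V)} {v : V} {W : Finset V} (h : ∀ u, (sk F).Adj v u → u ∈ W) :
    dg F v ≤ W.card := by
  unfold dg
  apply Finset.card_le_card
  intro u hu
  exact h u (Finset.mem_filter.1 hu).2

theorem le_dg {F : Finset (Finset V)} {v : V} {W : Finset V} (h : ∀ u ∈ W, (sk F).Adj v u) :
    W.card ≤ dg F v := by
  unfold dg
  apply Finset.card_le_card
  intro u hu
  exact Finset.mem_filter.2 ⟨(adj_supp (h u hu)).2, h u hu⟩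

theorem nosep_dg {F : Finset (Finset V)} (hF : Sph F) (ns : NoSep F) (h5 : 5 ≤ (supp F).card)
    {v : V} (hv : v ∈ supp F) : 4 ≤ dg F v := by
  obtain ⟨t, ht, hvt⟩ := mem_supp.1 hv
  obtain ⟨x, hxt, hxv⟩ : ∃ x ∈ t, x ≠ v := by
    have h3 := hF.card t ht
    have h1 : (t.erase v).Nonempty := by
      rw [← Finset.card_pos, Finset.card_erase_of_mem hvt, h3]
      norm_num
    obtain ⟨x, hx⟩ := h1
    exact ⟨x, Finset.mem_of_mem_erase hx, Finset.ne_of_mem_erase hx⟩
  obtain ⟨y, rfl, hyv, hyx⟩ := face_third hF ht hvt hxt hxv.symm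
  obtain ⟨w, hwy, hw, -⟩ := other_face hF ht
  obtain ⟨y', hy'x, hy', -⟩ := other_face hF (NoS_swap ht)
  obtain ⟨avx, axy, avy⟩ := face_adj hF ht
  obtain ⟨-, axw, avw⟩ := face_adj hF hw
  obtain ⟨-, ayy', avy'⟩ := face_adj hF hy'
  by_cases h : y' = w
  · exfalso
    rw [h] at ayy'
    have h1 := nosep_k4 hF ns avx avy avw axy axw ayy'
    rw [h1] at h5
    have h2 : ({v, x, y, w} : Finset V).card ≤ 4 := Finset.card_le_four
    omega
  · have h1 : ({x, y, w, y'} : Finset V).card = 4 := by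
      rw [Finset.card_insert_of_notMem, Finset.card_insert_of_notMem,
        Finset.card_insert_of_notMem, Finset.card_singleton]
      · rw [Finset.mem_singleton]
        exact fun h2 => h h2.symm
      · rw [Finset.mem_insert, Finset.mem_singleton, not_or]
        exact ⟨hwy.symm, ayy'.1⟩
      · rw [Finset.mem_insert, Finset.mem_insert, Finset.mem_singleton, not_or, not_or]
        exact ⟨hyx.symm, axw.1, hy'x.symm⟩
    rw [← h1]
    apply le_dg
    intro u hu
    simp only [Finset.mem_insert, Finset.mem_singleton] at hu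
    rcases hu with rfl | rfl | rfl | rfl
    · exact avx
    · exact avy
    · exact avw
    · exact avy'

/-- A closed 4-cycle in the link is the whole link. -/
theorem link4 {F : Finset (Finset V)} (hF : Sph F) {v a b c d : V} (h1 : ({v, a, b} : Finset V) ∈ F)
    (h2 : ({v, b, c} : Finset V) ∈ F) (h3 : ({v, c, d} : Finset V) ∈ F)
    (h4 : ({v, d, a} : Finset V) ∈ F) (hac : a ≠ c) (hbd : b ≠ d) :
    ∀ u, (sk F).Adj v u → u = a ∨ u = b ∨ u = c ∨ u = d := by
  have key := link_conn hF v (W := {a, b, c, d}) (w := a) (by simp) (face_adj hF h1).1 (by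
    intro x hx y hy
    simp only [Set.mem_insert_iff, Set.mem_singleton_iff] at hx ⊢
    rcases hx with rfl | rfl | rfl | rfl
    · rcases NoS_face hF h1 (NoS_swap h4) hbd hy with h | h <;> simp [h]
    · rcases NoS_face hF (NoS_swap h1) h2 hac hy with h | h <;> simp [h]
    · rcases NoS_face hF (NoS_swap h2) h3 hbd hy with h | h <;> simp [h]
    · rcases NoS_face hF (NoS_swap h3) h4 hac.symm hy with h | h <;> simp [h])
  intro u hu
  simpa using key u hu

/-- A closed 5-cycle in the link is the whole link. -/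
theorem link5 {F : Finset (Finset V)} (hF : Sph F) {v a b c d e : V}
    (h1 : ({v, a, b} : Finset V) ∈ F) (h2 : ({v, b, c} : Finset V) ∈ F)
    (h3 : ({v, c, d} : Finset V) ∈ F) (h4 : ({v, d, e} : Finset V) ∈ F)
    (h5 : ({v, e, a} : Finset V) ∈ F) (hac : a ≠ c) (hbd : b ≠ d) (hce : c ≠ e) (hda : d ≠ a)
    (heb : e ≠ b) :
    ∀ u, (sk F).Adj v u → u = a ∨ u = b ∨ u = c ∨ u = d ∨ u = e := by
  have key := link_conn hF v (W := {a, b, c, d, e}) (w := a) (by simp) (face_adj hF h1).1 (by
    intro x hx y hy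
    simp only [Set.mem_insert_iff, Set.mem_singleton_iff] at hx ⊢
    rcases hx with rfl | rfl | rfl | rfl | rfl
    · rcases NoS_face hF h1 (NoS_swap h5) heb.symm hy with h | h <;> simp [h]
    · rcases NoS_face hF (NoS_swap h1) h2 hac hy with h | h <;> simp [h]
    · rcases NoS_face hF (NoS_swap h2) h3 hbd hy with h | h <;> simp [h]
    · rcases NoS_face hF (NoS_swap h3) h4 hce hy with h | h <;> simp [h]
    · rcases NoS_face hF (NoS_swap h4) h5 hda hy with h | h <;> simp [h])
  intro u hu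
  simpa using key u hu

/-- Deleting one neighbour of `o`. -/
theorem dl_one {F : Finset (Finset V)} (hF : Sph F) {o y z w : V} (hoy : (sk F).Adj o y)
    (hc : ∀ u, (sk F).Adj o u → (sk F).Adj y u → u = z ∨ u = w) (h5 : 5 ≤ (supp F).card) :
    ∃ F', Dl F o {y} F' := by
  obtain ⟨F', h1, h2, h3⟩ := exists_contr hF hoy hc h5
  refine ⟨F', h1, ?_, ?_, ?_⟩
  · rw [Finset.mem_singleton]
    exact hoy.1
  · rw [h2, Finset.sdiff_singleton_eq_erase]
  · intro u v
    rw [h3]
    simp

/-- Deleting one more vertex. -/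
theorem dl_add {F F' : Finset (Finset V)} {o y z w : V} {X : Finset V} (hd : Dl F o X F')
    (hy : y ∉ X) (hyo : y ≠ o) (hoy : (sk F).Adj o y ∨ ∃ x ∈ X, (sk F).Adj x y)
    (hc : ∀ u, u ∉ X → u ≠ o → (sk F).Adj y u → ((sk F).Adj o u ∨ ∃ x ∈ X, (sk F).Adj x u) →
      u = z ∨ u = w)
    (h5 : 5 + X.card ≤ (supp F).card) (hX : X ⊆ supp F) :
    ∃ F'', Dl F o (insert y X) F'' := by
  have hoy' : (sk F').Adj o y := by
    rw [hd.adj]
    refine ⟨hyo.symm, hd.oX, hy, ?_⟩
    rcases hoy with h | h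
    · exact Or.inl h
    · exact Or.inr (Or.inl ⟨rfl, h⟩)
  have hc' : ∀ u, (sk F').Adj o u → (sk F').Adj y u → u = z ∨ u = w := by
    intro u hou hyu
    rw [hd.adj] at hou hyu
    obtain ⟨h1, -, h2, h3⟩ := hou
    obtain ⟨h4, -, -, h5⟩ := hyu
    have h6 : (sk F).Adj y u := by
      rcases h5 with h5 | ⟨h5, -⟩ | ⟨h5, -⟩
      · exact h5
      · exact absurd h5 hyo
      · exact absurd h5.symm h1
    refine hc u h2 h1.symm h6 ?_
    rcases h3 with h3 | ⟨-, h3⟩ | ⟨h3, -⟩
    · exact Or.inl h3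
    · exact Or.inr h3
    · exact absurd h3.symm h1
  have h5' : 5 ≤ (supp F').card := by
    rw [hd.sp, Finset.card_sdiff_of_subset hX]
    omega
  obtain ⟨F'', h1, h2, h3⟩ := exists_contr hd.s hoy' hc' h5'
  refine ⟨F'', h1, ?_, ?_, ?_⟩
  · rw [Finset.mem_insert, not_or]
    exact ⟨hyo.symm, hd.oX⟩
  · rw [h2, hd.sp]
    ext u
    simp only [Finset.mem_erase, Finset.mem_sdiff, Finset.mem_insert, not_or]
    tauto
  · intro u v
    rw [h3]
    constructor
    · rintro ⟨huv, huy, hvy, h⟩
      rcases h with h | ⟨h, h'⟩ | ⟨h, h'⟩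
      · rw [hd.adj] at h
        obtain ⟨-, huX, hvX, h⟩ := h
        refine ⟨huv, by simp [huy, huX], by simp [hvy, hvX], ?_⟩
        rcases h with h | ⟨h, x, hx, h'⟩ | ⟨h, x, hx, h'⟩
        · exact Or.inl h
        · exact Or.inr (Or.inl ⟨h, x, Finset.mem_insert_of_mem hx, h'⟩)
        · exact Or.inr (Or.inr ⟨h, x, Finset.mem_insert_of_mem hx, h'⟩)
      · rw [hd.adj] at h'
        obtain ⟨-, -, hvX, h'⟩ := h'
        have huX : u ∉ X := by rw [h]; exact hd.oX
        refine ⟨huv, by simp [huy, huX], by simp [hvy, hvX], Or.inr (Or.inl ⟨h, y,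
          Finset.mem_insert_self _ _, ?_⟩)⟩
        rcases h' with h' | ⟨h', -⟩ | ⟨h', -⟩
        · exact h'
        · exact absurd h' hyo
        · exact absurd (h.trans h'.symm) huv
      · rw [hd.adj] at h'
        obtain ⟨-, -, huX, h'⟩ := h'
        have hvX : v ∉ X := by rw [h]; exact hd.oX
        refine ⟨huv, by simp [huy, huX], by simp [hvy, hvX], Or.inr (Or.inr ⟨h, y,
          Finset.mem_insert_self _ _, ?_⟩)⟩
        rcases h' with h' | ⟨h', -⟩ | ⟨h', -⟩
        · exact h'
        · exact absurd h' hyo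
        · exact absurd (h'.trans h.symm) huv
    · rintro ⟨huv, hu, hv, h⟩
      rw [Finset.mem_insert, not_or] at hu hv
      refine ⟨huv, hu.1, hv.1, ?_⟩
      rcases h with h | ⟨h, x, hx, h'⟩ | ⟨h, x, hx, h'⟩
      · exact Or.inl ((hd.adj u v).2 ⟨huv, hu.2, hv.2, Or.inl h⟩)
      · rcases Finset.mem_insert.1 hx with rfl | hx
        · exact Or.inr (Or.inl ⟨h, (hd.adj _ _).2 ⟨h'.1, hy, hv.2, Or.inl h'⟩⟩)
        · exact Or.inl ((hd.adj u v).2 ⟨huv, hu.2, hv.2, Or.inr (Or.inl ⟨h, x, hx, h'⟩)⟩)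
      · rcases Finset.mem_insert.1 hx with rfl | hx
        · exact Or.inr (Or.inr ⟨h, (hd.adj _ _).2 ⟨h'.1, hy, hu.2, Or.inl h'⟩⟩)
        · exact Or.inl ((hd.adj u v).2 ⟨huv, hu.2, hv.2, Or.inr (Or.inr ⟨h, x, hx, h'⟩)⟩)

end Pool.Agent.Lib.MP_a33b01_co
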