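import Mathlib
import Pool.Agent.Lib.MP_a33b01_co.Game
import Pool.Agent.Lib.MP_a33b01_co.NoS

set_option autoImplicit false

/-!
# MP_a33b01_co: basic facts about the states
-/

namespace Pool.Agent.Lib.MP_a33b01_co

open Classical

variable {V : Type}

theorem mem_DD {o p m q u : V} : u ∈ DD o p m q ↔ u = o ∨ u = p ∨ u = m ∨ u = q := by
  simp [DD]

theorem mem_SS {F : Finset (Finset V)} {o p m q u : V} :
    u ∈ SS F o p m q ↔ u ∈ supp F ∧ u ∉ DD o p m q := by
  simp [SS]

theorem mem_OO {F : Finset (Finset V)} {o p m q u : V} :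
    u ∈ OO F o p m q ↔ (sk F).Adj o u ∧ u ∉ DD o p m q := by
  unfold OO
  rw [Finset.mem_filter]
  exact ⟨fun h => h.2, fun h => ⟨(adj_supp h.1).2, h⟩⟩

theorem OO_sub {F : Finset (Finset V)} {o p m q : V} : OO F o p m q ⊆ SS F o p m q := by
  intro u hu
  rw [mem_OO] at hu
  rw [mem_SS]
  exact ⟨(adj_supp hu.1).2, hu.2⟩

theorem St.A_sub {F : Finset (Finset V)} {o p m q : V} {A : Finset V} (h : St F o p m q A) :
    A ⊆ OO F o p m q := by
  intro a ha
  rw [mem_OO]
  exact ⟨h.Ao a ha, h.AD a ha⟩

private theorem StA_card4 (o p m q : V) : (DD o p m q).card ≤ 4 := by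
  unfold DD
  exact Finset.card_le_four

private theorem StA_card3 (o p m : V) : (DD o p m m).card ≤ 3 := by
  have h : DD o p m m = {o, p, m} := by
    ext u
    simp [DD]
  rw [h]
  exact Finset.card_le_three

private theorem StA_filter3 {F : Finset (Finset V)} {o p m q u x : V} (hx : x ∈ DD o p m q)
    (hux : ¬ (sk F).Adj u x) : ((DD o p m q).filter fun d => (sk F).Adj u d).card ≤ 3 := by
  have h1 : ((DD o p m q).filter fun d => (sk F).Adj u d) ⊆ (DD o p m q).erase x := by
    intro d hd
    rw [Finset.mem_filter] at hd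
    rw [Finset.mem_erase]
    refine ⟨?_, hd.1⟩
    rintro rfl
    exact hux hd.2
  have h2 := Finset.card_le_card h1
  rw [Finset.card_erase_of_mem hx] at h2
  have h3 := StA_card4 o p m q
  omega

/-- The load of a remaining vertex is at most four. -/
theorem St.ld_le {F : Finset (Finset V)} {o p m q : V} {A : Finset V} (h : St F o p m q A)
    {u : V} (hu : u ∈ SS F o p m q) : ld F A (DD o p m q) u ≤ 4 := by
  unfold ld
  by_cases hmq : m = q
  · subst hmq
    have h1 := StA_card3 o p m
    have h2 := Finset.card_filter_le (DD o p m m) (fun d => (sk F).Adj u d)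
    split_ifs <;> omega
  · by_cases hA : u ∈ A
    · rw [if_pos hA]
      have h1 := h.exc hmq u hA
      have h2 : ((DD o p m q).filter fun d => (sk F).Adj u d).card ≤ 3 := by
        by_cases hp : (sk F).Adj u p
        · by_cases hm : (sk F).Adj u m
          · exact StA_filter3 (x := q) (mem_DD.2 (by simp)) fun hq => h1 ⟨hp, hm, hq⟩
          · exact StA_filter3 (x := m) (mem_DD.2 (by simp)) hm
        · exact StA_filter3 (x := p) (mem_DD.2 (by simp)) hp
      omega
    · rw [if_neg hA]
      have h1 := StA_card4 o p m q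
      have h2 := Finset.card_filter_le (DD o p m q) (fun d => (sk F).Adj u d)
      omega

theorem fv_le {F : Finset (Finset V)} {A D : Finset V} {u : V} : fv F A D u ≤ 4 := by
  unfold fv
  exact Nat.sub_le _ _

private theorem StA_DD_swap (o p m q : V) : DD o q m p = DD o p m q := by
  ext u
  rw [mem_DD, mem_DD]
  tauto

/-- The mirror image of a state. -/
theorem St.swap {F : Finset (Finset V)} {o p m q : V} {A : Finset V} (h : St F o p m q A)
    (hmq : m ≠ q) : St F o q m p A where
  sph := h.sph
  op := h.oq
  om := h.om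
  oq := h.op
  pm := (h.mq.resolve_left hmq).symm
  mq := Or.inr h.pm.symm
  pq := h.pq.symm
  Ao := h.Ao
  AD := by
    rw [StA_DD_swap]
    exact h.AD
  ind := h.ind
  exc := fun _ a ha hh => h.exc hmq a ha ⟨hh.2.2, hh.2.1, hh.1⟩

theorem Concl.swap {F : Finset (Finset V)} {o p m q : V} {A : Finset V} (h : St F o p m q A)
    (hmq : m ≠ q) (hc : Concl F o q m p A) : Concl F o p m q A := by
  obtain ⟨X, h1, h2⟩ := hc
  have hmp : m ≠ p := h.pm.ne'
  have hS : SS F o q m p = SS F o p m q := by
    unfold SS
    rw [StA_DD_swap]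
  have hO : OO F o q m p = OO F o p m q := by
    unfold OO
    rw [StA_DD_swap]
  have hk : kp m p = kp m q := by
    unfold kp
    rw [if_neg hmp, if_neg hmq]
  rw [hS, StA_DD_swap] at h1
  rw [hS, hO, hk] at h2
  exact ⟨X, h1, h2⟩

private theorem StA_empty {F : Finset (Finset V)} {o p m q : V} {A : Finset V}
    (h : SS F o p m q = ∅) : Concl F o p m q A := by
  refine ⟨0, ?_, ?_⟩
  · rw [h]
    exact wg_nil _ _
  · have h1 : OO F o p m q = ∅ := by
      have := OO_sub (F := F) (o := o) (p := p) (m := m) (q := q)
      rw [h] at this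
      exact Finset.subset_empty.1 this
    rw [h, h1]
    simp

/-- The states with four vertices. -/
theorem concl_four {F : Finset (Finset V)} {o p m q : V} {A : Finset V} (h : St F o p m q A)
    (h4 : (supp F).card ≤ 4) : Concl F o p m q A := by
  have hD : DD o p m q ⊆ supp F := by
    intro u hu
    rcases mem_DD.1 hu with rfl | rfl | rfl | rfl
    · exact (adj_supp h.op).1
    · exact (adj_supp h.op).2
    · exact (adj_supp h.om).2
    · exact (adj_supp h.oq).2
  by_cases hmq : m = q
  · subst hmq
    have h3 : (DD o p m m).card = 3 := by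
      have h5 : DD o p m m = {o, p, m} := by
        ext u
        simp [DD]
      rw [h5]
      exact Finset.card_eq_three.2 ⟨o, p, m, h.op.ne, h.om.ne, h.pm.ne, rfl⟩
    have h1 : (SS F o p m m).card ≤ 1 := by
      unfold SS
      rw [Finset.card_sdiff_of_subset hD]
      omega
    rcases Nat.lt_or_ge 0 (SS F o p m m).card with h0 | h0
    · obtain ⟨s, hs⟩ := Finset.card_eq_one.1 (le_antisymm h1 h0)
      have hsS : s ∈ SS F o p m m := by
        rw [hs]
        exact Finset.mem_singleton_self s
      have hwg : Wg (sk F) (SS F o p m m) (fv F A (DD o p m m))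
          (0 + fv F A (DD o p m m) s) := by
        refine wg_del (g := fun _ => 0) hsS ?_ ?_ ?_
        · intro u hu hsu
          rw [hs, Finset.mem_singleton] at hu
          exact absurd hu hsu.ne'
        · intro u _
          exact Nat.zero_le _
        · rw [hs, Finset.erase_singleton]
          exact wg_nil _ _
      have hO : (OO F o p m m).card ≤ 1 := (Finset.card_le_card OO_sub).trans h1
      refine ⟨_, hwg, ?_⟩
      by_cases hA : s ∈ A
      · have hA1 : 1 ≤ A.card := Finset.card_pos.2 ⟨s, hA⟩
        omega
      · have hld : ld F A (DD o p m m) s ≤ 3 := by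
          unfold ld
          rw [if_neg hA]
          have h6 := StA_card3 o p m
          have h7 := Finset.card_filter_le (DD o p m m) (fun d => (sk F).Adj s d)
          omega
        have hfv : 1 ≤ fv F A (DD o p m m) s := by
          unfold fv
          omega
        omega
    · exact StA_empty (Finset.card_eq_zero.1 (Nat.le_zero.1 h0))
  · have h3 : (DD o p m q).card = 4 := by
      have hmq' := (h.mq.resolve_left hmq).ne
      unfold DD
      rw [Finset.card_insert_of_notMem, Finset.card_insert_of_notMem,
        Finset.card_insert_of_notMem, Finset.card_singleton]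
      · simpa using hmq'
      · simp only [Finset.mem_insert, Finset.mem_singleton, not_or]
        exact ⟨h.pm.ne, h.pq⟩
      · simp only [Finset.mem_insert, Finset.mem_singleton, not_or]
        exact ⟨h.op.ne, h.om.ne, h.oq.ne⟩
    refine StA_empty ?_
    unfold SS
    rw [Finset.sdiff_eq_empty_iff_subset]
    exact (Finset.eq_of_subset_of_card_le hD (by omega)).symm.subset

end Pool.Agent.Lib.MP_a33b01_co
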