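import Mathlib
import Pool.Agent.Lib.MP_a33b01_co.StA

set_option autoImplicit false

/-!
# MP_a33b01_co: the general reduction step
-/

namespace Pool.Agent.Lib.MP_a33b01_co

open Classical

variable {V : Type}

/-- Adjacency after a deletion, away from `o`. -/
theorem Dl.adj_ne {F F' : Finset (Finset V)} {o : V} {X : Finset V} (h : Dl F o X F') {u v : V}
    (hu : u ≠ o) (hv : v ≠ o) :
    (sk F').Adj u v ↔ u ∉ X ∧ v ∉ X ∧ (sk F).Adj u v := by
  rw [h.adj u v]
  constructor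
  · rintro ⟨-, h2, h3, h4 | ⟨h4, -⟩ | ⟨h4, -⟩⟩
    · exact ⟨h2, h3, h4⟩
    · exact absurd h4 hu
    · exact absurd h4 hv
  · rintro ⟨h2, h3, h4⟩
    exact ⟨h4.ne, h2, h3, Or.inl h4⟩

/-- Adjacency to `o` after a deletion. -/
theorem Dl.adj_o {F F' : Finset (Finset V)} {o : V} {X : Finset V} (h : Dl F o X F') {u : V}
    (hu : u ≠ o) :
    (sk F').Adj o u ↔ u ∉ X ∧ ((sk F).Adj o u ∨ ∃ x ∈ X, (sk F).Adj x u) := by
  rw [h.adj o u]
  constructor
  · rintro ⟨-, h2, h3, h4 | ⟨-, h4⟩ | ⟨h4, -⟩⟩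
    · exact ⟨h3, Or.inl h4⟩
    · exact ⟨h3, Or.inr h4⟩
    · exact absurd h4 hu
  · rintro ⟨h3, h4 | h4⟩
    · exact ⟨hu.symm, h.oX, h3, Or.inl h4⟩
    · exact ⟨hu.symm, h.oX, h3, Or.inr (Or.inl ⟨rfl, h4⟩)⟩

/-- The members of `DD` are not deleted. -/
private theorem Step_notMem {F : Finset (Finset V)} {o p m q d : V} {X : Finset V}
    (hX : X ⊆ SS F o p m q) (hd : d ∈ DD o p m q) : d ∉ X :=
  fun h => (mem_SS.1 (hX h)).2 hd

/-- The state after a deletion. -/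
theorem st_dl {F F' : Finset (Finset V)} {o p m q : V} {A A' X : Finset V}
    (st : St F o p m q A) (dl : Dl F o X F') (hX : X ⊆ SS F o p m q)
    (hA : ∀ a ∈ A', a ∉ X ∧ a ∉ DD o p m q ∧ ((sk F).Adj o a ∨ ∃ x ∈ X, (sk F).Adj x a))
    (hi : ∀ a ∈ A', ∀ b ∈ A', ¬ (sk F).Adj a b)
    (he : m ≠ q → ∀ a ∈ A', ¬ ((sk F).Adj a p ∧ (sk F).Adj a m ∧ (sk F).Adj a q)) :
    St F' o p m q A' := by
  have hp : p ∉ X := Step_notMem hX (mem_DD.2 (by simp))
  have hm : m ∉ X := Step_notMem hX (mem_DD.2 (by simp))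
  have hq : q ∉ X := Step_notMem hX (mem_DD.2 (by simp))
  have hpo : p ≠ o := st.op.ne'
  have hmo : m ≠ o := st.om.ne'
  have hqo : q ≠ o := st.oq.ne'
  have hao : ∀ a ∈ A', a ≠ o := fun a ha h => (hA a ha).2.1 (mem_DD.2 (Or.inl h))
  refine ⟨dl.s, (dl.adj_o hpo).2 ⟨hp, Or.inl st.op⟩, (dl.adj_o hmo).2 ⟨hm, Or.inl st.om⟩,
    (dl.adj_o hqo).2 ⟨hq, Or.inl st.oq⟩, (dl.adj_ne hpo hmo).2 ⟨hp, hm, st.pm⟩,
    st.mq.imp id fun h => (dl.adj_ne hmo hqo).2 ⟨hm, hq, h⟩, st.pq,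
    fun a ha => (dl.adj_o (hao a ha)).2 ⟨(hA a ha).1, (hA a ha).2.2⟩, fun a ha => (hA a ha).2.1,
    fun a ha b hb h => hi a ha b hb ((dl.adj_ne (hao a ha) (hao b hb)).1 h).2.2,
    fun hmq a ha h => he hmq a ha ⟨?_, ?_, ?_⟩⟩
  · exact ((dl.adj_ne (hao a ha) hpo).1 h.1).2.2
  · exact ((dl.adj_ne (hao a ha) hmo).1 h.2.1).2.2
  · exact ((dl.adj_ne (hao a ha) hqo).1 h.2.2).2.2

/-- The load after a deletion. -/
theorem ld_dl {F F' : Finset (Finset V)} {o p m q : V} {A' X : Finset V}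
    (dl : Dl F o X F') (hX : X ⊆ SS F o p m q) {u : V} (hu : u ∈ SS F o p m q) (huX : u ∉ X) :
    ld F' A' (DD o p m q) u = (if u ∈ A' then 1 else 0) +
      ((DD o p m q).filter fun d => (sk F).Adj u d).card +
      if ¬ (sk F).Adj o u ∧ ∃ x ∈ X, (sk F).Adj x u then 1 else 0 := by
  have huo : u ≠ o := fun h => (mem_SS.1 hu).2 (mem_DD.2 (Or.inl h))
  have hne : ∀ d ∈ DD o p m q, d ≠ o → ((sk F').Adj u d ↔ (sk F).Adj u d) := by
    intro d hd hdo
    rw [dl.adj_ne huo hdo]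
    exact ⟨fun h => h.2.2, fun h => ⟨huX, Step_notMem hX hd, h⟩⟩
  have ho : (sk F').Adj u o ↔ ((sk F).Adj o u ∨ ∃ x ∈ X, (sk F).Adj x u) := by
    rw [SimpleGraph.adj_comm, dl.adj_o huo]
    exact ⟨fun h => h.2, fun h => ⟨huX, h⟩⟩
  unfold ld
  rw [add_assoc]
  congr 1
  by_cases hc : ¬ (sk F).Adj o u ∧ ∃ x ∈ X, (sk F).Adj x u
  · rw [if_pos hc]
    have h1 : ((DD o p m q).filter fun d => (sk F').Adj u d) =
        insert o ((DD o p m q).filter fun d => (sk F).Adj u d) := by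
      ext d
      rw [Finset.mem_insert, Finset.mem_filter, Finset.mem_filter]
      constructor
      · rintro ⟨h2, h3⟩
        by_cases hd : d = o
        · exact Or.inl hd
        · exact Or.inr ⟨h2, (hne d h2 hd).1 h3⟩
      · rintro (h2 | ⟨h2, h3⟩)
        · rw [h2]
          exact ⟨mem_DD.2 (Or.inl rfl), ho.2 (Or.inr hc.2)⟩
        · have hd : d ≠ o := by
            rintro rfl
            exact hc.1 h3.symm
          exact ⟨h2, (hne d h2 hd).2 h3⟩
    rw [h1, Finset.card_insert_of_notMem]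
    intro h
    exact hc.1 (Finset.mem_filter.1 h).2.symm
  · rw [if_neg hc, add_zero]
    congr 1
    apply Finset.filter_congr
    intro d hd
    by_cases hdo : d = o
    · rw [hdo, ho, SimpleGraph.adj_comm]
      constructor
      · rintro (h | h)
        · exact h
        · by_contra hh
          exact hc ⟨fun h' => hh h'.symm, h⟩
      · exact Or.inl
    · exact hne d hd hdo

/-- The outer vertices after a deletion. -/
theorem mem_OO_dl {F F' : Finset (Finset V)} {o p m q : V} {X : Finset V}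
    (dl : Dl F o X F') {u : V} :
    u ∈ OO F' o p m q ↔ u ∉ X ∧ u ∉ DD o p m q ∧
      ((sk F).Adj o u ∨ ∃ x ∈ X, (sk F).Adj x u) := by
  rw [mem_OO]
  constructor
  · rintro ⟨h1, h2⟩
    have huo : u ≠ o := h1.ne'
    have h3 := (dl.adj_o huo).1 h1
    exact ⟨h3.1, h2, h3.2⟩
  · rintro ⟨h1, h2, h3⟩
    have huo : u ≠ o := fun h => h2 (mem_DD.2 (Or.inl h))
    exact ⟨(dl.adj_o huo).2 ⟨h1, h3⟩, h2⟩

/-- The general step: the induction hypothesis for the triangulation after the deletion, transferred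
to the original graph. -/
theorem step {F F' : Finset (Finset V)} {o p m q : V} {A' X : Finset V}
    (ih : IH V (supp F).card) (dl : Dl F o X F') (hX : X ⊆ SS F o p m q) (hne : X.Nonempty)
    (st' : St F' o p m q A') :
    ∃ Y, Wg (sk F) (SS F o p m q \ X) (fv F' A' (DD o p m q)) Y ∧
      (SS F o p m q).card + 2 * (OO F' o p m q).card ≤ X.card + 13 * Y + kp m q + 5 * A'.card := by
  have hXs : X ⊆ supp F := fun x hx => (mem_SS.1 (hX hx)).1
  have hlt : (supp F').card < (supp F).card := by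
    rw [dl.sp]
    apply Finset.card_lt_card
    refine ⟨Finset.sdiff_subset, fun h => ?_⟩
    obtain ⟨x, hx⟩ := hne
    exact (Finset.mem_sdiff.1 (h (hXs hx))).2 hx
  obtain ⟨Y, h1, h2⟩ := ih F' o p m q A' hlt st'
  have hSS : SS F' o p m q = SS F o p m q \ X := by
    ext u
    rw [Finset.mem_sdiff, mem_SS, mem_SS, dl.sp, Finset.mem_sdiff]
    tauto
  have hcard : (SS F o p m q).card = (SS F' o p m q).card + X.card := by
    rw [hSS, Finset.card_sdiff_of_subset hX]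
    have := Finset.card_le_card hX
    omega
  refine ⟨Y, ?_, by omega⟩
  rw [← hSS]
  refine wg_mono (fun u _ => le_rfl) (fun u hu v hv h => ?_) h1
  rw [hSS, Finset.mem_sdiff, mem_SS] at hu hv
  have huo : u ≠ o := fun h => hu.1.2 (mem_DD.2 (Or.inl h))
  have hvo : v ≠ o := fun h => hv.1.2 (mem_DD.2 (Or.inl h))
  exact (dl.adj_ne huo hvo).2 ⟨hu.2, hv.2, h⟩

/-- The number of outer vertices drops by at most the number of deleted outer vertices. -/
theorem card_OO_dl {F F' : Finset (Finset V)} {o p m q : V} {X B : Finset V}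
    (dl : Dl F o X F') (hB : ∀ x ∈ X, (sk F).Adj o x → x ∈ B) :
    (OO F o p m q).card ≤ (OO F' o p m q).card + B.card := by
  refine (Finset.card_le_card (t := OO F' o p m q ∪ B) ?_).trans (Finset.card_union_le _ _)
  intro u hu
  rw [mem_OO] at hu
  rw [Finset.mem_union]
  by_cases h : u ∈ X
  · exact Or.inr (hB u h hu.1)
  · exact Or.inl ((mem_OO_dl dl).2 ⟨h, hu.2, Or.inl hu.1⟩)

end Pool.Agent.Lib.MP_a33b01_co
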