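import Mathlib
import Pool.Agent.Lib.MP_a33b01_co.Step

set_option autoImplicit false

/-!
# MP_a33b01_co: the vertices near the end of the deleted path
-/

namespace Pool.Agent.Lib.MP_a33b01_co

open Classical

variable {V : Type}

variable {F : Finset (Finset V)} {o p m q : V} {A : Finset V} {a b c z : V}

private theorem Loc_mem {u : V} (h : u ∈ supp F ∧ u ∉ DD o p m q) : u ∈ SS F o p m q :=
  mem_SS.2 h

/-! ### The vertex `a` -/

theorem Ctx.opm (h : Ctx F o p m q A a b c z) : ({o, p, m} : Finset V) ∈ F :=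
  h.ns o p m h.st.op h.st.pm h.st.om

theorem Ctx.oa (h : Ctx F o p m q A a b c z) : (sk F).Adj o a := (face_adj h.st.sph h.opa).2.2

theorem Ctx.pa (h : Ctx F o p m q A a b c z) : (sk F).Adj p a := (face_adj h.st.sph h.opa).2.1

theorem Ctx.aD (h : Ctx F o p m q A a b c z) : a ∉ DD o p m q := by
  intro ha
  rw [mem_DD] at ha
  rcases ha with ha | ha | ha | ha
  · exact h.oa.ne ha.symm
  · exact h.pa.ne ha.symm
  · exact h.am ha
  · by_cases hm : m = q
    · exact h.am (ha.trans hm.symm)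
    · exact h.pnq hm (ha ▸ h.pa)

/-- The common neighbours of `o` and `p`. -/
private theorem Loc_cop (h : Ctx F o p m q A a b c z) :
    ∀ u, (sk F).Adj o u → (sk F).Adj p u → u = m ∨ u = a :=
  nosep_two h.st.sph h.ns h.opm h.opa h.am.symm

/-- The common neighbours of `o` and `m` in `T3`. -/
private theorem Loc_com (h : Ctx F o p m q A a b c z) (hm : m ≠ q) :
    ∀ u, (sk F).Adj o u → (sk F).Adj m u → u = p ∨ u = q :=
  nosep_two h.st.sph h.ns (h.ns o m p h.st.om h.st.pm.symm h.st.op)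
    (h.ns o m q h.st.om (h.st.mq.resolve_left hm) h.st.oq) h.st.pq

/-- The common neighbours of `o` and `a`. -/
theorem Ctx.coa (h : Ctx F o p m q A a b c z) :
    ∀ u, (sk F).Adj o u → (sk F).Adj a u → u = p ∨ u = b := 
  nosep_two h.st.sph h.ns (h.ns o a p h.oa h.pa.symm h.st.op) h.oab h.bp.symm

theorem Ctx.nam (h : Ctx F o p m q A a b c z) : ¬ (sk F).Adj a m := by
  intro ha
  rcases h.coa m h.st.om ha with h1 | h1
  · exact h.st.pm.ne h1.symm
  · exact h.bD (by rw [mem_DD]; exact Or.inr (Or.inr (Or.inl h1.symm)))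

theorem Ctx.naq (h : Ctx F o p m q A a b c z) : ¬ (sk F).Adj a q := by
  intro ha
  rcases h.coa q h.st.oq ha with h1 | h1
  · exact h.st.pq h1.symm
  · exact h.bD (by rw [mem_DD]; exact Or.inr (Or.inr (Or.inr h1.symm)))

/-! ### The vertex `b` -/

theorem Ctx.ob (h : Ctx F o p m q A a b c z) : (sk F).Adj o b := (face_adj h.st.sph h.oab).2.2

theorem Ctx.ab (h : Ctx F o p m q A a b c z) : (sk F).Adj a b := (face_adj h.st.sph h.oab).2.1

/-- The common neighbours of `o` and `b`. -/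
theorem Ctx.cob (h : Ctx F o p m q A a b c z) :
    ∀ u, (sk F).Adj o u → (sk F).Adj b u → u = a ∨ u = c := 
  nosep_two h.st.sph h.ns (h.ns o b a h.ob h.ab.symm h.oa) h.obc h.ca.symm

theorem Ctx.nbp (h : Ctx F o p m q A a b c z) : ¬ (sk F).Adj b p := by
  intro hb
  rcases Loc_cop h b h.ob hb.symm with h1 | h1
  · exact h.bD (by rw [mem_DD]; exact Or.inr (Or.inr (Or.inl h1)))
  · exact h.ab.ne h1.symm

private theorem Loc_nbm (h : Ctx F o p m q A a b c z) (hm : m ≠ q) : ¬ (sk F).Adj b m := by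
  intro hb
  rcases Loc_com h hm b h.ob hb.symm with h1 | h1
  · exact h.bp h1
  · exact h.bD (by rw [mem_DD]; exact Or.inr (Or.inr (Or.inr h1)))

theorem Ctx.nbm (h : Ctx F o p m q A a b c z) (hc : c ≠ q) : ¬ (sk F).Adj b m := by
  intro hb
  by_cases hm : m = q
  · rcases h.cob m h.st.om hb with h1 | h1
    · exact h.am h1.symm
    · exact hc (h1.symm.trans hm)
  · exact Loc_nbm h hm hb

theorem Ctx.nbm' (h : Ctx F o p m q A a b c z) (hm : m ≠ q) : ¬ (sk F).Adj b m := 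
  Loc_nbm h hm

theorem Ctx.nbq (h : Ctx F o p m q A a b c z) (hc : c ≠ q) : ¬ (sk F).Adj b q := by
  intro hb
  rcases h.cob q h.st.oq hb with h1 | h1
  · exact h.aD (by rw [mem_DD]; exact Or.inr (Or.inr (Or.inr h1.symm)))
  · exact hc h1.symm

/-! ### The vertex `c` -/

theorem Ctx.oc (h : Ctx F o p m q A a b c z) : (sk F).Adj o c := (face_adj h.st.sph h.obc).2.2

theorem Ctx.bc (h : Ctx F o p m q A a b c z) : (sk F).Adj b c := (face_adj h.st.sph h.obc).2.1

theorem Ctx.cD (h : Ctx F o p m q A a b c z) (hc : c ≠ q) : c ∉ DD o p m q := by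
  intro hd
  rw [mem_DD] at hd
  rcases hd with hd | hd | hd | hd
  · exact h.oc.ne hd.symm
  · exact h.nbp (hd ▸ h.bc)
  · exact h.nbm hc (hd ▸ h.bc)
  · exact hc hd

theorem Ctx.nac (h : Ctx F o p m q A a b c z) : ¬ (sk F).Adj a c := by
  intro ha
  rcases h.coa c h.oc ha with h1 | h1
  · exact h.nbp (h1 ▸ h.bc)
  · exact h.bc.ne h1.symm

theorem Ctx.npc (h : Ctx F o p m q A a b c z) (hc : c ≠ q) : ¬ (sk F).Adj p c := by
  intro hp
  rcases Loc_cop h c h.oc hp with h1 | h1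
  · exact h.cD hc (by rw [mem_DD]; exact Or.inr (Or.inr (Or.inl h1)))
  · exact h.ca h1

theorem Ctx.nmc (h : Ctx F o p m q A a b c z) (hc : c ≠ q) (hm : m ≠ q) :
    ¬ (sk F).Adj m c := by
  intro hmc
  rcases Loc_com h hm c h.oc hmc with h1 | h1
  · exact h.cD hc (by rw [mem_DD]; exact Or.inr (Or.inl h1))
  · exact hc h1

/-! ### The vertex `z` -/

theorem Ctx.az (h : Ctx F o p m q A a b c z) : (sk F).Adj a z := (face_adj h.st.sph h.abz).2.2

theorem Ctx.bz (h : Ctx F o p m q A a b c z) : (sk F).Adj b z := (face_adj h.st.sph h.abz).2.1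

/-- The common neighbours of `a` and `b`. -/
theorem Ctx.cab (h : Ctx F o p m q A a b c z) :
    ∀ u, (sk F).Adj a u → (sk F).Adj b u → u = o ∨ u = z := 
  nosep_two h.st.sph h.ns (h.ns a b o h.ab h.ob.symm h.oa.symm) h.abz h.zo.symm

theorem Ctx.noz (h : Ctx F o p m q A a b c z) : ¬ (sk F).Adj o z := by
  intro hz
  rcases h.coa z hz h.az with h1 | h1
  · exact h.nbp (h1 ▸ h.bz)
  · exact h.bz.ne h1.symm

theorem Ctx.zD (h : Ctx F o p m q A a b c z) : z ∉ DD o p m q := by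
  intro hd
  rw [mem_DD] at hd
  rcases hd with hd | hd | hd | hd
  · exact h.zo hd
  · exact h.noz (hd ▸ h.st.op)
  · exact h.noz (hd ▸ h.st.om)
  · exact h.noz (hd ▸ h.st.oq)

theorem Ctx.zA (h : Ctx F o p m q A a b c z) : z ∉ A := fun hz => h.noz (h.st.Ao z hz)

theorem Ctx.zc (h : Ctx F o p m q A a b c z) : z ≠ c := fun hz => h.noz (hz ▸ h.oc)

theorem Ctx.nzp (h : Ctx F o p m q A a b c z) (ha : a ∉ A) : ¬ (sk F).Adj z p := by
  intro hz
  obtain ⟨w, hw, w1, -, -⟩ := h.n7 p z b h.st.op h.ob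
    (fun _ => ⟨h.st.pm.ne, fun hb => h.bD (by rw [mem_DD]; exact Or.inr (Or.inr (Or.inl hb)))⟩)
    h.bp.symm (fun hp => h.nbp hp.symm) h.zo h.noz hz h.bz.symm
  rcases Loc_cop h w (h.st.Ao w hw) w1.symm with h1 | h1
  · exact h.st.AD w hw (by rw [mem_DD]; exact Or.inr (Or.inr (Or.inl h1)))
  · exact ha (h1 ▸ hw)

theorem Ctx.nzq (h : Ctx F o p m q A a b c z) (hc : b ∉ A ∨ c ≠ q) : ¬ (sk F).Adj z q := by
  intro hz
  obtain ⟨w, hw, w1, -, w3⟩ := h.n7 a z q h.oa h.st.oq (fun hm => ⟨h.am, fun hq => hm hq.symm⟩)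
    (fun haq => h.aD (by rw [mem_DD]; exact Or.inr (Or.inr (Or.inr haq))))
    h.naq h.zo h.noz h.az.symm hz
  rcases h.coa w (h.st.Ao w hw) w1.symm with h1 | h1
  · exact h.st.AD w hw (by rw [mem_DD]; exact Or.inr (Or.inl h1))
  · rcases hc with hc | hc
    · exact hc (h1 ▸ hw)
    · exact h.nbq hc (h1 ▸ w3)

private theorem Loc_noz (h : Ctx F o p m q A a b c z) :
    ∀ u, (sk F).Adj o u → (sk F).Adj z u →
      u = a ∨ u = b ∨ u = p ∨ (m ≠ q ∧ u = m) ∨ (b ∈ A ∧ u = c) := by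
  intro u hou hzu
  by_contra hcon
  rw [not_or, not_or, not_or, not_or] at hcon
  obtain ⟨c1, c2, c3, c4, c5⟩ := hcon
  obtain ⟨w, hw, w1, -, w3⟩ := h.n7 a z u h.oa hou (fun hm => ⟨h.am, fun hu => c4 ⟨hm, hu⟩⟩)
    (fun hau => c1 hau.symm) (fun hau => (h.coa u hou hau).elim c3 c2) h.zo h.noz h.az.symm hzu
  rcases h.coa w (h.st.Ao w hw) w1.symm with h1 | h1
  · exact h.st.AD w hw (by rw [mem_DD]; exact Or.inr (Or.inl h1))
  · rcases h.cob u hou (h1 ▸ w3) with h2 | h2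
    · exact c1 h2
    · exact c5 ⟨h1 ▸ hw, h2⟩

/-- `z` has no neighbours in `A` except for `a` and `b`. -/
theorem Ctx.nzA (h : Ctx F o p m q A a b c z) :
    ∀ w ∈ A, w ≠ a → w ≠ b → ¬ (sk F).Adj z w := by
  intro w hw hwa hwb hz
  rcases Loc_noz h w (h.st.Ao w hw) hz with h1 | h1 | h1 | h1 | h1
  · exact hwa h1
  · exact hwb h1
  · exact h.st.AD w hw (by rw [mem_DD]; exact Or.inr (Or.inl h1))
  · exact h.st.AD w hw (by rw [mem_DD]; exact Or.inr (Or.inr (Or.inl h1.2)))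
  · exact h.st.ind b h1.1 w hw (by rw [h1.2]; exact h.bc)

/-- The outer neighbours of `z`. -/
theorem Ctx.noz' (h : Ctx F o p m q A a b c z) :
    ∀ u, (sk F).Adj o u → (sk F).Adj z u →
      u = a ∨ u = b ∨ u = p ∨ (m ≠ q ∧ u = m) ∨ (b ∈ A ∧ u = c) := 
  Loc_noz h

/-! ### The loads -/

theorem Ctx.ld_a (h : Ctx F o p m q A a b c z) :
    ld F A (DD o p m q) a = (if a ∈ A then 1 else 0) + 2 := by
  unfold ld
  have e : ((DD o p m q).filter fun d => (sk F).Adj a d) = {o, p} := by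
    ext d
    rw [Finset.mem_filter, mem_DD, Finset.mem_insert, Finset.mem_singleton]
    constructor
    · rintro ⟨hd | hd | hd | hd, hd'⟩
      · exact Or.inl hd
      · exact Or.inr hd
      · exact absurd (hd ▸ hd') h.nam
      · exact absurd (hd ▸ hd') h.naq
    · rintro (hd | hd)
      · exact ⟨Or.inl hd, hd ▸ h.oa.symm⟩
      · exact ⟨Or.inr (Or.inl hd), hd ▸ h.pa.symm⟩
  rw [e, Finset.card_pair h.st.op.ne]

theorem Ctx.ld_b (h : Ctx F o p m q A a b c z) (hc : c ≠ q) :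
    ld F A (DD o p m q) b = (if b ∈ A then 1 else 0) + 1 := by
  unfold ld
  have e : ((DD o p m q).filter fun d => (sk F).Adj b d) = {o} := by
    ext d
    rw [Finset.mem_filter, mem_DD, Finset.mem_singleton]
    constructor
    · rintro ⟨hd | hd | hd | hd, hd'⟩
      · exact hd
      · exact absurd (hd ▸ hd') h.nbp
      · exact absurd (hd ▸ hd') (h.nbm hc)
      · exact absurd (hd ▸ hd') (h.nbq hc)
    · intro hd
      exact ⟨Or.inl hd, hd ▸ h.ob.symm⟩
  rw [e, Finset.card_singleton]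

theorem Ctx.ld_b' (h : Ctx F o p m q A a b c z) (hc : c = q) :
    ld F A (DD o p m q) b = (if b ∈ A then 1 else 0) + 2 := by
  unfold ld
  have hbq : (sk F).Adj b q := hc ▸ h.bc
  have e : ((DD o p m q).filter fun d => (sk F).Adj b d) = {o, q} := by
    ext d
    rw [Finset.mem_filter, mem_DD, Finset.mem_insert, Finset.mem_singleton]
    constructor
    · rintro ⟨hd | hd | hd | hd, hd'⟩
      · exact Or.inl hd
      · exact absurd (hd ▸ hd') h.nbp
      · by_cases hm : m = q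
        · exact Or.inr (hd.trans hm)
        · exact absurd (hd ▸ hd') (h.nbm' hm)
      · exact Or.inr hd
    · rintro (hd | hd)
      · exact ⟨Or.inl hd, hd ▸ h.ob.symm⟩
      · exact ⟨Or.inr (Or.inr (Or.inr hd)), hd ▸ hbq⟩
  rw [e, Finset.card_pair h.st.oq.ne]

theorem Ctx.mem_SS (h : Ctx F o p m q A a b c z) :
    a ∈ SS F o p m q ∧ b ∈ SS F o p m q ∧ z ∈ SS F o p m q := 
  ⟨Loc_mem ⟨(adj_supp h.ab).1, h.aD⟩, Loc_mem ⟨(adj_supp h.ab).2, h.bD⟩,
    Loc_mem ⟨(adj_supp h.az).2, h.zD⟩⟩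

theorem Ctx.abne (h : Ctx F o p m q A a b c z) : a ≠ b ∧ a ≠ z ∧ b ≠ z ∧ b ≠ c := 
  ⟨h.ab.ne, h.az.ne, h.bz.ne, h.bc.ne⟩

/-- If `b` is in `A` then `a` is not in `A`. -/
theorem Ctx.not_both (h : Ctx F o p m q A a b c z) : ¬ (a ∈ A ∧ b ∈ A) := 
  fun hh => h.st.ind a hh.1 b hh.2 h.ab

/-! ### The vertex `d` -/

/-- The vertex after `c`. -/
theorem Ctx.d_facts (h : Ctx F o p m q A a b c z) (hc : c ≠ q) {d : V}
    (hd : ({o, c, d} : Finset V) ∈ F) (hdb : d ≠ b) :
    (sk F).Adj o d ∧ (sk F).Adj c d ∧ d ≠ a ∧ d ≠ p ∧ (d ∈ DD o p m q → d = q) ∧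
      (∀ u, (sk F).Adj o u → (sk F).Adj c u → u = b ∨ u = d) ∧
      (d ∉ DD o p m q → ld F A (DD o p m q) c = (if c ∈ A then 1 else 0) + 1) := by
  obtain ⟨-, hcd, hod⟩ := face_adj h.st.sph hd
  have hcom : ∀ u, (sk F).Adj o u → (sk F).Adj c u → u = b ∨ u = d :=
    nosep_two h.st.sph h.ns (h.ns o c b h.oc h.bc.symm h.ob) hd hdb.symm
  have hdp : d ≠ p := fun e => h.npc hc (e ▸ hcd.symm)
  refine ⟨hod, hcd, fun e => h.nac (e ▸ hcd.symm), hdp, ?_, hcom, ?_⟩
  · intro hD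
    rw [mem_DD] at hD
    rcases hD with e | e | e | e
    · exact absurd e.symm hod.ne
    · exact absurd e hdp
    · by_cases hm : m = q
      · exact e.trans hm
      · exact absurd (e ▸ hcd.symm) (h.nmc hc hm)
    · exact e
  · intro hD
    unfold ld
    have key : ∀ x, x ∈ DD o p m q → (sk F).Adj o x → ¬ (sk F).Adj c x := by
      intro x hx hox hcx
      rcases hcom x hox hcx with e | e
      · exact h.bD (e ▸ hx)
      · exact hD (e ▸ hx)
    have e : ((DD o p m q).filter fun d => (sk F).Adj c d) = {o} := by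
      ext x
      rw [Finset.mem_filter, Finset.mem_singleton]
      constructor
      · rintro ⟨hx, hcx⟩
        have hx' := hx
        rw [mem_DD] at hx'
        rcases hx' with e | e | e | e
        · exact e
        · exact absurd hcx (key x hx (e ▸ h.st.op))
        · exact absurd hcx (key x hx (e ▸ h.st.om))
        · exact absurd hcx (key x hx (e ▸ h.st.oq))
      · intro hx
        exact ⟨by rw [mem_DD]; exact Or.inl hx, hx ▸ h.oc.symm⟩
    rw [e, Finset.card_singleton]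

/-- The common neighbours of `a` and `c`. -/
theorem Ctx.cac (h : Ctx F o p m q A a b c z) (hc : c ≠ q) :
    ∀ u, (sk F).Adj a u → (sk F).Adj c u → u = o ∨ u = b ∨
      (b ∈ A ∧ u = z ∧ (sk F).Adj z c) := by
  intro u hau hcu
  by_cases huo : u = o
  · exact Or.inl huo
  by_cases hou : (sk F).Adj o u
  · rcases h.coa u hou hau with h1 | h1
    · exact absurd (h1 ▸ hcu.symm) (h.npc hc)
    · exact Or.inr (Or.inl h1)
  · obtain ⟨w, hw, w1, w2, -⟩ := h.n7 a u c h.oa h.oc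
      (fun _ => ⟨h.am, fun e => h.cD hc (by rw [mem_DD]; exact Or.inr (Or.inr (Or.inl e)))⟩)
      h.ca.symm h.nac huo hou hau.symm hcu.symm
    rcases h.coa w (h.st.Ao w hw) w1.symm with h1 | h1
    · exact absurd (by rw [mem_DD]; exact Or.inr (Or.inl h1)) (h.st.AD w hw)
    · rcases h.cab u hau (h1 ▸ w2) with h2 | h2
      · exact Or.inl h2
      · exact Or.inr (Or.inr ⟨h1 ▸ hw, h2, h2 ▸ hcu.symm⟩)

end Pool.Agent.Lib.MP_a33b01_co
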