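import Mathlib
import Pool.Agent.Lib.MP_a33b01_co.Loc

set_option autoImplicit false

/-!
# MP_a33b01_co: case E1 (delete a)
-/

namespace Pool.Agent.Lib.MP_a33b01_co

open Classical

variable {V : Type}

variable {F : Finset (Finset V)} {o p m q : V} {A : Finset V} {a b c z : V}

/-- The loads before and after. -/
private theorem E1_ld (h : Ctx F o p m q A a b c z) (hb : b ∉ A) {F' : Finset (Finset V)}
    (dl : Dl F o {a} F') (hX : ({a} : Finset V) ⊆ SS F o p m q) {u : V} (hu : u ∈ SS F o p m q)
    (hua : u ≠ a) :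
    ld F A (DD o p m q) u + (if (sk F).Adj a u then 1 else 0) ≤
      ld F' (insert b A) (DD o p m q) u := by
  have h1 : u ∉ ({a} : Finset V) := by rwa [Finset.mem_singleton]
  rw [ld_dl dl hX hu h1]
  unfold ld
  by_cases hau : (sk F).Adj a u
  · rw [if_pos hau]
    by_cases hub : u = b
    · subst hub
      rw [if_neg hb, if_pos (Finset.mem_insert_self _ _)]
      omega
    · have hou : ¬ (sk F).Adj o u := by
        intro hou
        rcases h.coa u hou hau with h2 | h2
        · exact (mem_SS.mp hu).2 (mem_DD.mpr (Or.inr (Or.inl h2)))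
        · exact hub h2
      have huA : u ∉ A := fun h2 => hou (h.st.Ao u h2)
      rw [if_neg huA, if_pos (⟨hou, a, Finset.mem_singleton_self a, hau⟩ :
        ¬ (sk F).Adj o u ∧ ∃ x ∈ ({a} : Finset V), (sk F).Adj x u)]
      omega
  · rw [if_neg hau]
    have h2 : (if u ∈ A then 1 else 0) ≤ (if u ∈ insert b A then 1 else 0) := by
      by_cases h3 : u ∈ A
      · rw [if_pos h3, if_pos (Finset.mem_insert_of_mem h3)]
      · rw [if_neg h3]
        exact Nat.zero_le _
    omega

theorem e1 (h : Ctx F o p m q A a b c z) (ha : a ∉ A) (hb : b ∉ A) (hc : c ∉ A) :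
    Concl F o p m q A := by
  obtain ⟨F', dl⟩ := dl_one h.st.sph h.oa h.coa h.c5
  have haS : a ∈ SS F o p m q := h.mem_SS.1
  have hX : ({a} : Finset V) ⊆ SS F o p m q := Finset.singleton_subset_iff.mpr haS
  have st' : St F' o p m q (insert b A) := by
    refine st_dl h.st dl hX ?_ ?_ ?_
    · intro u hu
      rw [Finset.mem_insert] at hu
      rw [Finset.mem_singleton]
      rcases hu with rfl | hu
      · exact ⟨fun h1 => h.abne.1 h1.symm, h.bD, Or.inl h.ob⟩
      · exact ⟨fun h1 => ha (h1 ▸ hu), h.st.AD u hu, Or.inl (h.st.Ao u hu)⟩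
    · have key : ∀ v ∈ A, ¬ (sk F).Adj b v := by
        intro v hv hbv
        rcases h.cob v (h.st.Ao v hv) hbv with h1 | h1
        · exact ha (h1 ▸ hv)
        · exact hc (h1 ▸ hv)
      intro u hu v hv huv
      rw [Finset.mem_insert] at hu hv
      rcases hu with rfl | hu
      · rcases hv with rfl | hv
        · exact huv.ne rfl
        · exact key v hv huv
      · rcases hv with rfl | hv
        · exact key u hu huv.symm
        · exact h.st.ind u hu v hv huv
    · intro hm u hu hcon
      rw [Finset.mem_insert] at hu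
      rcases hu with rfl | hu
      · exact h.nbp hcon.1
      · exact h.st.exc hm u hu hcon
  obtain ⟨Y, hY, hcard⟩ := step h.ih dl hX (Finset.singleton_nonempty a) st'
  have hO := card_OO_dl (p := p) (m := m) (q := q) (B := {a}) dl (fun x hx _ => hx)
  have hA' : (insert b A).card ≤ A.card + 1 := Finset.card_insert_le _ _
  rw [Finset.card_singleton] at hcard hO
  have hSS' : ∀ u ∈ SS F o p m q, u ≠ a → ld F' (insert b A) (DD o p m q) u ≤ 4 := by
    intro u hu hua
    apply st'.ld_le
    rw [mem_SS, dl.sp, Finset.mem_sdiff, Finset.mem_singleton]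
    exact ⟨⟨(mem_SS.mp hu).1, hua⟩, (mem_SS.mp hu).2⟩
  have hW : Wg (sk F) (SS F o p m q) (fv F A (DD o p m q)) (Y + fv F A (DD o p m q) a) := by
    refine wg_del haS (g := fv F' (insert b A) (DD o p m q)) ?_ ?_ ?_
    · intro u hu hau
      have h1 := E1_ld h hb dl hX hu hau.ne'
      rw [if_pos hau] at h1
      have h2 := hSS' u hu hau.ne'
      unfold fv
      omega
    · intro u hu
      rw [Finset.mem_erase] at hu
      have h1 := E1_ld h hb dl hX hu.2 hu.1
      unfold fv
      by_cases hau : (sk F).Adj a u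
      · rw [if_pos hau] at h1
        rw [if_pos hau]
        omega
      · rw [if_neg hau] at h1
        rw [if_neg hau]
        omega
    · rwa [Finset.sdiff_singleton_eq_erase] at hY
  have hfa : fv F A (DD o p m q) a = 2 := by
    unfold fv
    rw [h.ld_a, if_neg ha]
  rw [hfa] at hW
  refine ⟨Y + 2, hW, ?_⟩
  omega

end Pool.Agent.Lib.MP_a33b01_co
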