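import Mathlib
import Pool.Agent.Lib.MP_a33b01_co.Loc

set_option autoImplicit false

/-!
# MP_a33b01_co: case E10 (delete b and save c, delete a, delete z)
-/

namespace Pool.Agent.Lib.MP_a33b01_co

open Classical

variable {V : Type}

variable {F : Finset (Finset V)} {o p m q : V} {A : Finset V} {a b c z : V}

/-- the neighbours of `a` -/
private theorem E10_Na (h : Ctx F o p m q A a b c z) (ha4 : dg F a = 4) :
    ∀ u, (sk F).Adj a u → u = o ∨ u = p ∨ u = b ∨ u = z := by
  have hzp : z ≠ p := fun e => h.zD (by rw [mem_DD]; exact Or.inr (Or.inl e))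
  have hcard : ({o, p, b, z} : Finset V).card = 4 := by
    rw [Finset.card_insert_of_notMem, Finset.card_insert_of_notMem,
      Finset.card_insert_of_notMem, Finset.card_singleton]
    · simpa using h.bz.ne
    · simp only [Finset.mem_insert, Finset.mem_singleton, not_or]
      exact ⟨h.bp.symm, hzp.symm⟩
    · simp only [Finset.mem_insert, Finset.mem_singleton, not_or]
      exact ⟨h.st.op.ne, h.ob.ne, h.zo.symm⟩
  have hsub : ({o, p, b, z} : Finset V) ⊆ (supp F).filter fun u => (sk F).Adj a u := by
    intro u hu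
    simp only [Finset.mem_insert, Finset.mem_singleton] at hu
    rw [Finset.mem_filter]
    have : (sk F).Adj a u := by
      rcases hu with rfl | rfl | rfl | rfl
      · exact h.oa.symm
      · exact h.pa.symm
      · exact h.ab
      · exact h.az
    exact ⟨(adj_supp this).2, this⟩
  have heq := Finset.eq_of_subset_of_card_le hsub (by
    rw [hcard]
    exact ha4.le)
  intro u hu
  have hu' : u ∈ ({o, p, b, z} : Finset V) := by
    rw [heq, Finset.mem_filter]
    exact ⟨(adj_supp hu).2, hu⟩
  simpa only [Finset.mem_insert, Finset.mem_singleton] using hu'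

private theorem E10_perm {x y w : V} : ({x, y, w} : Finset V) = {y, x, w} := by
  ext u
  simp only [Finset.mem_insert, Finset.mem_singleton]
  tauto

private theorem E10_perm' {x y w : V} : ({x, y, w} : Finset V) = {y, w, x} := by
  ext u
  simp only [Finset.mem_insert, Finset.mem_singleton]
  tauto

/-- the face beyond `a p` -/
private theorem E10_apz (h : Ctx F o p m q A a b c z) (ha4 : dg F a = 4) :
    ({a, p, z} : Finset V) ∈ F := by
  have h1 : ({a, p, o} : Finset V) ∈ F := by
    have := h.opa
    rwa [E10_perm', E10_perm] at this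
  obtain ⟨w, hwo, hw, -⟩ := other_face h.st.sph h1
  obtain ⟨-, h2, h3⟩ := face_adj h.st.sph hw
  rcases E10_Na h ha4 w h3 with e | e | e | e
  · exact absurd e hwo
  · exact absurd (e ▸ h2) (fun hh => hh.ne rfl)
  · exact absurd (e ▸ h2.symm) h.nbp
  · rwa [e] at hw

/-- the neighbours of `p` -/
private theorem E10_Np (h : Ctx F o p m q A a b c z) (ha4 : dg F a = 4)
    (hzm : (sk F).Adj z m) :
    ∀ u, (sk F).Adj p u → u = o ∨ u = m ∨ u = z ∨ u = a := by
  have hapz := E10_apz h ha4
  have hpz : (sk F).Adj p z := (face_adj h.st.sph hapz).2.1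
  have h1 : ({p, o, m} : Finset V) ∈ F := by
    have := h.opm
    rwa [E10_perm] at this
  have h2 : ({p, m, z} : Finset V) ∈ F := h.ns p m z h.st.pm hzm.symm hpz
  have h3 : ({p, z, a} : Finset V) ∈ F := h.ns p z a hpz h.az.symm h.pa
  have h4 : ({p, a, o} : Finset V) ∈ F := h.ns p a o h.pa h.oa.symm h.st.op.symm
  exact link4 h.st.sph h1 h2 h3 h4 h.zo.symm h.am.symm

theorem e10 (h : Ctx F o p m q A a b c z) (ha : a ∈ A) (hc : c ∈ A) (ha4 : dg F a = 4)
    (hm : m ≠ q) (hzm : (sk F).Adj z m) : Concl F o p m q A := by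
  have hcD : c ∉ DD o p m q := h.st.AD c hc
  have hcq : c ≠ q := fun e => hcD (by rw [mem_DD]; exact Or.inr (Or.inr (Or.inr e)))
  have hbA : b ∉ A := fun hb => h.not_both ⟨ha, hb⟩
  have hNa := E10_Na h ha4
  have hNp := E10_Np h ha4 hzm
  have hapz := E10_apz h ha4
  have hpz : (sk F).Adj p z := (face_adj h.st.sph hapz).2.1
  have hzq : ¬ (sk F).Adj z q := h.nzq (Or.inl hbA)
  have haD := h.aD
  have hbD := h.bD
  have hzD := h.zD
  rw [mem_DD, not_or, not_or, not_or] at haD hbD hzD hcD
  obtain ⟨hSa, hSb, hSz⟩ := h.mem_SS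
  obtain ⟨hab, haz, hbz, hbc⟩ := h.abne
  have hpo : p ≠ o := h.st.op.ne'
  have hmo : m ≠ o := h.st.om.ne'
  have hqo : q ≠ o := h.st.oq.ne'
  have hmp : m ≠ p := h.st.pm.ne'
  have hqp : q ≠ p := h.st.pq.symm
  -- the number of vertices
  have hDsub : DD o p m q ⊆ supp F := by
    intro u hu
    rcases mem_DD.1 hu with e | e | e | e
    · rw [e]; exact (adj_supp h.st.op).1
    · rw [e]; exact (adj_supp h.st.op).2
    · rw [e]; exact (adj_supp h.st.om).2
    · rw [e]; exact (adj_supp h.st.oq).2
  have hD4 : (DD o p m q).card = 4 := by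
    unfold DD
    rw [Finset.card_insert_of_notMem, Finset.card_insert_of_notMem,
      Finset.card_insert_of_notMem, Finset.card_singleton]
    · simpa using hm
    · simp only [Finset.mem_insert, Finset.mem_singleton, not_or]
      exact ⟨hmp.symm, h.st.pq⟩
    · simp only [Finset.mem_insert, Finset.mem_singleton, not_or]
      exact ⟨h.st.op.ne, h.st.om.ne, h.st.oq.ne⟩
  have hSS3 : 3 ≤ (SS F o p m q).card := by
    have h1 : ({a, b, z} : Finset V) ⊆ SS F o p m q := by
      intro u hu
      simp only [Finset.mem_insert, Finset.mem_singleton] at hu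
      rcases hu with rfl | rfl | rfl
      · exact hSa
      · exact hSb
      · exact hSz
    have h2 : ({a, b, z} : Finset V).card = 3 :=
      Finset.card_eq_three.2 ⟨a, b, z, hab, haz, hbz, rfl⟩
    rw [← h2]
    exact Finset.card_le_card h1
  have hcs : (SS F o p m q).card = (supp F).card - 4 := by
    unfold SS
    rw [Finset.card_sdiff_of_subset hDsub, hD4]
  have hc7 : 7 ≤ (supp F).card := by omega
  -- the deletions
  obtain ⟨F1, d1⟩ := dl_one h.st.sph h.oa h.coa h.c5
  obtain ⟨F2, d2⟩ := dl_add (F := F) (F' := F1) (o := o) (X := {a}) (y := b) (z := c)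
    (w := z) d1 (by simpa using hab.symm)
    h.ob.ne' (Or.inl h.ob) (by
      intro u hu huo hbu hou
      rw [Finset.mem_singleton] at hu
      rcases hou with hou | ⟨x, hx, hxu⟩
      · exact Or.inl ((h.cob u hou hbu).resolve_left hu)
      · rw [Finset.mem_singleton] at hx
        rw [hx] at hxu
        exact Or.inr ((h.cab u hxu hbu).resolve_left huo))
    (by rw [Finset.card_singleton]; omega) (by
      intro u hu
      rw [Finset.mem_singleton] at hu
      rw [hu]
      exact (adj_supp h.ab).1)
  obtain ⟨F', d3⟩ := dl_add (F := F) (F' := F2) (o := o) (X := insert b {a}) (y := p)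
    (z := m) (w := z) d2 (by
      simp only [Finset.mem_insert, Finset.mem_singleton, not_or]
      exact ⟨fun e => hbD.2.1 e.symm, fun e => haD.2.1 e.symm⟩)
    hpo (Or.inl h.st.op) (by
      intro u hu huo hpu _
      simp only [Finset.mem_insert, Finset.mem_singleton, not_or] at hu
      rcases hNp u hpu with e | e | e | e
      · exact absurd e huo
      · exact Or.inl e
      · exact Or.inr e
      · exact absurd e hu.2)
    (by
      have : (insert b ({a} : Finset V)).card ≤ 2 := Finset.card_le_two
      omega) (by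
      intro u hu
      simp only [Finset.mem_insert, Finset.mem_singleton] at hu
      rcases hu with e | e
      · rw [e]; exact (adj_supp h.ab).2
      · rw [e]; exact (adj_supp h.ab).1)
  set X : Finset V := insert p (insert b {a}) with hX
  have hmX : ∀ u, u ∈ X ↔ u = p ∨ u = b ∨ u = a := by
    intro u
    rw [hX]
    simp only [Finset.mem_insert, Finset.mem_singleton]
  have hnX : ∀ u, u ≠ p → u ≠ b → u ≠ a → u ∉ X := by
    intro u h1 h2 h3 h4
    rcases (hmX u).1 h4 with e | e | e
    · exact h1 e
    · exact h2 e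
    · exact h3 e
  -- adjacency in `F'`
  have hadj : ∀ u v, u ≠ o → v ≠ o → u ∉ X → v ∉ X → ((sk F').Adj u v ↔ (sk F).Adj u v) := by
    intro u v hu hv huX hvX
    rw [d3.adj_ne hu hv]
    exact ⟨fun hh => hh.2.2, fun hh => ⟨huX, hvX, hh⟩⟩
  have hadjo : ∀ u, u ≠ o → u ∉ X → ((sk F').Adj o u ↔
      (sk F).Adj o u ∨ ∃ x ∈ X, (sk F).Adj x u) := by
    intro u hu huX
    rw [d3.adj_o hu]
    exact ⟨fun hh => hh.2, fun hh => ⟨huX, hh⟩⟩
  have hzX : z ∉ X := hnX z hzD.2.1 hbz.symm haz.symm
  have hmXn : m ∉ X := hnX m hmp (fun e => hbD.2.2.1 e.symm) (fun e => haD.2.2.1 e.symm)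
  have hqXn : q ∉ X := hnX q hqp (fun e => hbD.2.2.2 e.symm) (fun e => haD.2.2.2 e.symm)
  -- the new state
  have hAX : ∀ w ∈ A.erase a, w ∉ X ∧ w ≠ o ∧ w ≠ b ∧ w ≠ a ∧ (sk F).Adj o w := by
    intro w hw
    rw [Finset.mem_erase] at hw
    have h1 := h.st.AD w hw.2
    rw [mem_DD, not_or, not_or, not_or] at h1
    have h2 : w ≠ b := fun e => hbA (e ▸ hw.2)
    exact ⟨hnX w h1.2.1 h2 hw.1, h1.1, h2, hw.1, h.st.Ao w hw.2⟩
  have st' : St F' o z m q (A.erase a) := by
    refine ⟨d3.s, ?_, ?_, ?_, ?_, Or.inr ?_, ?_, ?_, ?_, ?_, ?_⟩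
    · rw [hadjo z h.zo hzX]
      exact Or.inr ⟨a, (hmX a).2 (Or.inr (Or.inr rfl)), h.az⟩
    · rw [hadjo m hmo hmXn]
      exact Or.inl h.st.om
    · rw [hadjo q hqo hqXn]
      exact Or.inl h.st.oq
    · rw [hadj z m h.zo hmo hzX hmXn]
      exact hzm
    · rw [hadj m q hmo hqo hmXn hqXn]
      exact h.st.mq.resolve_left hm
    · exact hzD.2.2.2
    · intro w hw
      obtain ⟨h1, h2, h3, h4, h5⟩ := hAX w hw
      rw [hadjo w h2 h1]
      exact Or.inl h5
    · intro w hw hwD
      have hw2 := (Finset.mem_erase.1 hw).2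
      have h1 := h.st.AD w hw2
      rw [mem_DD, not_or, not_or, not_or] at h1
      rcases mem_DD.1 hwD with e | e | e | e
      · exact h1.1 e
      · exact h.zA (e ▸ hw2)
      · exact h1.2.2.1 e
      · exact h1.2.2.2 e
    · intro w hw w' hw' hadj'
      obtain ⟨h1, h2, -⟩ := hAX w hw
      obtain ⟨h3, h4, -⟩ := hAX w' hw'
      rw [hadj w w' h2 h4 h1 h3] at hadj'
      exact h.st.ind w (Finset.mem_erase.1 hw).2 w' (Finset.mem_erase.1 hw').2 hadj'
    · rintro - w hw ⟨h0, -⟩
      obtain ⟨h1, h2, h3, h4, h5⟩ := hAX w hw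
      rw [hadj w z h2 h.zo h1 hzX] at h0
      exact h.nzA w (Finset.mem_erase.1 hw).2 h4 h3 h0.symm
  -- the induction hypothesis
  have hsupp : supp F' = supp F \ X := d3.sp
  have hlt : (supp F').card < (supp F).card := by
    rw [hsupp]
    refine Finset.card_lt_card ?_
    rw [Finset.ssubset_iff_of_subset Finset.sdiff_subset]
    exact ⟨a, (adj_supp h.ab).1, fun hh =>
      (Finset.mem_sdiff.1 hh).2 ((hmX a).2 (Or.inr (Or.inr rfl)))⟩
  obtain ⟨Y, hY, hYn⟩ := h.ih F' o z m q (A.erase a) hlt st'
  -- the remaining vertices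
  have hSeq : SS F' o z m q = (((SS F o p m q).erase b).erase a).erase z := by
    ext u
    rw [mem_SS, hsupp, Finset.mem_sdiff, hmX, Finset.mem_erase, Finset.mem_erase,
      Finset.mem_erase, mem_SS, mem_DD, mem_DD]
    tauto
  have hcS : (SS F o p m q).card = (SS F' o z m q).card + 3 := by
    rw [hSeq]
    have h1 : a ∈ (SS F o p m q).erase b := Finset.mem_erase.2 ⟨hab, hSa⟩
    have h2 : z ∈ ((SS F o p m q).erase b).erase a :=
      Finset.mem_erase.2 ⟨haz.symm, Finset.mem_erase.2 ⟨hbz.symm, hSz⟩⟩
    rw [Finset.card_erase_of_mem h2, Finset.card_erase_of_mem h1,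
      Finset.card_erase_of_mem hSb]
    omega
  -- facts about the remaining vertices
  have hrem : ∀ u ∈ SS F o p m q, u ≠ a → u ≠ z → ¬ (sk F).Adj u p := by
    intro u hu h1 h2 h3
    have h4 := (mem_SS.1 hu).2
    rw [mem_DD, not_or, not_or, not_or] at h4
    rcases hNp u h3.symm with e | e | e | e
    · exact h4.1 e
    · exact h4.2.2.1 e
    · exact h2 e
    · exact h1 e
  have hrema : ∀ u ∈ SS F o p m q, u ≠ b → u ≠ z → ¬ (sk F).Adj a u := by
    intro u hu h1 h2 h3
    have h4 := (mem_SS.1 hu).2
    rw [mem_DD, not_or, not_or, not_or] at h4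
    rcases hNa u h3 with e | e | e | e
    · exact h4.1 e
    · exact h4.2.1 e
    · exact h1 e
    · exact h2 e
  -- loads
  have hld2 : ∀ u ∈ SS F o p m q, u ≠ a → u ≠ z → ¬ (sk F).Adj o u →
      ld F A (DD o p m q) u ≤ 2 := by
    intro u hu h1 h2 h3
    have h4 : u ∉ A := fun hh => h3 (h.st.Ao u hh)
    unfold ld
    rw [if_neg h4, zero_add]
    have h5 : ((DD o p m q).filter fun d => (sk F).Adj u d) ⊆ {m, q} := by
      intro d hd
      rw [Finset.mem_filter, mem_DD] at hd
      simp only [Finset.mem_insert, Finset.mem_singleton]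
      rcases hd.1 with e | e | e | e
      · exact absurd (e ▸ hd.2.symm) h3
      · exact absurd (e ▸ hd.2) (hrem u hu h1 h2)
      · exact Or.inl e
      · exact Or.inr e
    exact (Finset.card_le_card h5).trans Finset.card_le_two
  have hldz : ld F A (DD o p m q) z ≤ 2 := by
    unfold ld
    rw [if_neg h.zA, zero_add]
    have h5 : ((DD o p m q).filter fun d => (sk F).Adj z d) ⊆ {p, m} := by
      intro d hd
      rw [Finset.mem_filter, mem_DD] at hd
      simp only [Finset.mem_insert, Finset.mem_singleton]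
      rcases hd.1 with e | e | e | e
      · exact absurd (e ▸ hd.2.symm) h.noz
      · exact Or.inl e
      · exact Or.inr e
      · exact absurd (e ▸ hd.2) hzq
    exact (Finset.card_le_card h5).trans Finset.card_le_two
  have hlda := h.ld_a
  rw [if_pos ha] at hlda
  have hldb := h.ld_b hcq
  rw [if_neg hbA] at hldb
  have hldc : 2 ≤ ld F A (DD o p m q) c := by
    unfold ld
    rw [if_pos hc]
    have h1 : 1 ≤ ((DD o p m q).filter fun d => (sk F).Adj c d).card :=
      Finset.card_pos.2 ⟨o, Finset.mem_filter.2 ⟨by rw [mem_DD]; exact Or.inl rfl, h.oc.symm⟩⟩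
    omega
  have hSc : c ∈ SS F o p m q := mem_SS.2 ⟨(adj_supp h.bc).2, h.st.AD c hc⟩
  set f : V → ℕ := fv F A (DD o p m q) with hf
  set g1 : V → ℕ := fun u => if (sk F).Adj b u ∧ u ≠ c then f u - 1 else f u with hg1
  set g2 : V → ℕ := fun u => if (sk F).Adj a u then g1 u - 1 else g1 u with hg2
  set g3 : V → ℕ := fv F' (A.erase a) (DD o z m q) with hg3
  have hfa : f a = 1 := by
    rw [hf]
    unfold fv
    rw [hlda]
  have hfb : f b = 3 := by
    rw [hf]
    unfold fv
    rw [hldb]
  have hfc : f c ≤ 2 := by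
    rw [hf]
    unfold fv
    omega
  have hfz : 2 ≤ f z := by
    rw [hf]
    unfold fv
    omega
  have hfu : ∀ u ∈ SS F o p m q, u ≠ a → u ≠ z → ¬ (sk F).Adj o u → 2 ≤ f u := by
    intro u hu h1 h2 h3
    have := hld2 u hu h1 h2 h3
    rw [hf]
    unfold fv
    omega
  -- the comparison of the loads
  have hcomp : ∀ u ∈ SS F' o z m q, g3 u ≤ if (sk F).Adj z u then g2 u - 1 else g2 u := by
    intro u hu
    have hu' := hu
    rw [hSeq, Finset.mem_erase, Finset.mem_erase, Finset.mem_erase] at hu'
    obtain ⟨huz, hua, hub, huS⟩ := hu'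
    have huD := (mem_SS.1 huS).2
    rw [mem_DD, not_or, not_or, not_or] at huD
    have huX : u ∉ X := hnX u huD.2.1 hub hua
    have hnap := hrem u huS hua huz
    have hnau := hrema u huS hub huz
    have hld' : ld F A (DD o p m q) u + (if (sk F).Adj b u ∧ u ≠ c then 1 else 0) +
        (if (sk F).Adj z u then 1 else 0) ≤ ld F' (A.erase a) (DD o z m q) u := by
      have e1 : ((DD o p m q).filter fun d => (sk F).Adj u d).card =
          (if (sk F).Adj u o then 1 else 0) + (if (sk F).Adj u m then 1 else 0) +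
          (if (sk F).Adj u q then 1 else 0) := by
        rw [Finset.card_filter]
        unfold DD
        rw [Finset.sum_insert (by
            simp only [Finset.mem_insert, Finset.mem_singleton, not_or]
            exact ⟨hpo.symm, hmo.symm, hqo.symm⟩),
          Finset.sum_insert (by
            simp only [Finset.mem_insert, Finset.mem_singleton, not_or]
            exact ⟨hmp.symm, hqp.symm⟩),
          Finset.sum_insert (by
            simp only [Finset.mem_singleton]
            exact hm), Finset.sum_singleton, if_neg hnap]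
        ring
      have e2 : ((DD o z m q).filter fun d => (sk F').Adj u d).card =
          (if (sk F').Adj u o then 1 else 0) + (if (sk F').Adj u z then 1 else 0) +
          (if (sk F').Adj u m then 1 else 0) + (if (sk F').Adj u q then 1 else 0) := by
        rw [Finset.card_filter]
        unfold DD
        rw [Finset.sum_insert (by
            simp only [Finset.mem_insert, Finset.mem_singleton, not_or]
            exact ⟨h.zo.symm, hmo.symm, hqo.symm⟩),
          Finset.sum_insert (by
            simp only [Finset.mem_insert, Finset.mem_singleton, not_or]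
            exact ⟨hzD.2.2.1, hzD.2.2.2⟩),
          Finset.sum_insert (by
            simp only [Finset.mem_singleton]
            exact hm), Finset.sum_singleton]
        ring
      unfold ld
      rw [e1, e2]
      have e3 : (sk F').Adj u z ↔ (sk F).Adj z u := by
        rw [hadj u z huD.1 h.zo huX hzX]
        exact ⟨fun hh => hh.symm, fun hh => hh.symm⟩
      have e4 : (sk F').Adj u m ↔ (sk F).Adj u m := hadj u m huD.1 hmo huX hmXn
      have e5 : (sk F').Adj u q ↔ (sk F).Adj u q := hadj u q huD.1 hqo huX hqXn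
      have e6 : (sk F').Adj u o ↔ ((sk F).Adj u o ∨ (sk F).Adj b u) := by
        rw [(sk F').adj_comm, hadjo u huD.1 huX]
        constructor
        · rintro (hh | ⟨x, hx, hxu⟩)
          · exact Or.inl hh.symm
          · rcases (hmX x).1 hx with e | e | e
            · exact absurd (e ▸ hxu.symm) hnap
            · exact Or.inr (e ▸ hxu)
            · exact absurd (e ▸ hxu) hnau
        · rintro (hh | hh)
          · exact Or.inl hh.symm
          · exact Or.inr ⟨b, (hmX b).2 (Or.inr (Or.inl rfl)), hh⟩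
      have e7 : u ∈ A.erase a ↔ u ∈ A := by
        rw [Finset.mem_erase]
        exact ⟨fun hh => hh.2, fun hh => ⟨hua, hh⟩⟩
      have e8 : ¬ ((sk F).Adj u o ∧ ((sk F).Adj b u ∧ u ≠ c)) := by
        rintro ⟨h1, h2, h3⟩
        rcases h.cob u h1.symm h2 with e | e
        · exact hua e
        · exact h3 e
      simp only [e3, e4, e5, e6, e7]
      by_cases c1 : (sk F).Adj u o
      · have c2 : ¬ ((sk F).Adj b u ∧ u ≠ c) := fun hh => e8 ⟨c1, hh⟩
        rw [if_pos c1, if_neg c2, if_pos (Or.inl c1)]
        omega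
      · rw [if_neg c1]
        by_cases c2 : (sk F).Adj b u
        · rw [if_pos (Or.inr c2)]
          split_ifs <;> omega
        · have c3 : ¬ ((sk F).Adj b u ∧ u ≠ c) := fun hh => c2 hh.1
          have c4 : ¬ ((sk F).Adj u o ∨ (sk F).Adj b u) := fun hh => hh.elim c1 c2
          rw [if_neg c3, if_neg c4]
          omega
    have e9 : g2 u = f u - (if (sk F).Adj b u ∧ u ≠ c then 1 else 0) := by
      simp only [hg2, hg1]
      rw [if_neg hnau]
      split_ifs
      · rfl
      · exact (Nat.sub_zero _).symm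
    have e10 : (if (sk F).Adj z u then g2 u - 1 else g2 u) =
        f u - (if (sk F).Adj b u ∧ u ≠ c then 1 else 0) - (if (sk F).Adj z u then 1 else 0) := by
      rw [e9]
      by_cases c1 : (sk F).Adj z u
      · rw [if_pos c1, if_pos c1]
      · rw [if_neg c1, if_neg c1, Nat.sub_zero]
    rw [e10, hg3, hf]
    unfold fv
    omega
  -- the game
  have w3 : Wg (sk F) ((((SS F o p m q).erase b).erase a).erase z) g3 Y := by
    rw [← hSeq]
    refine wg_mono (fun _ _ => le_rfl) ?_ hY
    intro u hu v hv huv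
    have hu' := hu
    have hv' := hv
    rw [hSeq, Finset.mem_erase, Finset.mem_erase, Finset.mem_erase, mem_SS] at hu' hv'
    obtain ⟨-, h1, h2, -, h3⟩ := hu'
    obtain ⟨-, h4, h5, -, h6⟩ := hv'
    rw [mem_DD, not_or, not_or, not_or] at h3 h6
    rw [hadj u v h3.1 h6.1 (hnX u h3.2.1 h2 h1) (hnX v h6.2.1 h5 h4)]
    exact huv
  have w2 : Wg (sk F) (((SS F o p m q).erase b).erase a) g2 (Y + g2 z) := by
    refine wg_del (Finset.mem_erase.2 ⟨haz.symm, Finset.mem_erase.2 ⟨hbz.symm, hSz⟩⟩) ?_ ?_ w3
    · intro u hu hzu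
      rw [Finset.mem_erase, Finset.mem_erase] at hu
      obtain ⟨hua, hub, huS⟩ := hu
      have huz : u ≠ z := hzu.ne'
      have hnou : ¬ (sk F).Adj o u := by
        intro hou
        have huD := (mem_SS.1 huS).2
        rw [mem_DD, not_or, not_or, not_or] at huD
        rcases h.noz' u hou hzu with e | e | e | e | e
        · exact hua e
        · exact hub e
        · exact huD.2.1 e
        · exact huD.2.2.1 e.2
        · exact hbA e.1
      have h1 := hfu u huS hua huz hnou
      simp only [hg2, hg1]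
      rw [if_neg (hrema u huS hub huz)]
      split_ifs <;> omega
    · intro u hu
      rw [← hSeq] at hu
      exact hcomp u hu
  have w1 : Wg (sk F) ((SS F o p m q).erase b) g1 (Y + g2 z + g1 a) := by
    refine wg_del (Finset.mem_erase.2 ⟨hab, hSa⟩) ?_ (fun u _ => le_rfl) w2
    intro u hu hau
    rw [Finset.mem_erase] at hu
    have huz : u = z := by
      by_contra huz
      exact hrema u hu.2 hu.1 huz hau
    rw [huz]
    simp only [hg1]
    rw [if_pos ⟨h.bz, h.zc⟩]
    omega
  have w0 : Wg (sk F) (SS F o p m q) f (Y + g2 z + g1 a + (f b - f c - 1)) := by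
    refine wg_save hSb hSc h.bc (by omega) ?_ (fun u _ => le_rfl) w1
    intro u hu hbu huc
    by_cases hua : u = a
    · rw [hua]
      omega
    by_cases huz : u = z
    · rw [huz]
      omega
    have hnou : ¬ (sk F).Adj o u := by
      intro hou
      rcases h.cob u hou hbu with e | e
      · exact hua e
      · exact huc e
    have := hfu u hu hua huz hnou
    omega
  -- one more outer vertex
  obtain ⟨y, hby, hyo, hya, hyc, hyz⟩ : ∃ y, (sk F).Adj b y ∧ y ≠ o ∧ y ≠ a ∧ y ≠ c ∧ y ≠ z := by
    by_contra hcon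
    push Not at hcon
    have h1 : dg F b ≤ ({o, a, c, z} : Finset V).card := by
      refine dg_le fun u hu => ?_
      simp only [Finset.mem_insert, Finset.mem_singleton]
      by_contra hn
      rw [not_or, not_or, not_or] at hn
      exact hn.2.2.2 (hcon u hu hn.1 hn.2.1 hn.2.2.1)
    have h2 := h.r6 b h.ob h.bD hbA
    have h3 : ({o, a, c, z} : Finset V).card ≤ 4 := Finset.card_le_four
    omega
  have hyD : y ≠ p ∧ y ≠ m ∧ y ≠ q :=
    ⟨fun e => h.nbp (e ▸ hby), fun e => h.nbm hcq (e ▸ hby), fun e => h.nbq hcq (e ▸ hby)⟩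
  have hyb : y ≠ b := hby.ne'
  have hOsub : insert y (((OO F o p m q).erase a).erase b) ⊆ OO F' o z m q := by
    intro u hu
    rw [Finset.mem_insert, Finset.mem_erase, Finset.mem_erase] at hu
    rw [mem_OO, mem_DD]
    rcases hu with e | ⟨hub, hua, hu⟩
    · rw [e]
      have hyX : y ∉ X := hnX y hyD.1 hyb hya
      refine ⟨(hadjo y hyo hyX).2 (Or.inr ⟨b, (hmX b).2 (Or.inr (Or.inl rfl)), hby⟩), ?_⟩
      rintro (e | e | e | e)
      · exact hyo e
      · exact hyz e
      · exact hyD.2.1 e
      · exact hyD.2.2 e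
    · rw [mem_OO, mem_DD, not_or, not_or, not_or] at hu
      obtain ⟨h1, h2, h3, h4, h5⟩ := hu
      have huX : u ∉ X := hnX u h3 hub hua
      refine ⟨(hadjo u h2 huX).2 (Or.inl h1), ?_⟩
      rintro (e | e | e | e)
      · exact h2 e
      · exact h.noz (e ▸ h1)
      · exact h4 e
      · exact h5 e
  have hOO : (OO F o p m q).card ≤ (OO F' o z m q).card + 1 := by
    have h1 := Finset.card_le_card hOsub
    have h2 : y ∉ ((OO F o p m q).erase a).erase b := by
      intro hy
      rw [Finset.mem_erase, Finset.mem_erase, mem_OO] at hy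
      rcases h.cob y hy.2.2.1 hby with e | e
      · exact hya e
      · exact hyc e
    rw [Finset.card_insert_of_notMem h2] at h1
    have h3 := Finset.pred_card_le_card_erase (s := OO F o p m q) (a := a)
    have h4 := Finset.pred_card_le_card_erase (s := (OO F o p m q).erase a) (a := b)
    omega
  have hA1 : A.card = (A.erase a).card + 1 := by
    rw [Finset.card_erase_of_mem ha]
    have : 0 < A.card := Finset.card_pos.2 ⟨a, ha⟩
    omega
  refine ⟨Y, wg_le w0 (by omega), ?_⟩
  omega

end Pool.Agent.Lib.MP_a33b01_co
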