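import Mathlib
import Pool.Agent.Lib.MP_a33b01_co.Loc

set_option autoImplicit false

/-!
# MP_a33b01_co: case E11 (delete z and save a, a and b are free)
-/

namespace Pool.Agent.Lib.MP_a33b01_co

open Classical

variable {V : Type}

variable {F : Finset (Finset V)} {o p m q : V} {A : Finset V} {a b c z : V}


theorem e11 (h : Ctx F o p m q A a b c z) (ha : a ∈ A) (hc : c ∈ A) (ha4 : dg F a = 4)
    (hb5 : dg F b = 5) (hzm : m ≠ q → ¬ (sk F).Adj z m) : Concl F o p m q A := by
  have hF := h.st.sph
  have hcD : c ∉ DD o p m q := h.st.AD c hc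
  have hcq : c ≠ q := fun e => hcD (mem_DD.2 (Or.inr (Or.inr (Or.inr e))))
  have hcp : c ≠ p := fun e => hcD (mem_DD.2 (Or.inr (Or.inl e)))
  have hbA : b ∉ A := fun hb => h.not_both ⟨ha, hb⟩
  obtain ⟨hab, haz, hbz, hbc⟩ := h.abne
  have hca := h.ca
  have hoa := h.oa
  have hob := h.ob
  have hoc := h.oc
  have hop := h.st.op
  have hpa := h.pa
  have hAab := h.ab
  have hAaz := h.az
  have hAbz := h.bz
  have hAbc := h.bc
  have hnoz := h.noz
  have hnbp := h.nbp
  have hzo := h.zo
  have hzA := h.zA
  have hzc := h.zc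
  have hbp := h.bp
  have hzD := h.zD
  have hzp : z ≠ p := fun e => hzD (mem_DD.2 (Or.inr (Or.inl e)))
  have hnzq : ¬ (sk F).Adj z q := h.nzq (Or.inl hbA)
  have hnzm : ¬ (sk F).Adj z m := by
    by_cases hmq : m = q
    · rw [hmq]; exact hnzq
    · exact hzm hmq
  have hnzc : ¬ (sk F).Adj z c := h.nzA c hc hca (fun e => hbc e.symm)
  -- the neighbours of `a`
  have hNa : ∀ u, (sk F).Adj a u → u = o ∨ u = p ∨ u = b ∨ u = z := by
    intro u hu
    by_contra hcon
    push Not at hcon
    obtain ⟨h1, h2, h3, h4⟩ := hcon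
    have hle := le_dg (F := F) (v := a) (W := {u, o, p, b, z}) (by
      intro w hw
      simp only [Finset.mem_insert, Finset.mem_singleton] at hw
      rcases hw with rfl | rfl | rfl | rfl | rfl
      · exact hu
      · exact hoa.symm
      · exact hpa.symm
      · exact hAab
      · exact hAaz)
    rw [Finset.card_insert_of_notMem (by simp [h1, h2, h3, h4]),
      Finset.card_insert_of_notMem (by simp [hop.ne, hob.ne, hzo.symm]),
      Finset.card_insert_of_notMem (by simp [hbp.symm, hzp.symm]),
      Finset.card_insert_of_notMem (by simp [hbz]), Finset.card_singleton] at hle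
    omega
  -- `z` is adjacent to `p`
  have hAzp : (sk F).Adj z p := by
    have hf : ({p, a, o} : Finset V) ∈ F := by
      have := h.opa
      have e : ({p, a, o} : Finset V) = {o, p, a} := by
        ext x; simp only [Finset.mem_insert, Finset.mem_singleton]; tauto
      rw [e]; exact this
    obtain ⟨w, hwo, hw, -⟩ := other_face hF hf
    obtain ⟨f1, f2, f3⟩ := face_adj hF hw
    rcases hNa w f2 with rfl | rfl | rfl | rfl
    · exact absurd rfl hwo
    · exact absurd rfl f3.ne
    · exact absurd f3.symm hnbp
    · exact f3.symm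
  -- the other face at `b z`
  obtain ⟨y, hya, hAyb, hAyz, hcbz⟩ : ∃ y, y ≠ a ∧ (sk F).Adj b y ∧ (sk F).Adj z y ∧
      ∀ u, (sk F).Adj b u → (sk F).Adj z u → u = a ∨ u = y := by
    have hf : ({b, z, a} : Finset V) ∈ F := by
      have := h.abz
      have e : ({b, z, a} : Finset V) = {a, b, z} := by
        ext x; simp only [Finset.mem_insert, Finset.mem_singleton]; tauto
      rw [e]; exact this
    obtain ⟨w, hwa, hw, -⟩ := other_face hF hf
    obtain ⟨f1, f2, f3⟩ := face_adj hF hw
    exact ⟨w, hwa, f3, f2, nosep_two hF h.ns hf hw hwa.symm⟩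
  have hyo : y ≠ o := by
    rintro rfl; exact hnoz hAyz.symm
  have hyp : y ≠ p := by
    rintro rfl; exact hnbp hAyb
  have hyc : y ≠ c := by
    rintro rfl; exact hnzc hAyz
  have hyz : y ≠ z := hAyz.ne.symm
  have hyb : y ≠ b := hAyb.ne.symm
  -- the neighbours of `b`
  have hNb : ∀ u, (sk F).Adj b u → u = o ∨ u = a ∨ u = c ∨ u = z ∨ u = y := by
    intro u hu
    by_contra hcon
    push Not at hcon
    obtain ⟨h1, h2, h3, h4, h5⟩ := hcon
    have hle := le_dg (F := F) (v := b) (W := {u, o, a, c, z, y}) (by
      intro w hw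
      simp only [Finset.mem_insert, Finset.mem_singleton] at hw
      rcases hw with rfl | rfl | rfl | rfl | rfl | rfl
      · exact hu
      · exact hob.symm
      · exact hAab.symm
      · exact hAbc
      · exact hAbz
      · exact hAyb)
    rw [Finset.card_insert_of_notMem (by simp [h1, h2, h3, h4, h5]),
      Finset.card_insert_of_notMem (by simp [hoa.ne, hoc.ne, hzo.symm, hyo.symm]),
      Finset.card_insert_of_notMem (by simp [hca.symm, haz, hya.symm]),
      Finset.card_insert_of_notMem (by simp [hzc.symm, hyc.symm]),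
      Finset.card_insert_of_notMem (by simp [hyz.symm]), Finset.card_singleton] at hle
    omega
  -- the outer neighbours of `z`
  have hzout : ∀ u, (sk F).Adj o u → (sk F).Adj z u → u = a ∨ u = b ∨ u = p := by
    intro u h1 h2
    rcases h.noz' u h1 h2 with h3 | h3 | h3 | ⟨h3, h4⟩ | ⟨h3, h4⟩
    · exact Or.inl h3
    · exact Or.inr (Or.inl h3)
    · exact Or.inr (Or.inr h3)
    · exact absurd (h4 ▸ h2) hnzm
    · exact absurd h3 hbA
  -- at least seven vertices
  have hcard7 : 7 ≤ (supp F).card := by
    have hsub : ({o, p, a, b, c, z, y} : Finset V) ⊆ supp F := by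
      intro w hw
      simp only [Finset.mem_insert, Finset.mem_singleton] at hw
      rcases hw with rfl | rfl | rfl | rfl | rfl | rfl | rfl
      · exact (adj_supp hoa).1
      · exact (adj_supp hop).2
      · exact (adj_supp hoa).2
      · exact (adj_supp hob).2
      · exact (adj_supp hoc).2
      · exact (adj_supp hAyz).1
      · exact (adj_supp hAyz).2
    have := Finset.card_le_card hsub
    rw [Finset.card_insert_of_notMem
        (by simp [hop.ne, hoa.ne, hob.ne, hoc.ne, hzo.symm, hyo.symm]),
      Finset.card_insert_of_notMem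
        (by simp [hpa.ne, hbp.symm, hcp.symm, hzp.symm, hyp.symm]),
      Finset.card_insert_of_notMem (by simp [hab, hca.symm, haz, hya.symm]),
      Finset.card_insert_of_notMem (by simp [hbc, hbz, hyb.symm]),
      Finset.card_insert_of_notMem (by simp [hzc.symm, hyc.symm]),
      Finset.card_insert_of_notMem (by simp [hyz.symm]), Finset.card_singleton] at this
    omega
  -- the deletion
  obtain ⟨F1, dl1⟩ := dl_one hF hoa (z := p) (w := b) (fun u h1 h2 => h.coa u h1 h2) h.c5
  obtain ⟨F2, dl2⟩ := dl_add dl1 (y := b) (z := c) (w := z)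
    (by simp [hab.symm]) hob.ne.symm (Or.inl hob)
    (by
      intro u hu huo hbu hcase
      rcases hcase with h1 | ⟨x, hx, h1⟩
      · rcases h.cob u h1 hbu with h2 | h2
        · exact absurd (by simp [h2]) hu
        · exact Or.inl h2
      · rw [Finset.mem_singleton] at hx
        rw [hx] at h1
        rcases h.cab u h1 hbu with h2 | h2
        · exact absurd h2 huo
        · exact Or.inr h2)
    (by rw [Finset.card_singleton]; omega)
    (by
      intro x hx
      rw [Finset.mem_singleton] at hx
      rw [hx]; exact (adj_supp hoa).2)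
  obtain ⟨F', dl⟩ := dl_add dl2 (y := z) (z := p) (w := y)
    (by simp [haz.symm, hbz.symm]) hzo (Or.inr ⟨b, by simp, hAbz⟩)
    (by
      intro u hu huo hzu hcase
      have hub : u ≠ b := fun e => hu (by simp [e])
      have hua : u ≠ a := fun e => hu (by simp [e])
      rcases hcase with h1 | ⟨x, hx, h1⟩
      · rcases hzout u h1 hzu with h2 | h2 | h2
        · exact absurd h2 hua
        · exact absurd h2 hub
        · exact Or.inl h2
      · simp only [Finset.mem_insert, Finset.mem_singleton] at hx
        rcases hx with rfl | rfl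
        · rcases hcbz u h1 hzu with h2 | h2
          · exact absurd h2 hua
          · exact Or.inr h2
        · rcases hNa u h1 with h2 | h2 | h2 | h2
          · exact absurd h2 huo
          · exact Or.inl h2
          · exact absurd h2 hub
          · exact absurd h2 hzu.ne.symm)
    (by
      have : ({b, a} : Finset V).card ≤ 2 := Finset.card_le_two
      have e : (insert b {a} : Finset V) = {b, a} := rfl
      rw [e]; omega)
    (by
      intro x hx
      simp only [Finset.mem_insert, Finset.mem_singleton] at hx
      rcases hx with rfl | rfl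
      · exact (adj_supp hob).2
      · exact (adj_supp hoa).2)
  set X : Finset V := insert z (insert b {a}) with hXdef
  obtain ⟨hSa, hSb, hSz⟩ := h.mem_SS
  have hX : X ⊆ SS F o p m q := by
    intro x hx
    simp only [hXdef, Finset.mem_insert, Finset.mem_singleton] at hx
    rcases hx with rfl | rfl | rfl <;> assumption
  have hmemX : ∀ u, u ∈ X ↔ u = z ∨ u = b ∨ u = a := by
    intro u; simp [hXdef]
  have hXne : X.Nonempty := ⟨z, by simp [hXdef]⟩
  have st' : St F' o p m q (A.erase a) := by
    refine st_dl h.st dl hX ?_ ?_ ?_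
    · intro w hw
      have hwA := Finset.mem_of_mem_erase hw
      have hwa : w ≠ a := Finset.ne_of_mem_erase hw
      refine ⟨?_, h.st.AD w hwA, Or.inl (h.st.Ao w hwA)⟩
      rw [hmemX]
      rintro (rfl | rfl | rfl)
      · exact hzA hwA
      · exact hbA hwA
      · exact hwa rfl
    · intro w hw w' hw'
      exact h.st.ind w (Finset.mem_of_mem_erase hw) w' (Finset.mem_of_mem_erase hw')
    · intro hmq w hw
      exact h.st.exc hmq w (Finset.mem_of_mem_erase hw)
  obtain ⟨Y, hWg, hYle⟩ := step h.ih dl hX hXne st'
  have hOO : (OO F o p m q).card ≤ (OO F' o p m q).card + 2 := by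
    have := card_OO_dl (p := p) (m := m) (q := q) (B := {a, b}) dl (by
      intro x hx hox
      rw [hmemX] at hx
      rcases hx with rfl | rfl | rfl
      · exact absurd hox hnoz
      · simp
      · simp)
    have h2 : ({a, b} : Finset V).card ≤ 2 := Finset.card_le_two
    omega
  have hXc : X.card ≤ 3 := by
    rw [hXdef]
    have e : (insert z (insert b {a}) : Finset V) = {z, b, a} := rfl
    rw [e]; exact Finset.card_le_three
  have hAc : (A.erase a).card + 1 = A.card := Finset.card_erase_add_one ha
  -- the values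
  have hfa : fv F A (DD o p m q) a = 1 := by
    unfold fv; rw [h.ld_a, if_pos ha]
  have hfb : fv F A (DD o p m q) b = 3 := by
    unfold fv; rw [h.ld_b hcq, if_neg hbA]
  have hldz : ld F A (DD o p m q) z = 1 := by
    unfold ld
    rw [if_neg hzA]
    have e : (DD o p m q).filter (fun d => (sk F).Adj z d) = {p} := by
      ext d
      rw [Finset.mem_filter, mem_DD, Finset.mem_singleton]
      constructor
      · rintro ⟨rfl | rfl | rfl | rfl, hd⟩
        · exact absurd hd.symm hnoz
        · rfl
        · exact absurd hd hnzm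
        · exact absurd hd hnzq
      · rintro rfl
        exact ⟨Or.inr (Or.inl rfl), hAzp⟩
    rw [e, Finset.card_singleton]
  have hfz : fv F A (DD o p m q) z = 3 := by
    unfold fv; rw [hldz]
  -- the new load
  have hld : ∀ u ∈ SS F o p m q, u ∉ X →
      ld F' (A.erase a) (DD o p m q) u = ld F A (DD o p m q) u +
        if ¬ (sk F).Adj o u ∧ ∃ x ∈ X, (sk F).Adj x u then 1 else 0 := by
    intro u hu huX
    rw [ld_dl dl hX hu huX]
    unfold ld
    have hua : u ≠ a := fun e => huX ((hmemX u).2 (Or.inr (Or.inr e)))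
    have e : (if u ∈ A.erase a then 1 else 0) = if u ∈ A then 1 else 0 := by
      simp [Finset.mem_erase, hua]
    rw [e]
  have hldz' : ∀ u ∈ SS F o p m q, u ∉ X → (sk F).Adj z u →
      ld F' (A.erase a) (DD o p m q) u = ld F A (DD o p m q) u + 1 := by
    intro u hu huX hzu
    rw [hld u hu huX, if_pos]
    refine ⟨fun hou => ?_, z, (hmemX z).2 (Or.inl rfl), hzu⟩
    rcases hzout u hou hzu with h2 | h2 | h2
    · exact huX ((hmemX u).2 (Or.inr (Or.inr h2)))
    · exact huX ((hmemX u).2 (Or.inr (Or.inl h2)))
    · exact (mem_SS.1 hu).2 (mem_DD.2 (Or.inr (Or.inl h2)))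
  have hle4 : ∀ u ∈ SS F o p m q, u ∉ X → ld F' (A.erase a) (DD o p m q) u ≤ 4 := by
    intro u hu huX
    apply st'.ld_le
    rw [mem_SS, dl.sp]
    exact ⟨Finset.mem_sdiff.2 ⟨(mem_SS.1 hu).1, huX⟩, (mem_SS.1 hu).2⟩
  -- the game
  let g : V → ℕ := fun u => if (sk F).Adj z u ∧ u ≠ a then fv F A (DD o p m q) u - 1
    else fv F A (DD o p m q) u
  have hga : g a = 1 := by
    simp only [g]
    rw [if_neg (by simp), hfa]
  have hgb : g b = 2 := by
    simp only [g]
    rw [if_pos ⟨hAbz.symm, hab.symm⟩, hfb]
  have hEq : (((SS F o p m q).erase z).erase a).erase b = SS F o p m q \ X := by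
    ext u
    simp only [Finset.mem_erase, Finset.mem_sdiff, hmemX]
    tauto
  have hW1 : Wg (sk F) ((((SS F o p m q).erase z).erase a).erase b) g Y := by
    rw [hEq]
    refine wg_mono ?_ (fun u _ v _ huv => huv) hWg
    intro u hu
    obtain ⟨hu1, hu2⟩ := Finset.mem_sdiff.1 hu
    have hua : u ≠ a := fun e => hu2 ((hmemX u).2 (Or.inr (Or.inr e)))
    simp only [g]
    by_cases hzu : (sk F).Adj z u
    · rw [if_pos ⟨hzu, hua⟩]
      unfold fv
      rw [hldz' u hu1 hu2 hzu]
      omega
    · rw [if_neg (fun hh => hzu hh.1)]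
      unfold fv
      rw [hld u hu1 hu2]
      omega
  have hW2 : Wg (sk F) (((SS F o p m q).erase z).erase a) g Y := by
    refine wg_free (v := b) ?_ ?_ hW1
    · simp only [Finset.mem_erase]
      exact ⟨hab.symm, hbz, hSb⟩
    · rw [hgb]
      have hsub : ((((SS F o p m q).erase z).erase a).filter fun u => (sk F).Adj b u) ⊆
          {c, y} := by
        intro u hu
        simp only [Finset.mem_filter, Finset.mem_erase] at hu
        obtain ⟨⟨hua, huz, huS⟩, hbu⟩ := hu
        simp only [Finset.mem_insert, Finset.mem_singleton]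
        rcases hNb u hbu with h2 | h2 | h2 | h2 | h2
        · exact absurd (mem_DD.2 (Or.inl h2)) (mem_SS.1 huS).2
        · exact absurd h2 hua
        · exact Or.inl h2
        · exact absurd h2 huz
        · exact Or.inr h2
      exact (Finset.card_le_card hsub).trans Finset.card_le_two
  have hW3 : Wg (sk F) ((SS F o p m q).erase z) g Y := by
    refine wg_free (v := a) ?_ ?_ hW2
    · simp only [Finset.mem_erase]
      exact ⟨haz, hSa⟩
    · rw [hga]
      have hsub : (((SS F o p m q).erase z).filter fun u => (sk F).Adj a u) ⊆ {b} := by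
        intro u hu
        simp only [Finset.mem_filter, Finset.mem_erase] at hu
        obtain ⟨⟨huz, huS⟩, hau⟩ := hu
        simp only [Finset.mem_singleton]
        rcases hNa u hau with h2 | h2 | h2 | h2
        · exact absurd (mem_DD.2 (Or.inl h2)) (mem_SS.1 huS).2
        · exact absurd (mem_DD.2 (Or.inr (Or.inl h2))) (mem_SS.1 huS).2
        · exact h2
        · exact absurd h2 huz
      exact (Finset.card_le_card hsub).trans (by simp)
  have hW4 : Wg (sk F) (SS F o p m q) (fv F A (DD o p m q)) (Y + 1) := by
    have := wg_save (w := a) hSz hSa hAaz.symm (by rw [hfa, hfz]; norm_num) (by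
      intro u huS hzu hua
      by_cases huX : u ∈ X
      · rcases (hmemX u).1 huX with h2 | h2 | h2
        · exact absurd h2 hzu.ne.symm
        · rw [h2, hfb]; norm_num
        · exact absurd h2 hua
      · have h1 := hle4 u huS huX
        have h2 := hldz' u huS huX hzu
        unfold fv
        omega) (g := g) (fun u _ => le_of_eq rfl) hW3
    rw [hfa, hfz] at this
    exact this
  refine ⟨Y + 1, hW4, ?_⟩
  omega

end Pool.Agent.Lib.MP_a33b01_co
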