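import Mathlib
import Pool.Agent.Lib.MP_a33b01_co.Loc

set_option autoImplicit false

/-!
# MP_a33b01_co: case E2 (delete b and save c, delete a)
-/

namespace Pool.Agent.Lib.MP_a33b01_co

open Classical

variable {V : Type}

variable {F : Finset (Finset V)} {o p m q : V} {A : Finset V} {a b c z : V}

/-- The deletion of `a` and `b`. -/
private theorem E2_dl (h : Ctx F o p m q A a b c z) (hcD : c ∉ DD o p m q) :
    ∃ F', Dl F o {b, a} F' := by
  obtain ⟨nab, naz, nbz, nbc⟩ := h.abne
  have hpD : p ∈ DD o p m q := mem_DD.2 (Or.inr (Or.inl rfl))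
  have hop := h.st.op
  have hoa := h.oa
  have hob := h.ob
  have hoc := h.oc
  have h6 : 6 ≤ (supp F).card := by
    have hsub : ({o, p, a, b, c, z} : Finset V) ⊆ supp F := by
      intro u hu
      simp only [Finset.mem_insert, Finset.mem_singleton] at hu
      rcases hu with rfl | rfl | rfl | rfl | rfl | rfl
      · exact (adj_supp hop).1
      · exact (adj_supp hop).2
      · exact (adj_supp hoa).2
      · exact (adj_supp hob).2
      · exact (adj_supp hoc).2
      · exact (adj_supp h.az).2
    have hpa : p ≠ a := h.pa.ne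
    have hpc : p ≠ c := fun e => hcD (e ▸ hpD)
    have hpz : p ≠ z := fun e => h.zD (e ▸ hpD)
    have hcard : ({o, p, a, b, c, z} : Finset V).card = 6 := by
      rw [Finset.card_insert_of_notMem, Finset.card_insert_of_notMem,
        Finset.card_insert_of_notMem, Finset.card_insert_of_notMem,
        Finset.card_insert_of_notMem, Finset.card_singleton]
      · simpa using h.zc.symm
      · simp [nbc, nbz]
      · simp [nab, h.ca.symm, naz]
      · simp [hpa, h.bp.symm, hpc, hpz]
      · simp [hop.ne, hoa.ne, hob.ne, hoc.ne, h.zo.symm]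
    calc 6 = ({o, p, a, b, c, z} : Finset V).card := hcard.symm
      _ ≤ (supp F).card := Finset.card_le_card hsub
  obtain ⟨F1, hF1⟩ := dl_one h.st.sph hoa h.coa (le_trans (by norm_num) h6)
  refine dl_add (z := c) (w := z) hF1 ?_ hob.ne' (Or.inl hob) ?_ ?_ ?_
  · simpa using nab.symm
  · intro u hu huo hbu hor
    rw [Finset.mem_singleton] at hu
    rcases hor with hou | ⟨x, hx, hxu⟩
    · rcases h.cob u hou hbu with e | e
      · exact absurd e hu
      · exact Or.inl e
    · rw [Finset.mem_singleton] at hx
      rw [hx] at hxu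
      rcases h.cab u hxu hbu with e | e
      · exact absurd e huo
      · exact Or.inr e
  · rw [Finset.card_singleton]
    exact h6
  · intro u hu
    rw [Finset.mem_singleton] at hu
    rw [hu]
    exact (adj_supp hoa).2

theorem e2 (h : Ctx F o p m q A a b c z) (ha : a ∉ A) (hb : b ∉ A) (hc : c ∈ A) :
    Concl F o p m q A := by
  have hcD : c ∉ DD o p m q := h.st.AD c hc
  have hcq : c ≠ q := fun e => hcD (mem_DD.2 (Or.inr (Or.inr (Or.inr e))))
  have hoD : o ∈ DD o p m q := mem_DD.2 (Or.inl rfl)
  have hpD : p ∈ DD o p m q := mem_DD.2 (Or.inr (Or.inl rfl))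
  obtain ⟨haS, hbS, hzS⟩ := h.mem_SS
  obtain ⟨nab, naz, nbz, nbc⟩ := h.abne
  obtain ⟨F', dl⟩ := E2_dl h hcD
  have hX : ({b, a} : Finset V) ⊆ SS F o p m q := by
    intro u hu
    simp only [Finset.mem_insert, Finset.mem_singleton] at hu
    rcases hu with rfl | rfl
    · exact hbS
    · exact haS
  have hzA := h.zA
  have hst : St F' o p m q (insert z A) := by
    refine st_dl h.st dl hX ?_ ?_ ?_
    · intro x hx
      rcases Finset.mem_insert.1 hx with rfl | hx
      · refine ⟨?_, h.zD, Or.inr ⟨a, by simp, h.az⟩⟩
        simp [nbz.symm, naz.symm]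
      · refine ⟨?_, h.st.AD x hx, Or.inl (h.st.Ao x hx)⟩
        simp only [Finset.mem_insert, Finset.mem_singleton, not_or]
        exact ⟨fun e => hb (e ▸ hx), fun e => ha (e ▸ hx)⟩
    · intro x hx y hy
      rcases Finset.mem_insert.1 hx with hxz | hxA
      · rcases Finset.mem_insert.1 hy with hyz | hyA
        · rw [hxz, hyz]
          exact (sk F).irrefl
        · rw [hxz]
          exact h.nzA y hyA (fun e => ha (e ▸ hyA)) (fun e => hb (e ▸ hyA))
      · rcases Finset.mem_insert.1 hy with hyz | hyA
        · rw [hyz]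
          intro hxz
          exact h.nzA x hxA (fun e => ha (e ▸ hxA)) (fun e => hb (e ▸ hxA)) hxz.symm
        · exact h.st.ind x hxA y hyA
    · intro hm x hx
      rcases Finset.mem_insert.1 hx with rfl | hx
      · intro hh
        exact h.nzp ha hh.1
      · exact h.st.exc hm x hx
  obtain ⟨Y, hY, hcount⟩ := step h.ih dl hX ⟨b, by simp⟩ hst
  -- the loads
  have hld : ∀ u ∈ SS F o p m q, u ≠ a → u ≠ b →
      ld F A (DD o p m q) u + (if (sk F).Adj a u then 1 else 0) +
        (if (sk F).Adj b u ∧ u ≠ c then 1 else 0) ≤ ld F' (insert z A) (DD o p m q) u := by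
    intro u hu hua hub
    have huD := (mem_SS.1 hu).2
    have huo : u ≠ o := fun e => huD (e ▸ hoD)
    have hup : u ≠ p := fun e => huD (e ▸ hpD)
    have huX : u ∉ ({b, a} : Finset V) := by simp [hua, hub]
    rw [ld_dl dl hX hu huX]
    unfold ld
    by_cases huz : u = z
    · subst huz
      rw [if_neg hzA, if_pos h.az,
        if_pos (show (sk F).Adj b u ∧ u ≠ c from ⟨h.bz, h.zc⟩),
        if_pos (Finset.mem_insert_self u A),
        if_pos (show ¬ (sk F).Adj o u ∧ ∃ x ∈ ({b, a} : Finset V), (sk F).Adj x u from
          ⟨h.noz, b, by simp, h.bz⟩)]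
      omega
    · have hins : (u ∈ insert z A) ↔ u ∈ A := by simp [huz]
      simp only [hins]
      by_cases hau : (sk F).Adj a u
      · have hnb : ¬ (sk F).Adj b u := by
          intro hbu
          rcases h.cab u hau hbu with e | e
          · exact huo e
          · exact huz e
        have hno : ¬ (sk F).Adj o u := by
          intro hou
          rcases h.coa u hou hau with e | e
          · exact hup e
          · exact hub e
        rw [if_pos hau,
          if_neg (show ¬ ((sk F).Adj b u ∧ u ≠ c) from fun hh => hnb hh.1),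
          if_pos (show ¬ (sk F).Adj o u ∧ ∃ x ∈ ({b, a} : Finset V), (sk F).Adj x u from
            ⟨hno, a, by simp, hau⟩)]
      · rw [if_neg hau]
        by_cases hbu : (sk F).Adj b u ∧ u ≠ c
        · have hno : ¬ (sk F).Adj o u := by
            intro hou
            rcases h.cob u hou hbu.1 with e | e
            · exact hua e
            · exact hbu.2 e
          rw [if_pos hbu,
            if_pos (show ¬ (sk F).Adj o u ∧ ∃ x ∈ ({b, a} : Finset V), (sk F).Adj x u from
              ⟨hno, b, by simp, hbu.1⟩)]
        · rw [if_neg hbu]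
          omega
  have hld4 : ∀ u ∈ SS F o p m q, u ≠ a → u ≠ b →
      ld F' (insert z A) (DD o p m q) u ≤ 4 := by
    intro u hu hua hub
    refine hst.ld_le ?_
    rw [mem_SS, dl.sp, Finset.mem_sdiff]
    refine ⟨⟨(mem_SS.1 hu).1, ?_⟩, (mem_SS.1 hu).2⟩
    simp [hua, hub]
  have hfa : fv F A (DD o p m q) a = 2 := by
    unfold fv
    rw [h.ld_a, if_neg ha]
  have hfb : fv F A (DD o p m q) b = 3 := by
    unfold fv
    rw [h.ld_b hcq, if_neg hb]
  have hfc : fv F A (DD o p m q) c ≤ 2 := by
    have h1 : 1 ≤ ((DD o p m q).filter fun d => (sk F).Adj c d).card :=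
      Finset.card_pos.2 ⟨o, Finset.mem_filter.2 ⟨hoD, h.oc.symm⟩⟩
    unfold fv ld
    rw [if_pos hc]
    omega
  -- the game
  have hgame : Wg (sk F) (SS F o p m q) (fv F A (DD o p m q)) (Y + 1) := by
    have hcS : c ∈ SS F o p m q := mem_SS.2 ⟨(adj_supp h.oc).2, hcD⟩
    have hmain : Wg (sk F) ((SS F o p m q).erase b)
        (fun u => if (sk F).Adj b u ∧ u ≠ c then fv F A (DD o p m q) u - 1
          else fv F A (DD o p m q) u) (Y + 1) := by
      have hga : (if (sk F).Adj b a ∧ a ≠ c then fv F A (DD o p m q) a - 1
          else fv F A (DD o p m q) a) = 1 := by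
        rw [if_pos ⟨h.ab.symm, h.ca.symm⟩, hfa]
      refine wg_le (wg_del (v := a) (X := Y) (g := fv F' (insert z A) (DD o p m q)) ?_ ?_ ?_ ?_)
        (by rw [hga])
      · exact Finset.mem_erase.2 ⟨nab, haS⟩
      · intro u hu hau
        have hub := (Finset.mem_erase.1 hu).1
        have huS := (Finset.mem_erase.1 hu).2
        have hua : u ≠ a := hau.ne'
        have h1 := hld u huS hua hub
        have h2 := hld4 u huS hua hub
        rw [if_pos hau] at h1
        show 1 ≤ if (sk F).Adj b u ∧ u ≠ c then fv F A (DD o p m q) u - 1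
          else fv F A (DD o p m q) u
        unfold fv
        split_ifs at h1 ⊢ <;> omega
      · intro u hu
        have hua := (Finset.mem_erase.1 hu).1
        have hub := (Finset.mem_erase.1 (Finset.mem_erase.1 hu).2).1
        have huS := (Finset.mem_erase.1 (Finset.mem_erase.1 hu).2).2
        have h1 := hld u huS hua hub
        have h2 := hld4 u huS hua hub
        show fv F' (insert z A) (DD o p m q) u ≤ if (sk F).Adj a u then
          (if (sk F).Adj b u ∧ u ≠ c then fv F A (DD o p m q) u - 1
            else fv F A (DD o p m q) u) - 1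
          else (if (sk F).Adj b u ∧ u ≠ c then fv F A (DD o p m q) u - 1
            else fv F A (DD o p m q) u)
        unfold fv
        split_ifs at h1 ⊢ <;> omega
      · have he : ((SS F o p m q).erase b).erase a = SS F o p m q \ {b, a} := by
          ext u
          simp only [Finset.mem_erase, Finset.mem_sdiff, Finset.mem_insert,
            Finset.mem_singleton, not_or]
          tauto
        rw [he]
        exact hY
    refine wg_le (wg_save (v := b) (w := c) hbS hcS h.bc ?_ ?_ (fun u _ => le_rfl) hmain) ?_
    · omega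
    · intro u hu hbu huc
      by_cases hua : u = a
      · rw [hua, hfa]
        norm_num
      · have hub : u ≠ b := hbu.ne'
        have h1 := hld u hu hua hub
        have h2 := hld4 u hu hua hub
        rw [if_pos (show (sk F).Adj b u ∧ u ≠ c from ⟨hbu, huc⟩)] at h1
        unfold fv
        omega
    · omega
  refine ⟨Y + 1, hgame, ?_⟩
  have hOO := card_OO_dl dl (B := {a, b}) (fun x hx _ => by
    simp only [Finset.mem_insert, Finset.mem_singleton] at hx ⊢
    tauto) (o := o) (p := p) (m := m) (q := q)
  have h2 : ({a, b} : Finset V).card = 2 := Finset.card_pair nab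
  have h3 : ({b, a} : Finset V).card = 2 := Finset.card_pair nab.symm
  have h4 : (insert z A).card = A.card + 1 := Finset.card_insert_of_notMem hzA
  omega

end Pool.Agent.Lib.MP_a33b01_co
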