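import Mathlib
import Pool.Agent.Lib.MP_a33b01_co.Loc

set_option autoImplicit false

/-!
# MP_a33b01_co: case E3 (delete b, where b is adjacent to q)
-/

namespace Pool.Agent.Lib.MP_a33b01_co

open Classical

variable {V : Type}

variable {F : Finset (Finset V)} {o p m q : V} {A : Finset V} {a b c z : V}


theorem e3 (h : Ctx F o p m q A a b c z) (ha : a ∉ A) (hb : b ∈ A) (hc : c = q) :
    Concl F o p m q A := by
  obtain ⟨F', dl⟩ := dl_one h.st.sph h.ob h.cob h.c5
  have hbS : b ∈ SS F o p m q := h.mem_SS.2.1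
  have hX : ({b} : Finset V) ⊆ SS F o p m q := Finset.singleton_subset_iff.2 hbS
  have hpD : p ∈ DD o p m q := mem_DD.2 (Or.inr (Or.inl rfl))
  have hqD : q ∈ DD o p m q := mem_DD.2 (Or.inr (Or.inr (Or.inr rfl)))
  have hna : ∀ w ∈ A.erase b, ¬ (sk F).Adj a w := by
    intro w hw haw
    obtain ⟨hwb, hwA⟩ := Finset.mem_erase.1 hw
    rcases h.coa w (h.st.Ao w hwA) haw with h1 | h1
    · exact h.st.AD w hwA (h1 ▸ hpD)
    · exact hwb h1
  have st' : St F' o p m q (insert a (A.erase b)) := by
    refine st_dl h.st dl hX ?_ ?_ ?_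
    · intro w hw
      rcases Finset.mem_insert.1 hw with h1 | h1
      · subst h1
        exact ⟨fun h2 => h.abne.1 (Finset.mem_singleton.1 h2), h.aD, Or.inl h.oa⟩
      · obtain ⟨hwb, hwA⟩ := Finset.mem_erase.1 h1
        exact ⟨fun h2 => hwb (Finset.mem_singleton.1 h2), h.st.AD w hwA, Or.inl (h.st.Ao w hwA)⟩
    · intro w hw w' hw'
      rcases Finset.mem_insert.1 hw with h1 | h1
      · rcases Finset.mem_insert.1 hw' with h2 | h2
        · rw [h1, h2]
          exact (sk F).loopless.irrefl a
        · rw [h1]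
          exact hna w' h2
      · rcases Finset.mem_insert.1 hw' with h2 | h2
        · rw [h2]
          exact fun h3 => hna w h1 h3.symm
        · exact h.st.ind w (Finset.mem_of_mem_erase h1) w' (Finset.mem_of_mem_erase h2)
    · intro hm w hw
      rcases Finset.mem_insert.1 hw with h1 | h1
      · rw [h1]
        exact fun h2 => h.nam h2.2.1
      · exact h.st.exc hm w (Finset.mem_of_mem_erase h1)
  obtain ⟨Y, hY, hYc⟩ := step h.ih dl hX (Finset.singleton_nonempty b) st'
  -- the loads
  have hld : ∀ u ∈ SS F o p m q, u ≠ b →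
      ld F A (DD o p m q) u + (if (sk F).Adj b u then 1 else 0) ≤
        ld F' (insert a (A.erase b)) (DD o p m q) u := by
    intro u hu hub
    have huX : u ∉ ({b} : Finset V) := fun h1 => hub (Finset.mem_singleton.1 h1)
    rw [ld_dl dl hX hu huX]
    unfold ld
    have hA : (if u ∈ A then 1 else 0) ≤ (if u ∈ insert a (A.erase b) then 1 else 0) := by
      by_cases h1 : u ∈ A
      · rw [if_pos h1, if_pos (Finset.mem_insert_of_mem (Finset.mem_erase.2 ⟨hub, h1⟩))]
      · rw [if_neg h1]
        exact Nat.zero_le _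
    by_cases hbu : (sk F).Adj b u
    · by_cases hou : (sk F).Adj o u
      · rcases h.cob u hou hbu with h1 | h1
        · rw [if_pos hbu, h1, if_neg ha, if_pos (Finset.mem_insert_self a _)]
          omega
        · exact absurd (mem_SS.1 hu).2 (not_not.2 (by rw [h1, hc]; exact hqD))
      · have h2 : ¬ (sk F).Adj o u ∧ ∃ x ∈ ({b} : Finset V), (sk F).Adj x u :=
          ⟨hou, b, Finset.mem_singleton_self b, hbu⟩
        rw [if_pos hbu, if_pos h2]
        omega
    · rw [if_neg hbu]
      omega
  have hS' : ∀ u ∈ SS F o p m q, u ≠ b → u ∈ SS F' o p m q := by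
    intro u hu hub
    obtain ⟨h1, h2⟩ := mem_SS.1 hu
    refine mem_SS.2 ⟨?_, h2⟩
    rw [dl.sp]
    exact Finset.mem_sdiff.2 ⟨h1, fun h3 => hub (Finset.mem_singleton.1 h3)⟩
  have hfb : fv F A (DD o p m q) b = 1 := by
    unfold fv
    rw [h.ld_b' hc, if_pos hb]
  have hW : Wg (sk F) (SS F o p m q) (fv F A (DD o p m q)) (Y + fv F A (DD o p m q) b) := by
    refine wg_del (g := fv F' (insert a (A.erase b)) (DD o p m q)) hbS ?_ ?_ ?_
    · intro u hu hbu
      have hub : u ≠ b := hbu.ne'
      have h1 := hld u hu hub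
      have h2 := st'.ld_le (hS' u hu hub)
      rw [if_pos hbu] at h1
      unfold fv
      omega
    · intro u hu
      obtain ⟨hub, huS⟩ := Finset.mem_erase.1 hu
      have h1 := hld u huS hub
      unfold fv
      by_cases hbu : (sk F).Adj b u
      · rw [if_pos hbu] at h1 ⊢
        omega
      · rw [if_neg hbu] at h1 ⊢
        omega
    · rw [← Finset.sdiff_singleton_eq_erase]
      exact hY
  refine ⟨Y + fv F A (DD o p m q) b, hW, ?_⟩
  rw [hfb]
  have h1 := card_OO_dl (p := p) (m := m) (q := q) (B := {b}) dl fun x hx _ => hx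
  have h2 : (insert a (A.erase b)).card ≤ A.card := by
    refine (Finset.card_insert_le _ _).trans ?_
    rw [Finset.card_erase_add_one hb]
  rw [Finset.card_singleton] at h1 hYc
  omega

end Pool.Agent.Lib.MP_a33b01_co
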