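import Mathlib
import Pool.Agent.Lib.MP_a33b01_co.Loc

set_option autoImplicit false

/-!
# MP_a33b01_co: case E4 (delete b)
-/

namespace Pool.Agent.Lib.MP_a33b01_co

open Classical

variable {V : Type}

variable {F : Finset (Finset V)} {o p m q : V} {A : Finset V} {a b c z : V}


theorem e4 (h : Ctx F o p m q A a b c z) (ha : a ∉ A) (hb : b ∈ A) (hc : c ≠ q) {d : V}
    (hd : ({o, c, d} : Finset V) ∈ F) (hdb : d ≠ b) (hdA : d ∉ A) :
    Concl F o p m q A := by
  have hcA : c ∉ A := fun hcA => h.st.ind b hb c hcA h.bc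
  obtain ⟨hod, hcd, hda, hdp, hdD, hcoc, hldc⟩ := h.d_facts hc hd hdb
  obtain ⟨F', dl⟩ := dl_one h.st.sph h.ob h.cob h.c5
  have hX : ({b} : Finset V) ⊆ SS F o p m q := by
    intro x hx
    rw [Finset.mem_singleton] at hx
    rw [hx]
    exact h.mem_SS.2.1
  -- the new set
  have hmem : ∀ x, x ∈ insert a (insert c (A.erase b)) ↔ x = a ∨ x = c ∨ (x ≠ b ∧ x ∈ A) := by
    intro x
    simp only [Finset.mem_insert, Finset.mem_erase]
  have hpD : ∀ x ∈ A, x ≠ p := by
    intro x hx hxp
    exact h.st.AD x hx (mem_DD.2 (Or.inr (Or.inl hxp)))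
  have hai : ∀ x ∈ A, x ≠ b → ¬ (sk F).Adj a x := by
    intro x hx hxb hax
    rcases h.coa x (h.st.Ao x hx) hax with h1 | h1
    · exact hpD x hx h1
    · exact hxb h1
  have hci : ∀ x ∈ A, x ≠ b → ¬ (sk F).Adj c x := by
    intro x hx hxb hcx
    rcases hcoc x (h.st.Ao x hx) hcx with h1 | h1
    · exact hxb h1
    · exact hdA (h1 ▸ hx)
  have st' : St F' o p m q (insert a (insert c (A.erase b))) := by
    refine st_dl h.st dl hX ?_ ?_ ?_
    · intro x hx
      rw [hmem] at hx
      rcases hx with rfl | rfl | ⟨hxb, hxA⟩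
      · exact ⟨by rw [Finset.mem_singleton]; exact h.abne.1, h.aD, Or.inl h.oa⟩
      · exact ⟨by rw [Finset.mem_singleton]; exact h.abne.2.2.2.symm, h.cD hc, Or.inl h.oc⟩
      · exact ⟨by rw [Finset.mem_singleton]; exact hxb, h.st.AD x hxA, Or.inl (h.st.Ao x hxA)⟩
    · intro x hx y hy hxy
      rw [hmem] at hx hy
      rcases hx with rfl | rfl | ⟨hxb, hxA⟩
      · rcases hy with rfl | rfl | ⟨hyb, hyA⟩
        · exact hxy.ne rfl
        · exact h.nac hxy
        · exact hai y hyA hyb hxy
      · rcases hy with rfl | rfl | ⟨hyb, hyA⟩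
        · exact h.nac hxy.symm
        · exact hxy.ne rfl
        · exact hci y hyA hyb hxy
      · rcases hy with rfl | rfl | ⟨hyb, hyA⟩
        · exact hai x hxA hxb hxy.symm
        · exact hci x hxA hxb hxy.symm
        · exact h.st.ind x hxA y hyA hxy
    · intro hm x hx hadj
      rw [hmem] at hx
      rcases hx with rfl | rfl | ⟨hxb, hxA⟩
      · exact h.nam hadj.2.1
      · exact h.npc hc hadj.1.symm
      · exact h.st.exc hm x hxA hadj
  obtain ⟨Y, hY, hYb⟩ := step h.ih dl hX (Finset.singleton_nonempty b) st'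
  -- the loads
  have hkey : ∀ u ∈ SS F o p m q, u ≠ b →
      ld F A (DD o p m q) u + (if (sk F).Adj b u then 1 else 0) ≤
        ld F' (insert a (insert c (A.erase b))) (DD o p m q) u := by
    intro u hu hub
    rw [ld_dl dl hX hu (by rw [Finset.mem_singleton]; exact hub)]
    unfold ld
    by_cases hbu : (sk F).Adj b u
    · by_cases hou : (sk F).Adj o u
      · have hu2 : u ∉ A ∧ u ∈ insert a (insert c (A.erase b)) := by
          rcases h.cob u hou hbu with rfl | rfl
          · exact ⟨ha, (hmem _).2 (Or.inl rfl)⟩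
          · exact ⟨hcA, (hmem _).2 (Or.inr (Or.inl rfl))⟩
        rw [if_neg hu2.1, if_pos hu2.2, if_pos hbu]
        omega
      · have huA : u ∉ A := fun huA => hou (h.st.Ao u huA)
        have h3 : ¬ (sk F).Adj o u ∧ ∃ x ∈ ({b} : Finset V), (sk F).Adj x u :=
          ⟨hou, b, Finset.mem_singleton_self b, hbu⟩
        rw [if_neg huA, if_pos hbu, if_pos h3]
        omega
    · rw [if_neg hbu]
      by_cases huA : u ∈ A
      · rw [if_pos huA, if_pos ((hmem u).2 (Or.inr (Or.inr ⟨hub, huA⟩)))]
        omega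
      · rw [if_neg huA]
        omega
  have hsp : ∀ u ∈ SS F o p m q, u ≠ b → u ∈ SS F' o p m q := by
    intro u hu hub
    rw [mem_SS] at hu ⊢
    refine ⟨?_, hu.2⟩
    rw [dl.sp, Finset.mem_sdiff, Finset.mem_singleton]
    exact ⟨hu.1, hub⟩
  have hfb : fv F A (DD o p m q) b = 2 := by
    unfold fv
    rw [h.ld_b hc, if_pos hb]
  have hW : Wg (sk F) (SS F o p m q) (fv F A (DD o p m q)) (Y + fv F A (DD o p m q) b) := by
    refine wg_del (g := fv F' (insert a (insert c (A.erase b))) (DD o p m q)) h.mem_SS.2.1 ?_ ?_ ?_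
    · intro u hu hbu
      have h1 := hkey u hu hbu.ne.symm
      have h2 := st'.ld_le (hsp u hu hbu.ne.symm)
      rw [if_pos hbu] at h1
      unfold fv
      omega
    · intro u hu
      rw [Finset.mem_erase] at hu
      have h1 := hkey u hu.2 hu.1
      unfold fv
      split_ifs with hbu
      · rw [if_pos hbu] at h1
        omega
      · rw [if_neg hbu] at h1
        omega
    · rwa [Finset.sdiff_singleton_eq_erase] at hY
  refine ⟨_, hW, ?_⟩
  rw [hfb]
  have hOO := card_OO_dl (p := p) (m := m) (q := q) (B := {b}) dl (fun x hx _ => hx)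
  rw [Finset.card_singleton] at hOO hYb
  have hA' : (insert a (insert c (A.erase b))).card ≤ A.card + 1 := by
    have h1 := Finset.card_insert_le a (insert c (A.erase b))
    have h2 := Finset.card_insert_le c (A.erase b)
    have h3 := Finset.card_erase_of_mem hb
    have h4 : 0 < A.card := Finset.card_pos.2 ⟨b, hb⟩
    omega
  omega

end Pool.Agent.Lib.MP_a33b01_co
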