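import Mathlib
import Pool.Agent.Lib.MP_a33b01_co.Loc

set_option autoImplicit false

/-!
# MP_a33b01_co: case E5 (delete c and save d, delete b)
-/

namespace Pool.Agent.Lib.MP_a33b01_co

open Classical

variable {V : Type}

variable {F : Finset (Finset V)} {o p m q : V} {A : Finset V} {a b c z : V}

/-- a vertex which is not adjacent to `o` has load at most three -/
private theorem E5_ld {F : Finset (Finset V)} {o p m q : V} {A : Finset V}
    (st : St F o p m q A) {u : V} (hu : ¬ (sk F).Adj o u) : ld F A (DD o p m q) u ≤ 3 := by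
  have huA : u ∉ A := fun h => hu (st.Ao u h)
  have h1 : (DD o p m q).filter (fun d => (sk F).Adj u d) ⊆ {p, m, q} := by
    intro x hx
    rw [Finset.mem_filter, mem_DD] at hx
    rcases hx.1 with rfl | h | h | h
    · exact absurd hx.2.symm hu
    · simp [h]
    · simp [h]
    · simp [h]
  have h2 := (Finset.card_le_card h1).trans Finset.card_le_three
  unfold ld
  rw [if_neg huA]
  omega

/-- a vertex which is not adjacent to `o` and `p` has load at most two -/
private theorem E5_ld2 {F : Finset (Finset V)} {o p m q : V} {A : Finset V}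
    (st : St F o p m q A) {u : V} (hu : ¬ (sk F).Adj o u) (hp : ¬ (sk F).Adj u p) :
    ld F A (DD o p m q) u ≤ 2 := by
  have huA : u ∉ A := fun h => hu (st.Ao u h)
  have h1 : (DD o p m q).filter (fun d => (sk F).Adj u d) ⊆ {m, q} := by
    intro x hx
    rw [Finset.mem_filter, mem_DD] at hx
    rcases hx.1 with rfl | rfl | h | h
    · exact absurd hx.2.symm hu
    · exact absurd hx.2 hp
    · simp [h]
    · simp [h]
  have h2 := (Finset.card_le_card h1).trans Finset.card_le_two
  unfold ld
  rw [if_neg huA]
  omega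

/-- a member of `A` has load at least two -/
private theorem E5_ldA {F : Finset (Finset V)} {o p m q : V} {A : Finset V}
    (st : St F o p m q A) {u : V} (hu : u ∈ A) : 2 ≤ ld F A (DD o p m q) u := by
  have h1 : ({o} : Finset V) ⊆ (DD o p m q).filter (fun d => (sk F).Adj u d) := by
    intro x hx
    rw [Finset.mem_singleton] at hx
    subst hx
    rw [Finset.mem_filter, mem_DD]
    exact ⟨Or.inl rfl, (st.Ao u hu).symm⟩
  have h2 := Finset.card_le_card h1
  rw [Finset.card_singleton] at h2
  unfold ld
  rw [if_pos hu]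
  omega

theorem e5 (h : Ctx F o p m q A a b c z) (ha : a ∉ A) (hb : b ∈ A) (hc : c ≠ q) {d : V}
    (hd : ({o, c, d} : Finset V) ∈ F) (hdb : d ≠ b) (hdA : d ∈ A) (hb5 : 5 ≤ dg F b) :
    Concl F o p m q A := by
  have st := h.st
  have hF := st.sph
  obtain ⟨hod, hcd, hda, hdp, -, hcoc, hldc⟩ := h.d_facts hc hd hdb
  have hcA : c ∉ A := fun hcA => st.ind b hb c hcA h.bc
  have hdD : d ∉ DD o p m q := st.AD d hdA
  have hcD := h.cD hc
  -- the vertex `z2`
  have hbco : ({b, c, o} : Finset V) ∈ F := by
    have := h.obc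
    have e : ({o, b, c} : Finset V) = {b, c, o} := by
      ext x
      simp only [Finset.mem_insert, Finset.mem_singleton]
      tauto
    rwa [e] at this
  obtain ⟨z2, hz2o, hz2F, -⟩ := other_face hF hbco
  obtain ⟨hbc', hcz2, hbz2⟩ := face_adj hF hz2F
  have hcbc := nosep_two hF h.ns hbco hz2F hz2o.symm
  have hz2z : z2 ≠ z := by
    rintro rfl
    have l1 : ({b, a, o} : Finset V) ∈ F := by
      have := h.oab
      have e : ({o, a, b} : Finset V) = {b, a, o} := by
        ext x
        simp only [Finset.mem_insert, Finset.mem_singleton]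
        tauto
      rwa [e] at this
    have l2 : ({b, o, c} : Finset V) ∈ F := by
      have := h.obc
      have e : ({o, b, c} : Finset V) = {b, o, c} := by
        ext x
        simp only [Finset.mem_insert, Finset.mem_singleton]
        tauto
      rwa [e] at this
    have l4 : ({b, z2, a} : Finset V) ∈ F := by
      have := h.abz
      have e : ({a, b, z2} : Finset V) = {b, z2, a} := by
        ext x
        simp only [Finset.mem_insert, Finset.mem_singleton]
        tauto
      rwa [e] at this
    have hl := link4 hF l1 l2 hz2F l4 h.ca.symm hz2o.symm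
    have h4 : dg F b ≤ ({a, o, c, z2} : Finset V).card := dg_le fun u hu => by
      simp only [Finset.mem_insert, Finset.mem_singleton]
      exact hl u hu
    have h5 := h4.trans Finset.card_le_four
    omega
  have hz2a : ¬ (sk F).Adj a z2 := fun h1 => by
    rcases h.cab z2 h1 hbz2 with h2 | h2
    · exact hz2o h2
    · exact hz2z h2
  have hz2no : ¬ (sk F).Adj o z2 := fun h1 => by
    rcases h.cob z2 h1 hbz2 with h2 | h2
    · subst h2
      exact h.nac hcz2.symm
    · exact hcz2.ne h2.symm
  have hz2A : z2 ∉ A := fun h1 => hz2no (st.Ao z2 h1)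
  have hz2D : z2 ∉ DD o p m q := by
    rw [mem_DD]
    rintro (h1 | h1 | h1 | h1)
    · exact hz2o h1
    · exact h.nbp (h1 ▸ hbz2)
    · exact h.nbm hc (h1 ▸ hbz2)
    · exact h.nbq hc (h1 ▸ hbz2)
  have hbD := h.bD
  have hAD := fun w hw => st.AD w hw
  have hpm : p ≠ m := st.pm.ne
  have hz2p : ¬ (sk F).Adj z2 p := fun h1 => by
    obtain ⟨w, hw, hwb, -, -⟩ := h.n7 b z2 p h.ob st.op
      (fun _ => ⟨fun e => hbD (mem_DD.2 (Or.inr (Or.inr (Or.inl e)))), hpm⟩) h.bp h.nbp hz2o
      hz2no hbz2.symm h1
    exact st.ind w hw b hb hwb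
  have hz2w : ∀ w ∈ A, w ≠ b → ¬ (sk F).Adj z2 w := fun w hw hwb h1 => by
    obtain ⟨w', hw', hwb', -, -⟩ := h.n7 b z2 w h.ob (st.Ao w hw)
      (fun _ => ⟨fun e => hbD (mem_DD.2 (Or.inr (Or.inr (Or.inl e)))),
        fun e => hAD w hw (mem_DD.2 (Or.inr (Or.inr (Or.inl e))))⟩) hwb.symm
      (st.ind b hb w hw) hz2o hz2no hbz2.symm h1
    exact st.ind w' hw' b hb hwb'
  have haw : ∀ w ∈ A, w ≠ b → ¬ (sk F).Adj a w := fun w hw hwb h1 => by
    rcases h.coa w (st.Ao w hw) h1 with h2 | h2
    · exact hAD w hw (mem_DD.2 (Or.inr (Or.inl h2)))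
    · exact hwb h2
  -- the deletion
  obtain ⟨F₁, hF₁⟩ := dl_one hF h.ob h.cob h.c5
  have hbs := (adj_supp h.ob)
  have hcs := (adj_supp h.oc).2
  have h6 : 6 ≤ (supp F).card := by
    have hsub : ({o, p, a, b, c, d} : Finset V) ⊆ supp F := by
      intro x hx
      simp only [Finset.mem_insert, Finset.mem_singleton] at hx
      rcases hx with rfl | rfl | rfl | rfl | rfl | rfl
      · exact hbs.1
      · exact (adj_supp st.op).2
      · exact (adj_supp h.oa).2
      · exact hbs.2
      · exact hcs
      · exact (adj_supp hod).2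
    refine le_trans (le_of_eq ?_) (Finset.card_le_card hsub)
    have n1 := h.abne
    rw [mem_DD] at hcD hdD hbD
    have haD := h.aD
    rw [mem_DD] at haD
    push Not at hcD hdD hbD haD
    rw [Finset.card_insert_of_notMem, Finset.card_insert_of_notMem, Finset.card_insert_of_notMem,
      Finset.card_insert_of_notMem, Finset.card_insert_of_notMem, Finset.card_singleton]
    · simp only [Finset.mem_singleton]
      exact hcd.ne
    · simp only [Finset.mem_insert, Finset.mem_singleton]
      rintro (e | e)
      · exact n1.2.2.2 e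
      · exact hdb e.symm
    · simp only [Finset.mem_insert, Finset.mem_singleton]
      rintro (e | e | e)
      · exact n1.1 e
      · exact h.ca e.symm
      · exact hda e.symm
    · simp only [Finset.mem_insert, Finset.mem_singleton]
      rintro (e | e | e | e)
      · exact haD.2.1 e.symm
      · exact hbD.2.1 e.symm
      · exact hcD.2.1 e.symm
      · exact hdD.2.1 e.symm
    · simp only [Finset.mem_insert, Finset.mem_singleton]
      rintro (e | e | e | e | e)
      · exact st.op.ne e
      · exact haD.1 e.symm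
      · exact hbD.1 e.symm
      · exact hcD.1 e.symm
      · exact hdD.1 e.symm
  obtain ⟨F₂, hF₂⟩ := dl_add (z := d) (w := z2) hF₁ (y := c)
    (by rw [Finset.mem_singleton]; exact h.bc.ne.symm) (fun e => (h.oc).ne e.symm) (Or.inl h.oc)
    (fun u huX huo hcu hu => by
      rw [Finset.mem_singleton] at huX
      rcases hu with hu | ⟨x, hx, hxu⟩
      · rcases hcoc u hu hcu with e | e
        · exact absurd e huX
        · exact Or.inl e
      · rw [Finset.mem_singleton] at hx
        subst hx
        rcases hcbc u hxu hcu with e | e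
        · exact absurd e huo
        · exact Or.inr e)
    (by rw [Finset.card_singleton]; omega)
    (by rw [Finset.singleton_subset_iff]; exact hbs.2)
  set X : Finset V := insert c {b} with hX
  have hXmem : ∀ x, x ∈ X ↔ x = c ∨ x = b := fun x => by
    rw [hX, Finset.mem_insert, Finset.mem_singleton]
  have hcSS : c ∈ SS F o p m q := mem_SS.2 ⟨hcs, hcD⟩
  have hbSS : b ∈ SS F o p m q := mem_SS.2 ⟨hbs.2, hbD⟩
  have hdSS : d ∈ SS F o p m q := mem_SS.2 ⟨(adj_supp hod).2, hdD⟩
  have hXS : X ⊆ SS F o p m q := fun x hx => by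
    rcases (hXmem x).1 hx with rfl | rfl
    · exact hcSS
    · exact hbSS
  have hXcard : X.card = 2 := by
    rw [hX, Finset.card_insert_of_notMem, Finset.card_singleton]
    rw [Finset.mem_singleton]
    exact h.bc.ne.symm
  set A' : Finset V := insert a (insert z2 (A.erase b)) with hA'
  have hA'mem : ∀ x, x ∈ A' ↔ x = a ∨ x = z2 ∨ (x ≠ b ∧ x ∈ A) := fun x => by
    rw [hA', Finset.mem_insert, Finset.mem_insert, Finset.mem_erase]
  have hA'card : A'.card ≤ A.card + 1 := by
    have h1 := Finset.card_insert_le a (insert z2 (A.erase b))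
    have h2 := Finset.card_insert_le z2 (A.erase b)
    have h3 := Finset.card_erase_of_mem hb
    have h4 : 0 < A.card := Finset.card_pos.2 ⟨b, hb⟩
    rw [hA']
    omega
  have st' : St F₂ o p m q A' := by
    refine st_dl st hF₂ hXS ?_ ?_ ?_
    · intro x hx
      rcases (hA'mem x).1 hx with rfl | rfl | ⟨hxb, hxA⟩
      · refine ⟨fun hx => ?_, h.aD, Or.inl h.oa⟩
        rcases (hXmem _).1 hx with e | e
        · exact h.ca e.symm
        · exact h.abne.1 e
      · refine ⟨fun hx => ?_, hz2D, Or.inr ⟨b, (hXmem b).2 (Or.inr rfl), hbz2⟩⟩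
        rcases (hXmem _).1 hx with e | e
        · exact hcz2.ne e.symm
        · exact hbz2.ne e.symm
      · refine ⟨fun hx => ?_, hAD x hxA, Or.inl (st.Ao x hxA)⟩
        rcases (hXmem _).1 hx with e | e
        · exact hcA (e ▸ hxA)
        · exact hxb e
    · intro x hx y hy
      rcases (hA'mem x).1 hx with rfl | rfl | ⟨hxb, hxA⟩ <;>
      rcases (hA'mem y).1 hy with rfl | rfl | ⟨hyb, hyA⟩
      · exact fun e => e.ne rfl
      · exact hz2a
      · exact haw y hyA hyb
      · exact fun e => hz2a e.symm
      · exact fun e => e.ne rfl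
      · exact hz2w y hyA hyb
      · exact fun e => haw x hxA hxb e.symm
      · exact fun e => hz2w x hxA hxb e.symm
      · exact st.ind x hxA y hyA
    · intro hmq x hx
      rcases (hA'mem x).1 hx with rfl | rfl | ⟨hxb, hxA⟩
      · exact fun e => h.nam e.2.1
      · exact fun e => hz2p e.1
      · exact st.exc hmq x hxA
  obtain ⟨Y, hY, hYc⟩ := step h.ih hF₂ hXS ⟨b, (hXmem b).2 (Or.inr rfl)⟩ st'
  have hOO := card_OO_dl (B := X) hF₂ (fun x hx _ => hx) (p := p) (m := m) (q := q)
  refine ⟨Y + 1, ?_, by omega⟩
  -- the values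
  have hfc : fv F A (DD o p m q) c = 3 := by
    unfold fv
    rw [hldc hdD, if_neg hcA]
  have hfd : fv F A (DD o p m q) d ≤ 2 := by
    have := E5_ldA st hdA
    unfold fv
    omega
  have hfb : fv F A (DD o p m q) b = 2 := by
    unfold fv
    rw [h.ld_b hc, if_pos hb]
  have hfa : fv F A (DD o p m q) a = 2 := by
    unfold fv
    rw [h.ld_a, if_neg ha]
  have hfn : ∀ u, ¬ (sk F).Adj o u → 1 ≤ fv F A (DD o p m q) u := fun u hu => by
    have := E5_ld st hu
    unfold fv
    omega
  have hfz2 : 2 ≤ fv F A (DD o p m q) z2 := by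
    have := E5_ld2 st hz2no hz2p
    unfold fv
    omega
  have hnbd : ¬ (sk F).Adj b d := st.ind b hb d hdA
  have hcb : (sk F).Adj c b := h.bc.symm
  set f := fv F A (DD o p m q) with hf
  set g : V → ℕ := fun u => if (sk F).Adj c u ∧ u ≠ d then f u - 1 else f u with hg
  set k : V → ℕ := fun u => if (sk F).Adj b u then g u - 1 else g u with hk
  have hgb : g b = 1 := by
    rw [hg]
    simp only
    rw [if_pos ⟨hcb, hdb.symm⟩, hfb]
  -- the last part
  have hSX : ((SS F o p m q).erase c).erase b = SS F o p m q \ X := by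
    ext x
    rw [Finset.mem_erase, Finset.mem_erase, Finset.mem_sdiff, hXmem]
    tauto
  have h3 : Wg (sk F) (((SS F o p m q).erase c).erase b) k Y := by
    rw [hSX]
    refine wg_mono (fun u hu => ?_) (fun _ _ _ _ e => e) hY
    obtain ⟨huS, huX⟩ := Finset.mem_sdiff.1 hu
    have huc : u ≠ c := fun e => huX ((hXmem u).2 (Or.inl e))
    have hub : u ≠ b := fun e => huX ((hXmem u).2 (Or.inr e))
    have hl' := ld_dl (A' := A') hF₂ hXS huS huX
    have hAA' : u ∈ A → u ∈ A' := fun e => (hA'mem u).2 (Or.inr (Or.inr ⟨hub, e⟩))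
    have hfu : f u = 4 - ld F A (DD o p m q) u := rfl
    have hlu : ld F A (DD o p m q) u = (if u ∈ A then 1 else 0) +
      ((DD o p m q).filter fun d => (sk F).Adj u d).card := rfl
    have hf'u : fv F₂ A' (DD o p m q) u = 4 - ld F₂ A' (DD o p m q) u := rfl
    set K := ((DD o p m q).filter fun d => (sk F).Adj u d).card with hK
    rw [hf'u, hl', hk]
    simp only [hg]
    by_cases huo : (sk F).Adj o u
    · -- outer vertices
      have t1 : ¬ (¬ (sk F).Adj o u ∧ ∃ x ∈ X, (sk F).Adj x u) := fun e => e.1 huo
      rw [if_neg t1]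
      by_cases hbu : (sk F).Adj b u
      · -- u = a
        have hua : u = a := by
          rcases h.cob u huo hbu with e | e
          · exact e
          · exact absurd e huc
        have h1 : ¬ ((sk F).Adj c u ∧ u ≠ d) := by
          rintro ⟨e, -⟩
          rw [hua] at e
          exact h.nac e.symm
        have t2 : u ∈ A' := (hA'mem u).2 (Or.inl hua)
        have t3 : u ∉ A := by rw [hua]; exact ha
        rw [if_pos hbu, if_neg h1, hfu, hlu, if_pos t2, if_neg t3]
        omega
      · rw [if_neg hbu]
        have h1 : ¬ ((sk F).Adj c u ∧ u ≠ d) := by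
          rintro ⟨e, e'⟩
          rcases hcoc u huo e with e2 | e2
          · exact hub e2
          · exact e' e2
        rw [if_neg h1, hfu, hlu]
        by_cases huA : u ∈ A
        · rw [if_pos huA, if_pos (hAA' huA)]
          omega
        · rw [if_neg huA]
          omega
    · have huA : u ∉ A := fun e => huo (st.Ao u e)
      have hud : u ≠ d := fun e => huo (e ▸ hod)
      rw [hfu, hlu, if_neg huA]
      by_cases hbu : (sk F).Adj b u
      · have h1 : ¬ (sk F).Adj o u ∧ ∃ x ∈ X, (sk F).Adj x u :=
          ⟨huo, b, (hXmem b).2 (Or.inr rfl), hbu⟩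
        rw [if_pos h1, if_pos hbu]
        by_cases hcu : (sk F).Adj c u
        · have huz : u = z2 := by
            rcases hcbc u hbu hcu with e | e
            · exact absurd (mem_DD.2 (Or.inl e)) (mem_SS.1 huS).2
            · exact e
          have t2 : u ∈ A' := (hA'mem u).2 (Or.inr (Or.inl huz))
          have t3 : (sk F).Adj c u ∧ u ≠ d := ⟨hcu, hud⟩
          rw [if_pos t3, if_pos t2]
          omega
        · have t3 : ¬ ((sk F).Adj c u ∧ u ≠ d) := fun e => hcu e.1
          rw [if_neg t3]
          omega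
      · rw [if_neg hbu]
        by_cases hcu : (sk F).Adj c u
        · have h1 : ¬ (sk F).Adj o u ∧ ∃ x ∈ X, (sk F).Adj x u :=
            ⟨huo, c, (hXmem c).2 (Or.inl rfl), hcu⟩
          have t3 : (sk F).Adj c u ∧ u ≠ d := ⟨hcu, hud⟩
          rw [if_pos h1, if_pos t3]
          omega
        · have t3 : ¬ ((sk F).Adj c u ∧ u ≠ d) := fun e => hcu e.1
          rw [if_neg t3]
          omega
  have h2 : Wg (sk F) ((SS F o p m q).erase c) g (Y + g b) := by
    refine wg_del (g := k) (Finset.mem_erase.2 ⟨h.bc.ne, hbSS⟩) ?_ (fun u _ => le_rfl) h3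
    intro u hu hbu
    obtain ⟨huc, huS⟩ := Finset.mem_erase.1 hu
    rw [hg]
    simp only
    by_cases huo : (sk F).Adj o u
    · have hua : u = a := by
        rcases h.cob u huo hbu with e | e
        · exact e
        · exact absurd e huc
      rw [if_neg, hua, hfa]
      · norm_num
      · rintro ⟨e, -⟩
        rw [hua] at e
        exact h.nac e.symm
    · by_cases hcu : (sk F).Adj c u
      · have huz : u = z2 := by
          rcases hcbc u hbu hcu with e | e
          · exact absurd (mem_DD.2 (Or.inl e)) (mem_SS.1 huS).2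
          · exact e
        split_ifs
        · rw [huz]
          omega
        · exact hfn u huo
      · rw [if_neg (fun e => hcu e.1)]
        exact hfn u huo
  rw [hgb] at h2
  have h1 := wg_save (g := g) (f := f) hcSS hdSS hcd (by omega) ?_ (fun u _ => le_rfl) h2
  · exact wg_le h1 (by omega)
  · intro u hu hcu hud
    by_cases huo : (sk F).Adj o u
    · rcases hcoc u huo hcu with e | e
      · rw [e, hfb]
        norm_num
      · exact absurd e hud
    · exact hfn u huo

end Pool.Agent.Lib.MP_a33b01_co
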