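import Mathlib
import Pool.Agent.Lib.MP_a33b01_co.Loc

set_option autoImplicit false

/-!
# MP_a33b01_co: case E6 (delete c and save d, delete z and save b, b is free)
-/

namespace Pool.Agent.Lib.MP_a33b01_co

open Classical

variable {V : Type}

variable {F : Finset (Finset V)} {o p m q : V} {A : Finset V} {a b c z : V}

private theorem E6_rot {x y w : V} : ({x, y, w} : Finset V) = {y, w, x} := by
  ext u
  simp only [Finset.mem_insert, Finset.mem_singleton]
  tauto

private theorem E6_rev {x y w : V} : ({x, y, w} : Finset V) = {w, y, x} := by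
  ext u
  simp only [Finset.mem_insert, Finset.mem_singleton]
  tauto

private theorem E6_swp {x y w : V} : ({x, y, w} : Finset V) = {y, x, w} := by
  ext u
  simp only [Finset.mem_insert, Finset.mem_singleton]
  tauto

/-- The neighbours of `b`. -/
private theorem E6_nb (h : Ctx F o p m q A a b c z) (hb4 : dg F b = 4) :
    ∀ u, (sk F).Adj b u → u = o ∨ u = a ∨ u = c ∨ u = z := by
  intro u hu
  by_contra hcon
  push Not at hcon
  obtain ⟨h1, h2, h3, h4⟩ := hcon
  have hoa := h.oa.ne
  have hoc := h.oc.ne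
  have haz := h.az.ne
  have h5 : ({u, o, a, c, z} : Finset V).card ≤ dg F b := by
    apply le_dg
    intro v hv
    simp only [Finset.mem_insert, Finset.mem_singleton] at hv
    rcases hv with rfl | rfl | rfl | rfl | rfl
    · exact hu
    · exact h.ob.symm
    · exact h.ab.symm
    · exact h.bc
    · exact h.bz
  have h6 : ({u, o, a, c, z} : Finset V).card = 5 := by
    rw [Finset.card_insert_of_notMem, Finset.card_insert_of_notMem,
      Finset.card_insert_of_notMem, Finset.card_insert_of_notMem, Finset.card_singleton]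
    · simpa using h.zc.symm
    · simp only [Finset.mem_insert, Finset.mem_singleton, not_or]
      exact ⟨h.ca.symm, haz⟩
    · simp only [Finset.mem_insert, Finset.mem_singleton, not_or]
      exact ⟨hoa, hoc, h.zo.symm⟩
    · simp only [Finset.mem_insert, Finset.mem_singleton, not_or]
      exact ⟨h1, h2, h3, h4⟩
  omega

private theorem E6_bcz (h : Ctx F o p m q A a b c z) (hb4 : dg F b = 4) :
    ({b, c, z} : Finset V) ∈ F := by
  have h1 : ({b, c, o} : Finset V) ∈ F := by rw [← E6_rot]; exact h.obc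
  obtain ⟨w, hwo, hw, -⟩ := other_face h.st.sph h1
  obtain ⟨k1, k2, k3⟩ := face_adj h.st.sph hw
  rcases E6_nb h hb4 w k3 with rfl | rfl | rfl | rfl
  · exact absurd rfl hwo
  · exact absurd k2.symm h.nac
  · exact absurd rfl k2.ne
  · exact hw

private theorem E6_zD (h : Ctx F o p m q A a b c z) (ha : a ∉ A) (hc : c ≠ q)
    (hzm : m ≠ q → ¬ (sk F).Adj z m) : ∀ u ∈ DD o p m q, ¬ (sk F).Adj z u := by
  intro u hu
  rcases mem_DD.1 hu with rfl | rfl | rfl | rfl
  · exact fun h1 => h.noz h1.symm
  · exact h.nzp ha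
  · by_cases hm : u = q
    · rw [hm]
      exact h.nzq (Or.inr hc)
    · exact hzm hm
  · exact h.nzq (Or.inr hc)

/-- The vertex `y`. -/
private theorem E6_y (h : Ctx F o p m q A a b c z) (ha : a ∉ A) (hc : c ≠ q)
    {d : V} (hd : ({o, c, d} : Finset V) ∈ F) (hdb : d ≠ b) (hb4 : dg F b = 4)
    (hc6 : 6 ≤ dg F c) (hzm : m ≠ q → ¬ (sk F).Adj z m) :
    ∃ y, y ≠ b ∧ (sk F).Adj z y ∧ (sk F).Adj c y ∧ ¬ (sk F).Adj o y ∧ y ∉ DD o p m q ∧
      ¬ (sk F).Adj a y ∧ ¬ (sk F).Adj b y ∧ ¬ (sk F).Adj y d ∧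
      (∀ u, (sk F).Adj z u → (sk F).Adj c u → u = b ∨ u = y) ∧
      (m ≠ q → ¬ (sk F).Adj y p) := by
  have hF := h.st.sph
  have hbcz := E6_bcz h hb4
  have hzD := E6_zD h ha hc hzm
  have h1 : ({z, c, b} : Finset V) ∈ F := by
    rw [E6_rev]
    exact hbcz
  obtain ⟨y, hyb, hy, -⟩ := other_face hF h1
  obtain ⟨k1, k2, k3⟩ := face_adj hF hy
  obtain ⟨d1, d2, d3, d4, d5, d6, d7⟩ := h.d_facts hc hd hdb
  have hyD : y ∉ DD o p m q := fun hcon => hzD y hcon k3
  have hyo : y ≠ o := fun hcon => hyD (mem_DD.2 (Or.inl hcon))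
  have hoy : ¬ (sk F).Adj o y := by
    intro hcon
    rcases h.noz' y hcon k3 with rfl | rfl | rfl | ⟨h5, rfl⟩ | ⟨-, rfl⟩
    · exact h.nac k2.symm
    · exact hyb rfl
    · exact hyD (mem_DD.2 (Or.inr (Or.inl rfl)))
    · exact hyD (mem_DD.2 (Or.inr (Or.inr (Or.inl rfl))))
    · exact k2.ne rfl
  have hay : ¬ (sk F).Adj a y := by
    intro hcon
    rcases h.cac hc y hcon k2 with rfl | rfl | ⟨-, rfl, -⟩
    · exact hyo rfl
    · exact hyb rfl
    · exact k3.ne rfl
  have hby : ¬ (sk F).Adj b y := by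
    intro hcon
    rcases E6_nb h hb4 y hcon with rfl | rfl | rfl | rfl
    · exact hyo rfl
    · exact h.nac k2.symm
    · exact k2.ne rfl
    · exact k3.ne rfl
  have hyd : ¬ (sk F).Adj y d := by
    intro hcon
    have f1 : ({c, o, b} : Finset V) ∈ F := by
      rw [E6_rot]
      exact h.obc
    have f2 : ({c, b, z} : Finset V) ∈ F := by
      rw [E6_swp]
      exact hbcz
    have f3 : ({c, z, y} : Finset V) ∈ F := by
      rw [E6_swp]
      exact hy
    have f4 : ({c, y, d} : Finset V) ∈ F := h.ns c y d k2 hcon d2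
    have f5 : ({c, d, o} : Finset V) ∈ F := by
      rw [← E6_rot]
      exact hd
    have hzd : z ≠ d := by
      rintro rfl
      exact h.noz d1
    have h6 := link5 hF f1 f2 f3 f4 f5 h.zo.symm hyb.symm hzd hyo hdb
    have h7 : dg F c ≤ ({o, b, z, y, d} : Finset V).card := by
      apply dg_le
      intro u hu
      simp only [Finset.mem_insert, Finset.mem_singleton]
      exact h6 u hu
    have h8 : ({o, b, z, y, d} : Finset V).card ≤ 5 := Finset.card_le_five
    omega
  have hcz : ∀ u, (sk F).Adj z u → (sk F).Adj c u → u = b ∨ u = y :=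
    nosep_two hF h.ns h1 hy hyb.symm
  refine ⟨y, hyb, k3, k2, hoy, hyD, hay, hby, hyd, hcz, ?_⟩
  intro hm hcon
  have hcD := h.cD hc
  have hcm : c ≠ m := fun e => hcD (mem_DD.2 (Or.inr (Or.inr (Or.inl e))))
  have hcp : c ≠ p := fun e => hcD (mem_DD.2 (Or.inr (Or.inl e)))
  obtain ⟨w, hw, w1, w2, w3⟩ := h.n7 c y p h.oc h.st.op
    (fun _ => ⟨hcm, h.st.pm.ne⟩) hcp (fun e => h.npc hc e.symm) hyo hoy k2.symm hcon
  have ho := h.st.Ao w hw
  have g1 : ({o, p, m} : Finset V) ∈ F := h.opm
  rcases nosep_two hF h.ns g1 h.opa h.am.symm w ho w3.symm with rfl | rfl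
  · exact h.st.AD _ hw (mem_DD.2 (Or.inr (Or.inr (Or.inl rfl))))
  · exact ha hw

private theorem E6_ld (h : Ctx F o p m q A a b c z) {u : V} (hu : ¬ (sk F).Adj o u) :
    ld F A (DD o p m q) u ≤ (({p, m, q} : Finset V).filter fun w => (sk F).Adj u w).card := by
  have huA : u ∉ A := fun hcon => hu (h.st.Ao u hcon)
  unfold ld
  rw [if_neg huA, zero_add]
  apply Finset.card_le_card
  intro w hw
  rw [Finset.mem_filter] at hw ⊢
  refine ⟨?_, hw.2⟩
  rcases mem_DD.1 hw.1 with rfl | rfl | rfl | rfl
  · exact absurd hw.2.symm hu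
  · simp
  · simp
  · simp

private theorem E6_ld3 (h : Ctx F o p m q A a b c z) {u : V} (hu : ¬ (sk F).Adj o u) :
    ld F A (DD o p m q) u ≤ 3 :=
  (E6_ld h hu).trans ((Finset.card_filter_le _ _).trans Finset.card_le_three)

private theorem E6_ld2 (h : Ctx F o p m q A a b c z) {u : V} (hu : ¬ (sk F).Adj o u)
    (hup : m ≠ q → ¬ (sk F).Adj u p) : ld F A (DD o p m q) u ≤ 2 := by
  refine (E6_ld h hu).trans ?_
  by_cases hm : m = q
  · refine (Finset.card_filter_le _ _).trans ?_
    rw [hm]
    simp only [Finset.insert_eq_of_mem, Finset.mem_singleton]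
    exact Finset.card_le_two
  · have h1 : ({p, m, q} : Finset V).filter (fun w => (sk F).Adj u w) ⊆ {m, q} := by
      intro w hw
      rw [Finset.mem_filter] at hw
      simp only [Finset.mem_insert, Finset.mem_singleton] at hw ⊢
      rcases hw with ⟨rfl | h2, h3⟩
      · exact absurd h3 (hup hm)
      · exact h2
    exact (Finset.card_le_card h1).trans Finset.card_le_two

private theorem E6_S3 {S : Finset V} :
    ((S.erase c).erase z).erase b = S \ insert z (insert c {b}) := by
  ext u
  simp only [Finset.mem_erase, Finset.mem_sdiff, Finset.mem_insert, Finset.mem_singleton]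
  tauto

/-- The deletion. -/
private theorem E6_dl (h : Ctx F o p m q A a b c z) (ha : a ∉ A) (hc : c ≠ q)
    {d y : V} (hd : ({o, c, d} : Finset V) ∈ F) (hdb : d ≠ b) (hdA : d ∈ A)
    (hnb : ∀ u, (sk F).Adj b u → u = o ∨ u = a ∨ u = c ∨ u = z)
    (hzD : ∀ u ∈ DD o p m q, ¬ (sk F).Adj z u)
    (hcz : ∀ u, (sk F).Adj z u → (sk F).Adj c u → u = b ∨ u = y) :
    ∃ F', Dl F o (insert z (insert c {b})) F' := by
  have hF := h.st.sph
  obtain ⟨d1, d2, d3, d4, d5, d6, d7⟩ := h.d_facts hc hd hdb
  have hab := h.abne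
  have hbD := h.bD
  have hzDD := h.zD
  have hcD := h.cD hc
  have haD := h.aD
  have hdD := h.st.AD d hdA
  rw [mem_DD] at hbD hzDD hcD haD hdD
  push Not at hbD hzDD hcD haD hdD
  have hca := h.ca
  have hcard : 8 ≤ (supp F).card := by
    have h1 : ({o, p, q, a, b, c, d, z} : Finset V) ⊆ supp F := by
      intro u hu
      simp only [Finset.mem_insert, Finset.mem_singleton] at hu
      rcases hu with rfl | rfl | rfl | rfl | rfl | rfl | rfl | rfl
      · exact (adj_supp h.oa).1
      · exact (adj_supp h.pa).1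
      · exact (adj_supp h.st.oq).2
      · exact (adj_supp h.oa).2
      · exact (adj_supp h.ob).2
      · exact (adj_supp h.oc).2
      · exact (adj_supp d1).2
      · exact (adj_supp h.az).2
    have h2 : ({o, p, q, a, b, c, d, z} : Finset V).card = 8 := by
      have e1 : o ∉ ({p, q, a, b, c, d, z} : Finset V) := by
        simp only [Finset.mem_insert, Finset.mem_singleton, not_or]
        exact ⟨h.st.op.ne, h.st.oq.ne, haD.1.symm, hbD.1.symm, hcD.1.symm, hdD.1.symm,
          hzDD.1.symm⟩
      have e2 : p ∉ ({q, a, b, c, d, z} : Finset V) := by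
        simp only [Finset.mem_insert, Finset.mem_singleton, not_or]
        exact ⟨h.st.pq, haD.2.1.symm, hbD.2.1.symm, hcD.2.1.symm, hdD.2.1.symm,
          hzDD.2.1.symm⟩
      have e3 : q ∉ ({a, b, c, d, z} : Finset V) := by
        simp only [Finset.mem_insert, Finset.mem_singleton, not_or]
        exact ⟨haD.2.2.2.symm, hbD.2.2.2.symm, hcD.2.2.2.symm, hdD.2.2.2.symm,
          hzDD.2.2.2.symm⟩
      have e4 : a ∉ ({b, c, d, z} : Finset V) := by
        simp only [Finset.mem_insert, Finset.mem_singleton, not_or]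
        exact ⟨hab.1, hca.symm, d3.symm, hab.2.1⟩
      have e5 : b ∉ ({c, d, z} : Finset V) := by
        simp only [Finset.mem_insert, Finset.mem_singleton, not_or]
        exact ⟨hab.2.2.2, hdb.symm, hab.2.2.1⟩
      have e6 : c ∉ ({d, z} : Finset V) := by
        simp only [Finset.mem_insert, Finset.mem_singleton, not_or]
        exact ⟨d2.ne, h.zc.symm⟩
      have e7 : d ∉ ({z} : Finset V) := by
        rw [Finset.mem_singleton]
        rintro rfl
        exact h.noz d1
      rw [Finset.card_insert_of_notMem e1, Finset.card_insert_of_notMem e2,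
        Finset.card_insert_of_notMem e3, Finset.card_insert_of_notMem e4,
        Finset.card_insert_of_notMem e5, Finset.card_insert_of_notMem e6,
        Finset.card_insert_of_notMem e7, Finset.card_singleton]
    rw [← h2]
    exact Finset.card_le_card h1
  obtain ⟨F1, hF1⟩ := dl_one hF h.ob h.cob h.c5
  have hcb : c ∉ ({b} : Finset V) := by
    rw [Finset.mem_singleton]
    exact hab.2.2.2.symm
  obtain ⟨F2, hF2⟩ := dl_add (z := d) (w := z) hF1 hcb hcD.1 (Or.inl h.oc) (by
    intro u hu huo hcu hor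
    rw [Finset.mem_singleton] at hu
    rcases hor with h1 | ⟨x, hx, h1⟩
    · rcases d6 u h1 hcu with h2 | h2
      · exact absurd h2 hu
      · exact Or.inl h2
    · rw [Finset.mem_singleton] at hx
      rw [hx] at h1
      rcases hnb u h1 with h2 | h2 | h2 | h2
      · exact absurd h2 huo
      · rw [h2] at hcu
        exact absurd hcu.symm h.nac
      · rw [h2] at hcu
        exact absurd rfl hcu.ne
      · exact Or.inr h2) (by rw [Finset.card_singleton]; omega) (by
    intro u hu
    rw [Finset.mem_singleton] at hu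
    rw [hu]
    exact (adj_supp h.ob).2)
  have hzX : z ∉ (insert c {b} : Finset V) := by
    simp only [Finset.mem_insert, Finset.mem_singleton, not_or]
    exact ⟨h.zc, hab.2.2.1.symm⟩
  have hc2 : (insert c {b} : Finset V).card ≤ 2 := Finset.card_le_two
  exact dl_add (z := a) (w := y) hF2 hzX hzDD.1 (Or.inr ⟨b, by simp, h.bz⟩) (by
    intro u hu huo hzu hor
    simp only [Finset.mem_insert, Finset.mem_singleton, not_or] at hu
    rcases hor with h1 | ⟨x, hx, h1⟩
    · rcases h.noz' u h1 hzu with h2 | h2 | h2 | ⟨-, h2⟩ | ⟨-, h2⟩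
      · exact Or.inl h2
      · exact absurd h2 hu.2
      · exact absurd hzu (hzD u (mem_DD.2 (Or.inr (Or.inl h2))))
      · exact absurd hzu (hzD u (mem_DD.2 (Or.inr (Or.inr (Or.inl h2)))))
      · exact absurd h2 hu.1
    · simp only [Finset.mem_insert, Finset.mem_singleton] at hx
      rcases hx with hx | hx
      · rw [hx] at h1
        rcases hcz u hzu h1 with h2 | h2
        · exact absurd h2 hu.2
        · exact Or.inr h2
      · rw [hx] at h1
        rcases hnb u h1 with h2 | h2 | h2 | h2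
        · exact absurd h2 huo
        · exact Or.inl h2
        · exact absurd h2 hu.1
        · rw [h2] at hzu
          exact absurd rfl hzu.ne) (by omega) (by
    intro u hu
    simp only [Finset.mem_insert, Finset.mem_singleton] at hu
    rcases hu with hu | hu
    · rw [hu]
      exact (adj_supp h.oc).2
    · rw [hu]
      exact (adj_supp h.ob).2)

theorem e6 (h : Ctx F o p m q A a b c z) (ha : a ∉ A) (hb : b ∈ A) (hc : c ≠ q) {d : V}
    (hd : ({o, c, d} : Finset V) ∈ F) (hdb : d ≠ b) (hdA : d ∈ A) (hb4 : dg F b = 4)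
    (hc6 : 6 ≤ dg F c) (hzm : m ≠ q → ¬ (sk F).Adj z m) :
    Concl F o p m q A := by
  have hF := h.st.sph
  obtain ⟨y, hyb, hzy, hcy, hoy, hyD, hay, hby, hyd, hcz, hyp⟩ := E6_y h ha hc hd hdb hb4 hc6 hzm
  have hnb := E6_nb h hb4
  have hbcz := E6_bcz h hb4
  have hzD := E6_zD h ha hc hzm
  have hzc : (sk F).Adj z c := (face_adj hF hbcz).2.1.symm
  obtain ⟨d1, d2, d3, d4, d5, d6, d7⟩ := h.d_facts hc hd hdb
  have hdD := h.st.AD d hdA
  have hcD := h.cD hc
  obtain ⟨hab, haz, hbz, hbc⟩ := h.abne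
  have hcA : c ∉ A := fun hcon => h.st.ind b hb c hcon h.bc
  have hzA := h.zA
  have hyA : y ∉ A := fun hcon => hoy (h.st.Ao y hcon)
  have hzd : ¬ (sk F).Adj z d := h.nzA d hdA d3 hdb
  obtain ⟨aS, bS, zS⟩ := h.mem_SS
  have cS : c ∈ SS F o p m q := mem_SS.2 ⟨(adj_supp h.oc).2, hcD⟩
  have dS : d ∈ SS F o p m q := mem_SS.2 ⟨(adj_supp d1).2, hdD⟩
  obtain ⟨F', hdl⟩ := E6_dl h ha hc hd hdb hdA hnb hzD hcz
  set X : Finset V := insert z (insert c {b}) with hX
  have mX : ∀ u, u ∈ X ↔ u = z ∨ u = c ∨ u = b := by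
    intro u
    simp only [hX, Finset.mem_insert, Finset.mem_singleton]
  have hXS : X ⊆ SS F o p m q := by
    intro u hu
    rcases (mX u).1 hu with rfl | rfl | rfl
    · exact zS
    · exact cS
    · exact bS
  have hXc : X.card = 3 := by
    rw [hX, Finset.card_insert_of_notMem, Finset.card_insert_of_notMem, Finset.card_singleton]
    · rw [Finset.mem_singleton]
      exact hbc.symm
    · simp only [Finset.mem_insert, Finset.mem_singleton, not_or]
      exact ⟨h.zc, hbz.symm⟩
  set A' : Finset V := insert a (insert y (A.erase b)) with hA'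
  have mA' : ∀ u, u ∈ A' ↔ u = a ∨ u = y ∨ (u ≠ b ∧ u ∈ A) := by
    intro u
    simp only [hA', Finset.mem_insert, Finset.mem_erase]
  -- the new state
  have hya : ∀ w ∈ A, w ≠ b → ¬ (sk F).Adj y w := by
    intro w hw hwb hcon
    have how := h.st.Ao w hw
    by_cases hcw : (sk F).Adj c w
    · rcases d6 w how hcw with rfl | rfl
      · exact hwb rfl
      · exact hyd hcon
    · have hwD := h.st.AD w hw
      rw [mem_DD] at hcD hwD
      push Not at hcD hwD
      obtain ⟨w', hw', w1, w2, w3⟩ := h.n7 c y w h.oc how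
        (fun _ => ⟨hcD.2.2.1, hwD.2.2.1⟩) (fun e => hcA (e ▸ hw)) hcw
        (fun e => hyD (mem_DD.2 (Or.inl e))) hoy hcy.symm hcon
      exact h.st.ind w' hw' w hw w3
  have haw : ∀ w ∈ A, w ≠ b → ¬ (sk F).Adj a w := by
    intro w hw hwb hcon
    rcases h.coa w (h.st.Ao w hw) hcon with rfl | rfl
    · exact h.st.AD _ hw (mem_DD.2 (Or.inr (Or.inl rfl)))
    · exact hwb rfl
  have st' : St F' o p m q A' := by
    refine st_dl h.st hdl hXS ?_ ?_ ?_
    · intro w hw
      rcases (mA' w).1 hw with rfl | rfl | ⟨h1, h2⟩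
      · refine ⟨?_, h.aD, Or.inl h.oa⟩
        rw [mX]
        push Not
        exact ⟨haz, h.ca.symm, hab⟩
      · refine ⟨?_, hyD, Or.inr ⟨c, (mX c).2 (Or.inr (Or.inl rfl)), hcy⟩⟩
        rw [mX]
        push Not
        exact ⟨hzy.ne.symm, hcy.ne.symm, hyb⟩
      · refine ⟨?_, h.st.AD w h2, Or.inl (h.st.Ao w h2)⟩
        rw [mX]
        push Not
        exact ⟨fun e => hzA (e ▸ h2), fun e => hcA (e ▸ h2), h1⟩
    · intro u hu w hw hcon
      rcases (mA' u).1 hu with rfl | rfl | ⟨h1, h2⟩ <;>
        rcases (mA' w).1 hw with rfl | rfl | ⟨h3, h4⟩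
      · exact hcon.ne rfl
      · exact hay hcon
      · exact haw w h4 h3 hcon
      · exact hay hcon.symm
      · exact hcon.ne rfl
      · exact hya w h4 h3 hcon
      · exact haw u h2 h1 hcon.symm
      · exact hya u h2 h1 hcon.symm
      · exact h.st.ind u h2 w h4 hcon
    · intro hm w hw hcon
      rcases (mA' w).1 hw with rfl | rfl | ⟨h1, h2⟩
      · exact h.nam hcon.2.1
      · exact hyp hm hcon.1
      · exact h.st.exc hm w h2 hcon
  obtain ⟨Y, hW, hY⟩ := step h.ih hdl hXS ⟨z, (mX z).2 (Or.inl rfl)⟩ st'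
  -- the values
  have ldc : ld F A (DD o p m q) c = 1 := by
    rw [d7 hdD, if_neg hcA]
  have ldb : ld F A (DD o p m q) b = 2 := by
    rw [h.ld_b hc, if_pos hb]
  have lda : ld F A (DD o p m q) a = 2 := by
    rw [h.ld_a, if_neg ha]
  have ldz : ld F A (DD o p m q) z = 0 := by
    unfold ld
    rw [if_neg hzA, zero_add, Finset.card_eq_zero, Finset.filter_eq_empty_iff]
    intro u hu
    exact hzD u hu
  have ldd : 2 ≤ ld F A (DD o p m q) d := by
    unfold ld
    rw [if_pos hdA]
    have : 0 < ((DD o p m q).filter fun u => (sk F).Adj d u).card := by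
      rw [Finset.card_pos]
      exact ⟨o, Finset.mem_filter.2 ⟨mem_DD.2 (Or.inl rfl), d1.symm⟩⟩
    omega
  set f0 : V → ℕ := fv F A (DD o p m q) with hf0
  set f1 : V → ℕ := fun u => if (sk F).Adj c u ∧ u ≠ d then f0 u - 1 else f0 u with hf1
  set f2 : V → ℕ := fun u => if (sk F).Adj z u ∧ u ≠ b then f1 u - 1 else f1 u with hf2
  have f0c : f0 c = 3 := by rw [hf0]; unfold fv; rw [ldc]
  have f0b : f0 b = 2 := by rw [hf0]; unfold fv; rw [ldb]
  have f0a : f0 a = 2 := by rw [hf0]; unfold fv; rw [lda]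
  have f0z : f0 z = 4 := by rw [hf0]; unfold fv; rw [ldz]
  have f0d : f0 d ≤ 2 := by rw [hf0]; unfold fv; omega
  have f0y : 2 ≤ f0 y := by
    rw [hf0]
    unfold fv
    have := E6_ld2 h hoy hyp
    omega
  have f0n : ∀ u, ¬ (sk F).Adj o u → 1 ≤ f0 u := by
    intro u hu
    rw [hf0]
    unfold fv
    have := E6_ld3 h hu
    omega
  have f1b : f1 b = 1 := by
    rw [hf1]
    simp only
    rw [if_pos ⟨h.bc.symm, hdb.symm⟩, f0b]
  have f1z : f1 z = 3 := by
    rw [hf1]
    simp only
    rw [if_pos ⟨hzc.symm, fun e => h.noz (e ▸ d1)⟩, f0z]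
  -- the last part
  have hS3 : (((SS F o p m q).erase c).erase z).erase b = SS F o p m q \ X := E6_S3
  have hW3 : Wg (sk F) ((((SS F o p m q).erase c).erase z).erase b) f2 Y := by
    rw [hS3]
    refine wg_mono ?_ (fun _ _ _ _ e => e) hW
    intro u hu
    rw [Finset.mem_sdiff] at hu
    obtain ⟨huS, huX⟩ := hu
    have huX' := huX
    rw [mX] at huX'
    push Not at huX'
    have huD := (mem_SS.1 huS).2
    have e1 : fv F' A' (DD o p m q) u = 4 - ld F' A' (DD o p m q) u := rfl
    rw [e1, ld_dl hdl hXS huS huX]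
    set k := ((DD o p m q).filter fun w => (sk F).Adj u w).card with hk
    have e2 : f0 u = 4 - ((if u ∈ A then 1 else 0) + k) := rfl
    by_cases hou : (sk F).Adj o u
    · have h1 : ¬ ((sk F).Adj c u ∧ u ≠ d) := by
        rintro ⟨g1, g2⟩
        rcases d6 u hou g1 with g3 | g3
        · exact huX'.2.2 g3
        · exact g2 g3
      have e3 : f1 u = f0 u := if_neg h1
      by_cases hzu : (sk F).Adj z u
      · have hua : u = a := by
          rcases h.noz' u hou hzu with g | g | g | ⟨-, g⟩ | ⟨-, g⟩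
          · exact g
          · exact absurd g huX'.2.2
          · exact absurd hzu (hzD u (mem_DD.2 (Or.inr (Or.inl g))))
          · exact absurd hzu (hzD u (mem_DD.2 (Or.inr (Or.inr (Or.inl g)))))
          · exact absurd g huX'.2.1
        have e4 : f2 u = f1 u - 1 := if_pos ⟨hzu, huX'.2.2⟩
        have huA : u ∉ A := by
          rw [hua]
          exact ha
        rw [e4, e3, e2, if_pos ((mA' u).2 (Or.inl hua)), if_neg huA]
        omega
      · have e4 : f2 u = f1 u := if_neg fun g => hzu g.1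
        rw [e4, e3, e2]
        by_cases huA : u ∈ A
        · rw [if_pos huA, if_pos ((mA' u).2 (Or.inr (Or.inr ⟨huX'.2.2, huA⟩)))]
          omega
        · rw [if_neg huA]
          omega
    · have huA : u ∉ A := fun g => hou (h.st.Ao u g)
      have hud : u ≠ d := fun g => hou (g ▸ d1)
      rw [if_neg huA] at e2
      by_cases hcu : (sk F).Adj c u
      · have e3 : f1 u = f0 u - 1 := if_pos ⟨hcu, hud⟩
        have g1 : ¬ (sk F).Adj o u ∧ ∃ x ∈ X, (sk F).Adj x u :=
          ⟨hou, c, (mX c).2 (Or.inr (Or.inl rfl)), hcu⟩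
        rw [if_pos g1]
        by_cases hzu : (sk F).Adj z u
        · have e4 : f2 u = f1 u - 1 := if_pos ⟨hzu, huX'.2.2⟩
          have huy : u = y := by
            rcases hcz u hzu hcu with g | g
            · exact absurd g huX'.2.2
            · exact g
          rw [if_pos ((mA' u).2 (Or.inr (Or.inl huy))), e4, e3, e2]
          omega
        · have e4 : f2 u = f1 u := if_neg fun g => hzu g.1
          rw [e4, e3, e2]
          omega
      · have e3 : f1 u = f0 u := if_neg fun g => hcu g.1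
        by_cases hzu : (sk F).Adj z u
        · have e4 : f2 u = f1 u - 1 := if_pos ⟨hzu, huX'.2.2⟩
          have g1 : ¬ (sk F).Adj o u ∧ ∃ x ∈ X, (sk F).Adj x u :=
            ⟨hou, z, (mX z).2 (Or.inl rfl), hzu⟩
          rw [if_pos g1, e4, e3, e2]
          omega
        · have e4 : f2 u = f1 u := if_neg fun g => hzu g.1
          rw [e4, e3, e2]
          omega
  have bS2 : b ∈ ((SS F o p m q).erase c).erase z :=
    Finset.mem_erase.2 ⟨hbz, Finset.mem_erase.2 ⟨hbc, bS⟩⟩
  have hW2 : Wg (sk F) (((SS F o p m q).erase c).erase z) f2 Y := by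
    refine wg_free bS2 ?_ hW3
    have e1 : f2 b = 1 := by
      have : f2 b = f1 b := if_neg fun g => g.2 rfl
      rw [this, f1b]
    rw [e1]
    have h1 : ((((SS F o p m q).erase c).erase z).filter fun u => (sk F).Adj b u) ⊆ {a} := by
      intro u hu
      rw [Finset.mem_filter, Finset.mem_erase, Finset.mem_erase] at hu
      rw [Finset.mem_singleton]
      rcases hnb u hu.2 with g | g | g | g
      · exact absurd (mem_DD.2 (Or.inl g)) (mem_SS.1 hu.1.2.2).2
      · exact g
      · exact absurd g hu.1.2.1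
      · exact absurd g hu.1.1
    exact (Finset.card_le_card h1).trans (Finset.card_singleton a).le
  have zS1 : z ∈ (SS F o p m q).erase c := Finset.mem_erase.2 ⟨h.zc, zS⟩
  have bS1 : b ∈ (SS F o p m q).erase c := Finset.mem_erase.2 ⟨hbc, bS⟩
  have hW1 : Wg (sk F) ((SS F o p m q).erase c) f1 (Y + (f1 z - f1 b - 1)) := by
    refine wg_save zS1 bS1 h.bz.symm (by rw [f1z, f1b]; norm_num) ?_ (fun u _ => le_rfl) hW2
    intro u hu hzu hub
    rw [Finset.mem_erase] at hu
    by_cases hou : (sk F).Adj o u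
    · have hua : u = a := by
        rcases h.noz' u hou hzu with g | g | g | ⟨-, g⟩ | ⟨-, g⟩
        · exact g
        · exact absurd g hub
        · exact absurd hzu (hzD u (mem_DD.2 (Or.inr (Or.inl g))))
        · exact absurd hzu (hzD u (mem_DD.2 (Or.inr (Or.inr (Or.inl g)))))
        · exact absurd g hu.1
      have e3 : f1 u = f0 u := if_neg fun g => h.nac (hua ▸ g.1.symm)
      rw [e3, hua, f0a]
      norm_num
    · by_cases hcu : (sk F).Adj c u
      · have huy : u = y := by
          rcases hcz u hzu hcu with g | g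
          · exact absurd g hub
          · exact g
        have e3 : f1 u = f0 u - 1 := if_pos ⟨hcu, fun g => hou (g ▸ d1)⟩
        rw [e3, huy]
        omega
      · have e3 : f1 u = f0 u := if_neg fun g => hcu g.1
        rw [e3]
        exact f0n u hou
  have hW0 : Wg (sk F) (SS F o p m q) f0 (Y + (f1 z - f1 b - 1) + (f0 c - f0 d - 1)) := by
    refine wg_save cS dS d2 (by omega) ?_ (fun u _ => le_rfl) hW1
    intro u hu hcu hud
    by_cases hou : (sk F).Adj o u
    · rcases d6 u hou hcu with g | g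
      · rw [g, f0b]
        norm_num
      · exact absurd g hud
    · exact f0n u hou
  refine ⟨Y + 1, wg_le hW0 (by omega), ?_⟩
  have hB := card_OO_dl hdl (p := p) (m := m) (q := q) (B := {b, c}) (by
    intro x hx hox
    rcases (mX x).1 hx with g | g | g
    · rw [g] at hox
      exact absurd hox h.noz
    · simp [g]
    · simp [g])
  have hB2 : ({b, c} : Finset V).card ≤ 2 := Finset.card_le_two
  have hA2 : A'.card ≤ A.card + 1 := by
    have h1 : A'.card ≤ (insert y (A.erase b)).card + 1 := Finset.card_insert_le _ _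
    have h2 : (insert y (A.erase b)).card ≤ (A.erase b).card + 1 := Finset.card_insert_le _ _
    have h3 : (A.erase b).card = A.card - 1 := Finset.card_erase_of_mem hb
    have h4 : 0 < A.card := Finset.card_pos.2 ⟨b, hb⟩
    omega
  rw [hXc] at hY
  omega

end Pool.Agent.Lib.MP_a33b01_co
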