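import Mathlib
import Pool.Agent.Lib.MP_a33b01_co.Loc

set_option autoImplicit false

/-!
# MP_a33b01_co: case E7 (delete z and save b, b and c are free)
-/

namespace Pool.Agent.Lib.MP_a33b01_co

open Classical

variable {V : Type}

variable {F : Finset (Finset V)} {o p m q : V} {A : Finset V} {a b c z : V}


private theorem E7_rot (x y w : V) : ({x, y, w} : Finset V) = {w, x, y} := by
  ext u; simp only [Finset.mem_insert, Finset.mem_singleton]; tauto

private theorem E7_rev (x y w : V) : ({x, y, w} : Finset V) = {w, y, x} := by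
  ext u; simp only [Finset.mem_insert, Finset.mem_singleton]; tauto

private theorem E7_er (S X : Finset V) (z b c : V) (hX : ∀ u, u ∈ X ↔ u = z ∨ u = c ∨ u = b) :
    ((S.erase z).erase b).erase c = S \ X := by
  ext u
  simp only [Finset.mem_erase, Finset.mem_sdiff, hX]
  tauto

theorem e7 (h : Ctx F o p m q A a b c z) (ha : a ∉ A) (hb : b ∈ A) (hc : c ≠ q) {d : V}
    (hd : ({o, c, d} : Finset V) ∈ F) (hdb : d ≠ b) (hdA : d ∈ A) (hb4 : dg F b = 4)
    (hc5 : dg F c = 5) (hzm : m ≠ q → ¬ (sk F).Adj z m) :
    Concl F o p m q A := by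
  have hF := h.st.sph
  have hcD : c ∉ DD o p m q := h.cD hc
  obtain ⟨hab, haz, hbz, hbc⟩ := h.abne
  have hca := h.ca
  have hoa := h.oa
  have hob := h.ob
  have hoc := h.oc
  have hAab := h.ab
  have hAaz := h.az
  have hAbz := h.bz
  have hAbc := h.bc
  have hnoz := h.noz
  have hnac := h.nac
  have hzo := h.zo
  have hzA := h.zA
  have hzc := h.zc
  have hzD := h.zD
  have hcA : c ∉ A := fun hh => h.st.ind b hb c hh hAbc
  have hdD : d ∉ DD o p m q := h.st.AD d hdA
  obtain ⟨hod, hAcd, hda, hdp, -, hcoc, hldc⟩ := h.d_facts hc hd hdb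
  have hnzd : ¬ (sk F).Adj z d := h.nzA d hdA hda hdb
  have hzd : z ≠ d := fun e => hzA (e ▸ hdA)
  have hnzp : ¬ (sk F).Adj z p := h.nzp ha
  have hnzq : ¬ (sk F).Adj z q := h.nzq (Or.inr hc)
  have hnzm : ¬ (sk F).Adj z m := by
    by_cases hmq : m = q
    · rw [hmq]; exact hnzq
    · exact hzm hmq
  -- the neighbours of `b`
  have hNb : ∀ u, (sk F).Adj b u → u = o ∨ u = a ∨ u = c ∨ u = z := by
    intro u hu
    by_contra hcon
    push Not at hcon
    obtain ⟨h1, h2, h3, h4⟩ := hcon
    have hle := le_dg (F := F) (v := b) (W := {u, o, a, c, z}) (by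
      intro w hw
      simp only [Finset.mem_insert, Finset.mem_singleton] at hw
      rcases hw with rfl | rfl | rfl | rfl | rfl
      · exact hu
      · exact hob.symm
      · exact hAab.symm
      · exact hAbc
      · exact hAbz)
    rw [Finset.card_insert_of_notMem (by simp [h1, h2, h3, h4]),
      Finset.card_insert_of_notMem (by simp [hoa.ne, hoc.ne, hzo.symm]),
      Finset.card_insert_of_notMem (by simp [hca.symm, haz]),
      Finset.card_insert_of_notMem (by simp [hzc.symm]), Finset.card_singleton] at hle
    omega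
  -- `z` is adjacent to `c`, with the face `b c z`
  have hfbcz : ({b, c, z} : Finset V) ∈ F := by
    have hf : ({b, c, o} : Finset V) ∈ F := by
      have := h.obc
      rw [E7_rot]; exact this
    obtain ⟨w, hwo, hw, -⟩ := other_face hF hf
    obtain ⟨f1, f2, f3⟩ := face_adj hF hw
    rcases hNb w f3 with rfl | rfl | rfl | rfl
    · exact absurd rfl hwo
    · exact absurd f2.symm hnac
    · exact absurd rfl f2.ne
    · exact hw
  have hAcz : (sk F).Adj c z := (face_adj hF hfbcz).2.1
  -- the other face at `z c`
  obtain ⟨y, hyb, hAzy, hAcy, hczc⟩ : ∃ y, y ≠ b ∧ (sk F).Adj z y ∧ (sk F).Adj c y ∧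
      ∀ u, (sk F).Adj z u → (sk F).Adj c u → u = b ∨ u = y := by
    have hf : ({z, c, b} : Finset V) ∈ F := by
      rw [E7_rev]; exact hfbcz
    obtain ⟨w, hwb, hw, -⟩ := other_face hF hf
    obtain ⟨f1, f2, f3⟩ := face_adj hF hw
    exact ⟨w, hwb, f3, f2, nosep_two hF h.ns hf hw hwb.symm⟩
  have hyo : y ≠ o := by
    rintro rfl; exact hnoz hAzy.symm
  have hya : y ≠ a := by
    rintro rfl; exact hnac hAcy.symm
  have hyc : y ≠ c := hAcy.ne.symm
  have hyz : y ≠ z := hAzy.ne.symm
  have hyd : y ≠ d := by
    rintro rfl; exact hnzd hAzy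
  -- the neighbours of `c`
  have hNc : ∀ u, (sk F).Adj c u → u = o ∨ u = b ∨ u = z ∨ u = d ∨ u = y := by
    intro u hu
    by_contra hcon
    push Not at hcon
    obtain ⟨h1, h2, h3, h4, h5⟩ := hcon
    have hle := le_dg (F := F) (v := c) (W := {u, o, b, z, d, y}) (by
      intro w hw
      simp only [Finset.mem_insert, Finset.mem_singleton] at hw
      rcases hw with rfl | rfl | rfl | rfl | rfl | rfl
      · exact hu
      · exact hoc.symm
      · exact hAbc.symm
      · exact hAcz
      · exact hAcd
      · exact hAcy)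
    rw [Finset.card_insert_of_notMem (by simp [h1, h2, h3, h4, h5]),
      Finset.card_insert_of_notMem (by simp [hob.ne, hzo.symm, hod.ne, hyo.symm]),
      Finset.card_insert_of_notMem (by simp [hbz, hdb.symm, hyb.symm]),
      Finset.card_insert_of_notMem (by simp [hzd, hyz.symm]),
      Finset.card_insert_of_notMem (by simp [hyd.symm]), Finset.card_singleton] at hle
    omega
  -- the outer neighbours of `z`
  have hzout : ∀ u, (sk F).Adj o u → (sk F).Adj z u → u = a ∨ u = b ∨ u = c := by
    intro u h1 h2
    rcases h.noz' u h1 h2 with h3 | h3 | h3 | ⟨h3, h4⟩ | ⟨h3, h4⟩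
    · exact Or.inl h3
    · exact Or.inr (Or.inl h3)
    · exact absurd (h3 ▸ h2) hnzp
    · exact absurd (h4 ▸ h2) hnzm
    · exact Or.inr (Or.inr h4)
  -- at least seven vertices
  have hcard7 : 7 ≤ (supp F).card := by
    have hsub : ({o, a, b, c, z, d, y} : Finset V) ⊆ supp F := by
      intro w hw
      simp only [Finset.mem_insert, Finset.mem_singleton] at hw
      rcases hw with rfl | rfl | rfl | rfl | rfl | rfl | rfl
      · exact (adj_supp hoa).1
      · exact (adj_supp hoa).2
      · exact (adj_supp hob).2
      · exact (adj_supp hoc).2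
      · exact (adj_supp hAzy).1
      · exact (adj_supp hod).2
      · exact (adj_supp hAzy).2
    have := Finset.card_le_card hsub
    rw [Finset.card_insert_of_notMem
        (by simp [hoa.ne, hob.ne, hoc.ne, hzo.symm, hod.ne, hyo.symm]),
      Finset.card_insert_of_notMem
        (by simp [hab, hca.symm, haz, hda.symm, hya.symm]),
      Finset.card_insert_of_notMem (by simp [hbc, hbz, hdb.symm, hyb.symm]),
      Finset.card_insert_of_notMem (by simp [hzc.symm, hAcd.ne, hyc.symm]),
      Finset.card_insert_of_notMem (by simp [hzd, hyz.symm]),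
      Finset.card_insert_of_notMem (by simp [hyd.symm]), Finset.card_singleton] at this
    omega
  -- the deletion
  obtain ⟨F1, dl1⟩ := dl_one hF hob (z := a) (w := c) (fun u h1 h2 => h.cob u h1 h2) h.c5
  obtain ⟨F2, dl2⟩ := dl_add dl1 (y := c) (z := d) (w := z)
    (by simp [hbc.symm]) hoc.ne.symm (Or.inl hoc)
    (by
      intro u hu huo hcu hcase
      rcases hcase with h1 | ⟨x, hx, h1⟩
      · rcases hcoc u h1 hcu with h2 | h2
        · exact absurd (by simp [h2]) hu
        · exact Or.inl h2
      · rw [Finset.mem_singleton] at hx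
        rw [hx] at h1
        rcases hNb u h1 with h2 | h2 | h2 | h2
        · exact absurd h2 huo
        · exact absurd (h2 ▸ hcu).symm hnac
        · exact absurd h2 hcu.ne.symm
        · exact Or.inr h2)
    (by rw [Finset.card_singleton]; omega)
    (by
      intro x hx
      rw [Finset.mem_singleton] at hx
      rw [hx]; exact (adj_supp hob).2)
  obtain ⟨F', dl⟩ := dl_add dl2 (y := z) (z := a) (w := y)
    (by simp [hzc, hbz.symm]) hzo (Or.inr ⟨b, by simp, hAbz⟩)
    (by
      intro u hu huo hzu hcase
      have hub : u ≠ b := fun e => hu (by simp [e])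
      have huc : u ≠ c := fun e => hu (by simp [e])
      rcases hcase with h1 | ⟨x, hx, h1⟩
      · rcases hzout u h1 hzu with h2 | h2 | h2
        · exact Or.inl h2
        · exact absurd h2 hub
        · exact absurd h2 huc
      · simp only [Finset.mem_insert, Finset.mem_singleton] at hx
        rcases hx with rfl | rfl
        · rcases hczc u hzu h1 with h2 | h2
          · exact absurd h2 hub
          · exact Or.inr h2
        · rcases hNb u h1 with h2 | h2 | h2 | h2
          · exact absurd h2 huo
          · exact Or.inl h2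
          · exact absurd h2 huc
          · exact absurd h2 hzu.ne.symm)
    (by
      have : ({c, b} : Finset V).card ≤ 2 := Finset.card_le_two
      have e : (insert c {b} : Finset V) = {c, b} := rfl
      rw [e]; omega)
    (by
      intro x hx
      simp only [Finset.mem_insert, Finset.mem_singleton] at hx
      rcases hx with rfl | rfl
      · exact (adj_supp hoc).2
      · exact (adj_supp hob).2)
  set X : Finset V := insert z (insert c {b}) with hXdef
  obtain ⟨hSa, hSb, hSz⟩ := h.mem_SS
  have hSc : c ∈ SS F o p m q := mem_SS.2 ⟨(adj_supp hoc).2, hcD⟩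
  have hX : X ⊆ SS F o p m q := by
    intro x hx
    simp only [hXdef, Finset.mem_insert, Finset.mem_singleton] at hx
    rcases hx with rfl | rfl | rfl <;> assumption
  have hmemX : ∀ u, u ∈ X ↔ u = z ∨ u = c ∨ u = b := by
    intro u; simp [hXdef]
  have hXne : X.Nonempty := ⟨z, by simp [hXdef]⟩
  have haX : a ∉ X := by
    rw [hmemX]
    rintro (e | e | e)
    · exact haz e
    · exact hca e.symm
    · exact hab e
  set A' : Finset V := insert a (A.erase b) with hA'def
  have hmemA' : ∀ w, w ∈ A' ↔ w = a ∨ (w ≠ b ∧ w ∈ A) := by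
    intro w; simp [hA'def, Finset.mem_erase]
  have hindA : ∀ w, w ∈ A → w ≠ b → ¬ (sk F).Adj a w := by
    intro w hw hwb haw
    rcases h.coa w (h.st.Ao w hw) haw with h1 | h1
    · exact h.st.AD w hw (mem_DD.2 (Or.inr (Or.inl h1)))
    · exact hwb h1
  have st' : St F' o p m q A' := by
    refine st_dl h.st dl hX ?_ ?_ ?_
    · intro w hw
      rcases (hmemA' w).1 hw with rfl | ⟨hwb, hwA⟩
      · exact ⟨haX, h.aD, Or.inl hoa⟩
      · refine ⟨?_, h.st.AD w hwA, Or.inl (h.st.Ao w hwA)⟩
        rw [hmemX]
        rintro (rfl | rfl | rfl)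
        · exact hzA hwA
        · exact hcA hwA
        · exact hwb rfl
    · intro w hw w' hw' hadj
      rcases (hmemA' w).1 hw with rfl | ⟨hwb, hwA⟩
      · rcases (hmemA' w').1 hw' with rfl | ⟨hwb', hwA'⟩
        · exact hadj.ne rfl
        · exact hindA w' hwA' hwb' hadj
      · rcases (hmemA' w').1 hw' with rfl | ⟨hwb', hwA'⟩
        · exact hindA w hwA hwb hadj.symm
        · exact h.st.ind w hwA w' hwA' hadj
    · intro hmq w hw
      rcases (hmemA' w).1 hw with rfl | ⟨hwb, hwA⟩
      · exact fun hh => h.nam hh.2.1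
      · exact h.st.exc hmq w hwA
  obtain ⟨Y, hWg, hYle⟩ := step h.ih dl hX hXne st'
  have hOO : (OO F o p m q).card ≤ (OO F' o p m q).card + 2 := by
    have := card_OO_dl (p := p) (m := m) (q := q) (B := {b, c}) dl (by
      intro x hx hox
      rw [hmemX] at hx
      rcases hx with rfl | rfl | rfl
      · exact absurd hox hnoz
      · simp
      · simp)
    have h2 : ({b, c} : Finset V).card ≤ 2 := Finset.card_le_two
    omega
  have hXc : X.card ≤ 3 := by
    rw [hXdef]
    have e : (insert z (insert c {b}) : Finset V) = {z, c, b} := rfl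
    rw [e]; exact Finset.card_le_three
  have hAc : A'.card ≤ A.card := by
    have h1 : (A.erase b).card + 1 = A.card := Finset.card_erase_add_one hb
    have h2 : A'.card ≤ (A.erase b).card + 1 := Finset.card_insert_le _ _
    omega
  -- the values
  have hfb : fv F A (DD o p m q) b = 2 := by
    unfold fv; rw [h.ld_b hc, if_pos hb]
  have hfc : fv F A (DD o p m q) c = 3 := by
    unfold fv; rw [hldc hdD, if_neg hcA]
  have hldz : ld F A (DD o p m q) z = 0 := by
    unfold ld
    rw [if_neg hzA]
    have e : (DD o p m q).filter (fun d => (sk F).Adj z d) = ∅ := by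
      rw [Finset.filter_eq_empty_iff]
      intro d hd1 hd2
      rw [mem_DD] at hd1
      rcases hd1 with rfl | rfl | rfl | rfl
      · exact hnoz hd2.symm
      · exact hnzp hd2
      · exact hnzm hd2
      · exact hnzq hd2
    rw [e, Finset.card_empty]
  have hfz : fv F A (DD o p m q) z = 4 := by
    unfold fv; rw [hldz]
  -- the new load
  have hld : ∀ u ∈ SS F o p m q, u ∉ X →
      ld F' A' (DD o p m q) u = ld F A (DD o p m q) u + if (sk F).Adj z u then 1 else 0 := by
    intro u hu huX
    rw [ld_dl dl hX hu huX]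
    unfold ld
    have hub : u ≠ b := fun e => huX ((hmemX u).2 (Or.inr (Or.inr e)))
    have huc : u ≠ c := fun e => huX ((hmemX u).2 (Or.inr (Or.inl e)))
    have huz : u ≠ z := fun e => huX ((hmemX u).2 (Or.inl e))
    by_cases hua : u = a
    · have e1 : (if u ∈ A' then 1 else 0) = 1 := if_pos ((hmemA' u).2 (Or.inl hua))
      have e2 : (if u ∈ A then 1 else 0) = 0 := if_neg (by rw [hua]; exact ha)
      have e3 : (if ¬ (sk F).Adj o u ∧ ∃ x ∈ X, (sk F).Adj x u then 1 else 0) = 0 :=
        if_neg (by rw [hua]; exact fun hh => hh.1 hoa)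
      have e4 : (if (sk F).Adj z u then 1 else 0) = 1 := if_pos (by rw [hua]; exact hAaz.symm)
      rw [e1, e2, e3, e4]
      omega
    · have e1 : (if u ∈ A' then 1 else 0) = if u ∈ A then 1 else 0 := by
        have : u ∈ A' ↔ u ∈ A := by
          rw [hmemA']
          constructor
          · rintro (h1 | h1)
            · exact absurd h1 hua
            · exact h1.2
          · exact fun h1 => Or.inr ⟨hub, h1⟩
        simp only [this]
      have e2 : (¬ (sk F).Adj o u ∧ ∃ x ∈ X, (sk F).Adj x u) ↔ (sk F).Adj z u := by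
        constructor
        · rintro ⟨hou, x, hx, hxu⟩
          rcases (hmemX x).1 hx with rfl | rfl | rfl
          · exact hxu
          · rcases hNc u hxu with h2 | h2 | h2 | h2 | h2
            · exact absurd (mem_DD.2 (Or.inl h2)) (mem_SS.1 hu).2
            · exact absurd h2 hub
            · exact absurd h2 huz
            · exact absurd (h2 ▸ hod) hou
            · exact h2 ▸ hAzy
          · rcases hNb u hxu with h2 | h2 | h2 | h2
            · exact absurd (mem_DD.2 (Or.inl h2)) (mem_SS.1 hu).2
            · exact absurd h2 hua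
            · exact absurd h2 huc
            · exact absurd h2 huz
        · intro hzu
          refine ⟨fun hou => ?_, z, (hmemX z).2 (Or.inl rfl), hzu⟩
          rcases hzout u hou hzu with h2 | h2 | h2
          · exact hua h2
          · exact hub h2
          · exact huc h2
      rw [e1]
      simp only [e2]
  have hle4 : ∀ u ∈ SS F o p m q, u ∉ X → ld F' A' (DD o p m q) u ≤ 4 := by
    intro u hu huX
    apply st'.ld_le
    rw [mem_SS, dl.sp]
    exact ⟨Finset.mem_sdiff.2 ⟨(mem_SS.1 hu).1, huX⟩, (mem_SS.1 hu).2⟩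
  -- the game
  let g : V → ℕ := fun u => if (sk F).Adj z u ∧ u ≠ b then fv F A (DD o p m q) u - 1
    else fv F A (DD o p m q) u
  have hgb : g b = 2 := by
    simp only [g]
    rw [if_neg (by simp), hfb]
  have hgc : g c = 2 := by
    simp only [g]
    rw [if_pos ⟨hAcz.symm, hbc.symm⟩, hfc]
  have hEq : (((SS F o p m q).erase z).erase b).erase c = SS F o p m q \ X :=
    E7_er _ _ _ _ _ hmemX
  have hW1 : Wg (sk F) ((((SS F o p m q).erase z).erase b).erase c) g Y := by
    rw [hEq]
    refine wg_mono ?_ (fun u _ v _ huv => huv) hWg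
    intro u hu
    obtain ⟨hu1, hu2⟩ := Finset.mem_sdiff.1 hu
    have hub : u ≠ b := fun e => hu2 ((hmemX u).2 (Or.inr (Or.inr e)))
    by_cases hzu : (sk F).Adj z u
    · have e5 : g u = fv F A (DD o p m q) u - 1 := if_pos ⟨hzu, hub⟩
      have e6 := hld u hu1 hu2
      rw [if_pos hzu] at e6
      rw [e5]
      unfold fv
      omega
    · have e5 : g u = fv F A (DD o p m q) u := if_neg (fun hh => hzu hh.1)
      have e6 := hld u hu1 hu2
      rw [if_neg hzu] at e6
      rw [e5]
      unfold fv
      omega
  have hW2 : Wg (sk F) (((SS F o p m q).erase z).erase b) g Y := by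
    refine wg_free (v := c) ?_ ?_ hW1
    · simp only [Finset.mem_erase]
      exact ⟨hbc.symm, hzc.symm, hSc⟩
    · rw [hgc]
      have hsub : ((((SS F o p m q).erase z).erase b).filter fun u => (sk F).Adj c u) ⊆
          {d, y} := by
        intro u hu
        simp only [Finset.mem_filter, Finset.mem_erase] at hu
        obtain ⟨⟨hub, huz, huS⟩, hcu⟩ := hu
        simp only [Finset.mem_insert, Finset.mem_singleton]
        rcases hNc u hcu with h2 | h2 | h2 | h2 | h2
        · exact absurd (mem_DD.2 (Or.inl h2)) (mem_SS.1 huS).2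
        · exact absurd h2 hub
        · exact absurd h2 huz
        · exact Or.inl h2
        · exact Or.inr h2
      exact (Finset.card_le_card hsub).trans Finset.card_le_two
  have hW3 : Wg (sk F) ((SS F o p m q).erase z) g Y := by
    refine wg_free (v := b) ?_ ?_ hW2
    · simp only [Finset.mem_erase]
      exact ⟨hbz, hSb⟩
    · rw [hgb]
      have hsub : (((SS F o p m q).erase z).filter fun u => (sk F).Adj b u) ⊆ {a, c} := by
        intro u hu
        simp only [Finset.mem_filter, Finset.mem_erase] at hu
        obtain ⟨⟨huz, huS⟩, hbu⟩ := hu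
        simp only [Finset.mem_insert, Finset.mem_singleton]
        rcases hNb u hbu with h2 | h2 | h2 | h2
        · exact absurd (mem_DD.2 (Or.inl h2)) (mem_SS.1 huS).2
        · exact Or.inl h2
        · exact Or.inr h2
        · exact absurd h2 huz
      exact (Finset.card_le_card hsub).trans Finset.card_le_two
  have hW4 : Wg (sk F) (SS F o p m q) (fv F A (DD o p m q)) (Y + 1) := by
    have := wg_save (w := b) hSz hSb hAbz.symm (by rw [hfb, hfz]; norm_num) (by
      intro u huS hzu hub
      by_cases huX : u ∈ X
      · rcases (hmemX u).1 huX with h2 | h2 | h2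
        · exact absurd h2 hzu.ne.symm
        · rw [h2, hfc]; norm_num
        · exact absurd h2 hub
      · have h1 := hle4 u huS huX
        rw [hld u huS huX, if_pos hzu] at h1
        unfold fv
        omega) (g := g) (fun u _ => le_of_eq rfl) hW3
    rw [hfb, hfz] at this
    exact this
  refine ⟨Y + 1, hW4, ?_⟩
  omega

end Pool.Agent.Lib.MP_a33b01_co
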