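import Mathlib
import Pool.Agent.Lib.MP_a33b01_co.Loc

set_option autoImplicit false

/-!
# MP_a33b01_co: case E9 (delete b and save c, delete a)
-/

namespace Pool.Agent.Lib.MP_a33b01_co

open Classical

variable {V : Type}

variable {F : Finset (Finset V)} {o p m q : V} {A : Finset V} {a b c z : V}

private theorem E9_dl (h : Ctx F o p m q A a b c z) (hcq : c ≠ q) :
    ∃ F', Dl F o {b, a} F' := by
  obtain ⟨F₁, h₁⟩ := dl_one h.st.sph h.oa h.coa h.c5
  have hne := h.abne
  have hob := h.ob.ne
  refine dl_add (z := c) (w := z) h₁ (by simpa using hne.1.symm) hob.symm (Or.inl h.ob) ?_ ?_ ?_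
  · intro u hua huo hbu hu
    rw [Finset.mem_singleton] at hua
    rcases hu with hu | ⟨x, hx, hu⟩
    · rcases h.cob u hu hbu with h1 | h1
      · exact absurd h1 hua
      · exact Or.inl h1
    · rw [Finset.mem_singleton] at hx
      subst hx
      rcases h.cab u hu hbu with h1 | h1
      · exact absurd h1 huo
      · exact Or.inr h1
  · have haD := h.aD
    have hcD := h.cD hcq
    have hzD := h.zD
    have hbD := h.bD
    have hop := h.st.op.ne
    rw [mem_DD] at haD hcD hzD hbD
    push Not at haD hcD hzD hbD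
    have hsub : ({o, p, a, b, c, z} : Finset V) ⊆ supp F := by
      intro u hu
      simp only [Finset.mem_insert, Finset.mem_singleton] at hu
      rcases hu with hu | hu | hu | hu | hu | hu
      · rw [hu]; exact (adj_supp h.oa).1
      · rw [hu]; exact (adj_supp h.pa).1
      · rw [hu]; exact (adj_supp h.oa).2
      · rw [hu]; exact (adj_supp h.ob).2
      · rw [hu]; exact (adj_supp h.oc).2
      · rw [hu]; exact (adj_supp h.az).2
    have hcard : ({o, p, a, b, c, z} : Finset V).card = 6 := by
      rw [Finset.card_insert_of_notMem, Finset.card_insert_of_notMem,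
        Finset.card_insert_of_notMem, Finset.card_insert_of_notMem,
        Finset.card_insert_of_notMem, Finset.card_singleton]
      · simpa using h.zc.symm
      · simp only [Finset.mem_insert, Finset.mem_singleton, not_or]
        exact ⟨hne.2.2.2, hne.2.2.1⟩
      · simp only [Finset.mem_insert, Finset.mem_singleton, not_or]
        exact ⟨hne.1, h.ca.symm, hne.2.1⟩
      · simp only [Finset.mem_insert, Finset.mem_singleton, not_or]
        exact ⟨haD.2.1.symm, hbD.2.1.symm, hcD.2.1.symm, hzD.2.1.symm⟩
      · simp only [Finset.mem_insert, Finset.mem_singleton, not_or]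
        exact ⟨hop, haD.1.symm, hbD.1.symm, hcD.1.symm, hzD.1.symm⟩
    have := Finset.card_le_card hsub
    rw [Finset.card_singleton]
    omega
  · intro u hu
    rw [Finset.mem_singleton] at hu
    rw [hu]
    exact (adj_supp h.oa).2

private theorem E9_card {F' : Finset (Finset V)} (h : Ctx F o p m q A a b c z) (hcq : c ≠ q)
    (dl : Dl F o {b, a} F') (hdeg : 10 ≤ dg F a + dg F b) :
    (OO F o p m q).card + 1 ≤ (OO F' o p m q).card := by
  have hbD := h.bD
  have haD := h.aD
  rw [mem_DD] at hbD haD
  push Not at hbD haD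
  set Na := ((supp F).filter fun u => (sk F).Adj a u) \ {o, p, b} with hNa
  set Nb := ((supp F).filter fun u => (sk F).Adj b u) \ {o, a, c} with hNb
  have hNac : dg F a ≤ Na.card + 3 := by
    have h1 := Finset.le_card_sdiff ({o, p, b} : Finset V)
      ((supp F).filter fun u => (sk F).Adj a u)
    rw [← hNa] at h1
    have h2 := Finset.card_le_three (a := o) (b := p) (c := b)
    have h3 : dg F a = ((supp F).filter fun u => (sk F).Adj a u).card := rfl
    omega
  have hNbc : dg F b ≤ Nb.card + 3 := by
    have h1 := Finset.le_card_sdiff ({o, a, c} : Finset V)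
      ((supp F).filter fun u => (sk F).Adj b u)
    rw [← hNb] at h1
    have h2 := Finset.card_le_three (a := o) (b := a) (c := c)
    have h3 : dg F b = ((supp F).filter fun u => (sk F).Adj b u).card := rfl
    omega
  have hi : (Na ∩ Nb).card ≤ 1 := by
    have : Na ∩ Nb ⊆ {z} := by
      intro u hu
      rw [Finset.mem_inter, hNa, hNb, Finset.mem_sdiff, Finset.mem_sdiff, Finset.mem_filter,
        Finset.mem_filter] at hu
      obtain ⟨⟨⟨-, h1⟩, h2⟩, ⟨-, h3⟩, h4⟩ := hu
      simp only [Finset.mem_insert, Finset.mem_singleton, not_or] at h2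
      rw [Finset.mem_singleton]
      rcases h.cab u h1 h3 with h5 | h5
      · exact absurd h5 h2.1
      · exact h5
    exact (Finset.card_le_card this).trans (by rw [Finset.card_singleton])
  have hu := Finset.card_union_add_card_inter Na Nb
  have hsub : (OO F o p m q \ {a, b}) ∪ (Na ∪ Nb) ⊆ OO F' o p m q := by
    intro u hu
    rw [mem_OO_dl dl]
    rcases Finset.mem_union.1 hu with hu | hu
    · rw [Finset.mem_sdiff, mem_OO] at hu
      simp only [Finset.mem_insert, Finset.mem_singleton, not_or] at hu ⊢
      exact ⟨⟨hu.2.2, hu.2.1⟩, hu.1.2, Or.inl hu.1.1⟩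
    · rcases Finset.mem_union.1 hu with hu | hu
      · rw [hNa, Finset.mem_sdiff, Finset.mem_filter] at hu
        obtain ⟨⟨-, h1⟩, h2⟩ := hu
        simp only [Finset.mem_insert, Finset.mem_singleton, not_or] at h2
        refine ⟨?_, ?_, Or.inr ⟨a, by simp, h1⟩⟩
        · simp only [Finset.mem_insert, Finset.mem_singleton, not_or]
          exact ⟨h2.2.2, h1.ne.symm⟩
        · rw [mem_DD]
          rintro (h3 | h3 | h3 | h3)
          · exact h2.1 h3
          · exact h2.2.1 h3
          · rw [h3] at h1
            exact h.nam h1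
          · rw [h3] at h1
            exact h.naq h1
      · rw [hNb, Finset.mem_sdiff, Finset.mem_filter] at hu
        obtain ⟨⟨-, h1⟩, h2⟩ := hu
        simp only [Finset.mem_insert, Finset.mem_singleton, not_or] at h2
        refine ⟨?_, ?_, Or.inr ⟨b, by simp, h1⟩⟩
        · simp only [Finset.mem_insert, Finset.mem_singleton, not_or]
          exact ⟨h1.ne.symm, h2.2.1⟩
        · rw [mem_DD]
          rintro (h3 | h3 | h3 | h3)
          · exact h2.1 h3
          · rw [h3] at h1
            exact h.nbp h1
          · rw [h3] at h1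
            exact h.nbm hcq h1
          · rw [h3] at h1
            exact h.nbq hcq h1
  have hdis : Disjoint (OO F o p m q \ {a, b}) (Na ∪ Nb) := by
    rw [Finset.disjoint_left]
    intro u hu hu'
    rw [Finset.mem_sdiff, mem_OO] at hu
    rcases Finset.mem_union.1 hu' with hu' | hu'
    · rw [hNa, Finset.mem_sdiff, Finset.mem_filter] at hu'
      obtain ⟨⟨-, h1⟩, h2⟩ := hu'
      simp only [Finset.mem_insert, Finset.mem_singleton, not_or] at h2
      rcases h.coa u hu.1.1 h1 with h3 | h3
      · exact h2.2.1 h3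
      · exact h2.2.2 h3
    · rw [hNb, Finset.mem_sdiff, Finset.mem_filter] at hu'
      obtain ⟨⟨-, h1⟩, h2⟩ := hu'
      simp only [Finset.mem_insert, Finset.mem_singleton, not_or] at h2
      rcases h.cob u hu.1.1 h1 with h3 | h3
      · exact h2.2.1 h3
      · exact h2.2.2 h3
  have h1 := Finset.card_le_card hsub
  rw [Finset.card_union_of_disjoint hdis] at h1
  have h2 := Finset.le_card_sdiff ({a, b} : Finset V) (OO F o p m q)
  have h3 := Finset.card_le_two (a := a) (b := b)
  omega

theorem e9 (h : Ctx F o p m q A a b c z) (ha : a ∈ A) (hc : c ∈ A)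
    (hdeg : 10 ≤ dg F a + dg F b) : Concl F o p m q A := by
  have hb : b ∉ A := fun hb => h.not_both ⟨ha, hb⟩
  have hcq : c ≠ q := by
    intro hcq
    exact h.st.AD c hc (mem_DD.2 (Or.inr (Or.inr (Or.inr hcq))))
  obtain ⟨F', dl⟩ := E9_dl h hcq
  obtain ⟨hab, haz, hbz, hbc⟩ := h.abne
  obtain ⟨haS, hbS, hzS⟩ := h.mem_SS
  have hcS : c ∈ SS F o p m q := mem_SS.2 ⟨(adj_supp h.oc).2, h.cD hcq⟩
  have hX : ({b, a} : Finset V) ⊆ SS F o p m q := by
    intro u hu
    simp only [Finset.mem_insert, Finset.mem_singleton] at hu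
    rcases hu with hu | hu
    · rw [hu]; exact hbS
    · rw [hu]; exact haS
  have st' : St F' o p m q (insert z (A.erase a)) := by
    refine st_dl h.st dl hX ?_ ?_ ?_
    · intro w hw
      rcases Finset.mem_insert.1 hw with hw | hw
      · rw [hw]
        refine ⟨?_, h.zD, Or.inr ⟨a, by simp, h.az⟩⟩
        simp only [Finset.mem_insert, Finset.mem_singleton, not_or]
        exact ⟨hbz.symm, haz.symm⟩
      · obtain ⟨hwa, hwA⟩ := Finset.mem_erase.1 hw
        refine ⟨?_, h.st.AD w hwA, Or.inl (h.st.Ao w hwA)⟩
        simp only [Finset.mem_insert, Finset.mem_singleton, not_or]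
        refine ⟨?_, hwa⟩
        rintro rfl
        exact hb hwA
    · intro w hw w' hw'
      rcases Finset.mem_insert.1 hw with hw | hw
      · rcases Finset.mem_insert.1 hw' with hw' | hw'
        · rw [hw, hw']
          exact (sk F).loopless.irrefl z
        · obtain ⟨hwa, hwA⟩ := Finset.mem_erase.1 hw'
          rw [hw]
          exact h.nzA w' hwA hwa fun hh => hb (hh ▸ hwA)
      · obtain ⟨hwa, hwA⟩ := Finset.mem_erase.1 hw
        rcases Finset.mem_insert.1 hw' with hw' | hw'
        · rw [hw']
          exact fun hh => h.nzA w hwA hwa (fun hh => hb (hh ▸ hwA)) hh.symm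
        · exact h.st.ind w hwA w' (Finset.mem_erase.1 hw').2
    · intro hmq w hw
      rcases Finset.mem_insert.1 hw with hw | hw
      · rw [hw]
        exact fun hh => h.nzq (Or.inl hb) hh.2.2
      · exact h.st.exc hmq w (Finset.mem_erase.1 hw).2
  obtain ⟨Y, hY, hnum⟩ := step h.ih dl hX ⟨b, by simp⟩ st'
  have hcard := E9_card h hcq dl hdeg
  -- the loads
  have key : ∀ u ∈ SS F o p m q, u ≠ b → u ≠ a →
      ld F A (DD o p m q) u + (if (sk F).Adj b u ∧ u ≠ c then 1 else 0) +
        (if (sk F).Adj a u then 1 else 0) ≤ ld F' (insert z (A.erase a)) (DD o p m q) u := by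
    intro u hu hub hua
    have huD := (mem_SS.1 hu).2
    have huo : u ≠ o := fun hh => huD (mem_DD.2 (Or.inl hh))
    have hup : u ≠ p := fun hh => huD (mem_DD.2 (Or.inr (Or.inl hh)))
    have huX : u ∉ ({b, a} : Finset V) := by
      simp only [Finset.mem_insert, Finset.mem_singleton, not_or]
      exact ⟨hub, hua⟩
    rw [ld_dl dl hX hu huX]
    unfold ld
    have hno : (sk F).Adj a u → ¬ (sk F).Adj o u := by
      intro h1 h2
      rcases h.coa u h2 h1 with h3 | h3
      · exact hup h3
      · exact hub h3
    have hno' : (sk F).Adj b u → u ≠ c → ¬ (sk F).Adj o u := by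
      intro h1 h3 h2
      rcases h.cob u h2 h1 with h4 | h4
      · exact hua h4
      · exact h3 h4
    have hex : (∃ x ∈ ({b, a} : Finset V), (sk F).Adj x u) ↔
        ((sk F).Adj b u ∨ (sk F).Adj a u) := by
      simp
    by_cases huz : u = z
    · have h1 : u ∉ A := huz ▸ h.zA
      have h2 : u ∈ insert z (A.erase a) := by rw [huz]; exact Finset.mem_insert_self _ _
      have h3 : (sk F).Adj b u := huz ▸ h.bz
      have h4 : (sk F).Adj a u := huz ▸ h.az
      have h5 : u ≠ c := huz ▸ h.zc
      rw [if_neg h1, if_pos h2, if_pos ⟨h3, h5⟩, if_pos h4, if_pos ⟨hno h4, hex.2 (Or.inl h3)⟩]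
      omega
    · have h1 : ¬ ((sk F).Adj b u ∧ (sk F).Adj a u) := by
        rintro ⟨h2, h3⟩
        rcases h.cab u h3 h2 with h4 | h4
        · exact huo h4
        · exact huz h4
      have h2 : u ∈ A → u ∈ insert z (A.erase a) := fun h2 =>
        Finset.mem_insert_of_mem (Finset.mem_erase.2 ⟨hua, h2⟩)
      have h3 : u ∈ A → (sk F).Adj o u := fun h3 => h.st.Ao u h3
      by_cases hbu : (sk F).Adj b u
      · have hau : ¬ (sk F).Adj a u := fun hh => h1 ⟨hbu, hh⟩
        rw [if_neg hau]
        by_cases huc : u = c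
        · have h4 : u ∈ A := huc ▸ hc
          rw [if_pos h4, if_pos (h2 h4),
            if_neg (show ¬ ((sk F).Adj b u ∧ u ≠ c) from fun hh => hh.2 huc)]
          omega
        · have h4 : ¬ (sk F).Adj o u := hno' hbu huc
          have h5 : u ∉ A := fun hh => h4 (h3 hh)
          rw [if_neg h5, if_pos (show (sk F).Adj b u ∧ u ≠ c from ⟨hbu, huc⟩),
            if_pos (show ¬ (sk F).Adj o u ∧ ∃ x ∈ ({b, a} : Finset V), (sk F).Adj x u from
              ⟨h4, hex.2 (Or.inl hbu)⟩)]
          omega
      · rw [if_neg (show ¬ ((sk F).Adj b u ∧ u ≠ c) from fun hh => hbu hh.1)]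
        by_cases hau : (sk F).Adj a u
        · have h4 : ¬ (sk F).Adj o u := hno hau
          have h5 : u ∉ A := fun hh => h4 (h3 hh)
          rw [if_neg h5, if_pos hau,
            if_pos (show ¬ (sk F).Adj o u ∧ ∃ x ∈ ({b, a} : Finset V), (sk F).Adj x u from
              ⟨h4, hex.2 (Or.inr hau)⟩)]
          omega
        · rw [if_neg hau]
          by_cases h4 : u ∈ A
          · rw [if_pos h4, if_pos (h2 h4)]
            omega
          · rw [if_neg h4]
            omega
  have hle : ∀ u ∈ SS F o p m q, u ≠ b → u ≠ a →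
      ld F' (insert z (A.erase a)) (DD o p m q) u ≤ 4 := by
    intro u hu hub hua
    refine st'.ld_le (mem_SS.2 ⟨?_, (mem_SS.1 hu).2⟩)
    rw [dl.sp, Finset.mem_sdiff]
    refine ⟨(mem_SS.1 hu).1, ?_⟩
    simp only [Finset.mem_insert, Finset.mem_singleton, not_or]
    exact ⟨hub, hua⟩
  have hfa : fv F A (DD o p m q) a = 1 := by
    unfold fv
    rw [h.ld_a, if_pos ha]
  have hfb : fv F A (DD o p m q) b = 3 := by
    unfold fv
    rw [h.ld_b hcq, if_neg hb]
  have hfc : fv F A (DD o p m q) c ≤ 2 := by
    unfold fv ld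
    rw [if_pos hc]
    have h1 : 0 < ((DD o p m q).filter fun d => (sk F).Adj c d).card := by
      refine Finset.card_pos.2 ⟨o, Finset.mem_filter.2 ⟨mem_DD.2 (Or.inl rfl), h.oc.symm⟩⟩
    omega
  -- the game
  have hgame : Wg (sk F) (SS F o p m q) (fv F A (DD o p m q)) Y := by
    have h2 : Wg (sk F) ((SS F o p m q).erase b)
        (fun u => if (sk F).Adj b u ∧ u ≠ c then fv F A (DD o p m q) u - 1
          else fv F A (DD o p m q) u)
        (Y + (fun u => if (sk F).Adj b u ∧ u ≠ c then fv F A (DD o p m q) u - 1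
          else fv F A (DD o p m q) u) a) := by
      refine wg_del (g := fv F' (insert z (A.erase a)) (DD o p m q)) ?_ ?_ ?_ ?_
      · exact Finset.mem_erase.2 ⟨hab, haS⟩
      · intro u hu hau
        obtain ⟨hub, huS⟩ := Finset.mem_erase.1 hu
        have h3 := key u huS hub hau.ne.symm
        have h4 := hle u huS hub hau.ne.symm
        rw [if_pos hau] at h3
        unfold fv
        split_ifs at h3 ⊢ <;> omega
      · intro u hu
        obtain ⟨hua, hu⟩ := Finset.mem_erase.1 hu
        obtain ⟨hub, huS⟩ := Finset.mem_erase.1 hu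
        have h3 := key u huS hub hua
        unfold fv
        split_ifs at h3 ⊢ <;> omega
      · have h3 : ((SS F o p m q).erase b).erase a = SS F o p m q \ {b, a} := by
          ext u
          simp only [Finset.mem_erase, Finset.mem_sdiff, Finset.mem_insert,
            Finset.mem_singleton, not_or]
          tauto
        rw [h3]
        exact hY
    have h3 := wg_save (v := b) (w := c) hbS hcS h.bc (by omega) ?_ (fun u _ => le_rfl) h2
    · exact wg_le h3 (by omega)
    · intro u hu hbu huc
      by_cases hua : u = a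
      · rw [hua, hfa]
      · have h4 := key u hu hbu.ne.symm hua
        have h5 := hle u hu hbu.ne.symm hua
        rw [if_pos ⟨hbu, huc⟩] at h4
        unfold fv
        omega
  refine ⟨Y, hgame, ?_⟩
  have h1 : ({b, a} : Finset V).card = 2 := Finset.card_pair hab.symm
  have h2 : (insert z (A.erase a)).card ≤ A.card := by
    have h3 := Finset.card_insert_le z (A.erase a)
    have h4 := Finset.card_erase_of_mem ha
    have h5 : 0 < A.card := Finset.card_pos.2 ⟨a, ha⟩
    omega
  omega

end Pool.Agent.Lib.MP_a33b01_co
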