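import Mathlib
import Pool.Agent.Lib.MP_a33b01_co.Game

set_option autoImplicit false

/-!
# MP_a33b01_co: from the gain to the product of the availabilities
-/

namespace Pool.Agent.Lib.MP_a33b01_co

open Classical

variable {V : Type}

theorem removes_range {G : SimpleGraph V} {S : Finset V} {f : V → ℕ} {L : List ℕ}
    (h : Removes G S f L) (hf : ∀ u ∈ S, f u ≤ 4) : ∀ a ∈ L, 1 ≤ a ∧ a ≤ 5 := by
  induction h with
  | nil f =>
    intro a ha
    exact absurd ha List.not_mem_nil
  | del S f v L hv hl h ih =>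
    intro a ha
    rcases List.mem_cons.1 ha with rfl | ha
    · have := hf v hv
      omega
    · refine ih (fun u hu => ?_) a ha
      have := hf u (Finset.mem_of_mem_erase hu)
      beta_reduce
      split_ifs <;> omega
  | save S f v w L hv hw hvw hfw hl h ih =>
    intro a ha
    rcases List.mem_cons.1 ha with rfl | ha
    · have := hf v hv
      omega
    · refine ih (fun u hu => ?_) a ha
      have := hf u (Finset.mem_of_mem_erase hu)
      beta_reduce
      split_ifs <;> omega

theorem removes_length {G : SimpleGraph V} {S : Finset V} {f : V → ℕ} {L : List ℕ}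
    (h : Removes G S f L) : L.length = S.card := by
  induction h with
  | nil f => rfl
  | del S f v L hv hl h ih =>
    rw [List.length_cons, ih, Finset.card_erase_of_mem hv]
    have : 0 < S.card := Finset.card_pos.2 ⟨v, hv⟩
    omega
  | save S f v w L hv hw hvw hfw hl h ih =>
    rw [List.length_cons, ih, Finset.card_erase_of_mem hv]
    have : 0 < S.card := Finset.card_pos.2 ⟨v, hv⟩
    omega

private theorem GameFin_one (a : ℕ) (h1 : 1 ≤ a) (h5 : a ≤ 5) :
    (2 : ℝ) ^ (((a - 1 : ℕ) : ℝ) / 4) ≤ (a : ℝ) := by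
  rcases Nat.eq_or_lt_of_le h1 with h | h
  · rw [← h]
    norm_num
  · have h2 : (((a - 1 : ℕ) : ℝ) / 4) ≤ 1 := by
      have : ((a - 1 : ℕ) : ℝ) ≤ 4 := by exact_mod_cast (by omega : a - 1 ≤ 4)
      linarith
    calc (2 : ℝ) ^ (((a - 1 : ℕ) : ℝ) / 4) ≤ (2 : ℝ) ^ (1 : ℝ) :=
          Real.rpow_le_rpow_of_exponent_le (by norm_num) h2
      _ = 2 := Real.rpow_one 2
      _ ≤ (a : ℝ) := by exact_mod_cast h

private theorem GameFin_list (L : List ℕ) (h : ∀ a ∈ L, 1 ≤ a ∧ a ≤ 5) :
    (2 : ℝ) ^ ((((L.map fun a => a - 1).sum : ℕ) : ℝ) / 4) ≤ ((L.prod : ℕ) : ℝ) := by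
  induction L with
  | nil => simp
  | cons a L ih =>
    obtain ⟨h1, h5⟩ := h a List.mem_cons_self
    have ih' := ih fun b hb => h b (List.mem_cons_of_mem _ hb)
    rw [List.map_cons, List.sum_cons, List.prod_cons]
    push_cast
    rw [add_div, Real.rpow_add (by norm_num)]
    have h6 := GameFin_one a h1 h5
    exact mul_le_mul h6 (by exact_mod_cast ih') (by positivity) (by positivity)

private theorem GameFin_prod {L' L : List ℕ} (h : List.Forall₂ (fun a b => a ≤ b) L' L) :
    L'.prod ≤ L.prod := by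
  induction h with
  | nil => exact le_rfl
  | cons hab _ ih =>
    rw [List.prod_cons, List.prod_cons]
    exact Nat.mul_le_mul hab ih

/-- If the total gain from `4` is at least `X`, then the product of the availabilities from `f` is
at least `2 ^ (X / 4)` for some sequence. -/
theorem removes_prod {G : SimpleGraph V} {S : Finset V} {f f' : V → ℕ} {X : ℕ}
    (h : Wg G S f' X) (h4 : ∀ u ∈ S, f' u ≤ 4) (hf : ∀ u ∈ S, f' u ≤ f u) :
    ∃ L, Removes G S f L ∧ (2 : ℝ) ^ ((X : ℝ) / 4) ≤ ((L.prod : ℕ) : ℝ) := by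
  obtain ⟨L', hL', hX⟩ := h
  obtain ⟨L, hL, hLL, _⟩ := removes_mono hf (fun _ _ _ _ h => h) hL'
  refine ⟨L, hL, ?_⟩
  have h1 := GameFin_list L' (removes_range hL' h4)
  have h2 : (2 : ℝ) ^ ((X : ℝ) / 4) ≤
      (2 : ℝ) ^ ((((L'.map fun a => a - 1).sum : ℕ) : ℝ) / 4) := by
    refine Real.rpow_le_rpow_of_exponent_le (by norm_num) ?_
    have : (X : ℝ) ≤ (((L'.map fun a => a - 1).sum : ℕ) : ℝ) := by exact_mod_cast hX
    linarith
  have h3 : ((L'.prod : ℕ) : ℝ) ≤ ((L.prod : ℕ) : ℝ) := by exact_mod_cast GameFin_prod hLL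
  exact h2.trans (h1.trans h3)

end Pool.Agent.Lib.MP_a33b01_co
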