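import Mathlib
import Pool.Agent.Lib.MP_a33b01_co.Step

set_option autoImplicit false

/-!
# MP_a33b01_co: the case of one remaining outer vertex
-/

namespace Pool.Agent.Lib.MP_a33b01_co

open Classical

variable {V : Type}

private theorem PEnd_ne {F : Finset (Finset V)} (hF : Sph F) {x y z : V}
    (h : ({x, y, z} : Finset V) ∈ F) : x ≠ y ∧ y ≠ z ∧ x ≠ z := by
  have hc := hF.card _ h
  refine ⟨?_, ?_, ?_⟩
  · rintro rfl
    have : ({x, x, z} : Finset V).card ≤ 2 := by
      rw [Finset.insert_eq_of_mem (Finset.mem_insert_self x {z})]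
      exact Finset.card_le_two
    omega
  · rintro rfl
    have : ({x, y, y} : Finset V).card ≤ 2 := by
      rw [Finset.pair_eq_singleton]
      exact Finset.card_le_two
    omega
  · rintro rfl
    have : ({x, y, x} : Finset V).card ≤ 2 := by
      have e : ({x, y, x} : Finset V) = {x, y} := by
        ext u
        simp only [Finset.mem_insert, Finset.mem_singleton]
        tauto
      rw [e]
      exact Finset.card_le_two
    omega

theorem concl_end {F : Finset (Finset V)} {o p m q : V} {A : Finset V}
    (ih : IH V (supp F).card) (st : St F o p m q A) (ns : NoSep F) (h5 : 5 ≤ (supp F).card)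
    (pnq : m ≠ q → ¬ (sk F).Adj p q) {a : V} (opa : ({o, p, a} : Finset V) ∈ F) (am : a ≠ m)
    (oaq : ({o, a, q} : Finset V) ∈ F) : Concl F o p m q A := by
  obtain ⟨hop, hpa, hoa⟩ := PEnd_ne st.sph opa
  obtain ⟨-, haq, hoq⟩ := PEnd_ne st.sph oaq
  have oap : ({o, a, p} : Finset V) ∈ F := by
    have e : ({o, a, p} : Finset V) = {o, p, a} := by
      ext u
      simp only [Finset.mem_insert, Finset.mem_singleton]
      tauto
    rw [e]
    exact opa
  have adoa : (sk F).Adj o a := ⟨hoa, _, opa, by simp, by simp⟩
  have adpa : (sk F).Adj p a := ⟨hpa, _, opa, by simp, by simp⟩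
  have adaq : (sk F).Adj a q := ⟨haq, _, oaq, by simp, by simp⟩
  have hcom := nosep_two st.sph ns oap oaq st.pq
  have haD : a ∉ DD o p m q := by
    rw [mem_DD]
    rintro (h | h | h | h)
    · exact hoa h.symm
    · exact hpa h.symm
    · exact am h
    · exact haq h
  have haS : a ∈ SS F o p m q := by
    rw [mem_SS]
    exact ⟨Finset.mem_biUnion.2 ⟨_, opa, by simp⟩, haD⟩
  have hXS : ({a} : Finset V) ⊆ SS F o p m q := Finset.singleton_subset_iff.2 haS
  obtain ⟨F', dl⟩ := dl_one st.sph adoa hcom h5
  have st' : St F' o p m q (A.erase a) := by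
    refine st_dl st dl hXS ?_ ?_ ?_
    · intro b hb
      obtain ⟨hba, hbA⟩ := Finset.mem_erase.1 hb
      exact ⟨fun h => hba (Finset.mem_singleton.1 h), st.AD b hbA, Or.inl (st.Ao b hbA)⟩
    · intro b hb c hc
      exact st.ind b (Finset.mem_erase.1 hb).2 c (Finset.mem_erase.1 hc).2
    · intro hmq b hb
      exact st.exc hmq b (Finset.mem_erase.1 hb).2
  obtain ⟨Y, hY, hnum⟩ := step ih dl hXS (Finset.singleton_nonempty a) st'
  have hOO := card_OO_dl (F := F) (F' := F') (o := o) (p := p) (m := m) (q := q)
    (B := {a}) dl (fun x hx _ => hx)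
  rw [Finset.card_singleton] at hOO hnum
  -- vertices adjacent to `a` are not adjacent to `o`
  have hno : ∀ u ∈ SS F o p m q, (sk F).Adj a u → ¬ (sk F).Adj o u := by
    intro u hu hau hou
    have huD := (mem_SS.1 hu).2
    rcases hcom u hou hau with h | h
    · exact huD (mem_DD.2 (Or.inr (Or.inl h)))
    · exact huD (mem_DD.2 (Or.inr (Or.inr (Or.inr h))))
  have hldu : ∀ u ∈ SS F o p m q, (sk F).Adj a u → ld F A (DD o p m q) u ≤ 3 := by
    intro u hu hau
    have h1 := hno u hu hau
    have h2 : u ∉ A := fun h => h1 (st.Ao u h)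
    unfold ld
    rw [if_neg h2, zero_add]
    have h3 : ((DD o p m q).filter fun d => (sk F).Adj u d) ⊆ {p, m, q} := by
      intro d hd
      obtain ⟨hdD, hud⟩ := Finset.mem_filter.1 hd
      rcases mem_DD.1 hdD with h | h | h | h
      · rw [h] at hud
        exact absurd hud.symm h1
      · simp [h]
      · simp [h]
      · simp [h]
    exact (Finset.card_le_card h3).trans Finset.card_le_three
  have hlda : ld F A (DD o p m q) a = (if a ∈ A then 1 else 0) + 3 := by
    unfold ld
    congr 1
    have h3 : ((DD o p m q).filter fun d => (sk F).Adj a d) = {o, p, q} := by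
      ext d
      rw [Finset.mem_filter, mem_DD]
      simp only [Finset.mem_insert, Finset.mem_singleton]
      constructor
      · rintro ⟨h | h | h | h, had⟩
        · exact Or.inl h
        · exact Or.inr (Or.inl h)
        · rw [h] at had
          rcases hcom m st.om had with h' | h'
          · exact absurd st.pm (by rw [h']; exact (sk F).loopless.irrefl p)
          · exact Or.inr (Or.inr (h.trans h'))
        · exact Or.inr (Or.inr h)
      · rintro (h | h | h)
        · exact ⟨Or.inl h, by rw [h]; exact adoa.symm⟩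
        · exact ⟨Or.inr (Or.inl h), by rw [h]; exact adpa.symm⟩
        · exact ⟨Or.inr (Or.inr (Or.inr h)), by rw [h]; exact adaq⟩
    rw [h3, Finset.card_eq_three]
    exact ⟨o, p, q, hop, hoq, st.pq, rfl⟩
  have hW : Wg (sk F) (SS F o p m q) (fv F A (DD o p m q)) (Y + fv F A (DD o p m q) a) := by
    refine wg_del haS ?_ ?_ (g := fv F' (A.erase a) (DD o p m q)) ?_
    · intro u hu hau
      have h1 := hldu u hu hau
      unfold fv
      omega
    · intro u hu
      obtain ⟨hua, huS⟩ := Finset.mem_erase.1 hu
      have huX : u ∉ ({a} : Finset V) := fun h => hua (Finset.mem_singleton.1 h)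
      have h1 := ld_dl (A' := A.erase a) dl hXS huS huX
      have h2 : (if u ∈ A.erase a then 1 else 0) = (if u ∈ A then 1 else 0) := by
        by_cases h : u ∈ A
        · rw [if_pos h, if_pos (Finset.mem_erase.2 ⟨hua, h⟩)]
        · rw [if_neg h, if_neg fun h' => h (Finset.mem_erase.1 h').2]
      rw [h2] at h1
      by_cases hau : (sk F).Adj a u
      · rw [if_pos hau]
        have h3 : ¬ (sk F).Adj o u ∧ ∃ x ∈ ({a} : Finset V), (sk F).Adj x u :=
          ⟨hno u huS hau, a, Finset.mem_singleton_self a, hau⟩
        rw [if_pos h3] at h1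
        have h4 : ld F A (DD o p m q) u = (if u ∈ A then 1 else 0) +
          ((DD o p m q).filter fun d => (sk F).Adj u d).card := rfl
        unfold fv
        omega
      · rw [if_neg hau]
        have h3 : ¬ (¬ (sk F).Adj o u ∧ ∃ x ∈ ({a} : Finset V), (sk F).Adj x u) := by
          rintro ⟨-, x, hx, hxu⟩
          rw [Finset.mem_singleton.1 hx] at hxu
          exact hau hxu
        rw [if_neg h3] at h1
        have h4 : ld F A (DD o p m q) u = (if u ∈ A then 1 else 0) +
          ((DD o p m q).filter fun d => (sk F).Adj u d).card := rfl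
        unfold fv
        omega
    · rw [← Finset.sdiff_singleton_eq_erase]
      exact hY
  refine ⟨_, hW, ?_⟩
  by_cases haA : a ∈ A
  · have h1 := Finset.card_erase_of_mem haA
    have h2 : 1 ≤ A.card := Finset.card_pos.2 ⟨a, haA⟩
    have h3 : fv F A (DD o p m q) a = 0 := by
      unfold fv
      rw [hlda, if_pos haA]
    rw [h3]
    omega
  · have h1 : (A.erase a).card = A.card := by rw [Finset.erase_eq_of_notMem haA]
    have h3 : fv F A (DD o p m q) a = 1 := by
      unfold fv
      rw [hlda, if_neg haA]
    rw [h3]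
    omega

end Pool.Agent.Lib.MP_a33b01_co
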