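import Mathlib
import Pool.Agent.Lib.MP_a33b01_co.Loc
import Pool.Agent.Lib.MP_a33b01_co.CutQuad

set_option autoImplicit false

/-!
# MP_a33b01_co: the reduction for z adjacent to m
-/

namespace Pool.Agent.Lib.MP_a33b01_co

open Classical

variable {V : Type}

variable {F : Finset (Finset V)} {o p m q : V} {A : Finset V} {a b c z : V}

private theorem RFive_r1 {x y w : V} {F : Finset (Finset V)} (h : ({x, y, w} : Finset V) ∈ F) :
    ({y, x, w} : Finset V) ∈ F := by
  have e : ({y, x, w} : Finset V) = {x, y, w} := by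
    ext v
    simp only [Finset.mem_insert, Finset.mem_singleton]
    tauto
  rw [e]
  exact h

private theorem RFive_r2 {x y w : V} {F : Finset (Finset V)} (h : ({x, y, w} : Finset V) ∈ F) :
    ({x, w, y} : Finset V) ∈ F := by
  have e : ({x, w, y} : Finset V) = {x, y, w} := by
    ext v
    simp only [Finset.mem_insert, Finset.mem_singleton]
    tauto
  rw [e]
  exact h

private theorem RFive_third {F : Finset (Finset V)} (hF : Sph F) {x y z w u : V}
    (hz : ({x, y, z} : Finset V) ∈ F) (hw : ({x, y, w} : Finset V) ∈ F) (hzw : z ≠ w)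
    (hu : ({x, y, u} : Finset V) ∈ F) : u = z ∨ u = w := by
  obtain ⟨w', -, -, hw2⟩ := other_face hF hz
  rcases hw2 w hw with h1 | h1
  · exact absurd h1.symm hzw
  · rcases hw2 u hu with h2 | h2
    · exact Or.inl h2
    · exact Or.inr (h2.trans h1.symm)

/-- The link is a closed triangle. -/
private theorem RFive_link3 {F : Finset (Finset V)} (hF : Sph F) {v a b c : V}
    (h1 : ({v, a, b} : Finset V) ∈ F) (h2 : ({v, b, c} : Finset V) ∈ F)
    (h3 : ({v, c, a} : Finset V) ∈ F) (hab : a ≠ b) (hbc : b ≠ c) (hca : c ≠ a) :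
    ∀ u, (sk F).Adj v u → u = a ∨ u = b ∨ u = c := by
  have hva := (face_adj hF h1).1
  have key := link_conn hF v (W := {u | u = a ∨ u = b ∨ u = c}) (w := a) (Or.inl rfl) hva ?_
  · exact key
  · intro x hx y hy
    rcases hx with rfl | rfl | rfl
    · rcases RFive_third hF h1 (RFive_r2 h3) hbc hy with h | h
      · exact Or.inr (Or.inl h)
      · exact Or.inr (Or.inr h)
    · rcases RFive_third hF (RFive_r2 h1) h2 hca.symm hy with h | h
      · exact Or.inl h
      · exact Or.inr (Or.inr h)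
    · rcases RFive_third hF (RFive_r2 h2) h3 hab.symm hy with h | h
      · exact Or.inr (Or.inl h)
      · exact Or.inl h

private theorem RFive_main {Fo Fi : Finset (Finset V)} (h : Ctx F o p m q A a b c z)
    (ha : a ∉ A) (hm : m ≠ q) (hzm : (sk F).Adj z m) (hc : CutQ F Fo Fi a p m z)
    (ho : o ∈ supp Fo) : Concl F o p m q A := by
  have hF := h.st.sph
  have hop := h.st.op
  have hom := h.st.om
  have hoq := h.st.oq
  have hpm := h.st.pm
  have hmq := h.st.mq.resolve_left hm
  have hoa := h.oa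
  have hpa := h.pa
  have hob := h.ob
  have hAab := h.ab
  have hAaz := h.az
  have hAbz := h.bz
  have hnam := h.nam
  have hnzp := h.nzp ha
  have hnoz := h.noz
  have hzo := h.zo
  have hzD := h.zD
  have hbD := h.bD
  have haD := h.aD
  have ham := h.am
  have hbp := h.bp
  have hzA := h.zA
  obtain ⟨hab, haz, hbz, -⟩ := h.abne
  rw [mem_DD, not_or, not_or, not_or] at hzD hbD haD
  obtain ⟨-, hzp, hzm', hzq⟩ := hzD
  obtain ⟨hbo, -, hbm, hbq⟩ := hbD
  obtain ⟨hao, hap, -, haq⟩ := haD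
  replace hzp : z ≠ p := hzp
  replace hzm' : z ≠ m := hzm'
  replace hzq : z ≠ q := hzq
  replace hbo : b ≠ o := hbo
  replace hbm : b ≠ m := hbm
  replace hbq : b ≠ q := hbq
  replace hao : a ≠ o := hao
  replace hap : a ≠ p := hap
  replace haq : a ≠ q := haq
  have hoQ : o ∉ ({a, p, m, z} : Finset V) := by
    simp only [Finset.mem_insert, Finset.mem_singleton, not_or]
    exact ⟨hao.symm, hop.ne, hom.ne, hzo.symm⟩
  have hQ1 : ∀ v ∈ ({a, p, m, z} : Finset V), v ∈ supp Fo := fun v hv => by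
    rw [← hc.inter, Finset.mem_inter] at hv
    exact hv.1
  have hQ2 : ∀ v ∈ ({a, p, m, z} : Finset V), v ∈ supp Fi := fun v hv => by
    rw [← hc.inter, Finset.mem_inter] at hv
    exact hv.2
  have hQ12 : ∀ v, v ∈ supp Fo → v ∈ supp Fi → v ∈ ({a, p, m, z} : Finset V) := fun v h1 h2 => by
    rw [← hc.inter, Finset.mem_inter]
    exact ⟨h1, h2⟩
  have hSub : ∀ v, v ∈ supp F ↔ v ∈ supp Fo ∨ v ∈ supp Fi := fun v => by
    rw [← hc.un, Finset.mem_union]
  have hlow1 : ∀ v w, v ∈ supp Fo → w ∈ supp Fo → (sk F).Adj v w → (sk Fo).Adj v w :=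
    fun v w h1 h2 h3 => (hc.adj1 v w).mpr ⟨h1, h2, Or.inl h3⟩
  have hlow2 : ∀ v w, v ∈ supp Fi → w ∈ supp Fi → (sk F).Adj v w → (sk Fi).Adj v w :=
    fun v w h1 h2 h3 => (hc.adj2 v w).mpr ⟨h1, h2, Or.inl h3⟩
  have hup1 : ∀ v w, v ≠ a → w ≠ a → (sk Fo).Adj v w → (sk F).Adj v w := by
    intro v w h1 h2 h3
    rcases ((hc.adj1 v w).mp h3).2.2 with h' | h' | h'
    · exact h'
    · exact absurd h'.1 h1
    · exact absurd h'.2 h2
  have haO : a ∈ supp Fo := hQ1 a (by simp)
  have hpO : p ∈ supp Fo := hQ1 p (by simp)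
  have hmO : m ∈ supp Fo := hQ1 m (by simp)
  have hzO : z ∈ supp Fo := hQ1 z (by simp)
  have haI : a ∈ supp Fi := hQ2 a (by simp)
  have hpI : p ∈ supp Fi := hQ2 p (by simp)
  have hmI : m ∈ supp Fi := hQ2 m (by simp)
  have hzI : z ∈ supp Fi := hQ2 z (by simp)
  have hNo : ∀ v, (sk F).Adj o v → v ∈ supp Fo := fun v hv => hc.no o v ho hoQ hv
  have hbO : b ∈ supp Fo := hNo b hob
  have hqO : q ∈ supp Fo := hNo q hoq
  have hAO : ∀ v ∈ A, v ∈ supp Fo := fun v hv => hNo v (h.st.Ao v hv)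
  have hbQ : b ∉ ({a, p, m, z} : Finset V) := by
    simp only [Finset.mem_insert, Finset.mem_singleton, not_or]
    exact ⟨hab.symm, hbp, hbm, hbz⟩
  -- the faces of `Fo`
  have f1 : ({o, p, m} : Finset V) ∈ Fo := hc.up1 _ h.opm o (by simp) ho hoQ
  have f2 : ({o, p, a} : Finset V) ∈ Fo := hc.up1 _ h.opa o (by simp) ho hoQ
  have f3 : ({o, a, b} : Finset V) ∈ Fo := hc.up1 _ h.oab o (by simp) ho hoQ
  have f4 : ({a, b, z} : Finset V) ∈ Fo := hc.up1 _ h.abz b (by simp) hbO hbQ
  have f5 := hc.fb1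
  have f6 := hc.fd1
  -- the neighbours of `p` and `a` in `Fo`
  have hNp : ∀ u, (sk Fo).Adj p u → u = o ∨ u = m ∨ u = a :=
    RFive_link3 hc.s1 (RFive_r1 f1) (RFive_r2 (RFive_r1 f5)) (RFive_r2 (RFive_r1 f2))
      hom.ne ham.symm hao
  have hNa : ∀ u, (sk Fo).Adj a u → u = p ∨ u = o ∨ u = b ∨ u = z ∨ u = m :=
    link5 hc.s1 (RFive_r1 (RFive_r2 (RFive_r1 f2))) (RFive_r1 f3) f4 f6 (RFive_r2 f5)
      hbp.symm hzo.symm hbm hzp hom.ne.symm
  -- at least six vertices
  have hcard6 : 6 ≤ (supp Fo).card := by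
    have hsub : ({o, p, a, m, b, z} : Finset V) ⊆ supp Fo := by
      intro w hw
      simp only [Finset.mem_insert, Finset.mem_singleton] at hw
      rcases hw with rfl | rfl | rfl | rfl | rfl | rfl <;> assumption
    have := Finset.card_le_card hsub
    rw [Finset.card_insert_of_notMem
        (by simp [hop.ne, hoa.ne, hob.ne, hom.ne, hzo.symm]),
      Finset.card_insert_of_notMem (by simp [hpa.ne, hbp.symm, hpm.ne, hzp.symm]),
      Finset.card_insert_of_notMem (by simp [hab, ham, haz]),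
      Finset.card_insert_of_notMem (by simp [Ne.symm hbm, Ne.symm hzm']),
      Finset.card_insert_of_notMem (by simp [hbz]), Finset.card_singleton] at this
    omega
  -- the deletion
  obtain ⟨G1, dl1⟩ := dl_one hc.s1 (o := o) (y := p) (z := m) (w := a) (hlow1 _ _ ho hpO hop)
    (by
      intro u h1 h2
      rcases hNp u h2 with h3 | h3 | h3
      · exact absurd h3 h1.ne'
      · exact Or.inl h3
      · exact Or.inr h3) (by omega)
  have hnoz1 : ¬ (sk Fo).Adj o z := fun h' => hnoz (hup1 o z hao.symm haz.symm h')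
  obtain ⟨G2, dl⟩ := dl_add dl1 (y := a) (z := b) (w := m)
    (by simp [hap]) hao (Or.inl (hlow1 _ _ ho haO hoa))
    (by
      intro u hu huo hau hcase
      have hup : u ≠ p := fun e => hu (by simp [e])
      rcases hNa u hau with h2 | h2 | h2 | h2 | h2
      · exact absurd h2 hup
      · exact absurd h2 huo
      · exact Or.inl h2
      · exfalso
        rcases hcase with h1 | ⟨x, hx, h1⟩
        · exact hnoz1 (h2 ▸ h1)
        · rw [Finset.mem_singleton] at hx
          rw [hx] at h1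
          rcases hNp u h1 with h3 | h3 | h3
          · exact huo h3
          · exact hzm' (h2.symm.trans h3)
          · exact haz (h3.symm.trans h2)
      · exact Or.inr h2)
    (by rw [Finset.card_singleton]; omega)
    (by
      intro x hx
      rw [Finset.mem_singleton] at hx
      rw [hx]; exact hpO)
  set X : Finset V := insert a {p} with hXdef
  have hmemX : ∀ u, u ∈ X ↔ u = a ∨ u = p := by
    intro u; simp [hXdef]
  have hlowG : ∀ v w, v ∈ supp Fo → w ∈ supp Fo → v ∉ X → w ∉ X → (sk F).Adj v w →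
      (sk G2).Adj v w := fun v w h1 h2 h3 h4 h5 =>
    (dl.adj v w).mpr ⟨h5.ne, h3, h4, Or.inl (hlow1 v w h1 h2 h5)⟩
  have hoX : o ∉ X := dl.oX
  have hmX : m ∉ X := by
    rw [hmemX, not_or]
    exact ⟨ham.symm, hpm.ne'⟩
  have hqX : q ∉ X := by
    rw [hmemX, not_or]
    exact ⟨Ne.symm haq, h.st.pq.symm⟩
  have hzX : z ∉ X := by
    rw [hmemX, not_or]
    exact ⟨haz.symm, hzp⟩
  have hAX : ∀ w ∈ A, w ∉ X := by
    intro w hw
    rw [hmemX, not_or]
    refine ⟨fun e => ha (e ▸ hw), fun e => h.st.AD w hw ?_⟩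
    rw [mem_DD]
    exact Or.inr (Or.inl e)
  have hAo : ∀ w ∈ A, w ≠ o := fun w hw => (h.st.Ao w hw).ne'
  have st1 : St G2 o m q q A := by
    refine ⟨dl.s, hlowG _ _ ho hmO hoX hmX hom, hlowG _ _ ho hqO hoX hqX hoq,
      hlowG _ _ ho hqO hoX hqX hoq, hlowG _ _ hmO hqO hmX hqX hmq, Or.inl rfl, hm, ?_, ?_, ?_,
      fun h' => absurd rfl h'⟩
    · intro w hw
      exact hlowG _ _ ho (hAO w hw) hoX (hAX w hw) (h.st.Ao w hw)
    · intro w hw hw'
      apply h.st.AD w hw
      rw [mem_DD] at hw' ⊢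
      tauto
    · intro w hw w' hw' hww
      have h1 := ((dl.adj_ne (hAo w hw) (hAo w' hw')).1 hww).2.2
      exact h.st.ind w hw w' hw' (hup1 w w' (fun e => ha (e ▸ hw)) (fun e => ha (e ▸ hw')) h1)
  have st2 : St Fi a p m z ∅ := by
    refine ⟨hc.s2, hlow2 _ _ haI hpI hpa.symm, (hc.adj2 a m).mpr ⟨haI, hmI,
      Or.inr (Or.inl ⟨rfl, rfl⟩)⟩, hlow2 _ _ haI hzI hAaz, hlow2 _ _ hpI hmI hpm,
      Or.inr (hlow2 _ _ hmI hzI hzm.symm), Ne.symm hzp, ?_, ?_, ?_, ?_⟩
    · intro w hw
      exact absurd hw (Finset.notMem_empty w)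
    · intro w hw
      exact absurd hw (Finset.notMem_empty w)
    · intro w hw
      exact absurd hw (Finset.notMem_empty w)
    · intro _ w hw
      exact absurd hw (Finset.notMem_empty w)
  have hsubO : supp Fo ⊆ supp F := fun v hv => (hSub v).mpr (Or.inl hv)
  have hsubI : supp Fi ⊆ supp F := fun v hv => (hSub v).mpr (Or.inr hv)
  have hc1 : (supp G2).card < (supp F).card := by
    apply Finset.card_lt_card
    refine ⟨?_, fun h' => ?_⟩
    · rw [dl.sp]
      exact Finset.sdiff_subset.trans hsubO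
    · have h1 := h' (hsubO haO)
      rw [dl.sp, Finset.mem_sdiff] at h1
      exact h1.2 ((hmemX a).mpr (Or.inl rfl))
  have hc2 : (supp Fi).card < (supp F).card := by
    apply Finset.card_lt_card
    exact ⟨hsubI, fun h' => hoQ (hQ12 o ho (h' (hsubO ho)))⟩
  obtain ⟨Y1, hW1, hn1⟩ := h.ih G2 o m q q A hc1 st1
  obtain ⟨Y2, hW2, hn2⟩ := h.ih Fi a p m z ∅ hc2 st2
  have hk1 : kp q q = 0 := by
    unfold kp
    rw [if_pos rfl]
  have hk2 : kp m z = 6 := by
    unfold kp
    rw [if_neg (Ne.symm hzm')]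
  have hk : kp m q = 6 := by
    unfold kp
    rw [if_neg hm]
  have hS1m : ∀ v, v ∈ SS G2 o m q q ↔ v ∈ supp Fo ∧ v ≠ a ∧ v ≠ p ∧ v ≠ o ∧ v ≠ m ∧ v ≠ q := by
    intro v
    rw [mem_SS, dl.sp, Finset.mem_sdiff, hmemX, mem_DD]
    tauto
  have hS2m : ∀ v, v ∈ SS Fi a p m z ↔ v ∈ supp Fi ∧ v ∉ ({a, p, m, z} : Finset V) :=
    fun v => mem_SS
  have hS2n : ∀ v ∈ SS Fi a p m z, v ∉ supp Fo := by
    intro v hv h'
    exact ((hS2m v).mp hv).2 (hQ12 v h' ((hS2m v).mp hv).1)
  have hzS : z ∈ SS G2 o m q q := by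
    rw [hS1m]
    exact ⟨hzO, haz.symm, hzp, hzo, hzm', hzq⟩
  -- the first part
  have hnp : ∀ v ∈ SS G2 o m q q, ¬ (sk F).Adj v p := by
    intro v hv hvp
    have hv' := (hS1m v).mp hv
    rcases hNp v (hlow1 _ _ hpO hv'.1 hvp.symm) with h1 | h1 | h1
    · exact hv'.2.2.2.1 h1
    · exact hv'.2.2.2.2.1 h1
    · exact hv'.2.1 h1
  have hXv : ∀ v ∈ SS G2 o m q q, v ∉ X := by
    intro v hv
    have hv' := (hS1m v).mp hv
    rw [hmemX, not_or]
    exact ⟨hv'.2.1, hv'.2.2.1⟩
  have hfil : ∀ v ∈ SS G2 o m q q, ((DD o p m q).filter fun d => (sk F).Adj v d) ⊆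
      (DD o m q q).filter fun d => (sk G2).Adj v d := by
    intro v hv d hd
    rw [Finset.mem_filter, mem_DD] at hd
    rw [Finset.mem_filter, mem_DD]
    obtain ⟨hd1, hd2⟩ := hd
    have hvO := ((hS1m v).mp hv).1
    rcases hd1 with e | e | e | e
    · rw [e] at hd2 ⊢
      exact ⟨Or.inl rfl, hlowG _ _ hvO ho (hXv v hv) hoX hd2⟩
    · rw [e] at hd2
      exact absurd hd2 (hnp v hv)
    · rw [e] at hd2 ⊢
      exact ⟨Or.inr (Or.inl rfl), hlowG _ _ hvO hmO (hXv v hv) hmX hd2⟩
    · rw [e] at hd2 ⊢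
      exact ⟨Or.inr (Or.inr (Or.inl rfl)), hlowG _ _ hvO hqO (hXv v hv) hqX hd2⟩
  have hG1 : Wg (sk F) (SS G2 o m q q) (fv F A (DD o p m q)) (Y1 + 1) := by
    refine wg_extra (G' := sk G2) (f' := fv G2 A (DD o m q q)) ?_ ?_ hW1 hzS ?_
    · intro v hv
      unfold fv
      refine Nat.sub_le_sub_left ?_ 4
      unfold ld
      exact Nat.add_le_add_left (Finset.card_le_card (hfil v hv)) _
    · intro v hv w hw' hvw
      exact hlowG _ _ ((hS1m v).mp hv).1 ((hS1m w).mp hw').1 (hXv v hv) (hXv w hw') hvw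
    · have h4 := st1.ld_le hzS
      have hlt : ld F A (DD o p m q) z < ld G2 A (DD o m q q) z := by
        unfold ld
        apply Nat.add_lt_add_left
        apply Finset.card_lt_card
        refine ⟨hfil z hzS, fun h' => ?_⟩
        have h1 : o ∈ (DD o m q q).filter fun d => (sk G2).Adj z d := by
          rw [Finset.mem_filter]
          refine ⟨mem_DD.mpr (Or.inl rfl), ?_⟩
          refine ((dl.adj_o hzo).2 ⟨hzX, Or.inr ⟨a, (hmemX a).mpr (Or.inl rfl), ?_⟩⟩).symm
          exact hlow1 _ _ haO hzO hAaz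
        have h2 := h' h1
        rw [Finset.mem_filter] at h2
        exact hnoz h2.2.symm
      unfold fv
      omega
  -- the vertex `a`
  have hfa : fv F A (DD o p m q) a = 2 := by
    unfold fv
    rw [h.ld_a, if_neg ha]
  have hGa : Wg (sk F) ({a} : Finset V) (fun _ => 0) 0 := by
    refine wg_free (v := a) (Finset.mem_singleton_self a) ?_ ?_
    · rw [Nat.le_zero, Finset.card_eq_zero, Finset.filter_eq_empty_iff]
      intro v hv hav
      rw [Finset.mem_singleton] at hv
      exact hav.ne hv.symm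
    · rw [Finset.erase_singleton]
      exact wg_nil _ _
  have haS1 : a ∉ SS G2 o m q q := fun h' => ((hS1m a).mp h').2.1 rfl
  have hdis1 : Disjoint (SS G2 o m q q) ({a} : Finset V) :=
    Finset.disjoint_singleton_right.mpr haS1
  have hG12 : Wg (sk F) (SS G2 o m q q ∪ {a}) (fv F A (DD o p m q)) (Y1 + 1 + 0) := by
    refine wg_comp (g := fun _ => 0) hdis1 hG1 ?_ hGa
    intro u hu
    rw [Finset.mem_singleton] at hu
    rw [hu, hfa]
    have hsub : ((SS G2 o m q q).filter fun v => (sk F).Adj a v) ⊆ {b, z} := by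
      intro v hv
      rw [Finset.mem_filter] at hv
      obtain ⟨hv1, hv2⟩ := hv
      have hv' := (hS1m v).mp hv1
      rw [Finset.mem_insert, Finset.mem_singleton]
      rcases hNa v (hlow1 _ _ haO hv'.1 hv2) with h1 | h1 | h1 | h1 | h1
      · exact absurd h1 hv'.2.2.1
      · exact absurd h1 hv'.2.2.2.1
      · exact Or.inl h1
      · exact Or.inr h1
      · exact absurd h1 hv'.2.2.2.2.1
    have h1 := (Finset.card_le_card hsub).trans Finset.card_le_two
    omega
  -- the second part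
  have hG2 : Wg (sk F) (SS Fi a p m z) (fv Fi ∅ (DD a p m z)) Y2 := by
    refine wg_mono (G' := sk Fi) (f' := fv Fi ∅ (DD a p m z)) (fun _ _ => le_rfl) ?_ hW2
    intro v hv w hw' hvw
    exact hlow2 _ _ ((hS2m v).mp hv).1 ((hS2m w).mp hw').1 hvw
  have hS1a : ∀ v ∈ SS G2 o m q q ∪ {a}, v ∈ supp Fo ∧ v ∉ DD o p m q := by
    intro v hv
    rw [Finset.mem_union, Finset.mem_singleton] at hv
    rcases hv with hv | hv
    · have hv' := (hS1m v).mp hv
      refine ⟨hv'.1, ?_⟩
      rw [mem_DD]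
      tauto
    · rw [hv]
      exact ⟨haO, h.aD⟩
  have hDO : ∀ v ∈ DD o p m q, v ∈ supp Fo := by
    intro v hv
    rw [mem_DD] at hv
    rcases hv with e | e | e | e <;> rw [e] <;> assumption
  have hdis2 : Disjoint (SS G2 o m q q ∪ {a}) (SS Fi a p m z) := by
    rw [Finset.disjoint_left]
    intro v h1 h2
    exact hS2n v h2 (hS1a v h1).1
  have hun : SS F o p m q = (SS G2 o m q q ∪ {a}) ∪ SS Fi a p m z := by
    ext v
    rw [Finset.mem_union]
    constructor
    · intro hv
      rw [mem_SS] at hv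
      by_cases h1 : v ∈ supp Fo
      · left
        rw [Finset.mem_union, Finset.mem_singleton, hS1m]
        have h2 := hv.2
        rw [mem_DD] at h2
        tauto
      · right
        rw [hS2m]
        exact ⟨((hSub v).mp hv.1).resolve_left h1, fun h' => h1 (hQ1 v h')⟩
    · rintro (hv | hv)
      · rw [mem_SS]
        exact ⟨hsubO (hS1a v hv).1, (hS1a v hv).2⟩
      · rw [mem_SS]
        exact ⟨hsubI ((hS2m v).mp hv).1, fun h' => hS2n v hv (hDO v h')⟩
  have hG := wg_comp (G := sk F) (f := fv F A (DD o p m q)) (g := fv Fi ∅ (DD a p m z))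
    hdis2 hG12 ?_ hG2
  · refine ⟨Y1 + 1 + 0 + Y2, ?_, ?_⟩
    · rw [hun]
      exact hG
    · have hOsub : OO F o p m q ⊆ insert a ((OO G2 o m q q).erase z) := by
        intro v hv
        rw [mem_OO] at hv
        rw [Finset.mem_insert, Finset.mem_erase, mem_OO]
        by_cases hva : v = a
        · exact Or.inl hva
        · right
          have hvD := hv.2
          rw [mem_DD, not_or, not_or, not_or] at hvD
          refine ⟨fun e => hnoz (e ▸ hv.1), hlowG _ _ ho (hNo v hv.1) hoX ?_ hv.1, ?_⟩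
          · rw [hmemX, not_or]
            exact ⟨hva, hvD.2.1⟩
          · rw [mem_DD]
            tauto
      have hzOO : z ∈ OO G2 o m q q := by
        rw [mem_OO]
        refine ⟨(dl.adj_o hzo).2 ⟨hzX, Or.inr ⟨a, (hmemX a).mpr (Or.inl rfl), ?_⟩⟩,
          (mem_SS.1 hzS).2⟩
        exact hlow1 _ _ haO hzO hAaz
      have hOc : (OO F o p m q).card ≤ ((OO G2 o m q q).card - 1) + 1 := by
        refine (Finset.card_le_card hOsub).trans ((Finset.card_insert_le _ _).trans ?_)
        rw [Finset.card_erase_of_mem hzOO]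
      have hOpos : 1 ≤ (OO G2 o m q q).card := Finset.card_pos.mpr ⟨z, hzOO⟩
      have hSc : (SS F o p m q).card = (SS G2 o m q q).card + 1 + (SS Fi a p m z).card := by
        rw [hun, Finset.card_union_of_disjoint hdis2, Finset.card_union_of_disjoint hdis1,
          Finset.card_singleton]
      rw [hk1] at hn1
      rw [hk2, Finset.card_empty] at hn2
      rw [hk]
      omega
  · intro u hu
    have hu' := (hS2m u).mp hu
    have h4 := st2.ld_le hu
    have hle : ld F A (DD o p m q) u +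
        ((SS G2 o m q q ∪ {a}).filter fun v => (sk F).Adj u v).card ≤
        ld Fi ∅ (DD a p m z) u := by
      have huA : u ∉ A := fun h' => hS2n u hu (hAO u h')
      unfold ld
      rw [if_neg huA, if_neg (Finset.notMem_empty u), zero_add, zero_add]
      rw [← Finset.card_union_of_disjoint]
      · apply Finset.card_le_card
        intro d hd
        have hd' : d ∈ supp Fo ∧ (sk F).Adj u d := by
          rw [Finset.mem_union, Finset.mem_filter, Finset.mem_filter] at hd
          rcases hd with hd | hd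
          · exact ⟨hDO d hd.1, hd.2⟩
          · exact ⟨(hS1a d hd.1).1, hd.2⟩
        have hdI : d ∈ supp Fi := hc.no' u d hu'.1 hu'.2 hd'.2
        rw [Finset.mem_filter]
        exact ⟨hQ12 d hd'.1 hdI, hlow2 _ _ hu'.1 hdI hd'.2⟩
      · rw [Finset.disjoint_left]
        intro d h1 h2
        rw [Finset.mem_filter] at h1 h2
        exact (hS1a d h2.1).2 h1.1
    unfold fv
    omega

theorem concl_five (h : Ctx F o p m q A a b c z) (ha : a ∉ A) (hm : m ≠ q)
    (hzm : (sk F).Adj z m) : Concl F o p m q A := by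
  have hzp : z ≠ p := fun e => h.zD (mem_DD.2 (Or.inr (Or.inl e)))
  obtain ⟨F₁, F₂, hc⟩ := exists_cutQ h.st.sph h.pa.symm h.st.pm hzm.symm h.az.symm h.am hzp.symm
    h.nam (fun h' => h.nzp ha h'.symm)
  have ho : o ∈ supp F := (adj_supp h.st.op).1
  rw [← hc.un, Finset.mem_union] at ho
  rcases ho with ho | ho
  · exact RFive_main h ha hm hzm hc ho
  · exact RFive_main h ha hm hzm hc.symm ho

end Pool.Agent.Lib.MP_a33b01_co
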