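import Mathlib
import Pool.Agent.Lib.MP_a33b01_co.StA
import Pool.Agent.Lib.MP_a33b01_co.CutTri

set_option autoImplicit false

/-!
# MP_a33b01_co: the reduction for a chord at the middle vertex
-/

namespace Pool.Agent.Lib.MP_a33b01_co

open Classical

variable {V : Type}

private theorem RMidA_lt {F F₁ F₂ : Finset (Finset V)} {Z : Finset V} (hc : CutT F F₁ F₂ Z) :
    (supp F₁).card < (supp F).card ∧ (supp F₂).card < (supp F).card := by
  constructor
  · apply Finset.card_lt_card
    rw [Finset.ssubset_iff_of_subset (by rw [← hc.un]; exact Finset.subset_union_left)]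
    obtain ⟨v, hv, hvZ⟩ := hc.ne2
    refine ⟨v, by rw [← hc.un]; exact Finset.mem_union_right _ hv, fun h => hvZ ?_⟩
    rw [← hc.inter]
    exact Finset.mem_inter.2 ⟨h, hv⟩
  · apply Finset.card_lt_card
    rw [Finset.ssubset_iff_of_subset (by rw [← hc.un]; exact Finset.subset_union_right)]
    obtain ⟨v, hv, hvZ⟩ := hc.ne1
    refine ⟨v, by rw [← hc.un]; exact Finset.mem_union_left _ hv, fun h => hvZ ?_⟩
    rw [← hc.inter]
    exact Finset.mem_inter.2 ⟨hv, h⟩

/-- The chord `m r` with `r` not adjacent to `q`: first the side of `p`, then the side of `q`. -/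
theorem concl_mid {F F₁ F₂ : Finset (Finset V)} {o p m q : V} {A : Finset V}
    (ih : IH V (supp F).card) (st : St F o p m q A) (hmq : m ≠ q) {r : V}
    (hor : (sk F).Adj o r) (hmr : (sk F).Adj m r) (hc : CutT F F₁ F₂ {o, m, r})
    (hp : p ∈ supp F₁) (hq : q ∈ supp F₂) (hrD : r ∉ DD o p m q) (hrq : ¬ (sk F).Adj r q)
    (hA : r ∈ A ∨ ∀ w ∈ A, ¬ (sk F).Adj w m) : Concl F o p m q A := by
  have hZ : ∀ w, w ∈ supp F₁ → w ∈ supp F₂ → w = o ∨ w = m ∨ w = r := by
    intro w h1 h2
    have h := Finset.mem_inter.2 ⟨h1, h2⟩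
    rw [hc.inter] at h
    simpa using h
  have hZ' : ∀ w, (w = o ∨ w = m ∨ w = r) → w ∈ supp F₁ ∧ w ∈ supp F₂ := by
    intro w h
    rw [← Finset.mem_inter, hc.inter]
    simpa using h
  have ho := hZ' o (Or.inl rfl)
  have hm := hZ' m (Or.inr (Or.inl rfl))
  have hr := hZ' r (Or.inr (Or.inr rfl))
  rw [mem_DD] at hrD
  push Not at hrD
  obtain ⟨hro, hrp, hrm, hrq'⟩ := hrD
  have hp2 : p ∉ supp F₂ := by
    intro h
    rcases hZ p hp h with h | h | h
    · exact st.op.ne h.symm
    · exact st.pm.ne h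
    · exact hrp h.symm
  have hq1 : q ∉ supp F₁ := by
    intro h
    rcases hZ q h hq with h | h | h
    · exact st.oq.ne h.symm
    · exact hmq h.symm
    · exact hrq' h.symm
  have hmqA : (sk F).Adj m q := st.mq.resolve_left hmq
  have st1 : St F₁ o p m m (A ∩ supp F₁) := by
    refine ⟨hc.s1, (hc.adj1 _ _).2 ⟨ho.1, hp, st.op⟩, (hc.adj1 _ _).2 ⟨ho.1, hm.1, st.om⟩,
      (hc.adj1 _ _).2 ⟨ho.1, hm.1, st.om⟩, (hc.adj1 _ _).2 ⟨hp, hm.1, st.pm⟩, Or.inl rfl,
      st.pm.ne, ?_, ?_, ?_, fun h => absurd rfl h⟩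
    · intro a ha
      rw [Finset.mem_inter] at ha
      exact (hc.adj1 _ _).2 ⟨ho.1, ha.2, st.Ao a ha.1⟩
    · intro a ha
      rw [Finset.mem_inter] at ha
      have h := st.AD a ha.1
      rw [mem_DD] at h ⊢
      tauto
    · intro a ha b hb hab
      rw [Finset.mem_inter] at ha hb
      exact st.ind a ha.1 b hb.1 ((hc.adj1 _ _).1 hab).2.2
  have st2 : St F₂ o r m q ((A ∩ supp F₂).erase r) := by
    refine ⟨hc.s2, (hc.adj2 _ _).2 ⟨ho.2, hr.2, hor⟩, (hc.adj2 _ _).2 ⟨ho.2, hm.2, st.om⟩,
      (hc.adj2 _ _).2 ⟨ho.2, hq, st.oq⟩, (hc.adj2 _ _).2 ⟨hr.2, hm.2, hmr.symm⟩,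
      Or.inr ((hc.adj2 _ _).2 ⟨hm.2, hq, hmqA⟩), hrq', ?_, ?_, ?_, ?_⟩
    · intro a ha
      rw [Finset.mem_erase, Finset.mem_inter] at ha
      exact (hc.adj2 _ _).2 ⟨ho.2, ha.2.2, st.Ao a ha.2.1⟩
    · intro a ha
      rw [Finset.mem_erase, Finset.mem_inter] at ha
      have h := st.AD a ha.2.1
      have h2 := ha.1
      rw [mem_DD] at h ⊢
      tauto
    · intro a ha b hb hab
      rw [Finset.mem_erase, Finset.mem_inter] at ha hb
      exact st.ind a ha.2.1 b hb.2.1 ((hc.adj2 _ _).1 hab).2.2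
    · intro _ a ha h
      rw [Finset.mem_erase, Finset.mem_inter] at ha
      rcases hA with h1 | h1
      · exact st.ind a ha.2.1 r h1 ((hc.adj2 _ _).1 h.1).2.2
      · exact h1 a ha.2.1 ((hc.adj2 _ _).1 h.2.1).2.2
  obtain ⟨X1, hW1, hX1⟩ := ih F₁ o p m m (A ∩ supp F₁) (RMidA_lt hc).1 st1
  obtain ⟨X2, hW2, hX2⟩ := ih F₂ o r m q ((A ∩ supp F₂).erase r) (RMidA_lt hc).2 st2
  have hS1 : ∀ u, u ∈ SS F₁ o p m m ↔ u ∈ supp F₁ ∧ u ≠ o ∧ u ≠ p ∧ u ≠ m := by
    intro u
    rw [mem_SS, mem_DD]
    tauto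
  have hS2 : ∀ u, u ∈ SS F₂ o r m q ↔ u ∈ supp F₂ ∧ u ∉ supp F₁ ∧ u ≠ q := by
    intro u
    rw [mem_SS, mem_DD]
    constructor
    · rintro ⟨h1, h2⟩
      push Not at h2
      refine ⟨h1, fun h => ?_, h2.2.2.2⟩
      rcases hZ u h h1 with h3 | h3 | h3
      · exact h2.1 h3
      · exact h2.2.2.1 h3
      · exact h2.2.1 h3
    · rintro ⟨h1, h2, h3⟩
      refine ⟨h1, ?_⟩
      rintro (rfl | rfl | rfl | rfl)
      · exact h2 ho.1
      · exact h2 hr.1
      · exact h2 hm.1
      · exact h3 rfl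
  have hdisj : Disjoint (SS F₁ o p m m) (SS F₂ o r m q) := by
    rw [Finset.disjoint_left]
    intro u hu1 hu2
    exact ((hS2 u).1 hu2).2.1 ((hS1 u).1 hu1).1
  have hun : SS F o p m q = SS F₁ o p m m ∪ SS F₂ o r m q := by
    ext u
    rw [Finset.mem_union, mem_SS, mem_DD, hS1, hS2, ← hc.un, Finset.mem_union]
    constructor
    · rintro ⟨hu, huD⟩
      push Not at huD
      by_cases h1 : u ∈ supp F₁
      · exact Or.inl ⟨h1, huD.1, huD.2.1, huD.2.2.1⟩
      · exact Or.inr ⟨hu.resolve_left h1, h1, huD.2.2.2⟩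
    · rintro (⟨hu, h1, h2, h3⟩ | ⟨hu, h1, h2⟩)
      · refine ⟨Or.inl hu, ?_⟩
        rintro (h | h | h | h)
        · exact h1 h
        · exact h2 h
        · exact h3 h
        · rw [h] at hu
          exact hq1 hu
      · refine ⟨Or.inr hu, ?_⟩
        rintro (h | h | h | h)
        · rw [h] at h1
          exact h1 ho.1
        · rw [h] at hu
          exact hp2 hu
        · rw [h] at h1
          exact h1 hm.1
        · exact h2 h
  have hnq : ∀ u ∈ SS F₁ o p m m, ¬ (sk F).Adj u q := by
    intro u hu h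
    rw [hS1] at hu
    by_cases hur : u = r
    · rw [hur] at h
      exact hrq h
    · refine hq1 (hc.no u q hu.1 ?_ h)
      simp only [Finset.mem_insert, Finset.mem_singleton, not_or]
      exact ⟨hu.2.1, hu.2.2.2, hur⟩
  -- the first part
  have hF1 : Wg (sk F) (SS F₁ o p m m) (fv F A (DD o p m q)) X1 := by
    refine wg_mono (fun u hu => ?_) (fun u hu v hv huv => ?_) hW1
    · have hu1 : u ∈ supp F₁ := (mem_SS.1 hu).1
      have hld : ld F A (DD o p m q) u ≤ ld F₁ (A ∩ supp F₁) (DD o p m m) u := by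
        unfold ld
        have e1 : (u ∈ A) = (u ∈ A ∩ supp F₁) := by
          rw [Finset.mem_inter]
          exact propext ⟨fun h => ⟨h, hu1⟩, fun h => h.1⟩
        have e2 : (DD o p m q).filter (fun d => (sk F).Adj u d) ⊆
            (DD o p m m).filter (fun d => (sk F₁).Adj u d) := by
          intro d hd
          rw [Finset.mem_filter, mem_DD] at hd
          rw [Finset.mem_filter, mem_DD, hc.adj1]
          rcases hd with ⟨h | h | h | h, hd⟩
          · subst h
            exact ⟨by simp, hu1, ho.1, hd⟩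
          · subst h
            exact ⟨by simp, hu1, hp, hd⟩
          · subst h
            exact ⟨by simp, hu1, hm.1, hd⟩
          · rw [h] at hd
            exact absurd hd (hnq u hu)
        have e3 := Finset.card_le_card e2
        simp only [e1]
        omega
      unfold fv
      omega
    · exact (hc.adj1 _ _).2 ⟨(mem_SS.1 hu).1, (mem_SS.1 hv).1, huv⟩
  -- the second part
  have hF2 : Wg (sk F) (SS F₂ o r m q) (fv F₂ ((A ∩ supp F₂).erase r) (DD o r m q)) X2 := by
    refine wg_mono (fun u _ => le_rfl) (fun u hu v hv huv => ?_) hW2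
    exact (hc.adj2 _ _).2 ⟨(mem_SS.1 hu).1, (mem_SS.1 hv).1, huv⟩
  have hcomp := wg_comp hdisj hF1 (g := fv F₂ ((A ∩ supp F₂).erase r) (DD o r m q))
    (fun u hu => ?_) hF2
  · refine ⟨X1 + X2, ?_, ?_⟩
    · rw [hun]
      exact hcomp
    · have hk1 : kp m m = 0 := by
        unfold kp
        rw [if_pos rfl]
      have hO : (OO F o p m q).card ≤ (OO F₁ o p m m).card + (OO F₂ o r m q).card := by
        refine le_trans (Finset.card_le_card ?_) (Finset.card_union_le _ _)
        intro w hw
        have hwS := OO_sub hw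
        rw [mem_OO] at hw
        rw [hun, Finset.mem_union] at hwS
        rw [Finset.mem_union, mem_OO, mem_OO]
        rcases hwS with h | h
        · have h' := mem_SS.1 h
          exact Or.inl ⟨(hc.adj1 _ _).2 ⟨ho.1, h'.1, hw.1⟩, h'.2⟩
        · have h' := mem_SS.1 h
          exact Or.inr ⟨(hc.adj2 _ _).2 ⟨ho.2, h'.1, hw.1⟩, h'.2⟩
      have hAc : (A ∩ supp F₁).card + ((A ∩ supp F₂).erase r).card ≤ A.card := by
        have hdA : Disjoint (A ∩ supp F₁) ((A ∩ supp F₂).erase r) := by
          rw [Finset.disjoint_left]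
          intro w hw1 hw2
          rw [Finset.mem_inter] at hw1
          rw [Finset.mem_erase, Finset.mem_inter] at hw2
          have h := st.AD w hw1.1
          rw [mem_DD] at h
          rcases hZ w hw1.2 hw2.2.2 with h3 | h3 | h3
          · exact h (Or.inl h3)
          · exact h (Or.inr (Or.inr (Or.inl h3)))
          · exact hw2.1 h3
        rw [← Finset.card_union_of_disjoint hdA]
        apply Finset.card_le_card
        refine Finset.union_subset Finset.inter_subset_left ?_
        exact (Finset.erase_subset _ _).trans Finset.inter_subset_left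
      rw [hun, Finset.card_union_of_disjoint hdisj]
      rw [hk1] at hX1
      omega
  · have hu' := (hS2 u).1 hu
    have h4 := st2.ld_le hu
    have hle : ld F A (DD o p m q) u +
        ((SS F₁ o p m m).filter fun v => (sk F).Adj u v).card ≤
        ld F₂ ((A ∩ supp F₂).erase r) (DD o r m q) u := by
      unfold ld
      have e1 : (if u ∈ A then 1 else 0) ≤ (if u ∈ (A ∩ supp F₂).erase r then 1 else 0) := by
        by_cases h : u ∈ A
        · have h5 : u ∈ (A ∩ supp F₂).erase r := by
            rw [Finset.mem_erase, Finset.mem_inter]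
            refine ⟨?_, h, hu'.1⟩
            rintro rfl
            exact hu'.2.1 hr.1
          rw [if_pos h, if_pos h5]
        · rw [if_neg h]
          exact Nat.zero_le _
      have hd2 : Disjoint ((DD o p m q).filter fun d => (sk F).Adj u d)
          ((SS F₁ o p m m).filter fun v => (sk F).Adj u v) := by
        rw [Finset.disjoint_left]
        intro w hw1 hw2
        have hw3 := (Finset.mem_filter.1 hw1).1
        have hw4 := (hS1 w).1 (Finset.mem_filter.1 hw2).1
        rw [mem_DD] at hw3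
        rcases hw3 with h | h | h | h
        · exact hw4.2.1 h
        · exact hw4.2.2.1 h
        · exact hw4.2.2.2 h
        · rw [h] at hw4
          exact hq1 hw4.1
      have huZ : u ∉ ({o, m, r} : Finset V) := by
        intro h
        rw [← hc.inter, Finset.mem_inter] at h
        exact hu'.2.1 h.1
      have hsub : ((DD o p m q).filter fun d => (sk F).Adj u d) ∪
          ((SS F₁ o p m m).filter fun v => (sk F).Adj u v) ⊆
          (DD o r m q).filter fun d => (sk F₂).Adj u d := by
        intro w hw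
        have hw' : (w = q ∨ w ∈ supp F₁) ∧ (sk F).Adj u w := by
          rw [Finset.mem_union, Finset.mem_filter, Finset.mem_filter, mem_DD] at hw
          rcases hw with ⟨h | h | h | h, hw⟩ | hw
          · rw [h] at hw ⊢
            exact ⟨Or.inr ho.1, hw⟩
          · rw [h] at hw ⊢
            exact ⟨Or.inr hp, hw⟩
          · rw [h] at hw ⊢
            exact ⟨Or.inr hm.1, hw⟩
          · exact ⟨Or.inl h, hw⟩
          · exact ⟨Or.inr (mem_SS.1 hw.1).1, hw.2⟩
        have hw2 : w ∈ supp F₂ := hc.no' u w hu'.1 huZ hw'.2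
        rw [Finset.mem_filter, mem_DD]
        refine ⟨?_, (hc.adj2 _ _).2 ⟨hu'.1, hw2, hw'.2⟩⟩
        rcases hw'.1 with h | h
        · exact Or.inr (Or.inr (Or.inr h))
        · rcases hZ w h hw2 with h3 | h3 | h3
          · exact Or.inl h3
          · exact Or.inr (Or.inr (Or.inl h3))
          · exact Or.inr (Or.inl h3)
      have e2 := Finset.card_le_card hsub
      rw [Finset.card_union_of_disjoint hd2] at e2
      omega
    unfold fv
    omega

end Pool.Agent.Lib.MP_a33b01_co
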