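import Mathlib
import Pool.Agent.Lib.MP_a33b01_co.StA
import Pool.Agent.Lib.MP_a33b01_co.CutTri

set_option autoImplicit false

/-!
# MP_a33b01_co: a vertex adjacent to all deleted vertices
-/

namespace Pool.Agent.Lib.MP_a33b01_co

open Classical

variable {V : Type}

/-- A triangle is a face if the deleted vertices outside are joined to one of them. -/
private theorem RMidB_face {F : Finset (Finset V)} (hF : Sph F) {D : Finset V}
    (hmin : ∀ x y z F₁ F₂, (sk F).Adj x y → (sk F).Adj y z → (sk F).Adj x z →
      CutT F F₁ F₂ {x, y, z} → ¬ ∀ d ∈ D, d ∈ supp F₁)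
    {x y z : V} (hxy : (sk F).Adj x y) (hyz : (sk F).Adj y z) (hxz : (sk F).Adj x z) {d : V}
    (hd : d ∈ supp F) (h : ∀ e ∈ D, e = d ∨ e ∈ ({x, y, z} : Finset V) ∨
      (d ∉ ({x, y, z} : Finset V) ∧ (sk F).Adj d e)) : ({x, y, z} : Finset V) ∈ F := by
  by_contra hn
  obtain ⟨F₁, F₂, hc⟩ := exists_cutT hF hxy hyz hxz hn
  have key : ∀ G₁ G₂, CutT F G₁ G₂ {x, y, z} → d ∈ supp G₁ → ∀ e ∈ D, e ∈ supp G₁ := by
    intro G₁ G₂ hG hd1 e he
    rcases h e he with h1 | h1 | ⟨h1, h2⟩
    · rw [h1]
      exact hd1
    · rw [← hG.inter, Finset.mem_inter] at h1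
      exact h1.1
    · exact hG.no d e hd1 h1 h2
  rw [← hc.un, Finset.mem_union] at hd
  rcases hd with hd | hd
  · exact hmin x y z F₁ F₂ hxy hyz hxz hc (key F₁ F₂ hc hd)
  · exact hmin x y z F₂ F₁ hxy hyz hxz hc.symm (key F₂ F₁ hc.symm hd)

/-- An edge has only two faces. -/
private theorem RMidB_two {F : Finset (Finset V)} (hF : Sph F) {x y s₁ s₂ u : V}
    (h1 : ({x, y, s₁} : Finset V) ∈ F) (h2 : ({x, y, s₂} : Finset V) ∈ F) (hs : s₁ ≠ s₂)
    (hu : ({x, y, u} : Finset V) ∈ F) : u = s₁ ∨ u = s₂ := by
  obtain ⟨w, hw, -, hall⟩ := other_face hF h1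
  rcases hall s₂ h2 with h3 | h3
  · exact absurd h3.symm hs
  · rw [h3]
    exact hall u hu

private theorem RMidB_face_swap {F : Finset (Finset V)} {x y z : V}
    (h : ({x, y, z} : Finset V) ∈ F) : ({y, x, z} : Finset V) ∈ F := by
  rw [Finset.insert_comm]
  exact h

private theorem RMidB_face_rot {F : Finset (Finset V)} {x y z : V}
    (h : ({x, y, z} : Finset V) ∈ F) : ({y, z, x} : Finset V) ∈ F := by
  have : ({y, z, x} : Finset V) = {x, y, z} := by
    ext u
    simp only [Finset.mem_insert, Finset.mem_singleton]
    tauto
  rw [this]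
  exact h

/-- The neighbours of `p`. -/
private theorem RMidB_nbr {F : Finset (Finset V)} (hF : Sph F) {D : Finset V}
    (hmin : ∀ x y z F₁ F₂, (sk F).Adj x y → (sk F).Adj y z → (sk F).Adj x z →
      CutT F F₁ F₂ {x, y, z} → ¬ ∀ d ∈ D, d ∈ supp F₁) {o p m q r : V}
    (hD : ∀ e ∈ D, e = o ∨ e = p ∨ e = m ∨ e = q)
    (op : (sk F).Adj o p) (om : (sk F).Adj o m) (oq : (sk F).Adj o q) (pm : (sk F).Adj p m)
    (mq : (sk F).Adj m q) (hro : (sk F).Adj r o) (hrp : (sk F).Adj r p)
    (hrm : (sk F).Adj r m) :
    ({p, o, m} : Finset V) ∈ F ∧ ({p, o, r} : Finset V) ∈ F ∧ ({p, m, r} : Finset V) ∈ F ∧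
      ∀ u, (sk F).Adj p u → u = o ∨ u = m ∨ u = r := by
  have hos : o ∈ supp F := (adj_supp op).1
  have hms : m ∈ supp F := (adj_supp om).2
  have hqs : q ∈ supp F := (adj_supp oq).2
  -- the edge `p o`
  have f1 : ∀ s, (sk F).Adj p s → (sk F).Adj o s → ({p, o, s} : Finset V) ∈ F := by
    intro s hps hos'
    by_cases hsm : s = m
    · refine RMidB_face hF hmin op.symm hos' hps hqs fun e he => ?_
      rcases hD e he with h | h | h | h
      · right; left; simp [h]
      · right; left; simp [h]
      · right; left; simp [h, hsm]
      · left; exact h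
    · refine RMidB_face hF hmin op.symm hos' hps hms fun e he => ?_
      rcases hD e he with h | h | h | h
      · right; left; simp [h]
      · right; left; simp [h]
      · left; exact h
      · right; right
        refine ⟨?_, by rw [h]; exact mq⟩
        simp only [Finset.mem_insert, Finset.mem_singleton, not_or]
        exact ⟨pm.ne', om.ne', Ne.symm hsm⟩
  -- the edge `p m`
  have f2 : ∀ s, (sk F).Adj p s → (sk F).Adj m s → ({p, m, s} : Finset V) ∈ F := by
    intro s hps hms'
    by_cases hso : s = o
    · refine RMidB_face hF hmin pm hms' hps hqs fun e he => ?_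
      rcases hD e he with h | h | h | h
      · right; left; simp [h, hso]
      · right; left; simp [h]
      · right; left; simp [h]
      · left; exact h
    · refine RMidB_face hF hmin pm hms' hps hos fun e he => ?_
      rcases hD e he with h | h | h | h
      · left; exact h
      · right; left; simp [h]
      · right; left; simp [h]
      · right; right
        refine ⟨?_, by rw [h]; exact oq⟩
        simp only [Finset.mem_insert, Finset.mem_singleton, not_or]
        exact ⟨op.ne, om.ne, Ne.symm hso⟩
  -- the edge `p r`
  have f3 : ∀ s, (sk F).Adj p s → (sk F).Adj r s → ({p, r, s} : Finset V) ∈ F := by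
    intro s hps hrs
    by_cases hso : s = o
    · refine RMidB_face hF hmin hrp.symm hrs hps hms fun e he => ?_
      rcases hD e he with h | h | h | h
      · right; left; simp [h, hso]
      · right; left; simp [h]
      · left; exact h
      · right; right
        refine ⟨?_, by rw [h]; exact mq⟩
        simp only [Finset.mem_insert, Finset.mem_singleton, not_or]
        exact ⟨pm.ne', hrm.ne', by rw [hso]; exact om.ne'⟩
    · refine RMidB_face hF hmin hrp.symm hrs hps hos fun e he => ?_
      have hno : o ∉ ({p, r, s} : Finset V) := by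
        simp only [Finset.mem_insert, Finset.mem_singleton, not_or]
        exact ⟨op.ne, hro.ne', Ne.symm hso⟩
      rcases hD e he with h | h | h | h
      · left; exact h
      · right; left; simp [h]
      · right; right
        exact ⟨hno, by rw [h]; exact om⟩
      · right; right
        exact ⟨hno, by rw [h]; exact oq⟩
  have g1 := f1 m pm om
  have g2 := f1 r hrp.symm hro.symm
  have g3 := f2 r hrp.symm hrm.symm
  have g1' := f2 o op.symm om.symm
  have g2' := f3 o op.symm hro
  have g3' := f3 m pm hrm
  refine ⟨g1, g2, g3, ?_⟩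
  have hall := link_conn hF p (W := {u | u = o ∨ u = m ∨ u = r}) (w := o) (Or.inl rfl) op.symm
    (by
      rintro x (hx | hx | hx) y hf
      · rw [hx] at hf
        rcases RMidB_two hF g1 g2 hrm.ne' hf with h | h
        · exact Or.inr (Or.inl h)
        · exact Or.inr (Or.inr h)
      · rw [hx] at hf
        rcases RMidB_two hF g1' g3 hro.ne' hf with h | h
        · exact Or.inl h
        · exact Or.inr (Or.inr h)
      · rw [hx] at hf
        rcases RMidB_two hF g2' g3' om.ne hf with h | h
        · exact Or.inl h
        · exact Or.inr (Or.inl h))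
  exact fun u hu => hall u hu

/-- If `r` is adjacent to `o, p, m, q`, and no reduction for separating triangles applies, then
there are no other vertices. -/
theorem mid_both {F : Finset (Finset V)} {o p m q : V} {A : Finset V} (st : St F o p m q A)
    (hmq : m ≠ q) (hmin : ∀ x y z F₁ F₂, (sk F).Adj x y → (sk F).Adj y z → (sk F).Adj x z →
      CutT F F₁ F₂ {x, y, z} → ¬ ∀ d ∈ DD o p m q, d ∈ supp F₁) {r : V}
    (hrD : r ∉ DD o p m q) (hro : (sk F).Adj r o) (hrp : (sk F).Adj r p) (hrm : (sk F).Adj r m)
    (hrq : (sk F).Adj r q) : Concl F o p m q A := by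
  have hF := st.sph
  have mq : (sk F).Adj m q := st.mq.resolve_left hmq
  obtain ⟨p1, p2, p3, hp⟩ := RMidB_nbr hF hmin (fun e he => mem_DD.1 he) st.op st.om st.oq st.pm
    mq hro hrp hrm
  obtain ⟨q1, q2, q3, hq⟩ := RMidB_nbr (o := o) (p := q) (m := m) (q := p) (r := r) hF hmin
    (fun e he => by
      have := mem_DD.1 he
      tauto) st.oq st.om st.op mq.symm st.pm.symm hro hrq hrm
  -- the neighbours of `o`
  have ho : ∀ u, (sk F).Adj o u → u = p ∨ u = m ∨ u = q ∨ u = r := by
    have hall := link_conn hF o (W := {u | u = p ∨ u = m ∨ u = q ∨ u = r}) (w := p)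
      (Or.inl rfl) st.op (by
        rintro x (hx | hx | hx | hx) y hf
        · rw [hx] at hf
          have hy := (face_adj hF hf).2
          rcases hp y hy.1 with h | h | h
          · exact absurd h hy.2.ne'
          · exact Or.inr (Or.inl h)
          · exact Or.inr (Or.inr (Or.inr h))
        · rw [hx] at hf
          rcases RMidB_two hF (RMidB_face_rot p1) (RMidB_face_rot q1) st.pq hf with h | h
          · exact Or.inl h
          · exact Or.inr (Or.inr (Or.inl h))
        · rw [hx] at hf
          have hy := (face_adj hF hf).2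
          rcases hq y hy.1 with h | h | h
          · exact absurd h hy.2.ne'
          · exact Or.inr (Or.inl h)
          · exact Or.inr (Or.inr (Or.inr h))
        · rw [hx] at hf
          rcases RMidB_two hF (RMidB_face_rot p2) (RMidB_face_rot q2) st.pq hf with h | h
          · exact Or.inl h
          · exact Or.inr (Or.inr (Or.inl h)))
    exact fun u hu => hall u hu
  -- the neighbours of `m`
  have hm : ∀ u, (sk F).Adj m u → u = o ∨ u = p ∨ u = q ∨ u = r := by
    have hall := link_conn hF m (W := {u | u = o ∨ u = p ∨ u = q ∨ u = r}) (w := o)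
      (Or.inl rfl) st.om.symm (by
        rintro x (hx | hx | hx | hx) y hf
        · rw [hx] at hf
          rcases RMidB_two hF (RMidB_face_swap (RMidB_face_rot p1))
            (RMidB_face_swap (RMidB_face_rot q1)) st.pq hf with h | h
          · exact Or.inr (Or.inl h)
          · exact Or.inr (Or.inr (Or.inl h))
        · rw [hx] at hf
          have hy := (face_adj hF hf).2
          rcases hp y hy.1 with h | h | h
          · exact Or.inl h
          · exact absurd h hy.2.ne'
          · exact Or.inr (Or.inr (Or.inr h))
        · rw [hx] at hf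
          have hy := (face_adj hF hf).2
          rcases hq y hy.1 with h | h | h
          · exact Or.inl h
          · exact absurd h hy.2.ne'
          · exact Or.inr (Or.inr (Or.inr h))
        · rw [hx] at hf
          rcases RMidB_two hF (RMidB_face_rot p3) (RMidB_face_rot q3) st.pq hf with h | h
          · exact Or.inr (Or.inl h)
          · exact Or.inr (Or.inr (Or.inl h)))
    exact fun u hu => hall u hu
  -- the neighbours of `r`
  have hr : ∀ u, (sk F).Adj r u → u = o ∨ u = p ∨ u = m ∨ u = q := by
    have hall := link_conn hF r (W := {u | u = o ∨ u = p ∨ u = m ∨ u = q}) (w := o)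
      (Or.inl rfl) hro (by
        rintro x (hx | hx | hx | hx) y hf
        · rw [hx] at hf
          rcases RMidB_two hF (RMidB_face_swap (RMidB_face_rot p2))
            (RMidB_face_swap (RMidB_face_rot q2)) st.pq hf with h | h
          · exact Or.inr (Or.inl h)
          · exact Or.inr (Or.inr (Or.inr h))
        · rw [hx] at hf
          have hy := (face_adj hF hf).2
          rcases hp y hy.1 with h | h | h
          · exact Or.inl h
          · exact Or.inr (Or.inr (Or.inl h))
          · exact absurd h hy.2.ne'
        · rw [hx] at hf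
          rcases RMidB_two hF (RMidB_face_swap (RMidB_face_rot p3))
            (RMidB_face_swap (RMidB_face_rot q3)) st.pq hf with h | h
          · exact Or.inr (Or.inl h)
          · exact Or.inr (Or.inr (Or.inr h))
        · rw [hx] at hf
          have hy := (face_adj hF hf).2
          rcases hq y hy.1 with h | h | h
          · exact Or.inl h
          · exact Or.inr (Or.inr (Or.inl h))
          · exact absurd h hy.2.ne')
    exact fun u hu => hall u hu
  have hall : ∀ v ∈ supp F, v = r ∨ v ∈ DD o p m q := by
    refine conn_graph hF (C := {v | v = r ∨ v ∈ DD o p m q}) (c := r) (Or.inl rfl)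
      (adj_supp hro).1 ?_
    rintro x (hx | hx) y hxy
    · rw [hx] at hxy
      right
      rw [mem_DD]
      exact hr y hxy
    · rw [mem_DD] at hx
      show y = r ∨ y ∈ DD o p m q
      rw [mem_DD]
      rcases hx with hx | hx | hx | hx
      · rw [hx] at hxy
        have := ho y hxy
        tauto
      · rw [hx] at hxy
        have := hp y hxy
        tauto
      · rw [hx] at hxy
        have := hm y hxy
        tauto
      · rw [hx] at hxy
        have := hq y hxy
        tauto
  have hSS : SS F o p m q = {r} := by
    ext u
    rw [mem_SS, Finset.mem_singleton]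
    constructor
    · rintro ⟨h1, h2⟩
      exact (hall u h1).resolve_right h2
    · intro h1
      rw [h1]
      exact ⟨(adj_supp hro).1, hrD⟩
  have hOO : (OO F o p m q).card ≤ 1 := by
    have := Finset.card_le_card (OO_sub (F := F) (o := o) (p := p) (m := m) (q := q))
    rw [hSS, Finset.card_singleton] at this
    exact this
  refine ⟨0, ?_, ?_⟩
  · have hrS : r ∈ SS F o p m q := by
      rw [hSS]
      exact Finset.mem_singleton_self r
    have hwg : Wg (sk F) (SS F o p m q) (fv F A (DD o p m q))
        (0 + fv F A (DD o p m q) r) := by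
      refine wg_del (g := fun _ => 0) hrS ?_ ?_ ?_
      · intro u hu hsu
        rw [hSS, Finset.mem_singleton] at hu
        exact absurd hu hsu.ne'
      · intro u _
        exact Nat.zero_le _
      · rw [hSS, Finset.erase_singleton]
        exact wg_nil _ _
    exact wg_le hwg (Nat.zero_le _)
  · rw [hSS, Finset.card_singleton]
    unfold kp
    rw [if_neg hmq]
    omega

end Pool.Agent.Lib.MP_a33b01_co
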