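import Mathlib
import Pool.Agent.Lib.MP_a33b01_co.RMidA
import Pool.Agent.Lib.MP_a33b01_co.RMidB

set_option autoImplicit false

/-!
# MP_a33b01_co: the remaining separating triangles
-/

namespace Pool.Agent.Lib.MP_a33b01_co

open Classical

variable {V : Type}

private theorem RMid_DD_supp {F : Finset (Finset V)} {o p m q : V} {A : Finset V}
    (st : St F o p m q A) {d : V} (hd : d ∈ DD o p m q) : d ∈ supp F := by
  rcases mem_DD.1 hd with h | h | h | h
  · rw [h]; exact (adj_supp st.op).1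
  · rw [h]; exact (adj_supp st.op).2
  · rw [h]; exact (adj_supp st.om).2
  · rw [h]; exact (adj_supp st.oq).2

/-- the only pair of non-adjacent deleted vertices -/
private theorem RMid_pair {F : Finset (Finset V)} {o p m q : V} {A : Finset V}
    (st : St F o p m q A) {d e : V} (hd : d ∈ DD o p m q) (he : e ∈ DD o p m q) (hde : d ≠ e)
    (hn : ¬ (sk F).Adj d e) : m ≠ q ∧ ((d = p ∧ e = q) ∨ (d = q ∧ e = p)) := by
  have hmq : m ≠ q := by
    intro h
    subst h
    have h1 := st.op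
    have h2 := st.om
    have h3 := st.pm
    rcases mem_DD.1 hd with rfl | rfl | rfl | rfl <;> rcases mem_DD.1 he with rfl | rfl | rfl | rfl
    all_goals first
      | exact hde rfl
      | exact hn h1
      | exact hn h1.symm
      | exact hn h2
      | exact hn h2.symm
      | exact hn h3
      | exact hn h3.symm
  refine ⟨hmq, ?_⟩
  have h1 := st.op
  have h2 := st.om
  have h3 := st.pm
  have h4 := st.oq
  have h5 := st.mq.resolve_left hmq
  rcases mem_DD.1 hd with h | h | h | h <;> rcases mem_DD.1 he with h' | h' | h' | h' <;>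
    rw [h, h'] at hn
  · exact absurd (h.trans h'.symm) hde
  · exact absurd h1 hn
  · exact absurd h2 hn
  · exact absurd h4 hn
  · exact absurd h1.symm hn
  · exact absurd (h.trans h'.symm) hde
  · exact absurd h3 hn
  · exact Or.inl ⟨h, h'⟩
  · exact absurd h2.symm hn
  · exact absurd h3.symm hn
  · exact absurd (h.trans h'.symm) hde
  · exact absurd h5 hn
  · exact absurd h4.symm hn
  · exact Or.inr ⟨h, h'⟩
  · exact absurd h5.symm hn
  · exact absurd (h.trans h'.symm) hde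

private theorem RMid_split {F : Finset (Finset V)} {o p m q : V} {A : Finset V}
    (st : St F o p m q A)
    (hmin : ∀ x y z F₁ F₂, (sk F).Adj x y → (sk F).Adj y z → (sk F).Adj x z →
      CutT F F₁ F₂ {x, y, z} → ¬ ∀ d ∈ DD o p m q, d ∈ supp F₁) {x y z : V}
    (hxy : (sk F).Adj x y) (hyz : (sk F).Adj y z) (hxz : (sk F).Adj x z)
    (hn : ({x, y, z} : Finset V) ∉ F) :
    m ≠ q ∧ ∃ F₁ F₂, CutT F F₁ F₂ {x, y, z} ∧ p ∈ supp F₁ ∧ q ∈ supp F₂ ∧
      p ∉ ({x, y, z} : Finset V) ∧ q ∉ ({x, y, z} : Finset V) ∧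
      o ∈ ({x, y, z} : Finset V) ∧ m ∈ ({x, y, z} : Finset V) := by
  obtain ⟨F₁, F₂, hc⟩ := exists_cutT st.sph hxy hyz hxz hn
  have h1 := hmin x y z F₁ F₂ hxy hyz hxz hc
  have h2 := hmin x y z F₂ F₁ hxy hyz hxz hc.symm
  push Not at h1 h2
  obtain ⟨d, hd, hd1⟩ := h1
  obtain ⟨e, he, he2⟩ := h2
  have hZ1 : ∀ v ∈ ({x, y, z} : Finset V), v ∈ supp F₁ ∧ v ∈ supp F₂ := by
    intro v hv
    rw [← hc.inter, Finset.mem_inter] at hv
    exact hv
  have hd2 : d ∈ supp F₂ := by
    have h3 := RMid_DD_supp st hd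
    rw [← hc.un, Finset.mem_union] at h3
    exact h3.resolve_left hd1
  have he1 : e ∈ supp F₁ := by
    have h3 := RMid_DD_supp st he
    rw [← hc.un, Finset.mem_union] at h3
    exact h3.resolve_right he2
  have hdZ : d ∉ ({x, y, z} : Finset V) := fun h => hd1 (hZ1 d h).1
  have heZ : e ∉ ({x, y, z} : Finset V) := fun h => he2 (hZ1 e h).2
  have hne : d ≠ e := fun h => hd1 (h ▸ he1)
  have hnadj : ¬ (sk F).Adj d e := fun h => hd1 (hc.no e d he1 heZ h.symm)
  have key : ∀ G₁ G₂, CutT F G₁ G₂ {x, y, z} → p ∈ supp G₁ → q ∈ supp G₂ →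
      p ∉ ({x, y, z} : Finset V) → q ∉ ({x, y, z} : Finset V) → m ≠ q →
      o ∈ ({x, y, z} : Finset V) ∧ m ∈ ({x, y, z} : Finset V) := by
    intro G₁ G₂ hG hp hq hpZ hqZ hmq
    rw [← hG.inter, Finset.mem_inter, Finset.mem_inter]
    exact ⟨⟨hG.no p o hp hpZ st.op.symm, hG.no' q o hq hqZ st.oq.symm⟩,
      ⟨hG.no p m hp hpZ st.pm, hG.no' q m hq hqZ (st.mq.resolve_left hmq).symm⟩⟩
  obtain ⟨hmq, h3⟩ := RMid_pair st hd he hne hnadj
  refine ⟨hmq, ?_⟩
  rcases h3 with ⟨rfl, rfl⟩ | ⟨rfl, rfl⟩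
  · obtain ⟨h4, h5⟩ := key F₂ F₁ hc.symm hd2 he1 hdZ heZ hmq
    exact ⟨F₂, F₁, hc.symm, hd2, he1, hdZ, heZ, h4, h5⟩
  · obtain ⟨h4, h5⟩ := key F₁ F₂ hc he1 hd2 heZ hdZ hmq
    exact ⟨F₁, F₂, hc, he1, hd2, heZ, hdZ, h4, h5⟩

private theorem RMid_fin {F : Finset (Finset V)} {o p m q : V} {A : Finset V}
    (ih : IH V (supp F).card) (st : St F o p m q A)
    (hmin : ∀ x y z F₁ F₂, (sk F).Adj x y → (sk F).Adj y z → (sk F).Adj x z →
      CutT F F₁ F₂ {x, y, z} → ¬ ∀ d ∈ DD o p m q, d ∈ supp F₁) {r : V}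
    (hrD : r ∉ DD o p m q) (hor : (sk F).Adj o r) (hmr : (sk F).Adj m r)
    (hn : ({o, m, r} : Finset V) ∉ F) (hA : r ∈ A ∨ ∀ w ∈ A, ¬ (sk F).Adj w m)
    (h : ¬ (sk F).Adj r q ∨ ¬ (sk F).Adj r p) : Concl F o p m q A := by
  obtain ⟨hmq, F₁, F₂, hc, hp, hq, -⟩ := RMid_split st hmin st.om hmr hor hn
  rcases h with h | h
  · exact concl_mid ih st hmq hor hmr hc hp hq hrD h hA
  · have hmp : m ≠ p := st.pm.ne.symm
    have hrD' : r ∉ DD o q m p := by
      intro h1
      apply hrD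
      rw [mem_DD] at h1 ⊢
      tauto
    exact Concl.swap st hmq (concl_mid ih (st.swap hmq) hmp hor hmr hc.symm hq hp hrD' h hA)

theorem concl_nosep {F : Finset (Finset V)} {o p m q : V} {A : Finset V}
    (ih : IH V (supp F).card) (st : St F o p m q A)
    (hmin : ∀ x y z F₁ F₂, (sk F).Adj x y → (sk F).Adj y z → (sk F).Adj x z →
      CutT F F₁ F₂ {x, y, z} → ¬ ∀ d ∈ DD o p m q, d ∈ supp F₁) (hns : ¬ NoSep F) :
    Concl F o p m q A := by
  unfold NoSep at hns
  push Not at hns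
  obtain ⟨x, y, z, hxy, hyz, hxz, hn⟩ := hns
  -- the third vertex
  have hr : m ≠ q ∧ ∃ r, r ∉ DD o p m q ∧ (sk F).Adj o r ∧ (sk F).Adj m r ∧
      ({o, m, r} : Finset V) ∉ F := by
    obtain ⟨hmq, -, -, -, -, -, hpZ, hqZ, hoZ, hmZ⟩ := RMid_split st hmin hxy hyz hxz hn
    refine ⟨hmq, ?_⟩
    have hom : o ≠ m := st.om.ne
    have aux : ∀ r, r ∈ ({x, y, z} : Finset V) → (sk F).Adj o r → (sk F).Adj m r →
        ({o, m, r} : Finset V) ∉ F → ∃ r, r ∉ DD o p m q ∧ (sk F).Adj o r ∧ (sk F).Adj m r ∧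
      ({o, m, r} : Finset V) ∉ F := by
      intro r hrZ h1 h2 h3
      refine ⟨r, ?_, h1, h2, h3⟩
      rw [mem_DD]
      rintro (h | h | h | h)
      · exact h1.ne h.symm
      · exact hpZ (h ▸ hrZ)
      · exact h2.ne h.symm
      · exact hqZ (h ▸ hrZ)
    have hx : x ∈ ({x, y, z} : Finset V) := by simp
    have hy : y ∈ ({x, y, z} : Finset V) := by simp
    have hz : z ∈ ({x, y, z} : Finset V) := by simp
    have e1 : ({x, z, y} : Finset V) = {x, y, z} := by
      ext u; simp only [Finset.mem_insert, Finset.mem_singleton]; tauto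
    have e2 : ({y, x, z} : Finset V) = {x, y, z} := by
      ext u; simp only [Finset.mem_insert, Finset.mem_singleton]; tauto
    have e3 : ({y, z, x} : Finset V) = {x, y, z} := by
      ext u; simp only [Finset.mem_insert, Finset.mem_singleton]; tauto
    have e4 : ({z, x, y} : Finset V) = {x, y, z} := by
      ext u; simp only [Finset.mem_insert, Finset.mem_singleton]; tauto
    have e5 : ({z, y, x} : Finset V) = {x, y, z} := by
      ext u; simp only [Finset.mem_insert, Finset.mem_singleton]; tauto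
    simp only [Finset.mem_insert, Finset.mem_singleton] at hoZ hmZ
    rcases hoZ with h | h | h <;> rcases hmZ with h' | h' | h'
    · exact absurd (h.trans h'.symm) hom
    · exact aux z hz (h ▸ hxz) (h' ▸ hyz) (by rw [h, h']; exact hn)
    · exact aux y hy (h ▸ hxy) (h' ▸ hyz.symm) (by rw [h, h', e1]; exact hn)
    · exact aux z hz (h ▸ hyz) (h' ▸ hxz) (by rw [h, h', e2]; exact hn)
    · exact absurd (h.trans h'.symm) hom
    · exact aux x hx (h ▸ hxy.symm) (h' ▸ hxz.symm) (by rw [h, h', e3]; exact hn)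
    · exact aux y hy (h ▸ hyz.symm) (h' ▸ hxy) (by rw [h, h', e4]; exact hn)
    · exact aux x hx (h ▸ hxz.symm) (h' ▸ hxy.symm) (by rw [h, h', e5]; exact hn)
    · exact absurd (h.trans h'.symm) hom
  obtain ⟨hmq, r, hrD, hor, hmr, hrn⟩ := hr
  by_cases hw : ∃ w ∈ A, (sk F).Adj w m
  · obtain ⟨w, hwA, hwm⟩ := hw
    have hwD := st.AD w hwA
    have hfp : ({o, m, p} : Finset V) ∈ F := by
      by_contra hc
      obtain ⟨-, -, -, -, -, -, hpZ, -⟩ := RMid_split st hmin st.om st.pm.symm st.op hc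
      exact hpZ (by simp)
    have hfq : ({o, m, q} : Finset V) ∈ F := by
      by_contra hc
      obtain ⟨-, -, -, -, -, -, -, hqZ, -⟩ :=
        RMid_split st hmin st.om (st.mq.resolve_left hmq) st.oq hc
      exact hqZ (by simp)
    have hfw : ({o, m, w} : Finset V) ∉ F := by
      intro hf
      obtain ⟨a, b, hab, -, -, hu⟩ := edge_faces st.sph st.om
      have h1 := hu p hfp
      have h2 := hu q hfq
      have h3 := hu w hf
      have hwp : w ≠ p := fun h => hwD (mem_DD.2 (Or.inr (Or.inl h)))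
      have hwq : w ≠ q := fun h => hwD (mem_DD.2 (Or.inr (Or.inr (Or.inr h))))
      have hpq := st.pq
      rcases h1 with rfl | rfl <;> rcases h2 with rfl | rfl <;> rcases h3 with rfl | rfl <;>
        contradiction
    refine RMid_fin ih st hmin hwD (st.Ao w hwA) hwm.symm hfw (Or.inl hwA) ?_
    by_contra hcon
    push Not at hcon
    exact st.exc hmq w hwA ⟨hcon.2, hwm, hcon.1⟩
  · push Not at hw
    by_cases h1 : (sk F).Adj r p
    · by_cases h2 : (sk F).Adj r q
      · exact mid_both st hmq hmin hrD hor.symm h1 hmr.symm h2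
      · exact RMid_fin ih st hmin hrD hor hmr hrn (Or.inr hw) (Or.inl h2)
    · exact RMid_fin ih st hmin hrD hor hmr hrn (Or.inr hw) (Or.inr h1)

end Pool.Agent.Lib.MP_a33b01_co
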