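import Mathlib
import Pool.Agent.Lib.MP_a33b01_co.StA
import Pool.Agent.Lib.MP_a33b01_co.CutQuad

set_option autoImplicit false

/-!
# MP_a33b01_co: the reduction for a 4-cycle through o
-/

namespace Pool.Agent.Lib.MP_a33b01_co

open Classical

variable {V : Type}

private theorem RQuad_main {F F₁ F₂ : Finset (Finset V)} {o p m q : V} {A : Finset V}
    (ih : IH V (supp F).card) (st : St F o p m q A) {x u y : V} (hox : (sk F).Adj o x)
    (hoy : (sk F).Adj o y) (hxy : x ≠ y)
    (huo : u ≠ o) (nou : ¬ (sk F).Adj o u) (hux : (sk F).Adj u x)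
    (huy : (sk F).Adj u y)
    (hw : ∀ w ∈ A, ¬ ((sk F).Adj w x ∧ (sk F).Adj w u ∧ (sk F).Adj w y))
    (hc : CutQ F F₁ F₂ o x u y) (hD : ∀ d ∈ DD o p m q, d ∈ supp F₁) :
    Concl F o p m q A := by
  have hQ1 : ∀ v ∈ ({o, x, u, y} : Finset V), v ∈ supp F₁ := fun v hv => by
    rw [← hc.inter, Finset.mem_inter] at hv
    exact hv.1
  have hQ2 : ∀ v ∈ ({o, x, u, y} : Finset V), v ∈ supp F₂ := fun v hv => by
    rw [← hc.inter, Finset.mem_inter] at hv
    exact hv.2
  have hQ12 : ∀ v, v ∈ supp F₁ → v ∈ supp F₂ → v ∈ ({o, x, u, y} : Finset V) := fun v h1 h2 => by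
    rw [← hc.inter, Finset.mem_inter]
    exact ⟨h1, h2⟩
  have ho1 : o ∈ supp F₁ := hQ1 o (by simp)
  have ho2 : o ∈ supp F₂ := hQ2 o (by simp)
  have hu1 : u ∈ supp F₁ := hQ1 u (by simp)
  have hu2 : u ∈ supp F₂ := hQ2 u (by simp)
  have hx2 : x ∈ supp F₂ := hQ2 x (by simp)
  have hy2 : y ∈ supp F₂ := hQ2 y (by simp)
  have hp1 : p ∈ supp F₁ := hD p (mem_DD.mpr (by simp))
  have hm1 : m ∈ supp F₁ := hD m (mem_DD.mpr (by simp))
  have hq1 : q ∈ supp F₁ := hD q (mem_DD.mpr (by simp))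
  have hSub : ∀ v, v ∈ supp F ↔ v ∈ supp F₁ ∨ v ∈ supp F₂ := fun v => by
    rw [← hc.un, Finset.mem_union]
  have hlow1 : ∀ v w, v ∈ supp F₁ → w ∈ supp F₁ → (sk F).Adj v w → (sk F₁).Adj v w :=
    fun v w h1 h2 h3 => (hc.adj1 v w).mpr ⟨h1, h2, Or.inl h3⟩
  have hlow2 : ∀ v w, v ∈ supp F₂ → w ∈ supp F₂ → (sk F).Adj v w → (sk F₂).Adj v w :=
    fun v w h1 h2 h3 => (hc.adj2 v w).mpr ⟨h1, h2, Or.inl h3⟩
  -- adjacency in the parts for vertices different from `o`
  have hup1 : ∀ v w, v ≠ o → w ≠ o → (sk F₁).Adj v w → (sk F).Adj v w := by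
    intro v w h1 h2 h3
    rcases ((hc.adj1 v w).mp h3).2.2 with h | h | h
    · exact h
    · exact absurd h.1 h1
    · exact absurd h.2 h2
  have hup2 : ∀ v w, v ≠ o → w ≠ o → (sk F₂).Adj v w → (sk F).Adj v w := by
    intro v w h1 h2 h3
    rcases ((hc.adj2 v w).mp h3).2.2 with h | h | h
    · exact h
    · exact absurd h.1 h1
    · exact absurd h.2 h2
  have hAo : ∀ a ∈ A, a ≠ o := fun a ha => (st.Ao a ha).ne'
  have huD : u ∉ DD o p m q := by
    rw [mem_DD]
    rintro (h | h | h | h)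
    · exact huo h
    · exact nou (h ▸ st.op)
    · exact nou (h ▸ st.om)
    · exact nou (h ▸ st.oq)
  set A1 : Finset V := A.filter (fun a => a ∈ supp F₁) with hA1
  set A2 : Finset V := A.filter (fun a => a ∉ supp F₁) with hA2
  have hA2m : ∀ a ∈ A2, a ∈ A ∧ a ∈ supp F₂ ∧ a ∉ ({o, x, u, y} : Finset V) := by
    intro a ha
    rw [hA2, Finset.mem_filter] at ha
    refine ⟨ha.1, ?_, fun h => ha.2 (hQ1 a h)⟩
    rcases (hSub a).mp (adj_supp (st.Ao a ha.1)).2 with h | h
    · exact absurd h ha.2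
    · exact h
  have hcardA : A1.card + A2.card = A.card :=
    Finset.card_filter_add_card_filter_not (s := A) (fun a => a ∈ supp F₁)
  have st1 : St F₁ o p m q A1 := by
    refine ⟨hc.s1, hlow1 _ _ ho1 hp1 st.op, hlow1 _ _ ho1 hm1 st.om, hlow1 _ _ ho1 hq1 st.oq,
      hlow1 _ _ hp1 hm1 st.pm, ?_, st.pq, ?_, ?_, ?_, ?_⟩
    · exact st.mq.imp id fun h => hlow1 _ _ hm1 hq1 h
    · intro a ha
      rw [hA1, Finset.mem_filter] at ha
      exact hlow1 _ _ ho1 ha.2 (st.Ao a ha.1)
    · intro a ha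
      rw [hA1, Finset.mem_filter] at ha
      exact st.AD a ha.1
    · intro a ha b hb h
      rw [hA1, Finset.mem_filter] at ha hb
      exact st.ind a ha.1 b hb.1 (hup1 _ _ (hAo a ha.1) (hAo b hb.1) h)
    · intro hmq a ha h
      rw [hA1, Finset.mem_filter] at ha
      exact st.exc hmq a ha.1 ⟨hup1 _ _ (hAo a ha.1) st.op.ne' h.1,
        hup1 _ _ (hAo a ha.1) st.om.ne' h.2.1, hup1 _ _ (hAo a ha.1) st.oq.ne' h.2.2⟩
  have st2 : St F₂ o x u y A2 := by
    refine ⟨hc.s2, hlow2 _ _ ho2 hx2 hox, (hc.adj2 o u).mpr ⟨ho2, hu2, Or.inr (Or.inl ⟨rfl, rfl⟩)⟩,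
      hlow2 _ _ ho2 hy2 hoy, hlow2 _ _ hx2 hu2 hux.symm, Or.inr (hlow2 _ _ hu2 hy2 huy), hxy,
      ?_, ?_, ?_, ?_⟩
    · intro a ha
      have := hA2m a ha
      exact hlow2 _ _ ho2 this.2.1 (st.Ao a this.1)
    · intro a ha
      exact (hA2m a ha).2.2
    · intro a ha b hb h
      exact st.ind a (hA2m a ha).1 b (hA2m b hb).1
        (hup2 _ _ (hAo a (hA2m a ha).1) (hAo b (hA2m b hb).1) h)
    · intro _ a ha h
      have h0 := hAo a (hA2m a ha).1
      exact hw a (hA2m a ha).1 ⟨hup2 _ _ h0 hox.ne' h.1, hup2 _ _ h0 huo h.2.1,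
        hup2 _ _ h0 hoy.ne' h.2.2⟩
  have hc1 : (supp F₁).card < (supp F).card := by
    apply Finset.card_lt_card
    obtain ⟨v, hv, hvQ⟩ := hc.ne2
    refine ⟨fun w hw => (hSub w).mpr (Or.inl hw), fun h => hvQ (hQ12 v (h ?_) hv)⟩
    exact (hSub v).mpr (Or.inr hv)
  have hc2 : (supp F₂).card < (supp F).card := by
    apply Finset.card_lt_card
    obtain ⟨v, hv, hvQ⟩ := hc.ne1
    refine ⟨fun w hw => (hSub w).mpr (Or.inr hw), fun h => hvQ (hQ12 v hv (h ?_))⟩
    exact (hSub v).mpr (Or.inl hv)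
  obtain ⟨X1, hW1, hn1⟩ := ih F₁ o p m q A1 hc1 st1
  obtain ⟨X2, hW2, hn2⟩ := ih F₂ o x u y A2 hc2 st2
  have hu_ne_y : u ≠ y := huy.ne
  have hkp2 : kp u y = 6 := by
    unfold kp
    rw [if_neg hu_ne_y]
  have hS1m : ∀ v, v ∈ SS F₁ o p m q ↔ v ∈ supp F₁ ∧ v ∉ DD o p m q := fun v => mem_SS
  have hS2m : ∀ v, v ∈ SS F₂ o x u y ↔ v ∈ supp F₂ ∧ v ∉ DD o x u y := fun v => mem_SS
  have hS2n : ∀ v ∈ SS F₂ o x u y, v ∉ supp F₁ := by
    intro v hv h
    exact ((hS2m v).mp hv).2 (hQ12 v h ((hS2m v).mp hv).1)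
  have hdisj : Disjoint (SS F₁ o p m q) (SS F₂ o x u y) := by
    rw [Finset.disjoint_left]
    intro v h1 h2
    exact hS2n v h2 ((hS1m v).mp h1).1
  have hun : SS F o p m q = SS F₁ o p m q ∪ SS F₂ o x u y := by
    ext v
    rw [Finset.mem_union, hS1m, mem_SS]
    constructor
    · rintro ⟨h1, h2⟩
      by_cases h : v ∈ supp F₁
      · exact Or.inl ⟨h, h2⟩
      · right
        rw [hS2m]
        refine ⟨((hSub v).mp h1).resolve_left h, fun h' => h (hQ1 v h')⟩
    · rintro (⟨h1, h2⟩ | h)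
      · exact ⟨(hSub v).mpr (Or.inl h1), h2⟩
      · exact ⟨(hSub v).mpr (Or.inr ((hS2m v).mp h).1), fun h' => hS2n v h (hD v h')⟩
  -- the loads
  have hld1 : ∀ v ∈ supp F₁, ld F A (DD o p m q) v ≤ ld F₁ A1 (DD o p m q) v := by
    intro v hv
    unfold ld
    apply Nat.add_le_add
    · by_cases h : v ∈ A
      · have : v ∈ A1 := by
          rw [hA1, Finset.mem_filter]
          exact ⟨h, hv⟩
        rw [if_pos h, if_pos this]
      · rw [if_neg h]
        exact Nat.zero_le _
    · apply Finset.card_le_card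
      intro d hd
      rw [Finset.mem_filter] at hd ⊢
      exact ⟨hd.1, hlow1 _ _ hv (hD d hd.1) hd.2⟩
  have hld1u : ld F A (DD o p m q) u < ld F₁ A1 (DD o p m q) u := by
    unfold ld
    apply Nat.add_lt_add_of_le_of_lt
    · by_cases h : u ∈ A
      · exact absurd (st.Ao u h) nou
      · rw [if_neg h]
        exact Nat.zero_le _
    · apply Finset.card_lt_card
      refine ⟨?_, fun h => ?_⟩
      · intro d hd
        rw [Finset.mem_filter] at hd ⊢
        exact ⟨hd.1, hlow1 _ _ hu1 (hD d hd.1) hd.2⟩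
      · have h1 : o ∈ (DD o p m q).filter fun d => (sk F₁).Adj u d := by
          rw [Finset.mem_filter]
          exact ⟨mem_DD.mpr (Or.inl rfl),
            (hc.adj1 u o).mpr ⟨hu1, ho1, Or.inr (Or.inr ⟨rfl, rfl⟩)⟩⟩
        have h2 := h h1
        rw [Finset.mem_filter] at h2
        exact nou h2.2.symm
  have huS : u ∈ SS F₁ o p m q := (hS1m u).mpr ⟨hu1, huD⟩
  have hG1 : Wg (sk F) (SS F₁ o p m q) (fv F A (DD o p m q)) (X1 + 1) := by
    refine wg_extra (G' := sk F₁) (f' := fv F₁ A1 (DD o p m q)) ?_ ?_ hW1 huS ?_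
    · intro v hv
      unfold fv
      exact Nat.sub_le_sub_left (hld1 v ((hS1m v).mp hv).1) 4
    · intro v hv w hw' h
      exact hlow1 _ _ ((hS1m v).mp hv).1 ((hS1m w).mp hw').1 h
    · have h4 := st1.ld_le huS
      unfold fv
      omega
  have hG2 : Wg (sk F) (SS F₂ o x u y) (fv F₂ A2 (DD o x u y)) X2 := by
    refine wg_mono (G' := sk F₂) (f' := fv F₂ A2 (DD o x u y)) (fun _ _ => le_rfl) ?_ hW2
    intro v hv w hw' h
    exact hlow2 _ _ ((hS2m v).mp hv).1 ((hS2m w).mp hw').1 h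
  have hG := wg_comp (G := sk F) (f := fv F A (DD o p m q)) (g := fv F₂ A2 (DD o x u y))
    hdisj hG1 ?_ hG2
  · refine ⟨X1 + 1 + X2, ?_, ?_⟩
    · rw [hun]
      exact hG
    · have hOsub : OO F o p m q ⊆ (OO F₁ o p m q).erase u ∪ OO F₂ o x u y := by
        intro v hv
        rw [mem_OO] at hv
        rw [Finset.mem_union, Finset.mem_erase, mem_OO, mem_OO]
        have hvF := (adj_supp hv.1).2
        by_cases h : v ∈ supp F₁
        · left
          refine ⟨fun h' => nou (h' ▸ hv.1), hlow1 _ _ ho1 h hv.1, hv.2⟩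
        · right
          refine ⟨hlow2 _ _ ho2 (((hSub v).mp hvF).resolve_left h) hv.1, fun h' => h (hQ1 v h')⟩
      have huO : u ∈ OO F₁ o p m q := by
        rw [mem_OO]
        exact ⟨(hc.adj1 o u).mpr ⟨ho1, hu1, Or.inr (Or.inl ⟨rfl, rfl⟩)⟩, huD⟩
      have hOc : (OO F o p m q).card ≤ ((OO F₁ o p m q).card - 1) + (OO F₂ o x u y).card := by
        refine (Finset.card_le_card hOsub).trans ((Finset.card_union_le _ _).trans ?_)
        rw [Finset.card_erase_of_mem huO]
      have hOpos : 1 ≤ (OO F₁ o p m q).card := Finset.card_pos.mpr ⟨u, huO⟩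
      have hSc : (SS F o p m q).card = (SS F₁ o p m q).card + (SS F₂ o x u y).card := by
        rw [hun, Finset.card_union_of_disjoint hdisj]
      rw [hkp2] at hn2
      omega
  · intro v hv
    have hv2 := (hS2m v).mp hv
    have hv1 := hS2n v hv
    have hvo : v ≠ o := fun h => hv2.2 (mem_DD.mpr (Or.inl h))
    have hvQ : v ∉ ({o, x, u, y} : Finset V) := hv2.2
    have h4 := st2.ld_le hv
    have key : ld F₂ A2 (DD o x u y) v = ld F A (DD o p m q) v +
        ((SS F₁ o p m q).filter fun w => (sk F).Adj v w).card := by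
      unfold ld
      have e1 : (if v ∈ A2 then 1 else 0) = (if v ∈ A then 1 else 0) := by
        by_cases h : v ∈ A
        · have : v ∈ A2 := by
            rw [hA2, Finset.mem_filter]
            exact ⟨h, hv1⟩
          rw [if_pos h, if_pos this]
        · have : v ∉ A2 := fun h' => h (hA2m v h').1
          rw [if_neg h, if_neg this]
      have e2 : ((DD o x u y).filter fun d => (sk F₂).Adj v d) =
          ((DD o p m q).filter fun d => (sk F).Adj v d) ∪
            ((SS F₁ o p m q).filter fun w => (sk F).Adj v w) := by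
        ext d
        rw [Finset.mem_union, Finset.mem_filter, Finset.mem_filter, Finset.mem_filter, hS1m]
        constructor
        · rintro ⟨h1, h2⟩
          have hdF : (sk F).Adj v d := by
            rcases ((hc.adj2 v d).mp h2).2.2 with h | h | h
            · exact h
            · exact absurd h.1 hvo
            · exact absurd (mem_DD.mpr (Or.inr (Or.inr (Or.inl h.1)))) hv2.2
          by_cases h : d ∈ DD o p m q
          · exact Or.inl ⟨h, hdF⟩
          · exact Or.inr ⟨⟨hQ1 d h1, h⟩, hdF⟩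
        · have aux : d ∈ supp F₁ → (sk F).Adj v d → d ∈ DD o x u y ∧ (sk F₂).Adj v d := by
            intro h1 h2
            have hd2 : d ∈ supp F₂ := hc.no' v d hv2.1 hvQ h2
            exact ⟨hQ12 d h1 hd2, hlow2 _ _ hv2.1 hd2 h2⟩
          rintro (⟨h1, h2⟩ | ⟨⟨h1, _⟩, h2⟩)
          · exact aux (hD d h1) h2
          · exact aux h1 h2
      have e3 : Disjoint ((DD o p m q).filter fun d => (sk F).Adj v d)
          ((SS F₁ o p m q).filter fun w => (sk F).Adj v w) := by
        rw [Finset.disjoint_left]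
        intro d h1 h2
        rw [Finset.mem_filter] at h1 h2
        exact ((hS1m d).mp h2.1).2 h1.1
      rw [e1, e2, Finset.card_union_of_disjoint e3]
      ring
    unfold fv
    omega

theorem concl_quad {F : Finset (Finset V)} {o p m q : V} {A : Finset V}
    (ih : IH V (supp F).card) (st : St F o p m q A) {x u y : V} (hox : (sk F).Adj o x)
    (hoy : (sk F).Adj o y) (hm : m ≠ q → x ≠ m ∧ y ≠ m) (hxy : x ≠ y)
    (nxy : ¬ (sk F).Adj x y) (huo : u ≠ o) (nou : ¬ (sk F).Adj o u) (hux : (sk F).Adj u x)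
    (huy : (sk F).Adj u y)
    (hw : ∀ w ∈ A, ¬ ((sk F).Adj w x ∧ (sk F).Adj w u ∧ (sk F).Adj w y)) :
    Concl F o p m q A := by
  obtain ⟨F₁, F₂, hc⟩ := exists_cutQ st.sph hox hux.symm huy hoy.symm huo.symm hxy nou nxy
  -- a deleted vertex outside of the cycle which is adjacent to all other deleted vertices
  obtain ⟨d, hdD, hdQ, hda⟩ : ∃ d ∈ DD o p m q, d ∉ ({o, x, u, y} : Finset V) ∧
      ∀ e ∈ DD o p m q, e = d ∨ (sk F).Adj d e := by
    have hpo : p ≠ o := st.op.ne'
    have hmo : m ≠ o := st.om.ne'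
    have hqo : q ≠ o := st.oq.ne'
    have hpu : p ≠ u := fun h => nou (h ▸ st.op)
    have hmu : m ≠ u := fun h => nou (h ▸ st.om)
    have hqu : q ≠ u := fun h => nou (h ▸ st.oq)
    by_cases hmq : m = q
    · subst hmq
      have hpm := st.pm
      by_cases hp : p = x ∨ p = y
      · refine ⟨m, mem_DD.mpr (by simp), ?_, ?_⟩
        · simp only [Finset.mem_insert, Finset.mem_singleton, not_or]
          refine ⟨hmo, ?_, hmu, ?_⟩
          · intro h
            rcases hp with hp | hp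
            · exact hpm.ne (hp.trans h.symm)
            · exact nxy (by rw [← hp, ← h]; exact hpm.symm)
          · intro h
            rcases hp with hp | hp
            · exact nxy (by rw [← hp, ← h]; exact hpm)
            · exact hpm.ne (hp.trans h.symm)
        · intro e he
          rw [mem_DD] at he
          rcases he with h | h | h | h
          · exact Or.inr (h ▸ st.om.symm)
          · exact Or.inr (h ▸ hpm.symm)
          · exact Or.inl h
          · exact Or.inl h
      · rw [not_or] at hp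
        refine ⟨p, mem_DD.mpr (by simp), ?_, ?_⟩
        · simp only [Finset.mem_insert, Finset.mem_singleton, not_or]
          exact ⟨hpo, hp.1, hpu, hp.2⟩
        · intro e he
          rw [mem_DD] at he
          rcases he with h | h | h | h
          · exact Or.inr (h ▸ st.op.symm)
          · exact Or.inl h
          · exact Or.inr (h ▸ hpm)
          · exact Or.inr (h ▸ hpm)
    · have hxm := hm hmq
      refine ⟨m, mem_DD.mpr (by simp), ?_, ?_⟩
      · simp only [Finset.mem_insert, Finset.mem_singleton, not_or]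
        exact ⟨hmo, hxm.1.symm, hmu, hxm.2.symm⟩
      · intro e he
        rw [mem_DD] at he
        rcases he with h | h | h | h
        · exact Or.inr (h ▸ st.om.symm)
        · exact Or.inr (h ▸ st.pm.symm)
        · exact Or.inl h
        · exact Or.inr (h ▸ st.mq.resolve_left hmq)
  have hdF : d ∈ supp F := by
    rw [mem_DD] at hdD
    rcases hdD with h | h | h | h
    · rw [h]; exact (adj_supp st.op).1
    · rw [h]; exact (adj_supp st.op).2
    · rw [h]; exact (adj_supp st.om).2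
    · rw [h]; exact (adj_supp st.oq).2
  rw [← hc.un, Finset.mem_union] at hdF
  rcases hdF with h | h
  · refine RQuad_main ih st hox hoy hxy huo nou hux huy hw hc ?_
    intro e he
    rcases hda e he with h' | h'
    · rw [h']; exact h
    · exact hc.no d e h hdQ h'
  · refine RQuad_main ih st hox hoy hxy huo nou hux huy hw hc.symm ?_
    intro e he
    rcases hda e he with h' | h'
    · rw [h']; exact h
    · exact hc.no' d e h hdQ h'

end Pool.Agent.Lib.MP_a33b01_co
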