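import Mathlib
import Pool.Agent.Lib.MP_a33b01_co.StA
import Pool.Agent.Lib.MP_a33b01_co.CutTri

set_option autoImplicit false

/-!
# MP_a33b01_co: the reduction for a separating triangle
-/

namespace Pool.Agent.Lib.MP_a33b01_co

open Classical

variable {V : Type}

private theorem RSep_st1 {F F₁ F₂ : Finset (Finset V)} {o p m q : V} {A Z : Finset V}
    (st : St F o p m q A) (hc : CutT F F₁ F₂ Z) (hD : ∀ d ∈ DD o p m q, d ∈ supp F₁) :
    St F₁ o p m q (A ∩ supp F₁) := by
  have ho : o ∈ supp F₁ := hD o (mem_DD.2 (Or.inl rfl))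
  have hp : p ∈ supp F₁ := hD p (mem_DD.2 (Or.inr (Or.inl rfl)))
  have hm : m ∈ supp F₁ := hD m (mem_DD.2 (Or.inr (Or.inr (Or.inl rfl))))
  have hq : q ∈ supp F₁ := hD q (mem_DD.2 (Or.inr (Or.inr (Or.inr rfl))))
  refine ⟨hc.s1, (hc.adj1 _ _).2 ⟨ho, hp, st.op⟩, (hc.adj1 _ _).2 ⟨ho, hm, st.om⟩,
    (hc.adj1 _ _).2 ⟨ho, hq, st.oq⟩, (hc.adj1 _ _).2 ⟨hp, hm, st.pm⟩, ?_, st.pq, ?_, ?_, ?_, ?_⟩
  · rcases st.mq with h | h
    · exact Or.inl h
    · exact Or.inr ((hc.adj1 _ _).2 ⟨hm, hq, h⟩)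
  · intro a ha
    rw [Finset.mem_inter] at ha
    exact (hc.adj1 _ _).2 ⟨ho, ha.2, st.Ao a ha.1⟩
  · intro a ha
    rw [Finset.mem_inter] at ha
    exact st.AD a ha.1
  · intro a ha b hb hab
    rw [Finset.mem_inter] at ha hb
    exact st.ind a ha.1 b hb.1 ((hc.adj1 _ _).1 hab).2.2
  · intro hmq a ha h
    rw [Finset.mem_inter] at ha
    exact st.exc hmq a ha.1 ⟨((hc.adj1 _ _).1 h.1).2.2, ((hc.adj1 _ _).1 h.2.1).2.2,
      ((hc.adj1 _ _).1 h.2.2).2.2⟩

private theorem RSep_lt {F F₁ F₂ : Finset (Finset V)} {Z : Finset V} (hc : CutT F F₁ F₂ Z) :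
    (supp F₁).card < (supp F).card ∧ (supp F₂).card < (supp F).card := by
  constructor
  · apply Finset.card_lt_card
    rw [Finset.ssubset_iff_of_subset (by rw [← hc.un]; exact Finset.subset_union_left)]
    obtain ⟨v, hv, hvZ⟩ := hc.ne2
    refine ⟨v, by rw [← hc.un]; exact Finset.mem_union_right _ hv, fun h => hvZ ?_⟩
    rw [← hc.inter]
    exact Finset.mem_inter.2 ⟨h, hv⟩
  · apply Finset.card_lt_card
    rw [Finset.ssubset_iff_of_subset (by rw [← hc.un]; exact Finset.subset_union_right)]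
    obtain ⟨v, hv, hvZ⟩ := hc.ne1
    refine ⟨v, by rw [← hc.un]; exact Finset.mem_union_left _ hv, fun h => hvZ ?_⟩
    rw [← hc.inter]
    exact Finset.mem_inter.2 ⟨hv, h⟩

private theorem RSep_core {F F₁ F₂ : Finset (Finset V)} {o p m q : V} {A Z : Finset V}
    (ih : IH V (supp F).card) (st : St F o p m q A) (hc : CutT F F₁ F₂ Z)
    (hD : ∀ d ∈ DD o p m q, d ∈ supp F₁) {o2 p2 m2 : V} {A2 : Finset V}
    (st2 : St F₂ o2 p2 m2 m2 A2) (hZ : DD o2 p2 m2 m2 = Z)
    (hA : ∀ u ∈ supp F₂, u ∉ Z → u ∈ A → u ∈ A2)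
    (hO : (OO F o p m q).card ≤ (OO F₁ o p m q).card + (OO F₂ o2 p2 m2 m2).card)
    (hAc : (A ∩ supp F₁).card + A2.card ≤ A.card) : Concl F o p m q A := by
  obtain ⟨X1, hW1, hX1⟩ := ih F₁ o p m q (A ∩ supp F₁) (RSep_lt hc).1 (RSep_st1 st hc hD)
  obtain ⟨X2, hW2, hX2⟩ := ih F₂ o2 p2 m2 m2 A2 (RSep_lt hc).2 st2
  have hS2 : ∀ u, u ∈ SS F₂ o2 p2 m2 m2 ↔ u ∈ supp F₂ ∧ u ∉ Z := by
    intro u
    rw [mem_SS, hZ]
  have h21 : ∀ u ∈ SS F₂ o2 p2 m2 m2, u ∉ supp F₁ := by
    intro u hu h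
    rw [hS2] at hu
    apply hu.2
    rw [← hc.inter]
    exact Finset.mem_inter.2 ⟨h, hu.1⟩
  have hdisj : Disjoint (SS F₁ o p m q) (SS F₂ o2 p2 m2 m2) := by
    rw [Finset.disjoint_left]
    intro u hu1 hu2
    exact h21 u hu2 (mem_SS.1 hu1).1
  have hun : SS F o p m q = SS F₁ o p m q ∪ SS F₂ o2 p2 m2 m2 := by
    ext u
    rw [Finset.mem_union, mem_SS, mem_SS, hS2]
    constructor
    · rintro ⟨hu, huD⟩
      by_cases h1 : u ∈ supp F₁
      · exact Or.inl ⟨h1, huD⟩
      · right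
        have h2 : u ∈ supp F₂ := by
          rw [← hc.un, Finset.mem_union] at hu
          exact hu.resolve_left h1
        refine ⟨h2, fun hz => h1 ?_⟩
        rw [← hc.inter] at hz
        exact (Finset.mem_inter.1 hz).1
    · rintro (⟨hu, huD⟩ | ⟨hu, huZ⟩)
      · exact ⟨by rw [← hc.un]; exact Finset.mem_union_left _ hu, huD⟩
      · refine ⟨by rw [← hc.un]; exact Finset.mem_union_right _ hu, fun hd => ?_⟩
        exact h21 u ((hS2 u).2 ⟨hu, huZ⟩) (hD u hd)
  -- the first part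
  have hF1 : Wg (sk F) (SS F₁ o p m q) (fv F A (DD o p m q)) X1 := by
    refine wg_mono (fun u hu => ?_) (fun u hu v hv huv => ?_) hW1
    · have hu1 : u ∈ supp F₁ := (mem_SS.1 hu).1
      have hld : ld F A (DD o p m q) u = ld F₁ (A ∩ supp F₁) (DD o p m q) u := by
        unfold ld
        have e1 : (u ∈ A) = (u ∈ A ∩ supp F₁) := by
          rw [Finset.mem_inter]
          exact propext ⟨fun h => ⟨h, hu1⟩, fun h => h.1⟩
        have e2 : (DD o p m q).filter (fun d => (sk F).Adj u d) =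
            (DD o p m q).filter (fun d => (sk F₁).Adj u d) := by
          apply Finset.filter_congr
          intro d hd
          rw [hc.adj1]
          exact ⟨fun h => ⟨hu1, hD d hd, h⟩, fun h => h.2.2⟩
        rw [e2]
        simp only [e1]
      unfold fv
      rw [hld]
    · exact (hc.adj1 _ _).2 ⟨(mem_SS.1 hu).1, (mem_SS.1 hv).1, huv⟩
  -- the second part
  have hF2 : Wg (sk F) (SS F₂ o2 p2 m2 m2) (fv F₂ A2 (DD o2 p2 m2 m2)) X2 := by
    refine wg_mono (fun u _ => le_rfl) (fun u hu v hv huv => ?_) hW2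
    exact (hc.adj2 _ _).2 ⟨((hS2 u).1 hu).1, ((hS2 v).1 hv).1, huv⟩
  have hcomp := wg_comp hdisj hF1 (g := fv F₂ A2 (DD o2 p2 m2 m2)) (fun u hu => ?_) hF2
  · refine ⟨X1 + X2, ?_, ?_⟩
    · rw [hun]
      exact hcomp
    · have hk : kp m2 m2 = 0 := by
        unfold kp
        rw [if_pos rfl]
      rw [hun, Finset.card_union_of_disjoint hdisj]
      rw [hk] at hX2
      omega
  · have hu' := (hS2 u).1 hu
    have h4 := st2.ld_le hu
    have hle : ld F A (DD o p m q) u +
        ((SS F₁ o p m q).filter fun v => (sk F).Adj u v).card ≤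
        ld F₂ A2 (DD o2 p2 m2 m2) u := by
      unfold ld
      have e1 : (if u ∈ A then 1 else 0) ≤ (if u ∈ A2 then 1 else 0) := by
        by_cases h : u ∈ A
        · rw [if_pos h, if_pos (hA u hu'.1 hu'.2 h)]
        · rw [if_neg h]
          exact Nat.zero_le _
      have hd2 : Disjoint ((DD o p m q).filter fun d => (sk F).Adj u d)
          ((SS F₁ o p m q).filter fun v => (sk F).Adj u v) := by
        rw [Finset.disjoint_left]
        intro w hw1 hw2
        exact (mem_SS.1 (Finset.mem_filter.1 hw2).1).2 (Finset.mem_filter.1 hw1).1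
      have hsub : ((DD o p m q).filter fun d => (sk F).Adj u d) ∪
          ((SS F₁ o p m q).filter fun v => (sk F).Adj u v) ⊆
          (DD o2 p2 m2 m2).filter fun d => (sk F₂).Adj u d := by
        intro w hw
        have hw' : w ∈ supp F₁ ∧ (sk F).Adj u w := by
          rw [Finset.mem_union, Finset.mem_filter, Finset.mem_filter] at hw
          rcases hw with hw | hw
          · exact ⟨hD w hw.1, hw.2⟩
          · exact ⟨(mem_SS.1 hw.1).1, hw.2⟩
        have hw2 : w ∈ supp F₂ := hc.no' u w hu'.1 hu'.2 hw'.2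
        rw [Finset.mem_filter, hZ, ← hc.inter, Finset.mem_inter]
        exact ⟨⟨hw'.1, hw2⟩, (hc.adj2 _ _).2 ⟨hu'.1, hw2, hw'.2⟩⟩
      have e2 := Finset.card_le_card hsub
      rw [Finset.card_union_of_disjoint hd2] at e2
      omega
    unfold fv
    omega

/-- If `F` is cut along a triangle, and all deleted vertices are on one side, then first this side
and then the other side is removed. -/
theorem concl_sep {F F₁ F₂ : Finset (Finset V)} {o p m q : V} {A : Finset V}
    (ih : IH V (supp F).card) (st : St F o p m q A) {x y z : V} (hxy : (sk F).Adj x y)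
    (hyz : (sk F).Adj y z) (hxz : (sk F).Adj x z) (hc : CutT F F₁ F₂ {x, y, z})
    (hD : ∀ d ∈ DD o p m q, d ∈ supp F₁) : Concl F o p m q A := by
  have ho1 : o ∈ supp F₁ := hD o (mem_DD.2 (Or.inl rfl))
  have hZ2 : ∀ w ∈ ({x, y, z} : Finset V), w ∈ supp F₂ := by
    intro w hw
    rw [← hc.inter] at hw
    exact (Finset.mem_inter.1 hw).2
  by_cases hoZ : o ∈ ({x, y, z} : Finset V)
  · -- the vertex `o` is on the triangle
    obtain ⟨u, v, hou, hov, huv, hZ⟩ : ∃ u v, (sk F).Adj o u ∧ (sk F).Adj o v ∧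
        (sk F).Adj u v ∧ ({x, y, z} : Finset V) = DD o u v v := by
      rw [Finset.mem_insert, Finset.mem_insert, Finset.mem_singleton] at hoZ
      rcases hoZ with h | h | h
      · subst h
        refine ⟨y, z, hxy, hxz, hyz, ?_⟩
        ext w
        rw [mem_DD]
        simp only [Finset.mem_insert, Finset.mem_singleton]
        tauto
      · subst h
        refine ⟨x, z, hxy.symm, hyz, hxz, ?_⟩
        ext w
        rw [mem_DD]
        simp only [Finset.mem_insert, Finset.mem_singleton]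
        tauto
      · subst h
        refine ⟨x, y, hxz.symm, hyz.symm, hxy, ?_⟩
        ext w
        rw [mem_DD]
        simp only [Finset.mem_insert, Finset.mem_singleton]
        tauto
    have ho2 : o ∈ supp F₂ := hZ2 o hoZ
    have hu2 : u ∈ supp F₂ := hZ2 u (by rw [hZ, mem_DD]; exact Or.inr (Or.inl rfl))
    have hv2 : v ∈ supp F₂ := hZ2 v (by rw [hZ, mem_DD]; exact Or.inr (Or.inr (Or.inl rfl)))
    have st2 : St F₂ o u v v (A ∩ (supp F₂ \ {x, y, z})) := by
      refine ⟨hc.s2, (hc.adj2 _ _).2 ⟨ho2, hu2, hou⟩, (hc.adj2 _ _).2 ⟨ho2, hv2, hov⟩,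
        (hc.adj2 _ _).2 ⟨ho2, hv2, hov⟩, (hc.adj2 _ _).2 ⟨hu2, hv2, huv⟩, Or.inl rfl,
        huv.1, ?_, ?_, ?_, fun h => absurd rfl h⟩
      · intro a ha
        rw [Finset.mem_inter, Finset.mem_sdiff] at ha
        exact (hc.adj2 _ _).2 ⟨ho2, ha.2.1, st.Ao a ha.1⟩
      · intro a ha
        rw [Finset.mem_inter, Finset.mem_sdiff] at ha
        rw [← hZ]
        exact ha.2.2
      · intro a ha b hb hab
        rw [Finset.mem_inter] at ha hb
        exact st.ind a ha.1 b hb.1 ((hc.adj2 _ _).1 hab).2.2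
    refine RSep_core ih st hc hD st2 hZ.symm ?_ ?_ ?_
    · intro w hw hwZ hwA
      exact Finset.mem_inter.2 ⟨hwA, Finset.mem_sdiff.2 ⟨hw, hwZ⟩⟩
    · refine le_trans (Finset.card_le_card ?_) (Finset.card_union_le _ _)
      intro w hw
      rw [mem_OO] at hw
      rw [Finset.mem_union, mem_OO, mem_OO, ← hZ]
      by_cases h1 : w ∈ supp F₁
      · exact Or.inl ⟨(hc.adj1 _ _).2 ⟨ho1, h1, hw.1⟩, hw.2⟩
      · right
        have hwF : w ∈ supp F := (adj_supp hw.1).2
        have h2 : w ∈ supp F₂ := by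
          rw [← hc.un, Finset.mem_union] at hwF
          exact hwF.resolve_left h1
        refine ⟨(hc.adj2 _ _).2 ⟨ho2, h2, hw.1⟩, fun hwz => h1 ?_⟩
        rw [← hc.inter] at hwz
        exact (Finset.mem_inter.1 hwz).1
    · have hdisj : Disjoint (A ∩ supp F₁) (A ∩ (supp F₂ \ {x, y, z})) := by
        rw [Finset.disjoint_left]
        intro w hw1 hw2
        rw [Finset.mem_inter] at hw1
        rw [Finset.mem_inter, Finset.mem_sdiff] at hw2
        apply hw2.2.2
        rw [← hc.inter]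
        exact Finset.mem_inter.2 ⟨hw1.2, hw2.2.1⟩
      rw [← Finset.card_union_of_disjoint hdisj]
      apply Finset.card_le_card
      exact Finset.union_subset Finset.inter_subset_left Finset.inter_subset_left
  · -- the vertex `o` is not on the triangle
    have hx2 : x ∈ supp F₂ := hZ2 x (by simp)
    have hy2 : y ∈ supp F₂ := hZ2 y (by simp)
    have hz2 : z ∈ supp F₂ := hZ2 z (by simp)
    have st2 : St F₂ x y z z ∅ := by
      refine ⟨hc.s2, (hc.adj2 _ _).2 ⟨hx2, hy2, hxy⟩, (hc.adj2 _ _).2 ⟨hx2, hz2, hxz⟩,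
        (hc.adj2 _ _).2 ⟨hx2, hz2, hxz⟩, (hc.adj2 _ _).2 ⟨hy2, hz2, hyz⟩, Or.inl rfl,
        hyz.1, ?_, ?_, ?_, fun h => absurd rfl h⟩
      · intro a ha
        exact absurd ha (Finset.notMem_empty a)
      · intro a ha
        exact absurd ha (Finset.notMem_empty a)
      · intro a ha
        exact absurd ha (Finset.notMem_empty a)
    have hZ : DD x y z z = ({x, y, z} : Finset V) := by
      ext w
      rw [mem_DD]
      simp only [Finset.mem_insert, Finset.mem_singleton]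
      tauto
    refine RSep_core ih st hc hD st2 hZ ?_ ?_ ?_
    · intro w hw hwZ hwA
      exfalso
      have h1 : w ∈ supp F₁ := hc.no o w ho1 hoZ (st.Ao w hwA)
      apply hwZ
      rw [← hc.inter]
      exact Finset.mem_inter.2 ⟨h1, hw⟩
    · refine le_trans (Finset.card_le_card ?_) (Nat.le_add_right _ _)
      intro w hw
      rw [mem_OO] at hw ⊢
      have h1 : w ∈ supp F₁ := hc.no o w ho1 hoZ hw.1
      exact ⟨(hc.adj1 _ _).2 ⟨ho1, h1, hw.1⟩, hw.2⟩
    · rw [Finset.card_empty, add_zero]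
      exact Finset.card_le_card Finset.inter_subset_left

end Pool.Agent.Lib.MP_a33b01_co
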