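import Mathlib
import Pool.Agent.Lib.MP_a33b01_co.Step

set_option autoImplicit false

/-!
# MP_a33b01_co: an outer vertex of degree four
-/

namespace Pool.Agent.Lib.MP_a33b01_co

open Classical

variable {V : Type}

theorem concl_six {F : Finset (Finset V)} {o p m q : V} {A : Finset V}
    (ih : IH V (supp F).card) (st : St F o p m q A) (ns : NoSep F) (h5 : 5 ≤ (supp F).card)
    {u : V} (hou : (sk F).Adj o u) (huD : u ∉ DD o p m q) (huA : u ∉ A) (hd : dg F u ≤ 4) :
    Concl F o p m q A := by
  have hF := st.sph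
  obtain ⟨z, w, hzw, hz, hw, -⟩ := edge_faces hF hou
  have htwo := nosep_two hF ns hz hw hzw
  obtain ⟨F', dl⟩ := dl_one hF hou htwo h5
  have husupp : u ∈ supp F := (adj_supp hou).2
  have hdg := nosep_dg hF ns h5 husupp
  obtain ⟨-, huz, hoz⟩ := face_adj hF hz
  obtain ⟨-, huw, how⟩ := face_adj hF hw
  -- the fourth neighbour
  obtain ⟨y, huy, hyo, hoy⟩ : ∃ y, (sk F).Adj u y ∧ y ≠ o ∧ ¬ (sk F).Adj o y := by
    by_contra hc
    push Not at hc
    have h1 : ∀ v, (sk F).Adj u v → v ∈ ({o, z, w} : Finset V) := by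
      intro v hv
      simp only [Finset.mem_insert, Finset.mem_singleton]
      by_cases hvo : v = o
      · exact Or.inl hvo
      · exact Or.inr (htwo v (hc v hv hvo) hv)
    have h2 := dg_le h1
    have h3 : ({o, z, w} : Finset V).card ≤ 3 := Finset.card_le_three
    omega
  have hyD : y ∉ DD o p m q := by
    rw [mem_DD]
    rintro (h | h | h | h)
    · exact hyo h
    · exact hoy (h ▸ st.op)
    · exact hoy (h ▸ st.om)
    · exact hoy (h ▸ st.oq)
  have hyS : y ∈ SS F o p m q := mem_SS.2 ⟨(adj_supp huy).2, hyD⟩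
  have huS : u ∈ SS F o p m q := mem_SS.2 ⟨husupp, huD⟩
  have hX : ({u} : Finset V) ⊆ SS F o p m q := Finset.singleton_subset_iff.2 huS
  have hyu : y ≠ u := huy.ne'
  have st' : St F' o p m q A := by
    refine st_dl st dl hX ?_ st.ind st.exc
    intro a ha
    refine ⟨?_, st.AD a ha, Or.inl (st.Ao a ha)⟩
    rw [Finset.mem_singleton]
    rintro rfl
    exact huA ha
  obtain ⟨Y, hY, hcard⟩ := step ih dl hX (Finset.singleton_nonempty u) st'
  have hld : ∀ v ∈ SS F o p m q \ {u}, ld F' A (DD o p m q) v = ld F A (DD o p m q) v +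
      if ¬ (sk F).Adj o v ∧ ∃ x ∈ ({u} : Finset V), (sk F).Adj x v then 1 else 0 := by
    intro v hv
    rw [Finset.mem_sdiff] at hv
    rw [ld_dl dl hX hv.1 hv.2]
    rfl
  have hySu : y ∈ SS F o p m q \ {u} := by
    rw [Finset.mem_sdiff, Finset.mem_singleton]
    exact ⟨hyS, hyu⟩
  have hyS' : y ∈ SS F' o p m q := by
    rw [mem_SS, dl.sp, Finset.mem_sdiff, Finset.mem_singleton]
    exact ⟨⟨(adj_supp huy).2, hyu⟩, hyD⟩
  have hW1 : Wg (sk F) (SS F o p m q \ {u}) (fv F A (DD o p m q)) (Y + 1) := by
    refine wg_extra ?_ (fun _ _ _ _ h => h) hY hySu ?_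
    · intro v hv
      unfold fv
      have := hld v hv
      omega
    · have h1 := hld y hySu
      rw [if_pos ⟨hoy, u, Finset.mem_singleton_self u, huy⟩] at h1
      have h2 := st'.ld_le hyS'
      unfold fv
      omega
  have hW : Wg (sk F) (SS F o p m q) (fv F A (DD o p m q)) (Y + 1) := by
    refine wg_free huS ?_ ?_
    · unfold fv ld
      rw [if_neg huA]
      have h1 : ((SS F o p m q).filter fun v => (sk F).Adj u v).card +
          ((DD o p m q).filter fun v => (sk F).Adj u v).card ≤ dg F u := by
        rw [← Finset.card_union_of_disjoint]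
        · apply Finset.card_le_card
          intro v hv
          rw [Finset.mem_union, Finset.mem_filter, Finset.mem_filter] at hv
          rw [Finset.mem_filter]
          have h2 : (sk F).Adj u v := by
            rcases hv with hv | hv
            · exact hv.2
            · exact hv.2
          exact ⟨(adj_supp h2).2, h2⟩
        · rw [Finset.disjoint_left]
          intro v hv hv'
          rw [Finset.mem_filter] at hv hv'
          exact (mem_SS.1 hv.1).2 hv'.1
      omega
    · rw [Finset.erase_eq]
      exact hW1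
  have hOO : (OO F o p m q).card ≤ (OO F' o p m q).card + ({u} : Finset V).card :=
    card_OO_dl dl (fun x hx _ => hx)
  rw [Finset.card_singleton] at hOO hcard
  exact ⟨Y + 1, hW, by omega⟩

end Pool.Agent.Lib.MP_a33b01_co
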