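import Mathlib
import Pool.Agent.Lib.MP_a33b01_co.RSep
import Pool.Agent.Lib.MP_a33b01_co.RMid
import Pool.Agent.Lib.MP_a33b01_co.RQuad
import Pool.Agent.Lib.MP_a33b01_co.PEnd
import Pool.Agent.Lib.MP_a33b01_co.RSix
import Pool.Agent.Lib.MP_a33b01_co.RFive
import Pool.Agent.Lib.MP_a33b01_co.E1
import Pool.Agent.Lib.MP_a33b01_co.E2
import Pool.Agent.Lib.MP_a33b01_co.E3
import Pool.Agent.Lib.MP_a33b01_co.E4
import Pool.Agent.Lib.MP_a33b01_co.E5
import Pool.Agent.Lib.MP_a33b01_co.E6
import Pool.Agent.Lib.MP_a33b01_co.E7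
import Pool.Agent.Lib.MP_a33b01_co.E8
import Pool.Agent.Lib.MP_a33b01_co.E9
import Pool.Agent.Lib.MP_a33b01_co.E10
import Pool.Agent.Lib.MP_a33b01_co.E11

set_option autoImplicit false

/-!
# MP_a33b01_co: the induction
-/

namespace Pool.Agent.Lib.MP_a33b01_co

open Classical

variable {V : Type}

/-- The end cases. -/
theorem concl_ctx {F : Finset (Finset V)} {o p m q : V} {A : Finset V} {a b c z : V}
    (h : Ctx F o p m q A a b c z) : Concl F o p m q A := by
  by_cases ha : a ∈ A
  · have hb : b ∉ A := fun hb => h.not_both ⟨ha, hb⟩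
    by_cases hc : c ∈ A
    · by_cases hd : 10 ≤ dg F a + dg F b
      · exact e9 h ha hc hd
      · have hb5 : 5 ≤ dg F b := h.r6 b h.ob h.bD hb
        have ha4 : 4 ≤ dg F a := nosep_dg h.st.sph h.ns h.c5 (adj_supp h.oa).2
        have ha4' : dg F a = 4 := by omega
        have hb5' : dg F b = 5 := by omega
        by_cases hm : m ≠ q ∧ (sk F).Adj z m
        · exact e10 h ha hc ha4' hm.1 hm.2
        · exact e11 h ha hc ha4' hb5' fun h1 h2 => hm ⟨h1, h2⟩
    · exact e8 h ha hc
  · by_cases hm : m ≠ q ∧ (sk F).Adj z m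
    · exact concl_five h ha hm.1 hm.2
    have hm' : m ≠ q → ¬ (sk F).Adj z m := fun h1 h2 => hm ⟨h1, h2⟩
    by_cases hb : b ∈ A
    · by_cases hc : c = q
      · exact e3 h ha hb hc
      · obtain ⟨d, hdb, hd, -⟩ := other_face h.st.sph
          (show ({o, c, b} : Finset V) ∈ F by
            have := h.obc
            rwa [show ({o, b, c} : Finset V) = {o, c, b} by
              ext x; simp only [Finset.mem_insert, Finset.mem_singleton]; tauto] at this)
        by_cases hdA : d ∈ A
        · by_cases hb5 : 5 ≤ dg F b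
          · exact e5 h ha hb hc hd hdb hdA hb5
          · have hb4 : 4 ≤ dg F b := nosep_dg h.st.sph h.ns h.c5 (adj_supp h.ob).2
            have hb4' : dg F b = 4 := by omega
            have hcA : c ∉ A := fun hcA => h.st.ind b hb c hcA h.bc
            have hc5 : 5 ≤ dg F c := h.r6 c h.oc (h.cD hc) hcA
            by_cases hc6 : 6 ≤ dg F c
            · exact e6 h ha hb hc hd hdb hdA hb4' hc6 hm'
            · exact e7 h ha hb hc hd hdb hdA hb4' (by omega) hm'
        · exact e4 h ha hb hc hd hdb hdA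
    · by_cases hc : c ∈ A
      · exact e2 h ha hb hc
      · exact e1 h ha hb hc

theorem tri_perm {x y z : V} : ({x, y, z} : Finset V) = {x, z, y} := by
  ext u
  simp only [Finset.mem_insert, Finset.mem_singleton]
  tauto

/-- The induction step. -/
theorem concl_step {F : Finset (Finset V)} {o p m q : V} {A : Finset V}
    (ih : IH V (supp F).card) (st : St F o p m q A) : Concl F o p m q A := by
  by_cases hmin : ∀ x y z F₁ F₂, (sk F).Adj x y → (sk F).Adj y z → (sk F).Adj x z →
      CutT F F₁ F₂ {x, y, z} → ¬ ∀ d ∈ DD o p m q, d ∈ supp F₁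
  swap
  · push Not at hmin
    obtain ⟨x, y, z, F₁, F₂, hxy, hyz, hxz, hc, hD⟩ := hmin
    exact concl_sep ih st hxy hyz hxz hc hD
  by_cases ns : NoSep F
  swap
  · exact concl_nosep ih st hmin ns
  by_cases h4 : (supp F).card ≤ 4
  · exact concl_four st h4
  have h5 : 5 ≤ (supp F).card := by omega
  have pnq : m ≠ q → ¬ (sk F).Adj p q := by
    intro hmq hpq
    have hmq' : (sk F).Adj m q := st.mq.resolve_left hmq
    have h := nosep_k4 st.sph ns st.op st.om st.oq st.pm hpq hmq'
    rw [h] at h5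
    have := Finset.card_le_four (a := o) (b := p) (c := m) (d := q)
    omega
  have opm : ({o, p, m} : Finset V) ∈ F := ns o p m st.op st.pm st.om
  obtain ⟨a, am, opa, -⟩ := other_face st.sph opm
  obtain ⟨b, bp, oab, -⟩ := other_face st.sph (show ({o, a, p} : Finset V) ∈ F by
    rwa [tri_perm])
  have hoa := (face_adj st.sph opa).2.2
  have hpa := (face_adj st.sph opa).2.1
  have hob := (face_adj st.sph oab).2.2
  have hab := (face_adj st.sph oab).2.1
  by_cases hbq : b = q
  · subst hbq
    exact concl_end ih st ns h5 pnq opa am oab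
  have hbm : b ≠ m := by
    intro hbm
    by_cases hmq : m = q
    · exact hbq (hbm.trans hmq)
    · subst hbm
      -- `a` is a common neighbour of `o` and `b = m`
      have hmq' : (sk F).Adj b q := st.mq.resolve_left hmq
      have h1 : ({o, b, p} : Finset V) ∈ F := by rwa [tri_perm]
      have h2 : ({o, b, q} : Finset V) ∈ F := ns o b q st.om hmq' st.oq
      rcases nosep_two st.sph ns h1 h2 st.pq a hoa hab.symm with h | h
      · exact hpa.ne h.symm
      · rw [h] at hpa
        exact pnq hmq hpa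
  have bD : b ∉ DD o p m q := by
    rw [mem_DD]
    rintro (h | h | h | h)
    · exact hob.ne h.symm
    · exact bp h
    · exact hbm h
    · exact hbq h
  by_cases h6 : ∃ u, (sk F).Adj o u ∧ u ∉ DD o p m q ∧ u ∉ A ∧ dg F u ≤ 4
  · obtain ⟨u, h61, h62, h63, h64⟩ := h6
    exact concl_six ih st ns h5 h61 h62 h63 h64
  have r6 : ∀ u, (sk F).Adj o u → u ∉ DD o p m q → u ∉ A → 5 ≤ dg F u := by
    intro u h1 h2 h3
    by_contra h
    exact h6 ⟨u, h1, h2, h3, by omega⟩
  by_cases n7 : ∀ x u y, (sk F).Adj o x → (sk F).Adj o y → (m ≠ q → x ≠ m ∧ y ≠ m) → x ≠ y →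
    ¬ (sk F).Adj x y → u ≠ o → ¬ (sk F).Adj o u → (sk F).Adj u x → (sk F).Adj u y →
    ∃ w ∈ A, (sk F).Adj w x ∧ (sk F).Adj w u ∧ (sk F).Adj w y
  swap
  · push Not at n7
    obtain ⟨x, u, y, h1, h2, h3, h4', h5', h6', h7, h8, h9, h10⟩ := n7
    exact concl_quad ih st h1 h2 (fun h => h3 h) h4' h5' h6' h7 h8 h9
      (fun w hw h => h10 w hw h.1 h.2.1 h.2.2)
  obtain ⟨c, ca, obc, -⟩ := other_face st.sph (show ({o, b, a} : Finset V) ∈ F by
    rwa [tri_perm])
  obtain ⟨z, zo, abz, -⟩ := other_face st.sph (show ({a, b, o} : Finset V) ∈ F by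
    have : ({a, b, o} : Finset V) = {o, a, b} := by
      ext u
      simp only [Finset.mem_insert, Finset.mem_singleton]
      tauto
    rwa [this])
  exact concl_ctx
    { st := st, ns := ns, c5 := h5, pnq := pnq, ih := ih, r6 := r6, n7 := n7, opa := opa,
      am := am, oab := oab, bp := bp, obc := obc, ca := ca, abz := abz, zo := zo, bD := bD }

theorem ih_all (n : ℕ) : IH V n := by
  induction n with
  | zero => exact fun F o p m q A h => absurd h (Nat.not_lt_zero _)
  | succ n ihn =>
    intro F o p m q A hn st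
    refine concl_step (fun F' o' p' m' q' A' h' st' => ?_) st
    exact ihn F' o' p' m' q' A' (by omega) st'

theorem concl_all {F : Finset (Finset V)} {o p m q : V} {A : Finset V}
    (st : St F o p m q A) : Concl F o p m q A :=
  ih_all _ F o p m q A (Nat.lt_succ_self _) st

end Pool.Agent.Lib.MP_a33b01_co
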