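import Mathlib
import Pool.Agent.Lib.MP_9d6bd1_lc.GWagner
import Pool.Agent.Lib.MP_9d6bd1_lc.GSum1
import Pool.Agent.Lib.MP_9d6bd1_lc.GSum2
import Pool.Agent.Lib.MP_9d6bd1_lc.GSmall

set_option autoImplicit false

/-!
# MP_a33b01_co: maximal planar graphs are 2-connected
-/

namespace Pool.Agent.Lib.MP_a33b01_co

open Classical Pool.Agent.MP9d6bd1

private theorem MaxA_supp_edge {V : Type} {a b w : V} (h : w ∈ (SimpleGraph.edge a b).support) :
    w = a ∨ w = b := by
  obtain ⟨w', hw'⟩ := h
  have hw : (SimpleGraph.edge a b).Adj w w' := hw'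
  rw [SimpleGraph.edge_adj] at hw
  rcases hw.1 with ⟨h1, -⟩ | ⟨h1, -⟩
  · exact Or.inl h1
  · exact Or.inr h1

private theorem MaxA_supp_sup {V : Type} {G H : SimpleGraph V} {w : V}
    (h : w ∈ (G ⊔ H).support) : w ∈ G.support ∨ w ∈ H.support := by
  obtain ⟨w', hw⟩ := h
  rcases hw with hw | hw
  · exact Or.inl ⟨w', hw⟩
  · exact Or.inr ⟨w', hw⟩

private theorem MaxA_supp_off {V : Type} {T : SimpleGraph V} {C : Set V} {w : V}
    (h : w ∈ (off T C).support) : w ∉ C := by
  obtain ⟨w', hw⟩ := h
  exact hw.2.1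

private theorem MaxA_dual_edge {V : Type} [Finite V] (a b : V) :
    HasDual (SimpleGraph.edge a b) := by
  apply dual_small
  have h1 : (SimpleGraph.edge a b).support ⊆ {a, b} := fun w hw => by
    rcases MaxA_supp_edge hw with h | h
    · exact Or.inl h
    · exact Or.inr h
  have h2 := Set.ncard_le_ncard h1 (Set.toFinite _)
  have h3 := Set.ncard_insert_le a ({b} : Set V)
  rw [Set.ncard_singleton] at h3
  omega

/-- An edge between a union of components and the rest. -/
private theorem MaxA_one {V : Type} [Finite V] (T : SimpleGraph V) (hT : HasDual T) (C : Set V)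
    (hC : ∀ x ∈ C, ∀ y, T.Adj x y → y ∈ C) (c d : V) (hc : c ∈ C) (hd : d ∉ C) :
    HasDual (T ⊔ SimpleGraph.edge c d) := by
  have h1 : HasDual (off T C) := dual_mono (GWagnerAux.off_le T C) hT
  have h2 : HasDual (inc T C) := dual_mono (GWagnerAux.inc_le T C) hT
  have h3 : HasDual (off T C ⊔ SimpleGraph.edge c d) := by
    refine dual_sum1 _ _ ?_ h1 (MaxA_dual_edge c d)
    refine (Set.subsingleton_singleton (a := d)).anti ?_
    rintro w ⟨hw1, hw2⟩
    rcases MaxA_supp_edge hw2 with h | h
    · rw [h] at hw1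
      exact absurd hc (MaxA_supp_off hw1)
    · exact h
  have h4 : HasDual (inc T C ⊔ (off T C ⊔ SimpleGraph.edge c d)) := by
    refine dual_sum1 _ _ ?_ h2 h3
    refine (Set.subsingleton_singleton (a := c)).anti ?_
    rintro w ⟨⟨w', hw1⟩, hw2⟩
    have hwC : w ∈ C := by
      rcases hw1.2 with h | h
      · exact h
      · exact hC w' h w hw1.1.symm
    rcases MaxA_supp_sup hw2 with h | h
    · exact absurd hwC (MaxA_supp_off h)
    · rcases MaxA_supp_edge h with h | h
      · exact h
      · rw [h] at hwC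
        exact absurd hwC hd
  rwa [← sup_assoc, GWagnerAux.inc_sup_off] at h4

/-- An edge between two neighbours of a cut vertex on different sides. -/
private theorem MaxA_two {V : Type} [Finite V] (T : SimpleGraph V) (hT : HasDual T) (C : Set V)
    (z : V) (hz : z ∉ C) (hC : ∀ x ∈ C, ∀ y, T.Adj x y → y ∈ C ∨ y = z) (c d : V) (hc : c ∈ C)
    (hd : d ∉ C) (hzc : T.Adj z c) (hzd : T.Adj z d) :
    HasDual (T ⊔ SimpleGraph.edge c d) := by
  have h1 : HasDual (off T C) := dual_mono (GWagnerAux.off_le T C) hT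
  have h2 : HasDual (inc T C) := dual_mono (GWagnerAux.inc_le T C) hT
  have hzd' : SimpleGraph.edge z d ≤ off T C := by
    apply GWagnerAux.edge_le_iff
    exact ⟨hzd, hz, hd⟩
  have hzc' : SimpleGraph.edge z c ≤ inc T C := by
    apply GWagnerAux.edge_le_iff
    exact ⟨hzc, Or.inr hc⟩
  have h3 : HasDual (off T C ⊔ (SimpleGraph.edge z c ⊔ SimpleGraph.edge c d) ⊔
      SimpleGraph.edge z d) := by
    refine dual_sum2 _ _ z d hzd.ne ?_ ?_ ?_
    · rintro w ⟨hw1, hw2⟩
      rcases MaxA_supp_sup hw2 with h | h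
      · rcases MaxA_supp_edge h with h | h
        · exact Or.inl h
        · rw [h] at hw1
          exact absurd hc (MaxA_supp_off hw1)
      · rcases MaxA_supp_edge h with h | h
        · rw [h] at hw1
          exact absurd hc (MaxA_supp_off hw1)
        · exact Or.inr h
    · rwa [sup_eq_left.2 hzd']
    · apply dual_small
      have h4 : (SimpleGraph.edge z c ⊔ SimpleGraph.edge c d ⊔ SimpleGraph.edge z d).support ⊆
          {z, c, d} := by
        intro w hw
        rcases MaxA_supp_sup hw with h | h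
        · rcases MaxA_supp_sup h with h | h
          · rcases MaxA_supp_edge h with h | h
            · exact Or.inl h
            · exact Or.inr (Or.inl h)
          · rcases MaxA_supp_edge h with h | h
            · exact Or.inr (Or.inl h)
            · exact Or.inr (Or.inr h)
        · rcases MaxA_supp_edge h with h | h
          · exact Or.inl h
          · exact Or.inr (Or.inr h)
      have h5 := Set.ncard_le_ncard h4 (Set.toFinite _)
      have h6 := Set.ncard_insert_le z ({c, d} : Set V)
      have h7 := Set.ncard_insert_le c ({d} : Set V)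
      rw [Set.ncard_singleton] at h7
      omega
  have h8 : HasDual (inc T C ⊔ (off T C ⊔ SimpleGraph.edge c d) ⊔ SimpleGraph.edge z c) := by
    refine dual_sum2 _ _ z c hzc.ne ?_ ?_ ?_
    · rintro w ⟨⟨w', hw1⟩, hw2⟩
      have hwC : w ∈ C ∨ w = z := by
        rcases hw1.2 with h | h
        · exact Or.inl h
        · exact hC w' h w hw1.1.symm
      rcases hwC with hwC | hwC
      · rcases MaxA_supp_sup hw2 with h | h
        · exact absurd hwC (MaxA_supp_off h)
        · rcases MaxA_supp_edge h with h | h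
          · exact Or.inr h
          · rw [h] at hwC
            exact absurd hwC hd
      · exact Or.inl hwC
    · rwa [sup_eq_left.2 hzc']
    · refine dual_mono ?_ h3
      refine sup_le (sup_le ?_ ?_) ?_
      · exact le_sup_left.trans le_sup_left
      · exact (le_sup_right.trans le_sup_right).trans le_sup_left
      · exact (le_sup_left.trans le_sup_right).trans le_sup_left
  refine dual_mono ?_ h8
  refine sup_le ?_ ?_
  · rw [← GWagnerAux.inc_sup_off T C]
    refine sup_le ?_ ?_
    · rw [GWagnerAux.inc_sup_off T C]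
      exact le_sup_left.trans le_sup_left
    · rw [GWagnerAux.inc_sup_off T C]
      exact (le_sup_left.trans le_sup_right).trans le_sup_left
  · exact (le_sup_right.trans le_sup_right).trans le_sup_left

/-- A planar graph to which no edge can be added is 2-connected. -/
theorem max_twoConn {V : Type} [Finite V] (T : SimpleGraph V) (hT : HasDual T)
    (hmax : ∀ x y, x ≠ y → ¬ T.Adj x y → ¬ HasDual (T ⊔ SimpleGraph.edge x y))
    (h3 : 3 ≤ Nat.card V) : TwoConn T T.support ∧ T.support = Set.univ := by
  have hsupp : T.support = Set.univ := by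
    rw [Set.eq_univ_iff_forall]
    intro v
    by_contra hv
    obtain ⟨w, hw⟩ : ∃ w : V, w ≠ v := by
      by_contra hcon
      push Not at hcon
      have : Subsingleton V := ⟨fun a b => (hcon a).trans (hcon b).symm⟩
      have := Finite.card_le_one_iff_subsingleton.2 this
      omega
    have hnadj : ¬ T.Adj v w := fun h => hv ⟨w, h⟩
    refine hmax v w hw.symm hnadj ?_
    refine dual_sum1 _ _ ?_ hT (MaxA_dual_edge v w)
    refine (Set.subsingleton_singleton (a := w)).anti ?_
    rintro x ⟨hx1, hx2⟩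
    rcases MaxA_supp_edge hx2 with h | h
    · rw [h] at hx1
      exact absurd hx1 hv
    · exact h
  refine ⟨?_, hsupp⟩
  rw [hsupp]
  refine ⟨by rwa [Set.ncard_univ], fun z => ?_⟩
  intro u v
  by_contra huv
  obtain ⟨C, hC⟩ : ∃ C : Set V, C = {x | ∃ h : x ∈ (Set.univ \ {z} : Set V),
    (T.induce (Set.univ \ {z})).Reachable u ⟨x, h⟩} := ⟨_, rfl⟩
  have hzC : z ∉ C := by
    rw [hC]
    rintro ⟨h, -⟩
    exact h.2 rfl
  have huC : u.1 ∈ C := by
    rw [hC]
    exact ⟨u.2, SimpleGraph.Reachable.refl _⟩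
  have hvC : v.1 ∉ C := by
    rw [hC]
    rintro ⟨_, h⟩
    exact huv h
  have hstep : ∀ x ∈ C, ∀ y, T.Adj x y → y ∈ C ∨ y = z := by
    intro x hx y hxy
    by_cases hy : y = z
    · exact Or.inr hy
    · left
      rw [hC] at hx ⊢
      obtain ⟨hx1, hx2⟩ := hx
      have hy' : y ∈ (Set.univ \ {z} : Set V) := ⟨Set.mem_univ _, hy⟩
      refine ⟨hy', hx2.trans ?_⟩
      have h1 : (T.induce (Set.univ \ {z})).Adj ⟨x, hx1⟩ ⟨y, hy'⟩ := hxy
      exact h1.reachable
  obtain ⟨D, hD⟩ : ∃ D : Set V, D = {x | x ≠ z ∧ x ∉ C} := ⟨_, rfl⟩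
  have hvD : v.1 ∈ D := by
    rw [hD]
    exact ⟨v.2.2, hvC⟩
  have hCD : ∀ x ∈ C, x ∉ D := by
    intro x hx hxD
    rw [hD] at hxD
    exact hxD.2 hx
  have hstep' : ∀ x ∈ D, ∀ y, T.Adj x y → y ∈ D ∨ y = z := by
    intro x hx y hxy
    by_cases hy : y = z
    · exact Or.inr hy
    · left
      rw [hD] at hx ⊢
      refine ⟨hy, fun hyC => ?_⟩
      rcases hstep y hyC x hxy.symm with h | h
      · exact hx.2 h
      · exact hx.1 h
  by_cases hc : ∃ c ∈ C, T.Adj z c
  · by_cases hd : ∃ d ∈ D, T.Adj z d
    · obtain ⟨c, hc1, hc2⟩ := hc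
      obtain ⟨d, hd1, hd2⟩ := hd
      have hdC : d ∉ C := fun h => hCD d h hd1
      have hno : ¬ T.Adj c d := by
        intro h
        rcases hstep c hc1 d h with h' | h'
        · exact hdC h'
        · rw [h', hD] at hd1
          exact hd1.1 rfl
      exact hmax c d (fun h => hdC (h ▸ hc1)) hno
        (MaxA_two T hT C z hzC hstep c d hc1 hdC hc2 hd2)
    · push Not at hd
      have huD : u.1 ∉ D := hCD _ huC
      have hno : ¬ T.Adj v.1 u.1 := by
        intro h
        rcases hstep' _ hvD _ h with h' | h'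
        · exact huD h'
        · exact u.2.2 h'
      refine hmax v.1 u.1 (fun h => hvC (h ▸ huC)) hno
        (MaxA_one T hT D (fun x hx y hxy => ?_) v.1 u.1 hvD huD)
      rcases hstep' x hx y hxy with h' | h'
      · exact h'
      · rw [h'] at hxy
        exact absurd hxy.symm (hd x hx)
  · push Not at hc
    have hno : ¬ T.Adj u.1 v.1 := by
      intro h
      rcases hstep _ huC _ h with h' | h'
      · exact hvC h'
      · exact v.2.2 h'
    refine hmax u.1 v.1 (fun h => hvC (h ▸ huC)) hno
      (MaxA_one T hT C (fun x hx y hxy => ?_) u.1 v.1 huC hvC)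
    rcases hstep x hx y hxy with h' | h'
    · exact h'
    · rw [h'] at hxy
      exact absurd hxy.symm (hc x hx)

end Pool.Agent.Lib.MP_a33b01_co
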