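import Mathlib
import Pool.Agent.Lib.MP_9d6bd1_lc.GDefs
import Pool.Agent.Lib.MP_9d6bd1_lc.GEven

set_option autoImplicit false

/-!
# MP_a33b01_co: adding a chord to a face
-/

namespace Pool.Agent.Lib.MP_a33b01_co

open Classical Pool.Agent.MP9d6bd1

/-- a triangle is an even set of edges. -/
private theorem MaxB_tri {V : Type} {x w y : V} (hxw : x ≠ w) (hwy : w ≠ y) (hxy : x ≠ y) :
    EvenSet ({s(x, w), s(w, y), s(x, y)} : Set (Sym2 V)) := by
  intro v
  have h12 : s(x, w) ≠ s(w, y) := by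
    intro h
    rw [Sym2.eq_iff] at h
    rcases h with ⟨h1, -⟩ | ⟨h1, -⟩
    · exact hxw h1
    · exact hxy h1
  have h13 : s(x, w) ≠ s(x, y) := by
    intro h
    rw [Sym2.eq_iff] at h
    rcases h with ⟨-, h1⟩ | ⟨h1, -⟩
    · exact hwy h1
    · exact hxy h1
  have h23 : s(w, y) ≠ s(x, y) := by
    intro h
    rw [Sym2.eq_iff] at h
    rcases h with ⟨h1, -⟩ | ⟨h1, -⟩
    · exact hxw h1.symm
    · exact hwy h1
  by_cases hvx : v = x
  · subst hvx
    have h : {e | e ∈ ({s(v, w), s(w, y), s(v, y)} : Set (Sym2 V)) ∧ v ∈ e} =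
        {s(v, w), s(v, y)} := by
      ext e
      simp only [Set.mem_ofPred_eq, Set.mem_insert_iff, Set.mem_singleton_iff]
      constructor
      · rintro ⟨rfl | rfl | rfl, hv⟩
        · exact Or.inl rfl
        · rw [Sym2.mem_iff] at hv
          rcases hv with hv | hv
          · exact absurd hv hxw
          · exact absurd hv hxy
        · exact Or.inr rfl
      · rintro (rfl | rfl)
        · exact ⟨Or.inl rfl, by simp⟩
        · exact ⟨Or.inr (Or.inr rfl), by simp⟩
    rw [h, Set.ncard_pair h13]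
    exact even_two
  by_cases hvw : v = w
  · subst hvw
    have h : {e | e ∈ ({s(x, v), s(v, y), s(x, y)} : Set (Sym2 V)) ∧ v ∈ e} =
        {s(x, v), s(v, y)} := by
      ext e
      simp only [Set.mem_ofPred_eq, Set.mem_insert_iff, Set.mem_singleton_iff]
      constructor
      · rintro ⟨rfl | rfl | rfl, hv⟩
        · exact Or.inl rfl
        · exact Or.inr rfl
        · rw [Sym2.mem_iff] at hv
          rcases hv with hv | hv
          · exact absurd hv hvx
          · exact absurd hv hwy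
      · rintro (rfl | rfl)
        · exact ⟨Or.inl rfl, by simp⟩
        · exact ⟨Or.inr (Or.inl rfl), by simp⟩
    rw [h, Set.ncard_pair h12]
    exact even_two
  by_cases hvy : v = y
  · subst hvy
    have h : {e | e ∈ ({s(x, w), s(w, v), s(x, v)} : Set (Sym2 V)) ∧ v ∈ e} =
        {s(w, v), s(x, v)} := by
      ext e
      simp only [Set.mem_ofPred_eq, Set.mem_insert_iff, Set.mem_singleton_iff]
      constructor
      · rintro ⟨rfl | rfl | rfl, hv⟩
        · rw [Sym2.mem_iff] at hv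
          rcases hv with hv | hv
          · exact absurd hv hvx
          · exact absurd hv hvw
        · exact Or.inl rfl
        · exact Or.inr rfl
      · rintro (rfl | rfl)
        · exact ⟨Or.inr (Or.inl rfl), by simp⟩
        · exact ⟨Or.inr (Or.inr rfl), by simp⟩
    rw [h, Set.ncard_pair h23]
    exact even_two
  have h : {e | e ∈ ({s(x, w), s(w, y), s(x, y)} : Set (Sym2 V)) ∧ v ∈ e} = ∅ := by
    rw [Set.eq_empty_iff_forall_notMem]
    rintro e ⟨h1, hv⟩
    simp only [Set.mem_insert_iff, Set.mem_singleton_iff] at h1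
    rcases h1 with rfl | rfl | rfl
    · rw [Sym2.mem_iff] at hv
      exact hv.elim hvx hvw
    · rw [Sym2.mem_iff] at hv
      exact hv.elim hvw hvy
    · rw [Sym2.mem_iff] at hv
      exact hv.elim hvx hvy
  rw [h, Set.ncard_empty]
  exact Even.zero

private theorem MaxB_log0 (P E t a b q : Prop) (hP : ¬ P) (hE : E) (ht : t) :
    ((a ↔ b) → ((P ∨ E) ∧ ¬ (a ↔ b) ↔ P ∧ q)) ∧
    (¬ (a ↔ b) → ((P ∨ E) ∧ ¬ (a ↔ b) ↔ (P ∧ q) ∧ ¬ t ∨ t ∧ ¬ (P ∧ q))) := by
  simp [hP, hE, ht]

private theorem MaxB_log1 (P E t a b d : Prop) (hP : P) (ht : t) :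
    ((a ↔ b) → ((P ∨ E) ∧ ¬ (b ↔ d) ↔ P ∧ ¬ (a ↔ d))) ∧
    (¬ (a ↔ b) → ((P ∨ E) ∧ ¬ (b ↔ d) ↔
      (P ∧ ¬ (a ↔ d)) ∧ ¬ t ∨ t ∧ ¬ (P ∧ ¬ (a ↔ d)))) := by
  by_cases a <;> by_cases b <;> by_cases d <;> simp_all

private theorem MaxB_log2 (P E t a b c : Prop) (hP : P) (ht : t) :
    ((a ↔ b) → ((P ∨ E) ∧ ¬ (c ↔ b) ↔ P ∧ ¬ (c ↔ a))) ∧
    (¬ (a ↔ b) → ((P ∨ E) ∧ ¬ (c ↔ b) ↔
      (P ∧ ¬ (c ↔ a)) ∧ ¬ t ∨ t ∧ ¬ (P ∧ ¬ (c ↔ a)))) := by
  by_cases a <;> by_cases b <;> by_cases c <;> simp_all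

private theorem MaxB_log3 (P E t a b q : Prop) (hE : ¬ E) (ht : ¬ t) :
    ((a ↔ b) → ((P ∨ E) ∧ q ↔ P ∧ q)) ∧
    (¬ (a ↔ b) → ((P ∨ E) ∧ q ↔ (P ∧ q) ∧ ¬ t ∨ t ∧ ¬ (P ∧ q))) := by
  simp [hE, ht]

/-- If `x w` and `w y` are edges of a face, then the edge `x y` can be added. -/
theorem dual_split {V ι : Type} [Finite V] [Finite ι] (T : SimpleGraph V) (l r : Sym2 V → ι)
    (hD : IsDual T l r) (hlr : ∀ e ∈ T.edgeSet, l e ≠ r e) (j : ι) (x w y : V)
    (hxw : s(x, w) ∈ cut T l r {j}) (hwy : s(w, y) ∈ cut T l r {j}) (hxy : x ≠ y)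
    (hn : ¬ T.Adj x y) : HasDual (T ⊔ SimpleGraph.edge x y) := by
  have a1 : T.Adj x w := hxw.1
  have a2 : T.Adj w y := hwy.1
  have n1 : x ≠ w := a1.ne
  have n2 : w ≠ y := a2.ne
  obtain ⟨e0, he0⟩ : ∃ e0, e0 = s(x, y) := ⟨_, rfl⟩
  obtain ⟨e1, he1⟩ : ∃ e1, e1 = s(x, w) := ⟨_, rfl⟩
  obtain ⟨e2, he2⟩ : ∃ e2, e2 = s(w, y) := ⟨_, rfl⟩
  rw [← he1] at hxw
  rw [← he2] at hwy
  have hE0 : e0 ∉ T.edgeSet := by
    rw [he0, SimpleGraph.mem_edgeSet]
    exact hn
  have hG : ∀ e, e ∈ (T ⊔ SimpleGraph.edge x y).edgeSet ↔ e ∈ T.edgeSet ∨ e = e0 := by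
    intro e
    rw [he0]
    induction e using Sym2.ind with
    | _ a b =>
      rw [SimpleGraph.mem_edgeSet, SimpleGraph.mem_edgeSet, SimpleGraph.sup_adj,
        SimpleGraph.edge_adj, Sym2.eq_iff]
      constructor
      · rintro (h | ⟨h, -⟩)
        · exact Or.inl h
        · right
          tauto
      · rintro (h | h)
        · exact Or.inl h
        · right
          refine ⟨by tauto, ?_⟩
          rintro rfl
          rcases h with ⟨h1, h2⟩ | ⟨h1, h2⟩
          · exact hxy (h1.symm.trans h2)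
          · exact hxy (h2.symm.trans h1)
  have htri : EvenSet ({e1, e2, e0} : Set (Sym2 V)) := by
    rw [he1, he2, he0]
    exact MaxB_tri n1 n2 hxy
  obtain ⟨l', hl'⟩ : ∃ l' : Sym2 V → Option ι, ∀ e, l' e =
      if e = e0 then some j else if (e = e1 ∨ e = e2) ∧ l e = j then none else some (l e) :=
    ⟨_, fun _ => rfl⟩
  obtain ⟨r', hr'⟩ : ∃ r' : Sym2 V → Option ι, ∀ e, r' e =
      if e = e0 then none else if (e = e1 ∨ e = e2) ∧ r e = j then none else some (r e) :=
    ⟨_, fun _ => rfl⟩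
  -- membership in the new cuts
  have key : ∀ (J' : Set (Option ι)) (e : Sym2 V),
      ((some j ∈ J' ↔ none ∈ J') → (e ∈ cut (T ⊔ SimpleGraph.edge x y) l' r' J' ↔
        e ∈ cut T l r {i | some i ∈ J'})) ∧
      (¬ (some j ∈ J' ↔ none ∈ J') → (e ∈ cut (T ⊔ SimpleGraph.edge x y) l' r' J' ↔
        e ∈ symmDiff (cut T l r {i | some i ∈ J'}) {e1, e2, e0})) := by
    intro J' e
    have hcut : e ∈ cut (T ⊔ SimpleGraph.edge x y) l' r' J' ↔
        (e ∈ T.edgeSet ∨ e = e0) ∧ ¬ (l' e ∈ J' ↔ r' e ∈ J') := by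
      rw [← hG]
      rfl
    have hcut2 : e ∈ cut T l r {i | some i ∈ J'} ↔
        e ∈ T.edgeSet ∧ ¬ (some (l e) ∈ J' ↔ some (r e) ∈ J') := Iff.rfl
    have htr : e ∈ ({e1, e2, e0} : Set (Sym2 V)) ↔ e = e1 ∨ e = e2 ∨ e = e0 := by
      simp only [Set.mem_insert_iff, Set.mem_singleton_iff]
    rw [Set.mem_symmDiff, htr, hcut, hcut2, hl', hr']
    by_cases h0 : e = e0
    · have h1 : e ∉ T.edgeSet := by rw [h0]; exact hE0
      rw [if_pos h0, if_pos h0]
      exact MaxB_log0 _ _ _ _ _ _ h1 h0 (Or.inr (Or.inr h0))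
    · rw [if_neg h0, if_neg h0]
      by_cases h12 : e = e1 ∨ e = e2
      · have hc : e ∈ cut T l r {j} := by
          rcases h12 with h | h
          · rw [h]; exact hxw
          · rw [h]; exact hwy
        have hT : e ∈ T.edgeSet := hc.1
        have hx : ¬ (l e = j ↔ r e = j) := hc.2
        have ht : e = e1 ∨ e = e2 ∨ e = e0 := h12.elim Or.inl (fun h => Or.inr (Or.inl h))
        by_cases hlj : l e = j
        · have hrj : ¬ r e = j := fun h => hx ⟨fun _ => h, fun _ => hlj⟩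
          rw [if_pos ⟨h12, hlj⟩, if_neg (fun h => hrj h.2), hlj]
          exact MaxB_log1 _ _ _ _ _ _ hT ht
        · have hrj : r e = j := by
            by_contra h
            exact hx ⟨fun h' => absurd h' hlj, fun h' => absurd h' h⟩
          rw [if_neg (fun h => hlj h.2), if_pos ⟨h12, hrj⟩, hrj]
          exact MaxB_log2 _ _ _ _ _ _ hT ht
      · rw [if_neg (fun h => h12 h.1), if_neg (fun h => h12 h.1)]
        refine MaxB_log3 _ _ _ _ _ _ h0 ?_
        rintro (h | h | h)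
        · exact h12 (Or.inl h)
        · exact h12 (Or.inr h)
        · exact h0 h
  have keyP : ∀ J' : Set (Option ι), (j ∈ {i | some i ∈ J'} ↔ none ∈ J') →
      cut (T ⊔ SimpleGraph.edge x y) l' r' J' = cut T l r {i | some i ∈ J'} := by
    intro J' hb
    ext e
    exact (key J' e).1 hb
  have keyN : ∀ J' : Set (Option ι), ¬ (j ∈ {i | some i ∈ J'} ↔ none ∈ J') →
      cut (T ⊔ SimpleGraph.edge x y) l' r' J' =
        symmDiff (cut T l r {i | some i ∈ J'}) {e1, e2, e0} := by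
    intro J' hb
    ext e
    exact (key J' e).2 hb
  refine ⟨Option ι, l', r', inferInstance, ⟨none⟩, ?_, ?_, ?_⟩
  · intro J'
    by_cases hb : (j ∈ {i | some i ∈ J'} ↔ none ∈ J')
    · rw [keyP J' hb]
      exact hD.even _
    · rw [keyN J' hb]
      exact even_symmDiff (hD.even _) htri
  · intro Z hZ hZe
    by_cases h0 : e0 ∈ Z
    · have hZ' : symmDiff Z {e1, e2, e0} ⊆ T.edgeSet := by
        intro e he
        rw [Set.mem_symmDiff] at he
        simp only [Set.mem_insert_iff, Set.mem_singleton_iff] at he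
        rcases he with ⟨h1, h2⟩ | ⟨h1, h2⟩
        · rcases (hG e).1 (hZ h1) with h3 | h3
          · exact h3
          · exact absurd (Or.inr (Or.inr h3)) h2
        · rcases h1 with h1 | h1 | h1
          · rw [h1]; exact hxw.1
          · rw [h1]; exact hwy.1
          · rw [h1] at h2; exact absurd h0 h2
      obtain ⟨J, hJ⟩ := hD.exist _ hZ' (even_symmDiff hZe htri)
      refine ⟨{o | (∃ i ∈ J, o = some i) ∨ (o = none ∧ j ∉ J)}, ?_⟩
      have hJs : {i | some i ∈ {o : Option ι | (∃ i ∈ J, o = some i) ∨ (o = none ∧ j ∉ J)}} =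
          J := by
        ext i
        simp
      rw [keyN, hJs, hJ]
      · rw [symmDiff_assoc, symmDiff_self]
        exact symmDiff_bot Z
      · rw [hJs]
        simp
    · have hZ' : Z ⊆ T.edgeSet := by
        intro e he
        rcases (hG e).1 (hZ he) with h3 | h3
        · exact h3
        · rw [h3] at he; exact absurd he h0
      obtain ⟨J, hJ⟩ := hD.exist _ hZ' hZe
      refine ⟨{o | (∃ i ∈ J, o = some i) ∨ (o = none ∧ j ∈ J)}, ?_⟩
      have hJs : {i | some i ∈ {o : Option ι | (∃ i ∈ J, o = some i) ∨ (o = none ∧ j ∈ J)}} =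
          J := by
        ext i
        simp
      rw [keyP, hJs, hJ]
      rw [hJs]
      simp
  · intro J' hJ'
    have hb : (j ∈ {i | some i ∈ J'} ↔ none ∈ J') := by
      by_contra hb
      have h1 : e0 ∈ cut (T ⊔ SimpleGraph.edge x y) l' r' J' := by
        rw [keyN J' hb, Set.mem_symmDiff]
        right
        refine ⟨by simp, fun h => hE0 h.1⟩
      rw [hJ'] at h1
      exact h1
    rw [keyP J' hb] at hJ'
    rcases hD.conn _ hJ' with h | h
    · left
      rw [Set.eq_empty_iff_forall_notMem]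
      have hs : ∀ i, some i ∉ J' := by
        intro i hi
        have : i ∈ {i | some i ∈ J'} := hi
        rw [h] at this
        exact this
      intro o
      cases o with
      | none => exact fun hno => hs j (hb.2 hno)
      | some i => exact hs i
    · right
      rw [Set.eq_univ_iff_forall]
      have hs : ∀ i, some i ∈ J' := by
        intro i
        have : i ∈ {i | some i ∈ J'} := by rw [h]; trivial
        exact this
      intro o
      cases o with
      | none => exact hb.1 (hs j)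
      | some i => exact hs i

end Pool.Agent.Lib.MP_a33b01_co
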