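import Mathlib
import Pool.Agent.Lib.MP_9d6bd1_lc.GDefs
import Pool.Agent.Lib.MP_9d6bd1_lc.GEven

set_option autoImplicit false

/-!
# MP_a33b01_co: the faces of a maximal planar graph
-/

namespace Pool.Agent.Lib.MP_a33b01_co

open Classical Pool.Agent.MP9d6bd1

private theorem MaxC_single {V : Type} (Z : Set (Sym2 V)) (v : V) (e : Sym2 V)
    (hZ : EvenSet Z) (he : e ∈ Z) (hv : v ∈ e) (hu : ∀ e' ∈ Z, v ∈ e' → e' = e) : False := by
  have h1 := hZ v
  have h2 : {e' | e' ∈ Z ∧ v ∈ e'} = {e} := by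
    apply Set.eq_singleton_iff_unique_mem.2
    exact ⟨⟨he, hv⟩, fun e' h => hu e' h.1 h.2⟩
  rw [h2, Set.ncard_singleton] at h1
  exact absurd h1 (by decide)

private theorem MaxC_tri_even {V : Type} (x y z : V) (hxy : x ≠ y) (hyz : y ≠ z)
    (hxz : x ≠ z) : EvenSet ({s(x, y), s(y, z), s(x, z)} : Set (Sym2 V)) := by
  intro v
  by_cases hx : v = x
  · subst hx
    have h : {e | e ∈ ({s(v, y), s(y, z), s(v, z)} : Set (Sym2 V)) ∧ v ∈ e} =
        {s(v, y), s(v, z)} := by
      ext e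
      simp only [Set.mem_insert_iff, Set.mem_singleton_iff, Set.mem_ofPred_eq]
      constructor
      · rintro ⟨h1 | h1 | h1, h2⟩
        · exact Or.inl h1
        · rw [h1, Sym2.mem_iff] at h2
          exact absurd h2 (by tauto)
        · exact Or.inr h1
      · rintro (h1 | h1)
        · exact ⟨Or.inl h1, h1 ▸ Sym2.mem_mk_left _ _⟩
        · exact ⟨Or.inr (Or.inr h1), h1 ▸ Sym2.mem_mk_left _ _⟩
    rw [h, Set.ncard_pair]
    · exact even_two
    · intro h3
      rw [Sym2.eq_iff] at h3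
      tauto
  · by_cases hy : v = y
    · subst hy
      have h : {e | e ∈ ({s(x, v), s(v, z), s(x, z)} : Set (Sym2 V)) ∧ v ∈ e} =
          {s(x, v), s(v, z)} := by
        ext e
        simp only [Set.mem_insert_iff, Set.mem_singleton_iff, Set.mem_ofPred_eq]
        constructor
        · rintro ⟨h1 | h1 | h1, h2⟩
          · exact Or.inl h1
          · exact Or.inr h1
          · rw [h1, Sym2.mem_iff] at h2
            exact absurd h2 (by tauto)
        · rintro (h1 | h1)
          · exact ⟨Or.inl h1, h1 ▸ Sym2.mem_mk_right _ _⟩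
          · exact ⟨Or.inr (Or.inl h1), h1 ▸ Sym2.mem_mk_left _ _⟩
      rw [h, Set.ncard_pair]
      · exact even_two
      · intro h3
        rw [Sym2.eq_iff] at h3
        tauto
    · by_cases hz : v = z
      · subst hz
        have h : {e | e ∈ ({s(x, y), s(y, v), s(x, v)} : Set (Sym2 V)) ∧ v ∈ e} =
            {s(y, v), s(x, v)} := by
          ext e
          simp only [Set.mem_insert_iff, Set.mem_singleton_iff, Set.mem_ofPred_eq]
          constructor
          · rintro ⟨h1 | h1 | h1, h2⟩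
            · rw [h1, Sym2.mem_iff] at h2
              exact absurd h2 (by tauto)
            · exact Or.inl h1
            · exact Or.inr h1
          · rintro (h1 | h1)
            · exact ⟨Or.inr (Or.inl h1), h1 ▸ Sym2.mem_mk_right _ _⟩
            · exact ⟨Or.inr (Or.inr h1), h1 ▸ Sym2.mem_mk_right _ _⟩
        rw [h, Set.ncard_pair]
        · exact even_two
        · intro h3
          rw [Sym2.eq_iff] at h3
          tauto
      · have h : {e | e ∈ ({s(x, y), s(y, z), s(x, z)} : Set (Sym2 V)) ∧ v ∈ e} = ∅ := by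
          rw [Set.eq_empty_iff_forall_notMem]
          rintro e ⟨h1, h2⟩
          simp only [Set.mem_insert_iff, Set.mem_singleton_iff] at h1
          rcases h1 with h1 | h1 | h1 <;> rw [h1, Sym2.mem_iff] at h2 <;> tauto
        rw [h, Set.ncard_empty]
        exact Even.zero

private theorem MaxC_other {V : Type} [Finite V] (D : Set (Sym2 V)) (w x : V)
    (hdeg : {e | e ∈ D ∧ w ∈ e}.ncard = 0 ∨ {e | e ∈ D ∧ w ∈ e}.ncard = 2)
    (h : s(w, x) ∈ D) :
    ∃ y, y ≠ x ∧ s(w, y) ∈ D ∧ ∀ e ∈ D, w ∈ e → e = s(w, x) ∨ e = s(w, y) := by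
  have hmem : s(w, x) ∈ {e | e ∈ D ∧ w ∈ e} := ⟨h, Sym2.mem_mk_left _ _⟩
  rcases hdeg with h0 | h2
  · rw [Set.ncard_eq_zero] at h0
    rw [h0] at hmem
    exact absurd hmem (Set.notMem_empty _)
  · obtain ⟨a, b, hab, hs⟩ := Set.ncard_eq_two.1 h2
    have key : ∀ c : Sym2 V, c ∈ {e | e ∈ D ∧ w ∈ e} → c ≠ s(w, x) →
        (∀ e ∈ D, w ∈ e → e = s(w, x) ∨ e = c) →
        ∃ y, y ≠ x ∧ s(w, y) ∈ D ∧ ∀ e ∈ D, w ∈ e → e = s(w, x) ∨ e = s(w, y) := by
      intro c hc hcx hall
      obtain ⟨y, rfl⟩ := Sym2.mem_iff_exists.1 hc.2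
      refine ⟨y, ?_, hc.1, hall⟩
      rintro rfl
      exact hcx rfl
    have ha : a ∈ {e | e ∈ D ∧ w ∈ e} := by rw [hs]; exact Or.inl rfl
    have hb : b ∈ {e | e ∈ D ∧ w ∈ e} := by rw [hs]; exact Or.inr rfl
    rw [hs] at hmem
    rcases hmem with h3 | h3
    · refine key b hb ?_ ?_
      · intro h4
        exact hab (h3.symm.trans h4.symm)
      · intro e he hwe
        have : e ∈ {e | e ∈ D ∧ w ∈ e} := ⟨he, hwe⟩
        rw [hs] at this
        rcases this with h5 | h5
        · exact Or.inl (h5.trans h3.symm)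
        · exact Or.inr h5
    · rw [Set.mem_singleton_iff] at h3
      refine key a ha ?_ ?_
      · intro h4
        exact hab (h4.trans h3)
      · intro e he hwe
        have : e ∈ {e | e ∈ D ∧ w ∈ e} := ⟨he, hwe⟩
        rw [hs] at this
        rcases this with h5 | h5
        · exact Or.inr h5
        · exact Or.inl (h5.trans h3.symm)

private theorem MaxC_side {V ι : Type} (T : SimpleGraph V) (l r : Sym2 V → ι)
    (hD : IsDual T l r) (j : ι) (Z : Set (Sym2 V)) (hZ : Z ⊆ T.edgeSet) (hE : EvenSet Z) :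
    ∃ H : Set ι, j ∉ H ∧ cut T l r H = Z := by
  obtain ⟨H, hH⟩ := hD.exist Z hZ hE
  by_cases hj : j ∈ H
  · exact ⟨Hᶜ, fun h => h hj, by rw [cut_compl, hH]⟩
  · exact ⟨H, hj, hH⟩

/-- If any two edges of a face with a common end are in a triangle, then all faces are
triangles. -/
theorem face_triangle {V ι : Type} [Finite V] [Finite ι] (T : SimpleGraph V) (l r : Sym2 V → ι)
    (hD : IsDual T l r) (hlr : ∀ e ∈ T.edgeSet, l e ≠ r e)
    (hne : ∀ j, (cut T l r {j}).Nonempty)
    (hmin : ∀ j, ∀ Z ⊆ cut T l r {j}, EvenSet Z → Z = ∅ ∨ Z = cut T l r {j})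
    (hdeg : ∀ j v, {e | e ∈ cut T l r {j} ∧ v ∈ e}.ncard = 0 ∨
      {e | e ∈ cut T l r {j} ∧ v ∈ e}.ncard = 2)
    (hadj : ∀ j x w y, s(x, w) ∈ cut T l r {j} → s(w, y) ∈ cut T l r {j} → x ≠ y →
      T.Adj x y) :
    ∀ j, ∃ x y z, x ≠ y ∧ y ≠ z ∧ x ≠ z ∧ cut T l r {j} = {s(x, y), s(y, z), s(x, z)} := by
  intro j
  obtain ⟨e, he⟩ := hne j
  induction e using Sym2.ind with
  | _ w x =>
  have hsub : cut T l r {j} ⊆ T.edgeSet := fun e h => h.1
  have hwx : w ≠ x := (hsub he : T.Adj w x).ne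
  obtain ⟨y, hyx, hwy, hw⟩ := MaxC_other (cut T l r {j}) w x (hdeg j w) he
  have hwy' : w ≠ y := (hsub hwy : T.Adj w y).ne
  have hxwD : s(x, w) ∈ cut T l r {j} := by rw [Sym2.eq_swap]; exact he
  have hxyA : T.Adj x y := hadj j x w y hxwD hwy hyx.symm
  by_cases hxy : s(x, y) ∈ cut T l r {j}
  · refine ⟨x, w, y, hwx.symm, hwy', hyx.symm, ?_⟩
    have hs : ({s(x, w), s(w, y), s(x, y)} : Set (Sym2 V)) ⊆ cut T l r {j} := by
      rintro e' (h1 | h1 | h1)
      · rw [h1]; exact hxwD
      · rw [h1]; exact hwy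
      · rw [Set.mem_singleton_iff] at h1
        rw [h1]; exact hxy
    rcases hmin j _ hs (MaxC_tri_even x w y hwx.symm hwy' hyx.symm) with h | h
    · exact absurd h (Set.insert_nonempty _ _).ne_empty
    · exact h.symm
  · exfalso
    obtain ⟨x', hx'w, hxx', hx⟩ := MaxC_other (cut T l r {j}) x w (hdeg j x) hxwD
    have hxx'n : x ≠ x' := (hsub hxx' : T.Adj x x').ne
    have hx'y : x' ≠ y := by
      rintro rfl
      exact hxy hxx'
    have hwx'A : T.Adj w x' := hadj j w x x' he hxx' hx'w.symm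
    obtain ⟨H1, hj1, hH1⟩ := MaxC_side T l r hD j {s(x, y), s(y, w), s(x, w)} (by
      rintro e' (h1 | h1 | h1)
      · rw [h1]; exact hxyA
      · rw [h1, Sym2.eq_swap]; exact hsub hwy
      · rw [Set.mem_singleton_iff] at h1
        rw [h1]; exact hsub hxwD) (MaxC_tri_even x y w hyx.symm hwy'.symm hwx.symm)
    obtain ⟨H2, hj2, hH2⟩ := MaxC_side T l r hD j {s(w, x), s(x, x'), s(w, x')} (by
      rintro e' (h1 | h1 | h1)
      · rw [h1]; exact hsub he
      · rw [h1]; exact hsub hxx'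
      · rw [Set.mem_singleton_iff] at h1
        rw [h1]; exact hwx'A) (MaxC_tri_even w x x' hwx hxx'n hx'w.symm)
    have hK := hD.even (H1 ∩ H2)
    -- edges of the face `j`
    have hDK : ∀ e' ∈ cut T l r {j}, e' ∈ cut T l r (H1 ∩ H2) ↔
        e' ∈ cut T l r H1 ∧ e' ∈ cut T l r H2 := by
      intro e' he'
      simp only [cut, Set.mem_ofPred_eq, Set.mem_singleton_iff, Set.mem_inter_iff] at he' ⊢
      obtain ⟨h1, h2⟩ := he'
      by_cases hl : l e' = j
      · have hr : r e' ≠ j := by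
          intro h3
          exact h2 ⟨fun _ => h3, fun _ => hl⟩
        rw [hl]
        tauto
      · have hr : r e' = j := by
          by_contra h3
          exact h2 ⟨fun h => absurd h hl, fun h => absurd h h3⟩
        rw [hr]
        tauto
    have hKsub : ∀ e' ∈ cut T l r (H1 ∩ H2), e' ∈ cut T l r H1 ∨ e' ∈ cut T l r H2 := by
      intro e' he'
      simp only [cut, Set.mem_ofPred_eq, Set.mem_inter_iff] at he' ⊢
      tauto
    have hxwK : s(x, w) ∈ cut T l r (H1 ∩ H2) := by
      rw [hDK _ hxwD, hH1, hH2]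
      refine ⟨Or.inr (Or.inr rfl), Or.inl ?_⟩
      exact Sym2.eq_swap
    have hyw : s(y, w) ∉ cut T l r (H1 ∩ H2) := by
      have : s(y, w) ∈ cut T l r {j} := by rw [Sym2.eq_swap]; exact hwy
      rw [hDK _ this, hH2]
      rintro ⟨-, h1 | h1 | h1⟩
      · rw [Sym2.eq_iff] at h1; tauto
      · rw [Sym2.eq_iff] at h1; tauto
      · rw [Set.mem_singleton_iff, Sym2.eq_iff] at h1
        have := hx'y.symm
        tauto
    have hxx'K : s(x, x') ∉ cut T l r (H1 ∩ H2) := by
      rw [hDK _ hxx', hH1]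
      rintro ⟨h1 | h1 | h1, -⟩
      · rw [Sym2.eq_iff] at h1; tauto
      · rw [Sym2.eq_iff] at h1
        have := hx'y.symm
        tauto
      · rw [Set.mem_singleton_iff, Sym2.eq_iff] at h1
        tauto
    have hall : ∀ e' ∈ cut T l r (H1 ∩ H2), e' = s(x, y) ∨ e' = s(x, w) ∨ e' = s(w, x') := by
      intro e' he'
      have h1 := hKsub e' he'
      rw [hH1, hH2] at h1
      rcases h1 with (h1 | h1 | h1) | (h1 | h1 | h1)
      · exact Or.inl h1
      · exact absurd (h1 ▸ he') hyw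
      · exact Or.inr (Or.inl h1)
      · exact Or.inr (Or.inl (h1.trans Sym2.eq_swap))
      · exact absurd (h1 ▸ he') hxx'K
      · exact Or.inr (Or.inr h1)
    by_cases hxyK : s(x, y) ∈ cut T l r (H1 ∩ H2)
    · refine MaxC_single _ y _ hK hxyK (Sym2.mem_mk_right _ _) ?_
      intro e' he' hy
      rcases hall e' he' with h1 | h1 | h1
      · exact h1
      · rw [h1, Sym2.mem_iff] at hy
        rcases hy with h2 | h2
        · exact absurd h2 hyx
        · exact absurd h2.symm hwy'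
      · rw [h1, Sym2.mem_iff] at hy
        rcases hy with h2 | h2
        · exact absurd h2.symm hwy'
        · exact absurd h2.symm hx'y
    · refine MaxC_single _ x _ hK hxwK (Sym2.mem_mk_left _ _) ?_
      intro e' he' hxe
      rcases hall e' he' with h1 | h1 | h1
      · exact absurd (h1 ▸ he') hxyK
      · exact h1
      · rw [h1, Sym2.mem_iff] at hxe
        rcases hxe with h2 | h2
        · exact absurd h2.symm hwx
        · exact absurd h2 hxx'n

end Pool.Agent.Lib.MP_a33b01_co
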