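import Mathlib
import Pool.Agent.Lib.MP_9d6bd1_lc.GDefs
import Pool.Agent.Lib.MP_9d6bd1_lc.GEven
import Pool.Agent.Lib.MP_a33b01_co.SphA

set_option autoImplicit false

/-!
# MP_a33b01_co: the triangulation of a dual with triangular faces
-/

namespace Pool.Agent.Lib.MP_a33b01_co

open Classical Pool.Agent.MP9d6bd1

/-- the pairs inside a triple -/
private theorem MaxD_mem {V : Type} {x y z : V} (hxy : x ≠ y) (hyz : y ≠ z) (hxz : x ≠ z)
    (a b : V) : s(a, b) ∈ ({s(x, y), s(y, z), s(x, z)} : Set (Sym2 V)) ↔
      a ≠ b ∧ a ∈ ({x, y, z} : Finset V) ∧ b ∈ ({x, y, z} : Finset V) := by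
  simp only [Set.mem_insert_iff, Set.mem_singleton_iff, Sym2.eq_iff, Finset.mem_insert,
    Finset.mem_singleton]
  constructor
  · rintro ((⟨rfl, rfl⟩ | ⟨rfl, rfl⟩) | (⟨rfl, rfl⟩ | ⟨rfl, rfl⟩) | (⟨rfl, rfl⟩ | ⟨rfl, rfl⟩))
    · exact ⟨hxy, by simp, by simp⟩
    · exact ⟨hxy.symm, by simp, by simp⟩
    · exact ⟨hyz, by simp, by simp⟩
    · exact ⟨hyz.symm, by simp, by simp⟩
    · exact ⟨hxz, by simp, by simp⟩
    · exact ⟨hxz.symm, by simp, by simp⟩
  · rintro ⟨hab, rfl | rfl | rfl, rfl | rfl | rfl⟩
    · exact absurd rfl hab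
    · simp
    · simp
    · simp
    · exact absurd rfl hab
    · simp
    · simp
    · simp
    · exact absurd rfl hab

/-- the number of the faces of `H` at a pair -/
private theorem MaxD_cn {V ι : Type} [Finite ι] (T : SimpleGraph V) (l r : Sym2 V → ι)
    (hlr : ∀ e ∈ T.edgeSet, l e ≠ r e) (tri : ι → Finset V) (hinj : Function.Injective tri)
    (hmem : ∀ j a b, s(a, b) ∈ cut T l r {j} ↔ a ≠ b ∧ a ∈ tri j ∧ b ∈ tri j)
    (H : Finset (Finset V)) (hH : ∀ t ∈ H, ∃ j, tri j = t) (a b : V) (hab : a ≠ b) :
    cn H a b = if T.Adj a b then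
      (if tri (l s(a, b)) ∈ H then 1 else 0) + (if tri (r s(a, b)) ∈ H then 1 else 0) else 0 := by
  split_ifs with hT
  all_goals try
    · have h1 : H.filter (fun t => a ∈ t ∧ b ∈ t) =
          (({l s(a, b), r s(a, b)} : Finset ι).filter fun j => tri j ∈ H).image tri := by
        ext t
        simp only [Finset.mem_filter, Finset.mem_image, Finset.mem_insert, Finset.mem_singleton]
        constructor
        · rintro ⟨ht, ha, hb⟩
          obtain ⟨j, rfl⟩ := hH t ht
          have h2 := (hmem j a b).2 ⟨hab, ha, hb⟩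
          refine ⟨j, ⟨?_, ht⟩, rfl⟩
          by_contra hcon
          push Not at hcon
          apply h2.2
          simp only [Set.mem_singleton_iff]
          constructor
          · intro h3
            exact absurd h3.symm hcon.1
          · intro h3
            exact absurd h3.symm hcon.2
        · rintro ⟨j, ⟨hj, ht⟩, rfl⟩
          have hne := hlr s(a, b) hT
          have h2 : s(a, b) ∈ cut T l r {j} := by
            refine ⟨hT, ?_⟩
            simp only [Set.mem_singleton_iff]
            rcases hj with rfl | rfl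
            · intro h3
              exact hne (h3.1 rfl).symm
            · intro h3
              exact hne (h3.2 rfl)
          exact ⟨ht, ((hmem j a b).1 h2).2⟩
      unfold cn
      rw [h1, Finset.card_image_of_injective _ hinj, Finset.card_filter,
        Finset.sum_pair (hlr s(a, b) hT)]
      simp_all
  · unfold cn
    rw [Finset.card_eq_zero, Finset.filter_eq_empty_iff]
    rintro t ht ⟨ha, hb⟩
    obtain ⟨j, rfl⟩ := hH t ht
    exact hT ((hmem j a b).2 ⟨hab, ha, hb⟩).1

/-- the edges at a vertex correspond to its neighbours -/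
private theorem MaxD_even {V : Type} (Z : SimpleGraph V) (h : EvenG Z) : EvenSet Z.edgeSet := by
  intro v
  have h1 : {e | e ∈ Z.edgeSet ∧ v ∈ e} = (fun w => s(v, w)) '' Z.neighborSet v := by
    ext e
    simp only [Set.mem_ofPred_eq, Set.mem_image, SimpleGraph.mem_neighborSet]
    constructor
    · rintro ⟨h2, h3⟩
      obtain ⟨w, rfl⟩ := Sym2.mem_iff_exists.1 h3
      exact ⟨w, h2, rfl⟩
    · rintro ⟨w, hw, rfl⟩
      exact ⟨hw, by simp⟩
  rw [h1, Set.InjOn.ncard_image]
  · exact h v
  · intro a _ b _ hab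
    have h2 : s(v, a) = s(v, b) := hab
    rw [Sym2.eq_iff] at h2
    rcases h2 with ⟨-, h3⟩ | ⟨h3, h4⟩
    · exact h3
    · exact h4.trans h3

theorem sph_of_dual {V ι : Type} [Finite V] [Finite ι] (T : SimpleGraph V) (l r : Sym2 V → ι)
    (hD : IsDual T l r) (hlr : ∀ e ∈ T.edgeSet, l e ≠ r e)
    (htri : ∀ j, ∃ x y z, x ≠ y ∧ y ≠ z ∧ x ≠ z ∧
      cut T l r {j} = {s(x, y), s(y, z), s(x, z)}) (h4 : 4 ≤ T.support.ncard) :
    ∃ F : Finset (Finset V), Sph F ∧ (∀ x y, (sk F).Adj x y ↔ T.Adj x y) ∧
      ∀ v ∈ T.support, v ∈ supp F := by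
  choose x y z hxy hyz hxz hcut using htri
  set tri : ι → Finset V := fun j => {x j, y j, z j} with htridef
  have hmem : ∀ j a b, s(a, b) ∈ cut T l r {j} ↔ a ≠ b ∧ a ∈ tri j ∧ b ∈ tri j := by
    intro j a b
    rw [hcut j]
    exact MaxD_mem (hxy j) (hyz j) (hxz j) a b
  have hinj : Function.Injective tri := by
    intro j j' hjj
    by_contra hne
    have hc : cut T l r {j} = cut T l r {j'} := by
      ext e
      induction e using Sym2.ind with
      | _ a b => rw [hmem, hmem, hjj]
    have h1 : cut T l r (symmDiff {j} {j'}) = ∅ := by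
      rw [cut_symmDiff, hc, symmDiff_self]
      rfl
    rcases hD.conn _ h1 with h2 | h2
    · rw [← Set.bot_eq_empty, symmDiff_eq_bot] at h2
      exact hne (Set.singleton_injective h2)
    · have h3 : T.support ⊆ (tri j : Set V) := by
        rintro v ⟨w, hw⟩
        have h5 : ∀ i : ι, i = j ∨ i = j' := by
          intro i
          have h6 : i ∈ symmDiff ({j} : Set ι) {j'} := by
            rw [h2]
            trivial
          rw [Set.mem_symmDiff] at h6
          rcases h6 with h6 | h6
          · exact Or.inl h6.1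
          · exact Or.inr h6.1
        have hlr' := hlr s(v, w) hw
        have h7 : s(v, w) ∈ cut T l r {j} := by
          refine ⟨hw, ?_⟩
          simp only [Set.mem_singleton_iff]
          intro h8
          rcases h5 (l s(v, w)) with h9 | h9
          · exact hlr' (h9.trans (h8.1 h9).symm)
          · rcases h5 (r s(v, w)) with h10 | h10
            · exact hlr' ((h8.2 h10).trans h10.symm)
            · exact hlr' (h9.trans h10.symm)
        exact ((hmem j v w).1 h7).2.1
      have h5 : T.support.ncard ≤ (tri j).card := by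
        rw [← Set.ncard_coe_finset]
        exact Set.ncard_le_ncard h3
      have h6 : (tri j).card ≤ 3 := Finset.card_le_three
      omega
  have : Fintype ι := Fintype.ofFinite ι
  set F : Finset (Finset V) := Finset.univ.image tri with hF
  have hFj : ∀ t ∈ F, ∃ j, tri j = t := by
    intro t ht
    obtain ⟨j, -, hj⟩ := Finset.mem_image.1 ht
    exact ⟨j, hj⟩
  have hjF : ∀ j, tri j ∈ F := fun j => Finset.mem_image_of_mem _ (Finset.mem_univ j)
  have hcn : ∀ H ⊆ F, ∀ a b, a ≠ b → cn H a b = if T.Adj a b then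
      (if tri (l s(a, b)) ∈ H then 1 else 0) + (if tri (r s(a, b)) ∈ H then 1 else 0) else 0 :=
    fun H hH a b hab => MaxD_cn T l r hlr tri hinj hmem H (fun t ht => hFj t (hH ht)) a b hab
  have hadj : ∀ a b, (sk F).Adj a b ↔ T.Adj a b := by
    intro a b
    rw [adj_iff_cn]
    constructor
    · rintro ⟨hab, h1⟩
      rw [hcn F subset_rfl a b hab] at h1
      by_contra h2
      rw [if_neg h2] at h1
      exact h1 rfl
    · intro h1
      refine ⟨h1.ne, ?_⟩
      rw [hcn F subset_rfl a b h1.ne, if_pos h1, if_pos (hjF _), if_pos (hjF _)]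
      decide
  refine ⟨F, ⟨?_, ?_, ?_, ?_⟩, hadj, ?_⟩
  · intro t ht
    obtain ⟨j, rfl⟩ := hFj t ht
    exact Finset.card_eq_three.2 ⟨x j, y j, z j, hxy j, hxz j, hyz j, rfl⟩
  · intro a b h
    have h1 := (hadj a b).1 h
    rw [hcn F subset_rfl a b h1.ne, if_pos h1, if_pos (hjF _), if_pos (hjF _)]
  · intro H hH hev
    have h1 : cut T l r {j | tri j ∈ H} = ∅ := by
      rw [Set.eq_empty_iff_forall_notMem]
      intro e
      induction e using Sym2.ind with
      | _ a b =>
        rintro ⟨he, h2⟩
        have hT : T.Adj a b := he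
        have h3 := hev a b hT.ne
        rw [hcn H hH a b hT.ne, if_pos hT] at h3
        apply h2
        simp only [Set.mem_ofPred_eq]
        by_cases h5 : tri (l s(a, b)) ∈ H <;> by_cases h6 : tri (r s(a, b)) ∈ H
        · simp [h5, h6]
        · simp [h5, h6] at h3
        · simp [h5, h6] at h3
        · simp [h5, h6]
    rcases hD.conn _ h1 with h2 | h2
    · left
      rw [Finset.eq_empty_iff_forall_notMem]
      intro t ht
      obtain ⟨j, rfl⟩ := hFj t (hH ht)
      have h3 : j ∈ {j | tri j ∈ H} := ht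
      rw [h2] at h3
      exact h3
    · right
      apply Finset.Subset.antisymm hH
      intro t ht
      obtain ⟨j, rfl⟩ := hFj t ht
      have h3 : j ∈ {j | tri j ∈ H} := by
        rw [h2]
        trivial
      exact h3
  · intro Z hZ hev
    have hZT : Z.edgeSet ⊆ T.edgeSet := by
      intro e
      induction e using Sym2.ind with
      | _ a b =>
        intro h
        exact (hadj a b).1 (hZ h)
    obtain ⟨J, hJ⟩ := hD.exist Z.edgeSet hZT (MaxD_even Z hev)
    refine ⟨(Finset.univ.filter fun j => j ∈ J).image tri, ?_, ?_⟩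
    · intro t ht
      obtain ⟨j, -, rfl⟩ := Finset.mem_image.1 ht
      exact hjF j
    · intro a b hab
      have hsub : (Finset.univ.filter fun j => j ∈ J).image tri ⊆ F := by
        intro t ht
        obtain ⟨j, -, rfl⟩ := Finset.mem_image.1 ht
        exact hjF j
      have hin : ∀ j, tri j ∈ (Finset.univ.filter fun j => j ∈ J).image tri ↔ j ∈ J := by
        intro j
        rw [Finset.mem_image]
        constructor
        · rintro ⟨i, hi, hij⟩
          rw [← hinj hij]
          exact (Finset.mem_filter.1 hi).2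
        · intro hj
          exact ⟨j, Finset.mem_filter.2 ⟨Finset.mem_univ j, hj⟩, rfl⟩
      rw [hcn _ hsub a b hab]
      simp only [hin]
      have h1 : Z.Adj a b ↔ s(a, b) ∈ cut T l r J := by
        rw [hJ]
        rfl
      rw [h1]
      by_cases hT : T.Adj a b
      · rw [if_pos hT]
        have h2 : s(a, b) ∈ cut T l r J ↔ ¬ (l s(a, b) ∈ J ↔ r s(a, b) ∈ J) :=
          ⟨fun h => h.2, fun h => ⟨hT, h⟩⟩
        rw [h2]
        by_cases h5 : l s(a, b) ∈ J <;> by_cases h6 : r s(a, b) ∈ J
        · simp only [h5, h6, if_true, iff_self, not_true_eq_false, iff_false]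
          decide
        · simp [h5, h6]
        · simp [h5, h6]
        · simp only [h5, h6, if_false, iff_self, not_true_eq_false, iff_false]
          decide
      · rw [if_neg hT]
        have h2 : s(a, b) ∉ cut T l r J := fun h => hT h.1
        simp only [h2, iff_false]
        decide
  · rintro v ⟨w, hw⟩
    exact (adj_supp ((hadj v w).2 hw)).1

end Pool.Agent.Lib.MP_a33b01_co
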