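import Mathlib
import Pool.Agent.Lib.MP_9d6bd1_lc.RTwo
import Pool.Agent.Lib.MP_a33b01_co.MaxA
import Pool.Agent.Lib.MP_a33b01_co.MaxB
import Pool.Agent.Lib.MP_a33b01_co.MaxC
import Pool.Agent.Lib.MP_a33b01_co.MaxD

set_option autoImplicit false

/-!
# MP_a33b01_co: every planar graph is part of a triangulation of the sphere
-/

namespace Pool.Agent.Lib.MP_a33b01_co

open Classical Pool.Agent.MP9d6bd1

theorem exists_sph {V : Type} [Finite V] (G : SimpleGraph V) (hG : Planar G)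
    (h4 : 4 ≤ Nat.card V) :
    ∃ F : Finset (Finset V), Sph F ∧ G ≤ sk F ∧ ∀ v, v ∈ supp F := by
  have hfin : {T : SimpleGraph V | HasDual T}.Finite := Set.toFinite _
  obtain ⟨T, hGT, hTmax⟩ := hfin.exists_le_maximal (a := G) (wagner G hG)
  have hT : HasDual T := hTmax.1
  have hmax : ∀ x y, x ≠ y → ¬ T.Adj x y → ¬ HasDual (T ⊔ SimpleGraph.edge x y) := by
    intro x y hxy hn hd
    apply hn
    have h1 : T ⊔ SimpleGraph.edge x y ≤ T := hTmax.2 hd le_sup_left
    apply h1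
    rw [SimpleGraph.sup_adj, SimpleGraph.edge_adj]
    exact Or.inr ⟨Or.inl ⟨rfl, rfl⟩, hxy⟩
  obtain ⟨h2, hsupp⟩ := max_twoConn T hT hmax (by omega)
  obtain ⟨ι, l, r, hι, -, hD⟩ := hT
  obtain ⟨hlr, hne, hmin, hdeg, -⟩ := dual_two T l r hD h2
  have htri := face_triangle T l r hD hlr hne hmin hdeg (by
    intro j x w y hxw hwy hxy
    by_contra hn
    exact hmax x y hxy hn (dual_split T l r hD hlr j x w y hxw hwy hxy hn))
  obtain ⟨F, hF, hadj, hmem⟩ := sph_of_dual T l r hD hlr htri (by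
    rw [hsupp, Set.ncard_univ]
    exact h4)
  refine ⟨F, hF, fun x y h => (hadj x y).2 (hGT h), fun v => hmem v ?_⟩
  rw [hsupp]
  exact Set.mem_univ v

end Pool.Agent.Lib.MP_a33b01_co
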