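import Mathlib
import Pool.Agent.Lib.MP_a33b01_co.Main
import Pool.Agent.Lib.MP_a33b01_co.MaxE
import Pool.Agent.Lib.MP_a33b01_co.GameFin

set_option autoImplicit false

/-!
# MP_a33b01_co: the theorem for planar graphs and functions which are at least four
-/

namespace Pool.Agent.Lib.MP_a33b01_co

open Classical Pool.Agent.MP9d6bd1

/-- The total gain for a planar graph from the function `4`. -/
theorem wg_planar {V : Type} [Fintype V] (G : SimpleGraph V) (hG : Planar G) :
    ∃ X, Wg G Finset.univ (fun _ => 4) X ∧ Fintype.card V ≤ 13 * X := by
  by_cases h4 : Fintype.card V ≤ 4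
  · refine ⟨Fintype.card V, ?_, by omega⟩
    have := wg_small (G := G) (S := Finset.univ) (f := fun _ => 4) (fun u _ => by
      rw [Finset.card_univ]; exact h4)
    rwa [Finset.card_univ] at this
  obtain ⟨F, hF, hGF, hs⟩ := exists_sph G hG (by rw [Nat.card_eq_fintype_card]; omega)
  have hne : (Finset.univ : Finset V).Nonempty := by
    rw [← Finset.card_pos, Finset.card_univ]
    omega
  obtain ⟨v, -⟩ := hne
  obtain ⟨t, ht, -⟩ := mem_supp.mp (hs v)
  obtain ⟨o, p, q, hop, hoq, hpq, rfl⟩ := Finset.card_eq_three.mp (hF.card t ht)
  have h1 := (face_adj hF ht)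
  have st : St F o p q q ∅ :=
    { sph := hF, op := h1.1, om := h1.2.2, oq := h1.2.2, pm := h1.2.1, mq := Or.inl rfl,
      pq := hpq, Ao := by simp, AD := by simp, ind := by simp, exc := by simp }
  obtain ⟨X, hX, hb⟩ := concl_all st
  have hsupp : supp F = Finset.univ := by
    ext v
    simp [hs v]
  have hDD : DD o p q q = ({o, p, q} : Finset V) := by
    ext u
    simp [DD]
  -- first the vertices `o, p, q`
  set S : Finset V := SS F o p q q with hS
  have hSe : ((Finset.univ.erase o).erase p).erase q = S := by
    ext u
    rw [hS, mem_SS, mem_DD]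
    simp only [Finset.mem_erase, Finset.mem_univ, hs u, true_and, and_true]
    tauto
  have hX' : Wg G S (fv F ∅ (DD o p q q)) X :=
    wg_mono (fun u _ => le_refl _) (fun u _ v _ h => hGF h) hX
  refine ⟨X + 4, ?_, ?_⟩
  · have hq' : q ∈ (Finset.univ.erase o).erase p := by
      simp [hpq.symm, hoq.symm]
    have hp' : p ∈ (Finset.univ.erase o : Finset V) := by
      simp [hop.symm]
    have s3 : Wg G ((Finset.univ.erase o).erase p) (fun u => 4 -
        (({o, p} : Finset V).filter fun d => G.Adj u d).card) X := by
      refine wg_le (wg_del (g := fv F ∅ (DD o p q q)) hq' ?_ ?_ (by rw [hSe]; exact hX'))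
        (Nat.le_add_right _ _)
      · intro u _ _
        have : (({o, p} : Finset V).filter fun d => G.Adj u d).card ≤ 2 :=
          (Finset.card_filter_le _ _).trans Finset.card_le_two
        omega
      · intro u hu
        have h5 : (({o, p, q} : Finset V).filter fun d => G.Adj u d).card ≤
            ld F ∅ (DD o p q q) u := by
          rw [hDD, ld]
          refine le_trans (Finset.card_le_card ?_) (Nat.le_add_left _ _)
          intro d hd
          rw [Finset.mem_filter] at hd ⊢
          exact ⟨hd.1, hGF hd.2⟩
        have h6 : (({o, p, q} : Finset V).filter fun d => G.Adj u d).card =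
            (({o, p} : Finset V).filter fun d => G.Adj u d).card +
              if G.Adj q u then 1 else 0 := by
          have : ({o, p, q} : Finset V) = insert q {o, p} := by
            ext x
            simp only [Finset.mem_insert, Finset.mem_singleton]
            tauto
          rw [this, Finset.filter_insert]
          by_cases h7 : G.Adj u q
          · rw [if_pos h7, if_pos h7.symm, Finset.card_insert_of_notMem]
            simp [hoq.symm, hpq.symm]
          · rw [if_neg h7, if_neg (fun h => h7 h.symm), add_zero]
        unfold fv
        split_ifs at h6 ⊢ <;> omega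
    have s2 : Wg G (Finset.univ.erase o) (fun u => 4 -
        (({o} : Finset V).filter fun d => G.Adj u d).card) X := by
      refine wg_le (wg_del hp' ?_ ?_ s3) (Nat.le_add_right _ _)
      · intro u _ _
        have : (({o} : Finset V).filter fun d => G.Adj u d).card ≤ 1 :=
          (Finset.card_filter_le _ _).trans (Finset.card_singleton o).le
        omega
      · intro u hu
        have h6 : (({o, p} : Finset V).filter fun d => G.Adj u d).card =
            (({o} : Finset V).filter fun d => G.Adj u d).card +
              if G.Adj p u then 1 else 0 := by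
          have : ({o, p} : Finset V) = insert p {o} := by
            ext x
            simp only [Finset.mem_insert, Finset.mem_singleton]
            tauto
          rw [this, Finset.filter_insert]
          by_cases h7 : G.Adj u p
          · rw [if_pos h7, if_pos h7.symm, Finset.card_insert_of_notMem]
            simp [hop.symm]
          · rw [if_neg h7, if_neg (fun h => h7 h.symm), add_zero]
        split_ifs at h6 ⊢ <;> omega
    have s1 : Wg G Finset.univ (fun _ => 4) (X + 4) := by
      refine wg_del (f := fun _ => 4) (Finset.mem_univ o) (fun _ _ _ => by norm_num) ?_ s2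
      intro u _
      rw [Finset.filter_singleton]
      by_cases h7 : G.Adj u o
      · rw [if_pos h7, if_pos h7.symm]
        simp
      · rw [if_neg h7, if_neg (fun h => h7 h.symm)]
        simp
    exact s1
  · have hc : S.card + 3 = Fintype.card V := by
      have h3 : (DD o p q q).card = 3 := by
        rw [hDD]
        exact Finset.card_eq_three.mpr ⟨o, p, q, hop, hoq, hpq, rfl⟩
      have : S.card = (supp F).card - (DD o p q q).card := by
        rw [hS, SS]
        apply Finset.card_sdiff_of_subset
        rw [hsupp]
        exact Finset.subset_univ _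
      rw [this, hsupp, Finset.card_univ, h3]
      omega
    have hk : kp q q = 0 := by simp [kp]
    rw [hk] at hb
    simp only [Finset.card_empty] at hb
    omega

/-- There is a constant `c > 1` such that all vertices of every planar graph can be removed legally
from every `f ≥ 4` with average availability at least `c`. -/
theorem planar_four : ∃ c : ℝ, 1 < c ∧ ∀ (V : Type) [Fintype V] (G : SimpleGraph V), Planar G →
    ∀ f : V → ℕ, (∀ v, 4 ≤ f v) → ∃ L : List ℕ, Removes G Finset.univ f L ∧
      c ^ Fintype.card V ≤ ((L.prod : ℕ) : ℝ) := by
  refine ⟨2 ^ ((1 : ℝ) / 52), Real.one_lt_rpow (by norm_num) (by norm_num), ?_⟩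
  intro V _ G hG f hf
  obtain ⟨X, hX, hc⟩ := wg_planar G hG
  obtain ⟨L, hL, hp⟩ := removes_prod hX (fun u _ => le_refl _) (fun u _ => hf u)
  refine ⟨L, hL, le_trans ?_ hp⟩
  rw [← Real.rpow_natCast, ← Real.rpow_mul (by norm_num)]
  apply Real.rpow_le_rpow_of_exponent_le (by norm_num)
  have : (Fintype.card V : ℝ) ≤ 13 * X := by exact_mod_cast hc
  linarith

end Pool.Agent.Lib.MP_a33b01_co
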