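import Mathlib
import Pool.Agent.Lib.MP_a33b01_co.Final

set_option autoImplicit false

/-!
# MP_a33b01_co: the theorem for a set of vertices, with one vertex of value three
-/

namespace Pool.Agent.Lib.MP_a33b01_co

open Classical Pool.Agent.MP9d6bd1

private theorem ExtA_map {W V : Type} (φ : W ↪ V) {G : SimpleGraph V} {S : Finset W}
    {g : W → ℕ} {L : List ℕ} (h : Removes (G.comap φ) S g L) :
    ∀ f : V → ℕ, (∀ w, f (φ w) = g w) → Removes G (S.map φ) f L := by
  induction h with
  | nil g =>
    intro f _
    rw [Finset.map_empty]
    exact Removes.nil f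
  | del S g v L hv hl _ ih =>
    intro f hf
    rw [← hf v]
    refine Removes.del (S.map φ) f (φ v) L (Finset.mem_map_of_mem φ hv) (fun u hu huv => ?_) ?_
    · obtain ⟨w, hw, rfl⟩ := Finset.mem_map.1 hu
      rw [hf w]
      exact hl w hw huv
    · rw [← Finset.map_erase]
      refine ih _ (fun w => ?_)
      simp only [hf, SimpleGraph.comap_adj]
  | save S g v w L hv hw hvw hgw hl _ ih =>
    intro f hf
    rw [← hf v, ← hf w]
    refine Removes.save (S.map φ) f (φ v) (φ w) L (Finset.mem_map_of_mem φ hv)
      (Finset.mem_map_of_mem φ hw) hvw (by rw [hf, hf]; exact hgw) (fun u hu huv huw => ?_) ?_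
    · obtain ⟨y, hy, rfl⟩ := Finset.mem_map.1 hu
      rw [hf y]
      exact hl y hy huv (fun h => huw (by rw [h]))
    · rw [← Finset.map_erase]
      refine ih _ (fun y => ?_)
      simp only [hf, SimpleGraph.comap_adj, ne_eq, φ.injective.eq_iff]

theorem wg_map {W V : Type} (φ : W ↪ V) {G : SimpleGraph V} {S : Finset W} {f : V → ℕ} {X : ℕ}
    (h : Wg (G.comap φ) S (fun w => f (φ w)) X) : Wg G (S.map φ) f X := by
  obtain ⟨L, h1, h2⟩ := h
  exact ⟨L, ExtA_map φ h1 f (fun _ => rfl), h2⟩

/-- As `wg_planar`, but one vertex `x` has only the value three. -/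
theorem wg_planar_at {V : Type} [Fintype V] (G : SimpleGraph V) (hG : Planar G) (x : V) :
    ∃ X, Wg G Finset.univ (fun u => if u = x then 3 else 4) X ∧ Fintype.card V ≤ 13 * X := by
  by_cases h4 : Fintype.card V ≤ 4
  · have hc : (Finset.univ.erase x : Finset V).card + 1 = Fintype.card V := by
      rw [Finset.card_erase_add_one (Finset.mem_univ x), Finset.card_univ]
    have h1 : Wg G (Finset.univ.erase x) (fun _ => 3) (Finset.univ.erase x : Finset V).card :=
      wg_small (fun u _ => by omega)
    have h2 := wg_del (G := G) (f := fun u => if u = x then 3 else 4) (Finset.mem_univ x)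
      (fun u _ _ => by split_ifs <;> omega) (fun u hu => by
        have hux : u ≠ x := Finset.ne_of_mem_erase hu
        show 3 ≤ if G.Adj x u then (if u = x then 3 else 4) - 1 else (if u = x then 3 else 4)
        rw [if_neg hux]
        split_ifs <;> omega) h1
    exact ⟨_, h2, by rw [if_pos rfl]; omega⟩
  obtain ⟨F, hF, hGF, hs⟩ := exists_sph G hG (by rw [Nat.card_eq_fintype_card]; omega)
  obtain ⟨t, ht, hxt⟩ := mem_supp.mp (hs x)
  obtain ⟨p, hpt, hpx⟩ : ∃ p ∈ t, p ≠ x := by
    by_contra h
    push Not at h
    have h1 : t ⊆ {x} := fun y hy => by simp [h y hy]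
    have h2 := Finset.card_le_card h1
    rw [hF.card t ht, Finset.card_singleton] at h2
    omega
  obtain ⟨q, rfl, hqx, hqp⟩ := face_third hF ht hxt hpt hpx.symm
  have hxp : x ≠ p := hpx.symm
  have hxq : x ≠ q := hqx.symm
  have hpq : p ≠ q := hqp.symm
  have h1 := (face_adj hF ht)
  have st : St F x p q q ∅ :=
    { sph := hF, op := h1.1, om := h1.2.2, oq := h1.2.2, pm := h1.2.1, mq := Or.inl rfl,
      pq := hpq, Ao := by simp, AD := by simp, ind := by simp, exc := by simp }
  obtain ⟨X, hX, hb⟩ := concl_all st
  have hsupp : supp F = Finset.univ := by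
    ext v
    simp [hs v]
  have hDD : DD x p q q = ({x, p, q} : Finset V) := by
    ext u
    simp [DD]
  -- first the vertices `x, p, q`
  set S : Finset V := SS F x p q q with hS
  have hSe : ((Finset.univ.erase x).erase p).erase q = S := by
    ext u
    rw [hS, mem_SS, mem_DD]
    simp only [Finset.mem_erase, Finset.mem_univ, hs u, true_and, and_true]
    tauto
  have hX' : Wg G S (fv F ∅ (DD x p q q)) X :=
    wg_mono (fun u _ => le_refl _) (fun u _ v _ h => hGF h) hX
  refine ⟨X + 3, ?_, ?_⟩
  · have hq' : q ∈ (Finset.univ.erase x).erase p := by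
      simp [hpq.symm, hxq.symm]
    have hp' : p ∈ (Finset.univ.erase x : Finset V) := by
      simp [hxp.symm]
    have s3 : Wg G ((Finset.univ.erase x).erase p) (fun u => 4 -
        (({x, p} : Finset V).filter fun d => G.Adj u d).card) X := by
      refine wg_le (wg_del (g := fv F ∅ (DD x p q q)) hq' ?_ ?_ (by rw [hSe]; exact hX'))
        (Nat.le_add_right _ _)
      · intro u _ _
        have : (({x, p} : Finset V).filter fun d => G.Adj u d).card ≤ 2 :=
          (Finset.card_filter_le _ _).trans Finset.card_le_two
        omega
      · intro u hu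
        have h5 : (({x, p, q} : Finset V).filter fun d => G.Adj u d).card ≤
            ld F ∅ (DD x p q q) u := by
          rw [hDD, ld]
          refine le_trans (Finset.card_le_card ?_) (Nat.le_add_left _ _)
          intro d hd
          rw [Finset.mem_filter] at hd ⊢
          exact ⟨hd.1, hGF hd.2⟩
        have h6 : (({x, p, q} : Finset V).filter fun d => G.Adj u d).card =
            (({x, p} : Finset V).filter fun d => G.Adj u d).card +
              if G.Adj q u then 1 else 0 := by
          have : ({x, p, q} : Finset V) = insert q {x, p} := by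
            ext y
            simp only [Finset.mem_insert, Finset.mem_singleton]
            tauto
          rw [this, Finset.filter_insert]
          by_cases h7 : G.Adj u q
          · rw [if_pos h7, if_pos h7.symm, Finset.card_insert_of_notMem]
            simp [hxq.symm, hpq.symm]
          · rw [if_neg h7, if_neg (fun h => h7 h.symm), add_zero]
        unfold fv
        split_ifs at h6 ⊢ <;> omega
    have s2 : Wg G (Finset.univ.erase x) (fun u => 4 -
        (({x} : Finset V).filter fun d => G.Adj u d).card) X := by
      refine wg_le (wg_del hp' ?_ ?_ s3) (Nat.le_add_right _ _)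
      · intro u _ _
        have : (({x} : Finset V).filter fun d => G.Adj u d).card ≤ 1 :=
          (Finset.card_filter_le _ _).trans (Finset.card_singleton x).le
        omega
      · intro u hu
        have h6 : (({x, p} : Finset V).filter fun d => G.Adj u d).card =
            (({x} : Finset V).filter fun d => G.Adj u d).card +
              if G.Adj p u then 1 else 0 := by
          have : ({x, p} : Finset V) = insert p {x} := by
            ext y
            simp only [Finset.mem_insert, Finset.mem_singleton]
            tauto
          rw [this, Finset.filter_insert]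
          by_cases h7 : G.Adj u p
          · rw [if_pos h7, if_pos h7.symm, Finset.card_insert_of_notMem]
            simp [hxp.symm]
          · rw [if_neg h7, if_neg (fun h => h7 h.symm), add_zero]
        split_ifs at h6 ⊢ <;> omega
    have s1 := wg_del (G := G) (f := fun u => if u = x then 3 else 4) (Finset.mem_univ x)
      (fun u _ _ => by split_ifs <;> omega) (fun u hu => by
        have hux : u ≠ x := Finset.ne_of_mem_erase hu
        show 4 - (({x} : Finset V).filter fun d => G.Adj u d).card ≤
          if G.Adj x u then (if u = x then 3 else 4) - 1 else (if u = x then 3 else 4)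
        rw [if_neg hux, Finset.filter_singleton]
        by_cases h7 : G.Adj u x
        · rw [if_pos h7, if_pos h7.symm]
          simp
        · rw [if_neg h7, if_neg (fun h => h7 h.symm)]
          simp) s2
    rw [if_pos rfl] at s1
    exact s1
  · have hc : S.card + 3 = Fintype.card V := by
      have h3 : (DD x p q q).card = 3 := by
        rw [hDD]
        exact Finset.card_eq_three.mpr ⟨x, p, q, hxp, hxq, hpq, rfl⟩
      have : S.card = (supp F).card - (DD x p q q).card := by
        rw [hS, SS]
        apply Finset.card_sdiff_of_subset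
        rw [hsupp]
        exact Finset.subset_univ _
      rw [this, hsupp, Finset.card_univ, h3]
      omega
    have hk : kp q q = 0 := by simp [kp]
    rw [hk] at hb
    simp only [Finset.card_empty] at hb
    omega

theorem wg_planar_on {V : Type} (G : SimpleGraph V) (hG : Planar G) (K : Finset V) {x : V}
    (hx : x ∈ K) :
    ∃ X, Wg G K (fun u => if u = x then 3 else 4) X ∧ K.card ≤ 13 * X := by
  set φ : {v // v ∈ K} ↪ V := Function.Embedding.subtype (· ∈ K) with hφ
  have hP : Planar (G.comap φ) := by
    rw [← planar_embed (G.comap φ) φ]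
    exact planar_mono (SimpleGraph.map_comap_le φ G) hG
  obtain ⟨X, h1, h2⟩ := wg_planar_at (G.comap φ) hP (⟨x, hx⟩ : {v // v ∈ K})
  refine ⟨X, ?_, ?_⟩
  · have h3 : Wg G (Finset.univ.map φ) (fun u => if u = x then 3 else 4) X := by
      refine wg_map φ ?_
      refine wg_mono (fun u _ => ?_) (fun _ _ _ _ h => h) h1
      have h4 : (φ u = x) ↔ (u = (⟨x, hx⟩ : {v // v ∈ K})) := by
        rw [Subtype.ext_iff]
        rfl
      by_cases h6 : u = (⟨x, hx⟩ : {v // v ∈ K})
      · rw [if_pos h6, if_pos (h4.2 h6)]
      · rw [if_neg h6, if_neg (fun h => h6 (h4.1 h))]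
    have h5 : (Finset.univ.map φ : Finset V) = K := by
      ext y
      simp [hφ]
    rwa [h5] at h3
  · rwa [Fintype.card_coe] at h2

end Pool.Agent.Lib.MP_a33b01_co
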