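import Mathlib
import Pool.Agent.Lib.MP_a33b01_co.Defs

set_option autoImplicit false

/-!
# MP_a33b01_co: vertices on no cycle
-/

namespace Pool.Agent.Lib.MP_a33b01_co

open Classical

variable {V : Type}

/-- `a` and `b` are joined by a walk in `S`. -/
def Rs (G : SimpleGraph V) (S : Finset V) (a b : V) : Prop :=
  Relation.ReflTransGen (fun x y => G.Adj x y ∧ x ∈ S ∧ y ∈ S) a b

/-- A walk in `S` does not use the edge `e` if no pair of vertices of `S` is `e`. -/
theorem ExtB_rs {G : SimpleGraph V} {S : Finset V} {a b : V} {e : Sym2 V} (h : Rs G S a b)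
    (he : ∀ x ∈ S, ∀ y ∈ S, s(x, y) ≠ e) : (G.deleteEdges {e}).Reachable a b := by
  induction h with
  | refl => exact SimpleGraph.Reachable.refl a
  | tail _ hxy ih =>
    refine ih.trans (SimpleGraph.Adj.reachable ?_)
    rw [SimpleGraph.deleteEdges_adj]
    exact ⟨hxy.1, fun hmem => he _ hxy.2.1 _ hxy.2.2 (Set.mem_singleton_iff.1 hmem)⟩

/-- An edge at a vertex on no cycle is a bridge. -/
theorem not_reach {G : SimpleGraph V} {u k : V} (hu : ¬ ∃ p : G.Walk u u, p.IsCycle)
    (h : G.Adj u k) : ¬ (G.deleteEdges {s(u, k)}).Reachable u k := by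
  rw [← SimpleGraph.isBridge_iff, SimpleGraph.isBridge_iff_forall_cycle_notMem
    ((SimpleGraph.mem_edgeSet G).2 h)]
  intro w p hp hmem
  have hsup : u ∈ p.support := p.fst_mem_support_of_mem_edges hmem
  exact hu ⟨p.rotate u hsup, SimpleGraph.Walk.IsCycle.rotate hsup hp⟩

/-- Two neighbours of a vertex on no cycle are not joined in the rest. -/
theorem nbrs_sep {G : SimpleGraph V} {x u u' : V} {S : Finset V}
    (hx : ¬ ∃ p : G.Walk x x, p.IsCycle) (hu : G.Adj x u) (hu' : G.Adj x u') (hne : u ≠ u')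
    (hxS : x ∉ S) : ¬ Rs G S u u' := by
  intro h
  apply not_reach hx hu
  have h1 : (G.deleteEdges {s(x, u)}).Reachable u u' := by
    refine ExtB_rs h fun a ha b hb hab => ?_
    rw [Sym2.eq_iff] at hab
    rcases hab with ⟨rfl, _⟩ | ⟨_, rfl⟩
    · exact hxS ha
    · exact hxS hb
  have h2 : (G.deleteEdges {s(x, u)}).Adj x u' := by
    rw [SimpleGraph.deleteEdges_adj]
    refine ⟨hu', fun hmem => ?_⟩
    rw [Set.mem_singleton_iff, Sym2.eq_iff] at hmem
    rcases hmem with ⟨_, h3⟩ | ⟨h3, _⟩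
    · exact hne h3.symm
    · exact hu.ne h3
  exact h2.reachable.trans h1.symm

/-- If `K` is connected, `u` is on no cycle and not in `K`, then `u` has at most one neighbour
in `K`. -/
theorem nbr_unique {G : SimpleGraph V} {u k k' : V} {K : Finset V}
    (hu : ¬ ∃ p : G.Walk u u, p.IsCycle) (hK : ∀ a ∈ K, ∀ b ∈ K, Rs G K a b) (huK : u ∉ K)
    (hk : k ∈ K) (hk' : k' ∈ K) (h : G.Adj u k) (h' : G.Adj u k') : k = k' := by
  by_contra hne
  exact nbrs_sep hu h h' hne huK (hK k hk k' hk')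

/-- If `K` is connected and disjoint from `S`, then two vertices of `S` on no cycle with
neighbours in `K` are not joined in `S`. -/
theorem sep_of_conn {G : SimpleGraph V} {u u' k k' : V} {K S : Finset V}
    (hu : ¬ ∃ p : G.Walk u u, p.IsCycle) (hK : ∀ a ∈ K, ∀ b ∈ K, Rs G K a b)
    (hd : Disjoint K S) (huS : u ∈ S) (huS' : u' ∈ S) (hne : u ≠ u')
    (hk : k ∈ K) (hk' : k' ∈ K) (h : G.Adj u k) (h' : G.Adj u' k') : ¬ Rs G S u u' := by
  intro hS
  have hKS : ∀ a ∈ K, a ∉ S := fun a ha hb => Finset.disjoint_left.1 hd ha hb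
  apply not_reach hu h
  have h1 : (G.deleteEdges {s(u, k)}).Reachable u u' := by
    refine ExtB_rs hS fun a ha b hb hab => ?_
    rw [Sym2.eq_iff] at hab
    rcases hab with ⟨_, rfl⟩ | ⟨rfl, _⟩
    · exact hKS _ hk hb
    · exact hKS _ hk ha
  have h2 : (G.deleteEdges {s(u, k)}).Reachable k' k := by
    refine ExtB_rs (hK k' hk' k hk) fun a ha b hb hab => ?_
    rw [Sym2.eq_iff] at hab
    rcases hab with ⟨rfl, _⟩ | ⟨_, rfl⟩
    · exact hKS _ ha huS
    · exact hKS _ hb huS
  have h3 : (G.deleteEdges {s(u, k)}).Adj u' k' := by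
    rw [SimpleGraph.deleteEdges_adj]
    refine ⟨h', fun hmem => ?_⟩
    rw [Set.mem_singleton_iff, Sym2.eq_iff] at hmem
    rcases hmem with ⟨h4, _⟩ | ⟨h4, _⟩
    · exact hne h4.symm
    · exact hKS k hk (h4 ▸ huS')
  exact h1.trans (h3.reachable.trans h2)

end Pool.Agent.Lib.MP_a33b01_co
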