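import Mathlib
import Pool.Agent.Lib.MP_a33b01_co.ExtA
import Pool.Agent.Lib.MP_a33b01_co.ExtB

set_option autoImplicit false

/-!
# MP_a33b01_co: vertices on no cycle with the value two
-/

namespace Pool.Agent.Lib.MP_a33b01_co

open Classical Pool.Agent.MP9d6bd1

/-- The value that is needed: four on a cycle, two otherwise. -/
noncomputable def bs {V : Type} (G : SimpleGraph V) (v : V) : ℕ :=
  if ∃ p : G.Walk v v, p.IsCycle then 4 else 2

theorem ExtC_mono {V : Type} {G : SimpleGraph V} {S T : Finset V} (hST : S ⊆ T) {a b : V}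
    (h : Rs G S a b) : Rs G T a b := by
  unfold Rs at h
  induction h with
  | refl => exact Relation.ReflTransGen.refl
  | tail _ hbc ih => exact Relation.ReflTransGen.tail ih ⟨hbc.1, hST hbc.2.1, hST hbc.2.2⟩

theorem ExtC_symm {V : Type} {G : SimpleGraph V} {S : Finset V} {a b : V}
    (h : Rs G S a b) : Rs G S b a := by
  unfold Rs at h
  induction h with
  | refl => exact Relation.ReflTransGen.refl
  | tail _ hbc ih => exact Relation.ReflTransGen.head ⟨hbc.1.symm, hbc.2.2, hbc.2.1⟩ ih

theorem ExtC_two_le {V : Type} (G : SimpleGraph V) (v : V) : 2 ≤ bs G v := by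
  unfold bs
  split_ifs <;> norm_num

/-- The component of `x` in `T` is connected. -/
theorem ExtC_comp {V : Type} {G : SimpleGraph V} {T : Finset V} {x : V} :
    ∀ a ∈ T.filter (fun w => Rs G T x w), ∀ b ∈ T.filter (fun w => Rs G T x w),
      Rs G (T.filter fun w => Rs G T x w) a b := by
  have key : ∀ w, Rs G T x w → Rs G (T.filter fun w => Rs G T x w) x w := by
    intro w hw
    unfold Rs at hw
    induction hw with
    | refl => exact Relation.ReflTransGen.refl
    | @tail b c hb hbc ih =>
      have hb' : Rs G T x b := hb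
      have hc' : Rs G T x c := hb.tail hbc
      exact Relation.ReflTransGen.tail ih ⟨hbc.1, Finset.mem_filter.2 ⟨hbc.2.1, hb'⟩,
        Finset.mem_filter.2 ⟨hbc.2.2, hc'⟩⟩
  intro a ha b hb
  rw [Finset.mem_filter] at ha hb
  exact Relation.ReflTransGen.trans (ExtC_symm (key a ha.2)) (key b hb.2)

/-- Every component of `G[S]` may contain one vertex of `N` whose value is one less. -/
theorem wg_ext {V : Type} (G : SimpleGraph V) (hG : Planar G) (n : ℕ) :
    ∀ (S N : Finset V) (f : V → ℕ), S.card = n →
      (∀ u ∈ N, ∀ u' ∈ N, u ∈ S → u' ∈ S → u ≠ u' → ¬ Rs G S u u') →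
      (∀ v ∈ S, bs G v ≤ f v + if v ∈ N then 1 else 0) →
      ∃ X, Wg G S f X ∧ S.card ≤ 13 * X := by
  induction n using Nat.strong_induction_on with
  | _ n ih =>
  intro S N f hS hN hf
  rcases S.eq_empty_or_nonempty with rfl | hne
  · exact ⟨0, wg_nil G f, by simp⟩
  by_cases hcon : ∃ u₀ ∈ S, ∃ v₀ ∈ S, ¬ Rs G S u₀ v₀
  · -- two components
    obtain ⟨u₀, hu₀, v₀, hv₀, hnot⟩ := hcon
    set S₁ := S.filter fun w => Rs G S u₀ w with hS₁
    set S₂ := S.filter fun w => ¬ Rs G S u₀ w with hS₂
    have hu₁ : u₀ ∈ S₁ := Finset.mem_filter.2 ⟨hu₀, Relation.ReflTransGen.refl⟩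
    have hv₂ : v₀ ∈ S₂ := Finset.mem_filter.2 ⟨hv₀, hnot⟩
    have hcard : S₁.card + S₂.card = S.card := Finset.card_filter_add_card_filter_not _
    have hun : S₁ ∪ S₂ = S := Finset.filter_union_filter_not_eq _ _
    have hdis : Disjoint S₁ S₂ := Finset.disjoint_filter_filter_not _ _ _
    have hc1 : 0 < S₁.card := Finset.card_pos.2 ⟨u₀, hu₁⟩
    have hc2 : 0 < S₂.card := Finset.card_pos.2 ⟨v₀, hv₂⟩
    have hs1 : S₁ ⊆ S := Finset.filter_subset _ _
    have hs2 : S₂ ⊆ S := Finset.filter_subset _ _
    obtain ⟨X₁, hX₁, hb₁⟩ := ih S₁.card (by omega) S₁ N f rfl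
      (fun u hu u' hu' h1 h2 hne' h3 => hN u hu u' hu' (hs1 h1) (hs1 h2) hne'
        (ExtC_mono hs1 h3)) (fun v hv => hf v (hs1 hv))
    obtain ⟨X₂, hX₂, hb₂⟩ := ih S₂.card (by omega) S₂ N f rfl
      (fun u hu u' hu' h1 h2 hne' h3 => hN u hu u' hu' (hs2 h1) (hs2 h2) hne'
        (ExtC_mono hs2 h3)) (fun v hv => hf v (hs2 hv))
    refine ⟨X₁ + X₂, ?_, by omega⟩
    have hadj : ∀ u ∈ S₂, (S₁.filter fun v => G.Adj u v) = ∅ := by
      intro u hu
      rw [Finset.filter_eq_empty_iff]
      intro v hv huv
      rw [hS₁, Finset.mem_filter] at hv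
      rw [hS₂, Finset.mem_filter] at hu
      exact hu.2 (Relation.ReflTransGen.tail hv.2 ⟨huv.symm, hv.1, hu.1⟩)
    have := wg_comp (f := f) (g := f) hdis hX₁ (by
      intro u hu
      rw [hadj u hu]
      simp) hX₂
    rwa [hun] at this
  · -- connected
    push Not at hcon
    obtain ⟨x, hx, hxN⟩ : ∃ x ∈ S, ∀ u ∈ N, u ∈ S → u = x := by
      by_cases h1 : ∃ x ∈ S, x ∈ N
      · obtain ⟨x, hx, hxN⟩ := h1
        refine ⟨x, hx, fun u hu huS => ?_⟩
        by_contra hne'
        exact hN u hu x hxN huS hx hne' (hcon u huS x hx)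
      · push Not at h1
        obtain ⟨x, hx⟩ := hne
        exact ⟨x, hx, fun u hu huS => absurd hu (h1 u huS)⟩
    have hfN : ∀ u ∈ S, u ≠ x → bs G u ≤ f u := by
      intro u hu hux
      have h1 := hf u hu
      rw [if_neg (fun h => hux (hxN u h hu)), add_zero] at h1
      exact h1
    by_cases hxZ : ∃ p : G.Walk x x, p.IsCycle
    · -- on a cycle
      have hbx : bs G x = 4 := by
        unfold bs
        rw [if_pos hxZ]
      have hfx : 3 ≤ f x := by
        have h1 := hf x hx
        rw [hbx] at h1
        split_ifs at h1 <;> omega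
      set T := S.filter fun v => ∃ p : G.Walk v v, p.IsCycle with hT
      have hxT : x ∈ T := Finset.mem_filter.2 ⟨hx, hxZ⟩
      have hTS : T ⊆ S := Finset.filter_subset _ _
      set K := T.filter fun w => Rs G T x w with hK
      have hxK : x ∈ K := Finset.mem_filter.2 ⟨hxT, Relation.ReflTransGen.refl⟩
      have hKT : K ⊆ T := Finset.filter_subset _ _
      have hKS : K ⊆ S := hKT.trans hTS
      have hKc : ∀ a ∈ K, ∀ b ∈ K, Rs G K a b := ExtC_comp
      obtain ⟨X₁, hX₁, hb₁⟩ := wg_planar_on G hG K hxK
      have hX₁' : Wg G K f X₁ := by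
        refine wg_mono ?_ (fun _ _ _ _ h => h) hX₁
        intro u hu
        show (if u = x then 3 else 4) ≤ f u
        split_ifs with hux
        · rw [hux]
          exact hfx
        · have h1 := hfN u (hKS hu) hux
          have h2 : bs G u = 4 := by
            unfold bs
            rw [if_pos (Finset.mem_filter.1 (hKT hu)).2]
          omega
      -- the vertices with a neighbour in `K`
      have hZ : ∀ u ∈ S \ K, ∀ k ∈ K, G.Adj u k → ¬ ∃ p : G.Walk u u, p.IsCycle := by
        intro u hu k hk huk hcy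
        rw [Finset.mem_sdiff] at hu
        have huT : u ∈ T := Finset.mem_filter.2 ⟨hu.1, hcy⟩
        exact hu.2 (Finset.mem_filter.2 ⟨huT, Relation.ReflTransGen.tail
          (Finset.mem_filter.1 hk).2 ⟨huk.symm, hKT hk, huT⟩⟩)
      have hne' : ∀ u ∈ S \ K, u ≠ x := by
        intro u hu hux
        rw [Finset.mem_sdiff, hux] at hu
        exact hu.2 hxK
      have hone : ∀ u ∈ S \ K, (K.filter fun v => G.Adj u v).card ≤ 1 := by
        intro u hu
        rw [Finset.card_le_one]
        intro k hk k' hk'
        rw [Finset.mem_filter] at hk hk'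
        exact nbr_unique (hZ u hu k hk.1 hk.2) hKc (Finset.mem_sdiff.1 hu).2 hk.1 hk'.1 hk.2 hk'.2
      have hcard : (S \ K).card + K.card = S.card := Finset.card_sdiff_add_card_eq_card hKS
      have hKpos : 0 < K.card := Finset.card_pos.2 ⟨x, hxK⟩
      obtain ⟨X₂, hX₂, hb₂⟩ := ih (S \ K).card (by omega) (S \ K)
        ((S \ K).filter fun u => ∃ k ∈ K, G.Adj u k)
        (fun u => f u - (K.filter fun v => G.Adj u v).card) rfl (by
          intro u hu u' hu' h1 h2 hne2
          rw [Finset.mem_filter] at hu hu'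
          obtain ⟨k, hk, huk⟩ := hu.2
          obtain ⟨k', hk', huk'⟩ := hu'.2
          exact sep_of_conn (hZ u h1 k hk huk) hKc Finset.disjoint_sdiff h1 h2 hne2 hk hk' huk
            huk') (by
          intro v hv
          have h1 := hfN v (Finset.mem_sdiff.1 hv).1 (hne' v hv)
          have h2 := hone v hv
          have h3 := ExtC_two_le G v
          by_cases h4 : ∃ k ∈ K, G.Adj v k
          · rw [if_pos (Finset.mem_filter.2 ⟨hv, h4⟩)]
            omega
          · have h5 : (K.filter fun u => G.Adj v u) = ∅ := by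
              rw [Finset.filter_eq_empty_iff]
              intro k hk hvk
              exact h4 ⟨k, hk, hvk⟩
            have h6 : v ∉ (S \ K).filter fun u => ∃ k ∈ K, G.Adj u k :=
              fun h => h4 (Finset.mem_filter.1 h).2
            rw [if_neg h6, h5, Finset.card_empty]
            omega)
      refine ⟨X₁ + X₂, ?_, by omega⟩
      have := wg_comp (f := f) (g := fun u => f u - (K.filter fun v => G.Adj u v).card)
        Finset.disjoint_sdiff hX₁' (by
          intro u hu
          have h1 := hfN u (Finset.mem_sdiff.1 hu).1 (hne' u hu)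
          have h2 := hone u hu
          have h3 := ExtC_two_le G u
          show f u - (K.filter fun v => G.Adj u v).card + (K.filter fun v => G.Adj u v).card ≤ f u
          omega) hX₂
      rwa [Finset.union_sdiff_of_subset hKS] at this
    · -- on no cycle
      have hbx : bs G x = 2 := by
        unfold bs
        rw [if_neg hxZ]
      have hfx : 1 ≤ f x := by
        have h1 := hf x hx
        rw [hbx] at h1
        split_ifs at h1 <;> omega
      have hcard : (S.erase x).card + 1 = S.card := Finset.card_erase_add_one hx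
      obtain ⟨X, hX, hb⟩ := ih (S.erase x).card (by omega) (S.erase x)
        (S.filter fun u => G.Adj x u) (fun u => if G.Adj x u then f u - 1 else f u) rfl (by
          intro u hu u' hu' h1 h2 hne2
          rw [Finset.mem_filter] at hu hu'
          exact nbrs_sep hxZ hu.2 hu'.2 hne2 (Finset.notMem_erase x S)) (by
          intro v hv
          rw [Finset.mem_erase] at hv
          have h1 := hfN v hv.2 hv.1
          have h3 := ExtC_two_le G v
          show bs G v ≤ (if G.Adj x v then f v - 1 else f v) + _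
          by_cases h4 : G.Adj x v
          · rw [if_pos h4, if_pos (Finset.mem_filter.2 ⟨hv.2, h4⟩)]
            omega
          · rw [if_neg h4, if_neg (fun h => h4 (Finset.mem_filter.1 h).2)]
            omega)
      refine ⟨X + f x, ?_, by omega⟩
      refine wg_del hx ?_ (fun u _ => le_refl _) hX
      intro u hu hxu
      have h1 := hfN u hu hxu.ne.symm
      have h3 := ExtC_two_le G u
      omega

end Pool.Agent.Lib.MP_a33b01_co
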