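import Mathlib
import Pool.Agent.Lib.MP_a33b01_co.ExtC

set_option autoImplicit false

/-!
# MP_a33b01_co: planar graphs whose vertices are in triangles or on no cycles
-/

namespace Pool.Agent.Lib.MP_a33b01_co

open Classical Pool.Agent.MP9d6bd1

/-- There is a constant `c > 1` such that all vertices of every planar graph can be removed legally
with average availability at least `c` from every `f ≥ 2` which is at least four on all vertices
that are on a cycle. -/
theorem planar_main : ∃ c : ℝ, 1 < c ∧ ∀ (V : Type) [Fintype V] (G : SimpleGraph V), Planar G →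
    ∀ f : V → ℕ, (∀ v, 2 ≤ f v) → (∀ v, (∃ p : G.Walk v v, p.IsCycle) → 4 ≤ f v) →
      ∃ L : List ℕ, Removes G Finset.univ f L ∧ c ^ Fintype.card V ≤ ((L.prod : ℕ) : ℝ) := by
  refine ⟨2 ^ ((1 : ℝ) / 52), Real.one_lt_rpow (by norm_num) (by norm_num), ?_⟩
  intro V _ G hG f hf hc
  obtain ⟨X, hX, hcard⟩ := wg_ext G hG _ Finset.univ ∅ (bs G) rfl (by simp)
    (fun v _ => by simp)
  have h4 : ∀ u ∈ (Finset.univ : Finset V), bs G u ≤ 4 := by
    intro u _
    unfold bs
    split_ifs <;> norm_num
  have hle : ∀ u ∈ (Finset.univ : Finset V), bs G u ≤ f u := by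
    intro u _
    unfold bs
    split_ifs with h
    · exact hc u h
    · exact hf u
  obtain ⟨L, hL, hp⟩ := removes_prod hX h4 hle
  refine ⟨L, hL, le_trans ?_ hp⟩
  rw [← Real.rpow_natCast, ← Real.rpow_mul (by norm_num)]
  apply Real.rpow_le_rpow_of_exponent_le (by norm_num)
  rw [Finset.card_univ] at hcard
  have : (Fintype.card V : ℝ) ≤ 13 * X := by exact_mod_cast hcard
  linarith

end Pool.Agent.Lib.MP_a33b01_co
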